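import Pool.Agent.Work.MP_88b7aa_gt.CH.FrR

/-!
# The relation `(I I')^m = 1`.  Size: M.

PROOF.  Let `c = cos (π/m)`, `φ = 2π/m`, `R = refl n * refl n'`.
Characteristic polynomial: `det (refl n) = 1` (`refl n = 2 n nᴴJ - 1`, a rank one perturbation), `tr R = 4 |⟨n,n'⟩|² - 1 = 4c² - 1 =
1 + 2 cos φ`, and `tr (adj R) = tr (R⁻¹) = tr (refl n' * refl n) = tr R`, so `χ_R = X³ - τ X² + τ X - 1 = (X-1)(X² - 2 cos φ X + 1)` with
`τ = 1 + 2 cos φ`, and by Cayley–Hamilton (`Matrix.aeval_self_charpoly`) `R³ = τ R² - τ R + 1`.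
(This identity can also be verified directly from `R z = z - 2⟨z,n⟩n - 2⟨z,n'⟩n' + 4⟨z,n'⟩⟨n',n⟩n`.)
Since `m ≥ 3`, the numbers `1, e^{iφ}, e^{-iφ}` are distinct roots of `X^m - 1`, so `(X-1)(X² - 2cos φ X + 1) ∣ X^m - 1` in `ℂ[X]`, hence
`R^m = 1`.
Alternative without polynomials: `R^j = 1 + (sin (jφ)/sin φ) A + ((1 - cos (jφ))/(1 - cos φ)) B` with `A = (R - R⁻¹)/2`, `B = (R + R⁻¹)/2 - 1`
(Rodrigues formula), by induction on `j` from `R³ = τR² - τR + 1`; then take `j = m` (`sin (mφ) = 0`, `cos (mφ) = 1`).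
Alternative: `n, n'` unit, replace `n'` by a multiple so that `⟨n,n'⟩ = -c`; in the basis `n, m = (n'+cn)/s, v` the matrix is a rotation.
-/

namespace Pool.Agent.Work.MP_88b7aa_gt.CH

open ComplexConjugate Complex

/-- the covector `z ↦ ⟨z, n⟩` -/
def relW (n : Fin 3 → ℂ) : Fin 3 → ℂ := fun b => if b = 2 then -conj (n b) else conj (n b)

/-- `z ↦ 2 ⟨z, n⟩ n` -/
noncomputable def relP (n : Fin 3 → ℂ) : Matrix (Fin 3) (Fin 3) ℂ := (2 : ℂ) • Matrix.vecMulVec n (relW n)

theorem relW_dot (n z : Fin 3 → ℂ) : relW n ⬝ᵥ z = herm z n := by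
  unfold relW herm
  simp [dotProduct, Fin.sum_univ_three]
  ring

theorem refl_eq_relP (n : Fin 3 → ℂ) : refl n = relP n - 1 := by
  ext a b
  unfold refl relP relW
  rw [Matrix.sub_apply, Matrix.smul_apply, Matrix.vecMulVec_apply, Matrix.one_apply, smul_eq_mul]
  ring

theorem relP_mul (n n' : Fin 3 → ℂ) :
    relP n * relP n' = (4 * herm n' n) • Matrix.vecMulVec n (relW n') := by
  unfold relP
  rw [smul_mul_smul_comm, Matrix.vecMulVec_mul_vecMulVec, relW_dot, Matrix.vecMulVec_smul, smul_smul]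
  norm_num

theorem relP_sq (n : Fin 3 → ℂ) (hn : herm n n = 1) : relP n * relP n = (2 : ℂ) • relP n := by
  rw [relP_mul, hn, relP, smul_smul]
  norm_num

theorem relP_mul3 (n n' : Fin 3 → ℂ) :
    relP n * relP n' * relP n = (4 * (herm n' n * herm n n')) • relP n := by
  rw [relP_mul]
  unfold relP
  rw [smul_mul_smul_comm, Matrix.vecMulVec_mul_vecMulVec, relW_dot, Matrix.vecMulVec_smul, smul_smul,
    smul_smul]
  congr 1
  ring

theorem rel_cubic {A : Type*} [Ring A] [Algebra ℂ A] (a b : A) (g : ℂ) (haa : a * a = (2 : ℂ) • a)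
    (hbb : b * b = (2 : ℂ) • b) (haba : a * b * a = g • a) (hbab : b * a * b = g • b) :
    ((a - 1) * (b - 1)) ^ 3 - (g - 1) • ((a - 1) * (b - 1)) ^ 2 + (g - 1) • ((a - 1) * (b - 1)) - 1 = 0 := by
  obtain ⟨R, hR⟩ : ∃ R, R = (a - 1) * (b - 1) := ⟨_, rfl⟩
  rw [← hR]
  have hR' : R = a * b - a - b + 1 := by
    rw [hR]
    noncomm_ring
  have e1 : a * b * R = (g - 1) • (a * b) - g • a := by
    have h1 : a * b * R = a * b * a * b - a * b * a - a * (b * b) + a * b := by
      rw [hR']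
      noncomm_ring
    rw [h1, haba, hbb, smul_mul_assoc, mul_smul_comm]
    module
  have e2 : a * R = a * b - a := by
    have h1 : a * R = a * a * b - a * a - a * b + a := by
      rw [hR']
      noncomm_ring
    rw [h1, haa, smul_mul_assoc]
    module
  have e3 : b * R = (g - 1) • b - b * a := by
    have h1 : b * R = b * a * b - b * a - b * b + b := by
      rw [hR']
      noncomm_ring
    rw [h1, hbab, hbb]
    module
  have e4 : b * a * R = g • b - b * a := by
    rw [mul_assoc, e2, mul_sub, ← mul_assoc, hbab]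
  have s2 : R ^ 2 = (g - 1) • (a * b) - g • a - g • b + b * a + 1 := by
    have h1 : R ^ 2 = a * b * R - a * R - b * R + R := by
      rw [pow_two]
      nth_rewrite 1 [hR']
      rw [add_mul, sub_mul, sub_mul, one_mul]
    rw [h1, e1, e2, e3, hR']
    module
  have s3 : R ^ 3 = (g - 1) • ((g - 1) • (a * b) - g • a) - g • (a * b - a) -
      g • ((g - 1) • b - b * a) + (g • b - b * a) + R := by
    have h1 : R ^ 3 = R ^ 2 * R := by rw [pow_succ]
    rw [h1, s2, add_mul, add_mul, sub_mul, sub_mul, smul_mul_assoc, smul_mul_assoc, smul_mul_assoc, e1,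
      e2, e3, e4, one_mul]
  rw [s3, s2, hR']
  module

open Polynomial in
theorem rel_pow {A : Type*} [Ring A] [Algebra ℂ A] (R : A) (m : ℕ) (hm : 3 ≤ m) (τ : ℂ)
    (hτ : τ = 4 * (Real.cos (Real.pi / m) : ℂ) ^ 2 - 1)
    (hR : R ^ 3 - τ • R ^ 2 + τ • R - 1 = 0) : R ^ m = 1 := by
  classical
  have hm0 : m ≠ 0 := by omega
  have hζ := Complex.isPrimitiveRoot_exp m hm0
  set ω : ℂ := exp (2 * Real.pi * I / m) with hω
  have hω0 : ω ≠ 0 := Complex.exp_ne_zero _
  have h1 : ω ≠ 1 := hζ.ne_one (by omega)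
  have h2 : ω ^ 2 ≠ 1 := hζ.pow_ne_one_of_pos_of_lt (by norm_num) (by omega)
  have h3 : ω ≠ ω⁻¹ := by
    intro h
    apply h2
    rw [pow_two]
    nth_rewrite 2 [h]
    exact mul_inv_cancel₀ hω0
  have h4 : (1 : ℂ) ≠ ω⁻¹ := by
    intro h
    apply h1
    have := congrArg (fun x => x⁻¹) h
    simpa using this.symm
  have hsub : ({1, ω, ω⁻¹} : Finset ℂ) ⊆ nthRootsFinset m (1 : ℂ) := by
    intro x hx
    simp only [Finset.mem_insert, Finset.mem_singleton] at hx
    rw [mem_nthRootsFinset (by omega)]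
    rcases hx with rfl | rfl | rfl
    · simp
    · exact hζ.pow_eq_one
    · rw [inv_pow, hζ.pow_eq_one, inv_one]
  have hdvd : (∏ z ∈ ({1, ω, ω⁻¹} : Finset ℂ), (X - C z)) ∣ (X ^ m - 1 : ℂ[X]) := by
    rw [X_pow_sub_one_eq_prod (by omega) hζ]
    exact Finset.prod_dvd_prod_of_subset _ _ _ hsub
  have hprod : (∏ z ∈ ({1, ω, ω⁻¹} : Finset ℂ), (X - C z)) =
      X ^ 3 - C τ * X ^ 2 + C τ * X - 1 := by
    rw [Finset.prod_insert, Finset.prod_insert, Finset.prod_singleton]
    · have hcos : ω + ω⁻¹ = 2 * (Real.cos (2 * (Real.pi / m)) : ℂ) := by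
        have e1 : ω = exp ((2 * (Real.pi / m) : ℝ) * I) := by
          rw [hω]
          congr 1
          push_cast
          ring
        have e2 : ω⁻¹ = exp (-((2 * (Real.pi / m) : ℝ) * I)) := by
          rw [Complex.exp_neg, ← e1]
        rw [e1, ← Complex.exp_neg, Complex.ofReal_cos, Complex.cos]
        ring_nf
      have hτ2 : τ = 1 + (ω + ω⁻¹) := by
        rw [hτ, hcos, Real.cos_two_mul]
        push_cast
        ring
      have hC : C τ = 1 + (C ω + C ω⁻¹) := by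
        rw [hτ2, C_add, C_add, C_1]
      have hCC : C ω * C ω⁻¹ = (1 : ℂ[X]) := by
        rw [← C_mul, mul_inv_cancel₀ hω0, C_1]
      rw [hC, C_1]
      linear_combination (X - 1) * hCC
    · simpa using h3
    · simp only [Finset.mem_insert, Finset.mem_singleton, not_or]
      exact ⟨h1.symm, h4⟩
  rw [hprod] at hdvd
  obtain ⟨q, hq⟩ := hdvd
  have h5 := congrArg (aeval R) hq
  rw [map_mul, map_sub, map_pow, aeval_X, map_one] at h5
  have h6 : aeval R (X ^ 3 - C τ * X ^ 2 + C τ * X - 1 : ℂ[X]) = 0 := by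
    simp only [map_sub, map_add, map_mul, map_pow, aeval_X, aeval_C, map_one]
    rw [← Algebra.smul_def, ← Algebra.smul_def]
    exact hR
  rw [h6, zero_mul] at h5
  exact sub_eq_zero.1 h5

theorem refl_rel (n n' : Fin 3 → ℂ) (hn : herm n n = 1) (hn' : herm n' n' = 1) (m : ℕ) (hm : 3 ≤ m)
    (h : ‖herm n n'‖ = Real.cos (Real.pi / m)) : (refl n * refl n') ^ m = 1 := by
  have hconj : herm n' n = conj (herm n n') := by
    unfold herm
    simp only [map_sub, map_add, map_mul, conj_conj]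
    ring
  have hg : herm n' n * herm n n' = (Real.cos (Real.pi / m) : ℂ) ^ 2 := by
    rw [hconj, ← h, mul_comm, Complex.mul_conj, Complex.normSq_eq_norm_sq]
    push_cast
    rfl
  have hg' : herm n n' * herm n' n = (Real.cos (Real.pi / m) : ℂ) ^ 2 := by
    rw [mul_comm, hg]
  rw [refl_eq_relP, refl_eq_relP]
  have h1 := rel_cubic (relP n) (relP n') (4 * (Real.cos (Real.pi / m) : ℂ) ^ 2) (relP_sq n hn)
    (relP_sq n' hn') (by rw [relP_mul3, hg]) (by rw [relP_mul3, hg'])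
  exact rel_pow _ m hm _ rfl h1

end Pool.Agent.Work.MP_88b7aa_gt.CH
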