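import Pool.Agent.Work.MP_88b7aa_gt.CH.Crs
import Pool.Agent.Work.MP_88b7aa_gt.CH.Rel

/-!
# The parameter `θ` determines the representation up to conjugacy

Two triangles with the same labels and the same `θ` differ by a linear map preserving `herm` and unit scalars; this map conjugates the
three reflections of one to those of the other.
-/

set_option autoImplicit false

namespace Pool.Agent.Work.MP_88b7aa_gt.CH

open ComplexConjugate Complex

theorem same_exp (u w z : Fin 3 → ℂ) :
    (herm u u * herm w w - herm u w * herm w u) • z =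
      (herm z u * herm w w - herm z w * herm w u) • u + (herm z w * herm u u - herm z u * herm u w) • w
        - herm z (cr u w) • cr u w := by
  ext i
  fin_cases i <;>
  · simp only [herm, cr, Pi.sub_apply, Pi.add_apply, Pi.smul_apply, smul_eq_mul, Matrix.cons_val_zero, Matrix.cons_val_one,
      Matrix.cons_val, map_neg, map_sub, map_mul, Complex.conj_conj, Fin.zero_eta, Fin.mk_one, Fin.reduceFinMk, Fin.isValue]
    ring

/-- The combination of three vectors with the coefficients of `z` in `u`, `w`, `cr u w`. -/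
noncomputable def sameF (u w U W V z : Fin 3 → ℂ) : Fin 3 → ℂ :=
  (herm u u * herm w w - herm u w * herm w u)⁻¹ • ((herm z u * herm w w - herm z w * herm w u) • U
    + (herm z w * herm u u - herm z u * herm u w) • W - herm z (cr u w) • V)

theorem herm_comb (A B C A' B' C' : ℂ) (U W V : Fin 3 → ℂ) :
    herm (A • U + B • W - C • V) (A' • U + B' • W - C' • V) =
      A * conj A' * herm U U + A * conj B' * herm U W - A * conj C' * herm U V
      + B * conj A' * herm W U + B * conj B' * herm W W - B * conj C' * herm W V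
      - C * conj A' * herm V U - C * conj B' * herm V W + C * conj C' * herm V V := by
  simp only [herm, Pi.sub_apply, Pi.add_apply, Pi.smul_apply, smul_eq_mul, map_sub, map_add, map_mul]
  ring

/-- Vectors with the same Gram matrix are related by a linear map preserving the form. -/
theorem same_gram (n N : Fin 3 → Fin 3 → ℂ) (hD : herm (n 0) (n 0) * herm (n 1) (n 1) - herm (n 0) (n 1) * herm (n 1) (n 0) ≠ 0)
    (hG : ∀ i j, herm (N i) (N j) = herm (n i) (n j)) :
    ∃ g : Matrix (Fin 3) (Fin 3) ℂ, (∀ z w, herm (g.mulVec z) (g.mulVec w) = herm z w) ∧ ∀ i, g.mulVec (n i) = N i := by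
  set Δ := herm (n 0) (n 0) * herm (n 1) (n 1) - herm (n 0) (n 1) * herm (n 1) (n 0) with hΔ
  have hv : herm (cr (n 0) (n 1)) (cr (n 0) (n 1)) = -Δ := by rw [cr_herm, hΔ]; ring
  have hV : herm (cr (N 0) (N 1)) (cr (N 0) (N 1)) = -Δ := by rw [cr_herm, hΔ]; simp only [hG]; ring
  have hcr : ∀ u w : Fin 3 → ℂ, herm u (cr u w) = 0 ∧ herm w (cr u w) = 0 := by
    intro u w
    constructor
    · rw [herm_cr, Matrix.det_fin_three]
      simp only [Matrix.of_apply, Matrix.cons_val_zero, Matrix.cons_val_one, Matrix.cons_val]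
      ring
    · rw [herm_cr, Matrix.det_fin_three]
      simp only [Matrix.of_apply, Matrix.cons_val_zero, Matrix.cons_val_one, Matrix.cons_val]
      ring
  -- the third vectors
  set γ := herm (n 2) (cr (n 0) (n 1)) with hγ
  set γ' := herm (N 2) (cr (N 0) (N 1)) with hγ'
  have e1 := same_exp (n 0) (n 1) (n 2)
  have e2 := same_exp (N 0) (N 1) (N 2)
  have hΔN : herm (N 0) (N 0) * herm (N 1) (N 1) - herm (N 0) (N 1) * herm (N 1) (N 0) = Δ := by simp only [hG]; rfl
  rw [← hΔ, ← hγ] at e1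
  rw [hΔN, ← hγ'] at e2
  simp only [hG] at e2
  have hγγ : γ * conj γ = γ' * conj γ' := by
    have f1 : herm (Δ • n 2) (Δ • n 2) = herm (Δ • N 2) (Δ • N 2) := by
      rw [herm_smul_left, herm_smul_right, herm_smul_left, herm_smul_right, hG]
    rw [e1, e2, herm_comb, herm_comb] at f1
    have g1 : herm (cr (n 0) (n 1)) (n 0) = 0 := by rw [← herm_conj, (hcr _ _).1, map_zero]
    have g2 : herm (cr (n 0) (n 1)) (n 1) = 0 := by rw [← herm_conj, (hcr _ _).2, map_zero]
    have g3 : herm (cr (N 0) (N 1)) (N 0) = 0 := by rw [← herm_conj, (hcr _ _).1, map_zero]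
    have g4 : herm (cr (N 0) (N 1)) (N 1) = 0 := by rw [← herm_conj, (hcr _ _).2, map_zero]
    rw [(hcr (n 0) (n 1)).1, (hcr (n 0) (n 1)).2, (hcr (N 0) (N 1)).1, (hcr (N 0) (N 1)).2, g1, g2, g3, g4, hv, hV] at f1
    simp only [hG, mul_zero, sub_zero] at f1
    have f2 : γ * conj γ * Δ = γ' * conj γ' * Δ := by linear_combination -f1
    exact mul_right_cancel₀ hD f2
  obtain ⟨ν, hν, hνγ⟩ : ∃ ν : ℂ, ν * conj ν = 1 ∧ γ * ν = γ' := by
    by_cases h : γ = 0
    · refine ⟨1, by simp, ?_⟩
      rw [h, zero_mul] at hγγ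
      rw [h, zero_mul]
      have : Complex.normSq γ' = 0 := by
        have := hγγ.symm
        rw [Complex.mul_conj] at this
        exact_mod_cast this
      exact (Complex.normSq_eq_zero.mp this).symm
    · refine ⟨γ' / γ, ?_, by field_simp⟩
      have h' : conj γ ≠ 0 := by simpa using h
      rw [map_div₀, div_mul_div_comm, ← hγγ, div_self (mul_ne_zero h h')]
  let f : (Fin 3 → ℂ) →ₗ[ℂ] (Fin 3 → ℂ) :=
    { toFun := sameF (n 0) (n 1) (N 0) (N 1) (ν • cr (N 0) (N 1))
      map_add' := by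
        intro x y
        ext i
        simp only [sameF, herm_add_left, Pi.sub_apply, Pi.add_apply, Pi.smul_apply, smul_eq_mul]
        ring
      map_smul' := by
        intro c x
        ext i
        simp only [sameF, herm_smul_left, Pi.sub_apply, Pi.add_apply, Pi.smul_apply, smul_eq_mul, RingHom.id_apply]
        ring }
  have hf : ∀ z, (LinearMap.toMatrix' f).mulVec z = sameF (n 0) (n 1) (N 0) (N 1) (ν • cr (N 0) (N 1)) z := by
    intro z
    rw [LinearMap.toMatrix'_mulVec]
    rfl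
  have hU0 : herm (N 0) (ν • cr (N 0) (N 1)) = 0 := by rw [herm_smul_right, (hcr _ _).1, mul_zero]
  have hU1 : herm (N 1) (ν • cr (N 0) (N 1)) = 0 := by rw [herm_smul_right, (hcr _ _).2, mul_zero]
  have hU0' : herm (ν • cr (N 0) (N 1)) (N 0) = 0 := by rw [← herm_conj, hU0, map_zero]
  have hU1' : herm (ν • cr (N 0) (N 1)) (N 1) = 0 := by rw [← herm_conj, hU1, map_zero]
  have hUU : herm (ν • cr (N 0) (N 1)) (ν • cr (N 0) (N 1)) = -Δ := by
    rw [herm_smul_left, herm_smul_right, hV, ← mul_assoc, hν, one_mul]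
  have hu0' : herm (cr (n 0) (n 1)) (n 0) = 0 := by rw [← herm_conj, (hcr _ _).1, map_zero]
  have hu1' : herm (cr (n 0) (n 1)) (n 1) = 0 := by rw [← herm_conj, (hcr _ _).2, map_zero]
  refine ⟨LinearMap.toMatrix' f, ?_, ?_⟩
  · intro z w
    rw [hf, hf]
    have ez := same_exp (n 0) (n 1) z
    have ew := same_exp (n 0) (n 1) w
    rw [← hΔ] at ez ew
    have h1 : herm (Δ • z) (Δ • w) = Δ * conj Δ * herm z w := by rw [herm_smul_left, herm_smul_right]; ring
    have h2 : herm (sameF (n 0) (n 1) (N 0) (N 1) (ν • cr (N 0) (N 1)) z) (sameF (n 0) (n 1) (N 0) (N 1) (ν • cr (N 0) (N 1)) w) =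
        Δ⁻¹ * conj Δ⁻¹ * herm (Δ • z) (Δ • w) := by
      rw [ez, ew, herm_comb, sameF, sameF, ← hΔ, herm_smul_left, herm_smul_right, herm_comb, hU0, hU1, hU0', hU1', hUU, hu0', hu1',
        (hcr _ _).1, (hcr _ _).2, hv]
      simp only [hG]
      ring
    rw [h2, h1]
    have hD' : conj Δ ≠ 0 := by simpa using hD
    rw [map_inv₀]
    field_simp
  · intro i
    rw [hf]
    have hD0 : Δ ≠ 0 := hD
    fin_cases i
    · simp only [Fin.zero_eta, Fin.isValue, sameF, (hcr _ _).1, zero_smul, sub_zero]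
      rw [← hΔ]
      have : herm (n 0) (n 1) * herm (n 0) (n 0) - herm (n 0) (n 0) * herm (n 0) (n 1) = 0 := by ring
      rw [this, zero_smul, add_zero, smul_smul, inv_mul_cancel₀ hD0, one_smul]
    · simp only [Fin.mk_one, Fin.isValue, sameF, (hcr _ _).2, zero_smul, sub_zero]
      have : herm (n 1) (n 0) * herm (n 1) (n 1) - herm (n 1) (n 1) * herm (n 1) (n 0) = 0 := by ring
      rw [this, zero_smul, zero_add]
      have h2 : herm (n 1) (n 1) * herm (n 0) (n 0) - herm (n 1) (n 0) * herm (n 0) (n 1) = Δ := by rw [hΔ]; ring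
      rw [h2, ← hΔ, smul_smul, inv_mul_cancel₀ hD0, one_smul]
    · simp only [Fin.reduceFinMk, Fin.isValue, sameF]
      rw [← hΔ, ← hγ, smul_smul γ ν, hνγ]
      have h2 : Δ⁻¹ • (Δ • N 2) = N 2 := by rw [smul_smul, inv_mul_cancel₀ hD0, one_smul]
      rw [e2] at h2
      exact h2

/-- If `g` preserves the form and `g n = μ n'` with `|μ| = 1` then `g` conjugates the reflection of `n` to that of `n'`. -/
theorem same_refl (g : Matrix (Fin 3) (Fin 3) ℂ) (hg : ∀ z w, herm (g.mulVec z) (g.mulVec w) = herm z w) (n n' : Fin 3 → ℂ) (μ : ℂ)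
    (hμ : ‖μ‖ = 1) (h : g.mulVec n = μ • n') : g * refl n = refl n' * g := by
  have hr : ∀ m z : Fin 3 → ℂ, (refl m).mulVec z = (2 * herm z m) • m - z := by
    intro m z
    ext i
    fin_cases i <;>
    · simp only [refl, herm, Matrix.mulVec, dotProduct, Fin.sum_univ_three, Pi.sub_apply, Pi.smul_apply, smul_eq_mul, Fin.zero_eta,
        Fin.mk_one, Fin.reduceFinMk, Fin.isValue, Fin.reduceEq, if_false, if_true]
      ring
  have hμ' : μ * conj μ = 1 := by
    rw [Complex.mul_conj, Complex.normSq_eq_norm_sq, hμ]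
    norm_num
  apply Matrix.toLin'.injective
  apply LinearMap.ext
  intro z
  rw [Matrix.toLin'_apply, Matrix.toLin'_apply, ← Matrix.mulVec_mulVec, ← Matrix.mulVec_mulVec, hr, hr, Matrix.mulVec_sub,
    Matrix.mulVec_smul, h, ← hg z n, h, herm_smul_right, smul_smul]
  congr 2
  linear_combination (2 * herm (g.mulVec z) n') * hμ'

/-- Two triangles with the same labels and the same parameter define conjugate representations. -/
theorem Same (p q r : ℕ) (hq : 3 ≤ q) (hr : 3 ≤ r) (θ : ℝ) (n n' : Fin 3 → Fin 3 → ℂ) (hT : IsTriangle p q r θ n)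
    (hT' : IsTriangle p q r θ n') :
    ∃ g : Matrix (Fin 3) (Fin 3) ℂ, (∀ z w, herm (g.mulVec z) (g.mulVec w) = herm z w) ∧ ∀ i, g * refl (n i) = refl (n' i) * g := by
  have hcos : ∀ k : ℕ, 3 ≤ k → 0 < Real.cos (Real.pi / k) ∧ Real.cos (Real.pi / k) < 1 := by
    intro k hk
    have hk' : (3 : ℝ) ≤ k := by exact_mod_cast hk
    have h1 : 0 < Real.pi / k := div_pos Real.pi_pos (by linarith)
    have h2 : Real.pi / k ≤ Real.pi / 3 := div_le_div_of_nonneg_left Real.pi_pos.le (by norm_num) hk'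
    constructor
    · exact Real.cos_pos_of_mem_Ioo ⟨by linarith [Real.pi_pos], by linarith [Real.pi_pos]⟩
    · rw [← Real.cos_zero]
      exact Real.cos_lt_cos_of_nonneg_of_le_pi le_rfl (by linarith [Real.pi_pos]) h1
  set a := herm (n 0) (n 1)
  set b := herm (n 1) (n 2)
  set c := herm (n 2) (n 0)
  set a' := herm (n' 0) (n' 1)
  set b' := herm (n' 1) (n' 2)
  set c' := herm (n' 2) (n' 0)
  have ha : ‖a'‖ = ‖a‖ := by rw [hT'.h12, hT.h12]
  have hb : ‖b'‖ = ‖b‖ := by rw [hT'.h23, hT.h23]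
  have hc : ‖c'‖ = ‖c‖ := by rw [hT'.h31, hT.h31]
  have hprod : a * b * c = a' * b' * c' := by rw [hT.angle, hT'.angle]
  have ha0 : a ≠ 0 := by rw [← norm_ne_zero_iff, hT.h12]; exact (hcos q hq).1.ne'
  have hc0 : c ≠ 0 := by rw [← norm_ne_zero_iff, hT.h31]; exact (hcos r hr).1.ne'
  have ha0' : a' ≠ 0 := by rw [← norm_ne_zero_iff, ha, norm_ne_zero_iff]; exact ha0
  have hc0' : c' ≠ 0 := by rw [← norm_ne_zero_iff, hc, norm_ne_zero_iff]; exact hc0
  -- the phases
  set μ1 : ℂ := conj (a / a') with hμ1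
  set μ2 : ℂ := c / c' with hμ2
  have n1 : ‖μ1‖ = 1 := by rw [hμ1, Complex.norm_conj, norm_div, ha, div_self (by rwa [norm_ne_zero_iff])]
  have n2 : ‖μ2‖ = 1 := by rw [hμ2, norm_div, hc, div_self (by rwa [norm_ne_zero_iff])]
  have hsq : ∀ μ : ℂ, ‖μ‖ = 1 → μ * conj μ = 1 := by
    intro μ hμ
    rw [Complex.mul_conj, Complex.normSq_eq_norm_sq, hμ]
    norm_num
  have hbb : μ1 * (conj μ2 * b') = b := by
    by_cases h : b = 0
    · have : b' = 0 := by rw [← norm_eq_zero, hb, h, norm_zero]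
      rw [this, h, mul_zero, mul_zero]
    · have h' : b' ≠ 0 := by rw [← norm_ne_zero_iff, hb, norm_ne_zero_iff]; exact h
      have e1 : a / a' * (c / c') = b' / b := by
        field_simp
        linear_combination hprod
      have e2 : μ1 * conj μ2 = conj (b' / b) := by rw [hμ1, hμ2, ← map_mul, e1]
      have e3 : ‖b' / b‖ = 1 := by rw [norm_div, hb, div_self (by rwa [norm_ne_zero_iff])]
      have e4 := hsq _ e3
      rw [← mul_assoc, e2]
      have e5 : b' = b' / b * b := by field_simp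
      calc conj (b' / b) * b' = conj (b' / b) * (b' / b * b) := by rw [← e5]
        _ = (b' / b * conj (b' / b)) * b := by ring
        _ = b := by rw [e4, one_mul]
  let N : Fin 3 → Fin 3 → ℂ := ![n' 0, μ1 • n' 1, μ2 • n' 2]
  have hN0 : N 0 = n' 0 := rfl
  have hN1 : N 1 = μ1 • n' 1 := rfl
  have hN2 : N 2 = μ2 • n' 2 := rfl
  have hab : herm (N 0) (N 1) = a := by
    rw [hN0, hN1, herm_smul_right, hμ1, Complex.conj_conj]
    exact div_mul_cancel₀ a ha0'
  have hbc : herm (N 1) (N 2) = b := by rw [hN1, hN2, herm_smul_left, herm_smul_right]; exact hbb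
  have hca : herm (N 2) (N 0) = c := by
    rw [hN2, hN0, herm_smul_left]
    exact div_mul_cancel₀ c hc0'
  have hG : ∀ i j, herm (N i) (N j) = herm (n i) (n j) := by
    intro i j
    fin_cases i <;> fin_cases j
    · show herm (N 0) (N 0) = herm (n 0) (n 0)
      rw [hN0, hT.unit, hT'.unit]
    · exact hab
    · show herm (N 0) (N 2) = herm (n 0) (n 2)
      rw [← herm_conj (N 2) (N 0), ← herm_conj (n 2) (n 0), hca]
    · show herm (N 1) (N 0) = herm (n 1) (n 0)
      rw [← herm_conj (N 0) (N 1), ← herm_conj (n 0) (n 1), hab]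
    · show herm (N 1) (N 1) = herm (n 1) (n 1)
      rw [hN1, herm_smul_left, herm_smul_right, hT.unit, hT'.unit, mul_one, hsq μ1 n1]
    · exact hbc
    · exact hca
    · show herm (N 2) (N 1) = herm (n 2) (n 1)
      rw [← herm_conj (N 1) (N 2), ← herm_conj (n 1) (n 2), hbc]
    · show herm (N 2) (N 2) = herm (n 2) (n 2)
      rw [hN2, herm_smul_left, herm_smul_right, hT.unit, hT'.unit, mul_one, hsq μ2 n2]
  have hD : herm (n 0) (n 0) * herm (n 1) (n 1) - herm (n 0) (n 1) * herm (n 1) (n 0) ≠ 0 := by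
    rw [hT.unit, hT.unit, ← herm_conj (n 0) (n 1), Complex.mul_conj, Complex.normSq_eq_norm_sq, hT.h12]
    have h := hcos q hq
    have h2 : (1 : ℝ) * 1 - Real.cos (Real.pi / q) ^ 2 ≠ 0 := by nlinarith [h.1, h.2]
    exact_mod_cast h2
  obtain ⟨g, hg, hgn⟩ := same_gram n N hD hG
  refine ⟨g, hg, ?_⟩
  intro i
  fin_cases i
  · exact same_refl g hg (n 0) (n' 0) 1 (by simp) (by rw [one_smul]; exact hgn 0)
  · exact same_refl g hg (n 1) (n' 1) μ1 n1 (hgn 1)
  · exact same_refl g hg (n 2) (n' 2) μ2 n2 (hgn 2)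

end Pool.Agent.Work.MP_88b7aa_gt.CH
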