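import Pool.Agent.Work.MP_88b7aa_gt.CH.Obj

/-!
# The Hermitian cross product.  Size: S.

PROOF.  Expand (`Matrix.det_fin_three`, `simp [herm, cr]`, `ring`).  `herm z (cr u w) = z0 (u1 w2 - u2 w1) + z1 (u2 w0 - u0 w2)
+ z2 (u0 w1 - u1 w0) = det (z, u, w)`.  The second identity is polynomial in the coordinates and their conjugates.
`herm` is sesquilinear: `herm_smul_left`, `herm_smul_right`, `herm_add_left`, `herm_conj`.
-/

namespace Pool.Agent.Work.MP_88b7aa_gt.CH

open ComplexConjugate Complex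

theorem herm_conj (z w : Fin 3 → ℂ) : conj (herm z w) = herm w z := by
  simp only [herm, map_sub, map_add, map_mul, Complex.conj_conj]
  ring

theorem herm_smul_left (l : ℂ) (z w : Fin 3 → ℂ) : herm (l • z) w = l * herm z w := by
  simp only [herm, Pi.smul_apply, smul_eq_mul]
  ring

theorem herm_smul_right (l : ℂ) (z w : Fin 3 → ℂ) : herm z (l • w) = conj l * herm z w := by
  simp only [herm, Pi.smul_apply, smul_eq_mul, map_mul]
  ring

theorem herm_add_left (z z' w : Fin 3 → ℂ) : herm (z + z') w = herm z w + herm z' w := by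
  simp only [herm, Pi.add_apply]
  ring

theorem herm_add_right (z w w' : Fin 3 → ℂ) : herm z (w + w') = herm z w + herm z w' := by
  simp only [herm, Pi.add_apply, map_add]
  ring

theorem herm_cr (z u w : Fin 3 → ℂ) : herm z (cr u w) = Matrix.det (Matrix.of ![z, u, w]) := by
  rw [Matrix.det_fin_three]
  simp only [herm, cr, Matrix.of_apply, Matrix.cons_val_zero, Matrix.cons_val_one, Matrix.cons_val,
    map_neg, Complex.conj_conj]
  ring

theorem cr_herm (u w u' w' : Fin 3 → ℂ) :
    herm (cr u w) (cr u' w') = -(herm u' u * herm w' w - herm w' u * herm u' w) := by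
  simp only [herm, cr, Matrix.cons_val_zero, Matrix.cons_val_one, Matrix.cons_val,
    map_neg, map_sub, map_mul, Complex.conj_conj]
  ring

/-- `⟨n e, cr⟩ = 0`, `⟨n (e+1), cr⟩ = 0`, `⟨n (e+2), cr (n e) (n (e+1))⟩ = Dt n`. -/
theorem herm_cr_n (n : Fin 3 → Fin 3 → ℂ) (e : Fin 3) :
    herm (n e) (cr (n e) (n (e + 1))) = 0 ∧ herm (n (e + 1)) (cr (n e) (n (e + 1))) = 0 ∧
      herm (n (e + 2)) (cr (n e) (n (e + 1))) = Dt n := by
  refine ⟨?_, ?_, ?_⟩
  · rw [herm_cr, Matrix.det_fin_three]
    simp only [Matrix.of_apply, Matrix.cons_val_zero, Matrix.cons_val_one, Matrix.cons_val]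
    ring
  · rw [herm_cr, Matrix.det_fin_three]
    simp only [Matrix.of_apply, Matrix.cons_val_zero, Matrix.cons_val_one, Matrix.cons_val]
    ring
  · rw [herm_cr, Matrix.det_fin_three, Dt, Matrix.det_fin_three]
    simp only [Matrix.of_apply, Matrix.cons_val_zero, Matrix.cons_val_one, Matrix.cons_val]
    fin_cases e
    · simp only [Fin.zero_eta, Fin.isValue, zero_add]
      ring
    · have e1 : (1 : Fin 3) + 1 = 2 := rfl
      have e2 : (1 : Fin 3) + 2 = 0 := rfl
      simp only [Fin.mk_one, Fin.isValue, e1, e2]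
    · have e1 : (2 : Fin 3) + 1 = 0 := rfl
      have e2 : (2 : Fin 3) + 2 = 1 := rfl
      simp only [Fin.reduceFinMk, Fin.isValue, e1, e2]
      ring

end Pool.Agent.Work.MP_88b7aa_gt.CH
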