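import Pool.Agent.Work.MP_88b7aa_gt.CH.FrR

/-!
# Ping-pong set implies discrete and faithful.
-/

namespace Pool.Agent.Work.MP_88b7aa_gt.CH

open ComplexConjugate Complex

theorem Disc (M : CoxeterMatrix (Fin 3)) (n : Fin 3 → Fin 3 → ℂ) (h0 : herm (n 0) (n 0) = 1)
    (ρ : M.Group →* Matrix (Fin 3) (Fin 3) ℂ) (hρ : ∀ i, ρ (M.simple i) = refl (n i))
    (A : Set (Fin 3 → ℂ)) (hA : IsOpen A) (z0 : Fin 3 → ℂ) (hz0 : z0 ∈ A)
    (hsc : ∀ z ∈ A, ∀ μ : ℂ, ‖μ‖ = 1 → μ • z ∈ A)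
    (hpp : ∀ g : M.Group, ∀ z ∈ A, (ρ g).mulVec z ∈ A → g = 1 ∨ g = M.simple 0) : DF M n := by
  obtain ⟨δ, hδ, hball⟩ := Metric.isOpen_iff.1 hA z0 hz0
  set L : ℝ := ‖z0‖ + 1 with hL
  have hL0 : 0 < L := by positivity
  refine ⟨ρ, hρ, min (1 / 2) (δ / (4 * L)), lt_min (by norm_num) (by positivity), ?_⟩
  intro g hg μ hμ
  by_contra hcon
  push Not at hcon
  set ε : ℝ := min (1 / 2) (δ / (4 * L)) with hε
  have hε1 : ε ≤ 1 / 2 := min_le_left _ _
  have hε2 : ε ≤ δ / (4 * L) := min_le_right _ _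
  have hε0 : 0 < ε := lt_min (by norm_num) (by positivity)
  have hμ0 : μ ≠ 0 := by
    intro h
    rw [h] at hμ
    simp at hμ
  have hz : ∀ j, ‖z0 j‖ ≤ L := fun j => (norm_le_pi_norm z0 j).trans (by rw [hL]; linarith)
  have key : ∀ i, ‖((ρ g).mulVec z0 i) - μ * z0 i‖ ≤ 3 * ε * L := by
    intro i
    have e1 : ((ρ g).mulVec z0 i) - μ * z0 i =
        ∑ j, (ρ g i j - (if i = j then μ else 0)) * z0 j := by
      simp only [Matrix.mulVec, dotProduct, sub_mul, Finset.sum_sub_distrib]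
      congr 1
      simp [ite_mul]
    rw [e1]
    calc ‖∑ j, (ρ g i j - (if i = j then μ else 0)) * z0 j‖
        ≤ ∑ j : Fin 3, ‖(ρ g i j - (if i = j then μ else 0)) * z0 j‖ := norm_sum_le _ _
      _ ≤ ∑ j : Fin 3, ε * L := by
          apply Finset.sum_le_sum
          intro j _
          rw [norm_mul]
          exact mul_le_mul (hcon i j).le (hz j) (norm_nonneg _) hε0.le
      _ = 3 * ε * L := by simp; ring
  have h3 : 3 * ε * L < δ := by
    have : ε * (4 * L) ≤ δ := by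
      rwa [le_div_iff₀ (by positivity)] at hε2
    nlinarith [mul_pos hε0 hL0]
  have hmem : μ⁻¹ • (ρ g).mulVec z0 ∈ A := by
    apply hball
    rw [Metric.mem_ball, dist_eq_norm, pi_norm_lt_iff hδ]
    intro i
    have e2 : (μ⁻¹ • (ρ g).mulVec z0 - z0) i = μ⁻¹ * (((ρ g).mulVec z0 i) - μ * z0 i) := by
      simp only [Pi.sub_apply, Pi.smul_apply, smul_eq_mul]
      field_simp
    rw [e2, norm_mul, norm_inv, hμ, inv_one, one_mul]
    exact (key i).trans_lt h3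
  have hmem2 : (ρ g).mulVec z0 ∈ A := by
    have := hsc _ hmem μ hμ
    rwa [smul_smul, mul_inv_cancel₀ hμ0, one_smul] at this
  rcases hpp g z0 hz0 hmem2 with h | h
  · exact hg h
  · have htr : ∑ i : Fin 3, (ρ g i i - μ) = -1 - 3 * μ := by
      rw [h, hρ]
      have hh : herm (n 0) (n 0) = 1 := h0
      simp only [herm] at hh
      simp only [Fin.sum_univ_three, refl]
      simp
      linear_combination 2 * hh
    have hle : ‖(-1 - 3 * μ : ℂ)‖ < 3 / 2 := by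
      rw [← htr]
      calc ‖∑ i : Fin 3, (ρ g i i - μ)‖ ≤ ∑ i : Fin 3, ‖ρ g i i - μ‖ := norm_sum_le _ _
        _ < ∑ i : Fin 3, (1 / 2 : ℝ) := by
            apply Finset.sum_lt_sum_of_nonempty ⟨0, Finset.mem_univ _⟩
            intro i _
            have := hcon i i
            simp only [if_true] at this
            exact this.trans_le hε1
        _ = 3 / 2 := by simp; norm_num
    have hge : (2 : ℝ) ≤ ‖(-1 - 3 * μ : ℂ)‖ := by
      have h1 : ‖(3 * μ : ℂ)‖ ≤ ‖(-1 - 3 * μ : ℂ)‖ + ‖(1 : ℂ)‖ := by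
        have : (3 * μ : ℂ) = -((-1 - 3 * μ) + 1) := by ring
        calc ‖(3 * μ : ℂ)‖ = ‖(-1 - 3 * μ) + 1‖ := by conv_lhs => rw [this, norm_neg]
          _ ≤ _ := norm_add_le _ _
      have h2 : ‖(3 * μ : ℂ)‖ = 3 := by
        rw [norm_mul, hμ]; norm_num
      rw [h2, norm_one] at h1
      linarith
    linarith

end Pool.Agent.Work.MP_88b7aa_gt.CH
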