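import Pool.Agent.Work.MP_88b7aa_gt.CH.Obj

/-!
# The real quantities computed by the interval checker

`EP` holds the real data of an edge: the thresholds `νA`, `νB` at its end points, the shares `eA = ε'_A`,
`eB = ε'_B` of the vertex phases, `h = H sin νA sin νB`, `k` and `x`.
-/

namespace Pool.Agent.Work.MP_88b7aa_gt.CH

/-- Real data of an edge. -/
structure EP where
  νA : ℝ
  νB : ℝ
  eA : ℝ
  eB : ℝ
  h : ℝ
  k : ℝ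
  x : ℝ

/-- `cos x + s sin x`. -/
noncomputable def fs (s x : ℝ) : ℝ := Real.cos x + s * Real.sin x

noncomputable def wf (ν ε : ℝ) : ℝ := Real.sin ε / Real.sin ν ^ 2
noncomputable def yf (ν ε : ℝ) : ℝ := (1 + Real.cos ν ^ 2) * (wf ν ε * (Real.cos ε)⁻¹)
noncomputable def rf (ν ε : ℝ) : ℝ := (1 + Real.cos ν) ^ 2 * (wf ν ε * (1 + Real.cos ε)⁻¹)
noncomputable def rpf (ν ε : ℝ) : ℝ := (1 - Real.cos ν) ^ 2 * (wf ν ε * (1 + Real.cos ε)⁻¹)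

namespace EP

noncomputable def a (P : EP) : ℝ := Real.cos P.νA
noncomputable def b (P : EP) : ℝ := Real.cos P.νB
noncomputable def A2 (P : EP) : ℝ := Real.sin P.νA ^ 2
noncomputable def B2 (P : EP) : ℝ := Real.sin P.νB ^ 2
noncomputable def sg (P : EP) : ℝ := (P.eA + P.eB) / 2
noncomputable def et (P : EP) : ℝ := (P.eB - P.eA) / 2
noncomputable def g (P : EP) : ℝ := Real.sqrt (P.h ^ 2 - P.A2 * P.B2)
noncomputable def hc (P : EP) : ℝ := P.h * (Real.cos (P.eA / 2) * Real.cos (P.eB / 2))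

noncomputable def K (P : EP) (s : ℝ) : ℝ := fs s (P.x - P.k)
noncomputable def E (P : EP) (s : ℝ) : ℝ := fs s (P.x + P.sg)
noncomputable def V (P : EP) (s : ℝ) : ℝ := fs s (P.x - P.sg)
noncomputable def R (P : EP) (s : ℝ) : ℝ := fs s (P.x + P.et)
noncomputable def C (P : EP) (s : ℝ) : ℝ := fs s (P.x - P.et)

noncomputable def q2 (P : EP) (s : ℝ) : ℝ :=
  P.a * P.K s + (P.h ^ 2 - P.A2) * (P.C s * (P.g + P.b * P.h)⁻¹) - s * (P.b * P.h * (wf P.νB P.eB * P.C (-s)))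
noncomputable def q3 (P : EP) (s : ℝ) : ℝ := P.g * P.C s + P.b * P.h * P.E s - P.a * P.B2 * P.K s
noncomputable def q4 (P : EP) (s : ℝ) : ℝ :=
  P.b * P.K s + (P.h ^ 2 - P.B2) * (P.R s * (P.g + P.a * P.h)⁻¹) - s * (P.a * P.h * (wf P.νA P.eA * P.R (-s)))
noncomputable def q5 (P : EP) (s : ℝ) : ℝ := P.g * P.R s + P.a * P.h * P.E s - P.b * P.A2 * P.K s
noncomputable def q8 (P : EP) (s : ℝ) : ℝ :=
  P.hc * (fs s P.x * (1 - rf P.νA P.eA * rpf P.νB P.eB) - s * ((rf P.νA P.eA + rpf P.νB P.eB) * fs (-s) P.x)) +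
    (1 - P.b) * (1 + P.a) * ((P.a * P.C s - P.b * P.R s) * (P.h + P.g)⁻¹ - P.K s)
noncomputable def q9 (P : EP) (s : ℝ) : ℝ :=
  P.hc * (fs s P.x * (1 - rf P.νB P.eB * rpf P.νA P.eA) - s * ((rf P.νB P.eB + rpf P.νA P.eA) * fs (-s) P.x)) +
    (1 - P.a) * (1 + P.b) * ((P.b * P.R s - P.a * P.C s) * (P.h + P.g)⁻¹ - P.K s)

noncomputable def ab (P : EP) : ℝ := P.a * P.b

noncomputable def DD (P : EP) : ℝ :=
  P.ab ^ 2 * Real.cos (2 * (P.k - P.x)) + P.h ^ 2 * Real.cos (2 * (P.x + P.sg)) +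
    2 * (P.ab * P.h * Real.cos (2 * P.x - P.k + P.sg))

/-- The symmetric part. -/
noncomputable def X (P : EP) : ℝ :=
  1 + P.ab ^ 2 + 2 * (P.ab * Real.cos (2 * P.et)) +
    P.h ^ 2 * (1 - 4 * (P.ab * (wf P.νA P.eA * wf P.νB P.eB))) +
    2 * (P.h * (Real.cos (P.k - P.sg) + P.ab * Real.cos (P.k + P.sg)))

/-- The antisymmetric part. -/
noncomputable def Y (P : EP) : ℝ :=
  P.a ^ 2 * Real.sin (2 * (P.x - P.et)) + P.b ^ 2 * Real.sin (2 * (P.x + P.et)) +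
    P.A2 * P.B2 * Real.sin (2 * P.x - 2 * P.k) + 2 * (P.ab * Real.sin (2 * P.x)) +
    P.h ^ 2 * (Real.cos P.eA * Real.cos P.eB * ((1 - yf P.νA P.eA * yf P.νB P.eB) * Real.sin (2 * P.x) -
      (yf P.νA P.eA + yf P.νB P.eB) * Real.cos (2 * P.x))) +
    2 * (P.h * (Real.sin (2 * P.x - (P.sg + P.k)) + P.ab * Real.sin (2 * P.x + P.sg - P.k)))

end EP

/-- The conditions tested by the checker. -/
structure REdge (P : EP) : Prop where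
  h0 : 0 < P.h
  rs : P.A2 * P.B2 < P.h ^ 2
  a0 : 0 < P.a
  b0 : 0 < P.b
  cA : 0 < Real.cos P.eA
  cB : 0 < Real.cos P.eB
  K : 0 < P.K 1 ∧ 0 < P.K (-1)
  E : 0 < P.E 1 ∧ 0 < P.E (-1)
  V : 0 < P.V 1 ∧ 0 < P.V (-1)
  R : 0 < P.R 1 ∧ 0 < P.R (-1)
  C : 0 < P.C 1 ∧ 0 < P.C (-1)
  q2 : 0 < P.q2 1 ∧ 0 < P.q2 (-1)
  q3 : 0 < P.q3 1 ∧ 0 < P.q3 (-1)
  q4 : 0 < P.q4 1 ∧ 0 < P.q4 (-1)
  q5 : 0 < P.q5 1 ∧ 0 < P.q5 (-1)
  q8 : 0 < P.q8 1 ∧ 0 < P.q8 (-1)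
  q9 : 0 < P.q9 1 ∧ 0 < P.q9 (-1)
  Z : 0 < P.X - P.Y ∧ 0 < P.X + P.Y
  dl : |2 * P.x - 2 / 3 * P.k| ≤ 1
  main : 3 * Real.cos (2 * P.x - 2 / 3 * P.k) < P.DD +
    (Real.sqrt ((P.X - P.Y) * (P.X + P.Y)) +
      Real.sqrt (P.q8 1 * P.q8 (-1) * (P.q9 1 * P.q9 (-1)))) / 2 +
    (Real.sqrt (P.q2 1 * P.q2 (-1) * (P.q3 1 * P.q3 (-1))) +
      Real.sqrt (P.q4 1 * P.q4 (-1) * (P.q5 1 * P.q5 (-1))))

/-- The edge of `EdgeGood`. -/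
noncomputable def EP.H (P : EP) : ℝ := P.h / (Real.sin P.νA * Real.sin P.νB)

/-- `EdgeGood` for the data `P`. -/
def EGP (P : EP) : Prop := EdgeGood P.νA P.νB P.k P.sg P.et P.H P.x

/-- `W_A` is elliptic if `fA < 1`. -/
def fA (cp cq cr u : ℝ) : ℝ := cr ^ 2 + 4 * (cp ^ 2 * cq ^ 2) + 4 * (cp * (cq * cr) * u)

/-- real part of the trace of `W_B`, `u = cos θ` -/
def reB (cp cq cr u : ℝ) : ℝ := 3 - 4 * (cp ^ 2 + (cq ^ 2 + cr ^ 2)) - 8 * (cp * (cq * cr) * u)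

/-- square of the imaginary part of the trace of `W_B` -/
def im2B (cp cq cr u : ℝ) : ℝ := 64 * ((cp * (cq * cr)) ^ 2 * (1 - u ^ 2))

/-- `W_B` is elliptic if `fB < 0` (`|τ|⁴ - 8 Re τ³ + 18 |τ|² - 27`). -/
def fB (cp cq cr u : ℝ) : ℝ :=
  (reB cp cq cr u ^ 2 + im2B cp cq cr u) ^ 2 -
    8 * (reB cp cq cr u * (reB cp cq cr u ^ 2 - 3 * im2B cp cq cr u)) +
    18 * (reB cp cq cr u ^ 2 + im2B cp cq cr u) - 27

end Pool.Agent.Work.MP_88b7aa_gt.CH
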