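import Pool.Agent.Work.MP_88b7aa_gt.CH.FrR
import Pool.Agent.Work.MP_88b7aa_gt.CH.Real

/-!
# `W_A` is elliptic if `fA < 1`.  Size: M.

PROOF.  `I₂ I₃ I₂ = refl u` with `u = refl (n 1) (n 2)` (`refl (A n) = A refl n A⁻¹` for an isometry `A`; directly:
`refl (n 1) * refl (n 2) * refl (n 1) z = -z + 2⟨z,u⟩u` by `refl_mulVec`, `refl_herm`, `refl_sq`).  So `WA n = refl (n 0) * refl u`,
`u = -n 2 + 2 ⟨n 2, n 1⟩ n 1`, `herm u u = 1`, and `⟨n 0, u⟩ = -⟨n 0, n 2⟩ + 2 conj ⟨n 2, n 1⟩ ⟨n 0, n 1⟩ = -⟨n 0,n 2⟩ + 2 ⟨n 1,n 2⟩⟨n 0,n 1⟩`,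
`|⟨n 0,u⟩|² = c_r² + 4 c_p² c_q² - 4 Re (⟨n 0,n 1⟩⟨n 1,n 2⟩ conj ⟨n 0,n 2⟩) = c_r² + 4c_p²c_q² + 4 c_p c_q c_r cos θ`
(`hT.angle`; `conj ⟨n 0, n 2⟩ = ⟨n 2, n 0⟩`) `= fA < 1`.
If unit vectors `m, m'` satisfy `|⟨m,m'⟩| < 1`, then `v = cr m m'` is negative (`cr_herm`: `herm v v = -(1 - |⟨m,m'⟩|²)`), orthogonal to `m`
and `m'` (`herm_cr` with a repeated row), so `refl m' v = -v`, `refl m v = -v` and `refl m * refl m' v = v`: take `z = v`, `μ = 1`.
Only `herm (n i) (n i) = 1` and the moduli are used; nothing about `p, q, r`.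
-/

namespace Pool.Agent.Work.MP_88b7aa_gt.CH

open ComplexConjugate Complex

theorem ellA_conj (z w : Fin 3 → ℂ) : herm w z = conj (herm z w) := by
  unfold herm
  simp only [map_sub, map_add, map_mul, conj_conj]
  ring

theorem ellA_smul_add (z a b : Fin 3 → ℂ) (k : ℂ) : herm z (-a + k • b) = -herm z a + conj k * herm z b := by
  unfold herm
  simp only [Pi.add_apply, Pi.neg_apply, Pi.smul_apply, smul_eq_mul, map_add, map_neg, map_mul]
  ring

/-- a vector orthogonal to a unit vector is multiplied by `-1` -/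
theorem ellA_neg (n v : Fin 3 → ℂ) (h : herm v n = 0) : (refl n).mulVec v = -v := by
  rw [refl_mulVec, h]
  simp

theorem ellA_aux (m n1 n2 : Fin 3 → ℂ) (hm : herm m m = 1) (h1 : herm n1 n1 = 1) (h2 : herm n2 n2 = 1)
    (h : Complex.normSq (herm m ((refl n1).mulVec n2)) < 1) :
    ∃ z : Fin 3 → ℂ, (herm z z).re < 0 ∧ ∃ μ : ℂ,
      (refl m * refl n1 * refl n2 * refl n1).mulVec z = μ • z := by
  set u := (refl n1).mulVec n2 with hu
  have huu : herm u u = 1 := by rw [hu, refl_herm n1 n2 n2 h1, h2]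
  set v := cr m u with hv
  have hvm : herm v m = 0 := by
    rw [ellA_conj m v, hv, herm_cr, Matrix.det_zero_of_row_eq (i := 0) (j := 1) (by decide) (by
      ext k; simp), map_zero]
  have hvu : herm v u = 0 := by
    rw [ellA_conj u v, hv, herm_cr, Matrix.det_zero_of_row_eq (i := 0) (j := 2) (by decide) (by
      ext k; simp), map_zero]
  refine ⟨v, ?_, 1, ?_⟩
  · rw [hv, cr_herm, hm, huu, ellA_conj m u, mul_comm (conj _), Complex.mul_conj]
    rw [one_mul, Complex.neg_re, Complex.sub_re, Complex.one_re, Complex.ofReal_re]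
    linarith
  · have hsq : (refl n1).mulVec ((refl n1).mulVec v) = v := by
      rw [Matrix.mulVec_mulVec, refl_sq n1 h1, Matrix.one_mulVec]
    have h3 : herm ((refl n1).mulVec v) n2 = 0 := by
      rw [← refl_herm n1 _ _ h1, hsq, ← hu, hvu]
    rw [one_smul, ← Matrix.mulVec_mulVec, ← Matrix.mulVec_mulVec, ← Matrix.mulVec_mulVec,
      ellA_neg n2 _ h3, Matrix.mulVec_neg, hsq, Matrix.mulVec_neg, ellA_neg m v hvm, neg_neg]

theorem EllA (p q r : ℕ) (θ : ℝ) (n : Fin 3 → Fin 3 → ℂ) (hT : IsTriangle p q r θ n)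
    (h : fA (Real.cos (Real.pi / p)) (Real.cos (Real.pi / q)) (Real.cos (Real.pi / r)) (Real.cos θ) < 1) :
    Elliptic (WA n) := by
  refine ellA_aux (n 0) (n 1) (n 2) (hT.unit 0) (hT.unit 1) (hT.unit 2) ?_
  rw [refl_mulVec, ellA_smul_add]
  have e1 : herm (n 0) (n 2) = conj (herm (n 2) (n 0)) := ellA_conj _ _
  have e2 : conj (2 * herm (n 2) (n 1)) = 2 * herm (n 1) (n 2) := by
    rw [map_mul, ← ellA_conj, map_ofNat]
  rw [e1, e2, Complex.normSq_add, Complex.normSq_neg, Complex.normSq_conj, Complex.normSq_mul,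
    Complex.normSq_mul]
  have e3 : (-(conj (herm (n 2) (n 0))) * conj (2 * herm (n 1) (n 2) * herm (n 0) (n 1))).re =
      2 * (Real.cos (Real.pi / p) * Real.cos (Real.pi / q) * Real.cos (Real.pi / r) * Real.cos θ) := by
    have e4 : -(conj (herm (n 2) (n 0))) * conj (2 * herm (n 1) (n 2) * herm (n 0) (n 1)) =
        -(2 * conj (herm (n 0) (n 1) * herm (n 1) (n 2) * herm (n 2) (n 0))) := by
      simp only [map_mul, map_ofNat]
      ring
    rw [e4, hT.angle, Complex.neg_re, Complex.mul_re]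
    simp only [Complex.conj_re, Complex.conj_im, Complex.neg_re, Complex.neg_im, Complex.re_ofNat,
      Complex.im_ofNat, zero_mul, sub_zero, neg_mul]
    rw [Complex.re_ofReal_mul, Complex.exp_ofReal_mul_I_re]
    ring
  rw [e3]
  have n1 : Complex.normSq (herm (n 2) (n 0)) = Real.cos (Real.pi / r) ^ 2 := by
    rw [Complex.normSq_eq_norm_sq, hT.h31]
  have n2 : Complex.normSq (herm (n 1) (n 2)) = Real.cos (Real.pi / p) ^ 2 := by
    rw [Complex.normSq_eq_norm_sq, hT.h23]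
  have n3 : Complex.normSq (herm (n 0) (n 1)) = Real.cos (Real.pi / q) ^ 2 := by
    rw [Complex.normSq_eq_norm_sq, hT.h12]
  have n4 : Complex.normSq 2 = 4 := by
    rw [Complex.normSq_ofNat]
    norm_num
  rw [n1, n2, n3, n4]
  unfold fA at h
  linarith

end Pool.Agent.Work.MP_88b7aa_gt.CH
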