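import Pool.Agent.Work.MP_88b7aa_gt.CH.Rel

/-!
# The representation.  Size: S-M.

PROOF.  `CoxeterSystem.lift` for `cs = (mcox ..).toCoxeterSystem` and `f i = refl (n i)` (the target is a monoid): liftable means
`(f i * f j) ^ M i j = 1` for all `i, j`: `M i i = 1` and `refl_sq`; for `i ≠ j`: `refl_rel` with `m = M i j ∈ {p, q, r}` (`M 0 1 = q`,
`M 1 2 = p`, `M 2 0 = r`, symmetric), `‖herm (n i) (n j)‖` symmetric by `herm_conj`.  `CoxeterSystem.lift_apply_simple`.
Invariance of `herm`: the set of `g` with the property is closed under products and contains the generators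
(`CoxeterSystem.simple_induction` or `simple_induction_left`), `refl_herm`, `Matrix.mulVec_mulVec`.
-/

namespace Pool.Agent.Work.MP_88b7aa_gt.CH

open ComplexConjugate Complex

theorem Rep (p q r : ℕ) (hp : 3 ≤ p) (hq : 3 ≤ q) (hr : 3 ≤ r) (n : Fin 3 → Fin 3 → ℂ)
    (hu : ∀ i, herm (n i) (n i) = 1) (h01 : ‖herm (n 0) (n 1)‖ = Real.cos (Real.pi / q))
    (h12 : ‖herm (n 1) (n 2)‖ = Real.cos (Real.pi / p)) (h20 : ‖herm (n 2) (n 0)‖ = Real.cos (Real.pi / r)) :
    ∃ ρ : (mcox p q r (by omega) (by omega) (by omega)).Group →* Matrix (Fin 3) (Fin 3) ℂ,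
      (∀ i, ρ ((mcox p q r (by omega) (by omega) (by omega)).simple i) = refl (n i)) ∧
      ∀ g z w, herm ((ρ g).mulVec z) ((ρ g).mulVec w) = herm z w := by
  have hsymm : ∀ z w : Fin 3 → ℂ, ‖herm w z‖ = ‖herm z w‖ := by
    intro z w
    rw [← herm_conj z w, Complex.norm_conj]
  have h10 : ‖herm (n 1) (n 0)‖ = Real.cos (Real.pi / q) := by rw [hsymm, h01]
  have h21 : ‖herm (n 2) (n 1)‖ = Real.cos (Real.pi / p) := by rw [hsymm, h12]
  have h02 : ‖herm (n 0) (n 2)‖ = Real.cos (Real.pi / r) := by rw [hsymm, h20]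
  have hlift : (mcox p q r (by omega) (by omega) (by omega)).IsLiftable (fun i => refl (n i)) := by
    intro i j
    fin_cases i <;> fin_cases j
    · simpa [mcox] using refl_sq (n 0) (hu 0)
    · exact refl_rel _ _ (hu 0) (hu 1) q hq h01
    · exact refl_rel _ _ (hu 0) (hu 2) r hr h02
    · exact refl_rel _ _ (hu 1) (hu 0) q hq h10
    · simpa [mcox] using refl_sq (n 1) (hu 1)
    · exact refl_rel _ _ (hu 1) (hu 2) p hp h12
    · exact refl_rel _ _ (hu 2) (hu 0) r hr h20
    · exact refl_rel _ _ (hu 2) (hu 1) p hp h21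
    · simpa [mcox] using refl_sq (n 2) (hu 2)
  set cs := (mcox p q r (by omega) (by omega) (by omega)).toCoxeterSystem with hcs
  have hsimple : ∀ i, cs.lift ⟨_, hlift⟩
      ((mcox p q r (by omega) (by omega) (by omega)).simple i) = refl (n i) := by
    intro i
    have h := cs.lift_apply_simple hlift i
    rwa [hcs, CoxeterMatrix.toCoxeterSystem_simple] at h
  refine ⟨cs.lift ⟨_, hlift⟩, hsimple, ?_⟩
  intro g
  refine cs.simple_induction_left (p := fun g => ∀ z w,
    herm ((cs.lift ⟨_, hlift⟩ g).mulVec z) ((cs.lift ⟨_, hlift⟩ g).mulVec w) = herm z w) g ?_ ?_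
  · intro z w
    rw [map_one, Matrix.one_mulVec, Matrix.one_mulVec]
  · intro g i ih z w
    have h := cs.lift_apply_simple hlift i
    rw [map_mul, h, ← Matrix.mulVec_mulVec, ← Matrix.mulVec_mulVec, refl_herm _ _ _ (hu i), ih]

end Pool.Agent.Work.MP_88b7aa_gt.CH
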