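import Pool.Agent.Work.MP_88b7aa_gt.CH.PhiM

/-!
# A point of the ping-pong set.  Size: S-M.

PROOF.  `S = √(H²-1)`, `0 < S < H`.  Take `ζ = ½ (S/H) e^{-iε}`, `ε = σ - η`, and `c = (0, ζ, 1)`; `|ζ| < 1`, so `Neg c`.
`J Mᵀ = [e^{-ik},0,0; 0, -H e^{iσ}, S e^{iη}; 0, -S e^{-iη}, H e^{-iσ}]`, so `c' = ω (0, -H e^{iσ} ζ + S e^{iη}, -S e^{-iη} ζ + H e^{-iσ})`;
`e^{iσ} e^{-iε} = e^{iη}`: the second entry is `½ ω S e^{iη}`; `e^{-iη} e^{-iε} = e^{-iσ}`: the third one is `ω e^{-iσ} (H - S²/(2H))`, the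
bracket `q` is `> 0`.  Thus `c'1/c'2 = e^{i(σ+η)} S/(2q)`, of modulus `< 1` (`S H < 2H² - S²`), `c'` is negative.
For `c = (0, β c2, c2)` with `|β| < 1`, `Re β > 0`: `Phi c = (Re (β/s), 0)`, `s = sq (1 - β²)`.  Claim `Re (β/s) > 0`:
`β = p + iq`, `s = u + iv`, `u > 0` (`sq_re_pos`), `β² + s² = 1`: `pq + uv = 0` and `p² - q² + u² - v² = 1`;
`Re (β conj s) = pu + qv = p (u² - q²)/u` and `u² - q² = 1 - p² + v² > 0`.
Here `β = ζ` (`Re ζ = |ζ| cos (σ-η) > 0`), resp. `β = c'1/c'2` (`Re > 0` by `cos (σ+η) > 0`).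
-/

namespace Pool.Agent.Work.MP_88b7aa_gt.CH

open ComplexConjugate Complex Matrix

private theorem a0_key (β : ℂ) (hβ : ‖β‖ < 1) (hre : 0 < β.re) :
    0 < (β / sq (1 - β ^ 2)).re := by
  have hn : β.re * β.re + β.im * β.im < 1 := by
    have h1 : ‖β‖ ^ 2 < 1 := by
      have := norm_nonneg β
      nlinarith
    rw [← Complex.normSq_eq_norm_sq, Complex.normSq_apply] at h1
    exact h1
  have hu : 0 < (1 - β ^ 2).re := by
    have h2 : (1 - β ^ 2).re = 1 - (β.re * β.re - β.im * β.im) := by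
      simp [pow_two]
    rw [h2]
    nlinarith [mul_self_nonneg β.im]
  set s := sq (1 - β ^ 2) with hs
  have hs0 : 0 < s.re := sq_re_pos _ hu
  have hss : s * s = 1 - β ^ 2 := sq_mul_self _
  have e1 : s.re * s.re - s.im * s.im = 1 - (β.re * β.re - β.im * β.im) := by
    have := congrArg Complex.re hss
    simpa [pow_two] using this
  have e2 : s.re * s.im + s.im * s.re = -(β.re * β.im + β.im * β.re) := by
    have := congrArg Complex.im hss
    simpa [pow_two] using this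
  have hsn : 0 < Complex.normSq s := by
    rw [Complex.normSq_apply]
    nlinarith [mul_self_nonneg s.im, mul_pos hs0 hs0]
  rw [Complex.div_re]
  have h3 : 0 < β.re * s.re + β.im * s.im := by
    have h4 : s.re * (β.re * s.re + β.im * s.im) =
        β.re * (1 - β.re * β.re + s.im * s.im) := by
      have h5 : s.re * s.im = -(β.re * β.im) := by linarith
      have h6 : s.re * s.re = 1 - (β.re * β.re - β.im * β.im) + s.im * s.im := by linarith
      calc s.re * (β.re * s.re + β.im * s.im)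
          = β.re * (s.re * s.re) + β.im * (s.re * s.im) := by ring
        _ = β.re * (1 - β.re * β.re + s.im * s.im) := by rw [h5, h6]; ring
    have h7 : 0 < β.re * (1 - β.re * β.re + s.im * s.im) := by
      apply mul_pos hre
      nlinarith [mul_self_nonneg β.im, mul_self_nonneg s.im]
    rw [← h4] at h7
    exact (mul_pos_iff_of_pos_left hs0).1 h7
  have h8 : β.re * s.re / Complex.normSq s + β.im * s.im / Complex.normSq s =
      (β.re * s.re + β.im * s.im) / Complex.normSq s := by ring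
  rw [h8]
  exact div_pos h3 hsn

private theorem a0_phi (c : Fin 3 → ℂ) (h0 : c 0 = 0) (hβ : ‖c 1 / c 2‖ < 1)
    (hre : 0 < (c 1 / c 2).re) : (Phi c).im = 0 ∧ 0 < (Phi c).re := by
  constructor
  · show (c 0 / den c).re = 0
    rw [h0, zero_div, Complex.zero_re]
  · show 0 < (c 1 / den c).re
    have h : c 1 / den c = (c 1 / c 2) / sq (1 - (c 1 / c 2) ^ 2) := by
      unfold den
      rw [h0, zero_div, div_div]
      congr 3
      ring
    rw [h]
    exact a0_key _ hβ hre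

private theorem a0_exp (x : ℝ) : ‖exp ((x : ℝ) * I)‖ = 1 := Complex.norm_exp_ofReal_mul_I x

private theorem a0_exp_re (x : ℝ) : (exp ((x : ℝ) * I)).re = Real.cos x :=
  Complex.exp_ofReal_mul_I_re x

theorem A0p (k σ η H : ℝ) (hH : 1 < H) (cA : 0 < Real.cos (σ - η)) (cB : 0 < Real.cos (σ + η)) (ω : ℂ)
    (hω : ‖ω‖ = 1) :
    ∃ c : Fin 3 → ℂ, Neg c ∧ (Phi c).im = 0 ∧ 0 < (Phi c).re ∧
      (Phi (ω • (Jm * (edgeM k σ η H)ᵀ).mulVec c)).im = 0 ∧
      0 < (Phi (ω • (Jm * (edgeM k σ η H)ᵀ).mulVec c)).re := by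
  have hω0 : ω ≠ 0 := by
    intro h
    rw [h, norm_zero] at hω
    exact zero_ne_one hω
  set S := Real.sqrt (H ^ 2 - 1) with hS
  have hS2 : S ^ 2 = H ^ 2 - 1 := Real.sq_sqrt (by nlinarith)
  have hS0 : 0 < S := Real.sqrt_pos.2 (by nlinarith)
  have hSH : S < H := by nlinarith
  have hH0 : 0 < H := by linarith
  set q : ℝ := H - S ^ 2 / (2 * H) with hq
  have hq0 : S / 2 < q := by
    rw [hq, lt_sub_iff_add_lt, ← lt_sub_iff_add_lt', div_lt_iff₀ (by linarith)]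
    nlinarith
  have hq1 : 0 < q := by linarith
  set ζ : ℂ := ((S / (2 * H) : ℝ) : ℂ) * exp ((η - σ : ℝ) * I) with hζ
  set c : Fin 3 → ℂ := ![0, ζ, 1] with hc
  have hζn : ‖ζ‖ < 1 := by
    rw [hζ, norm_mul, a0_exp, mul_one, Complex.norm_real, Real.norm_eq_abs,
      abs_of_pos (by positivity), div_lt_one (by linarith)]
    linarith
  have hζr : 0 < ζ.re := by
    rw [hζ, Complex.re_ofReal_mul, a0_exp_re]
    apply mul_pos (by positivity)
    rw [← Real.cos_neg, neg_sub]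
    exact cA
  have c0 : c 0 = 0 := rfl
  have c1 : c 1 = ζ := rfl
  have c2 : c 2 = 1 := rfl
  have hP := a0_phi c c0 (by rw [c1, c2, div_one]; exact hζn)
    (by rw [c1, c2, div_one]; exact hζr)
  set d : Fin 3 → ℂ := ω • (Jm * (edgeM k σ η H)ᵀ).mulVec c with hd
  have d0 : d 0 = 0 := by
    rw [hd]
    simp [Jm, edgeM, Matrix.mulVec, dotProduct, Fin.sum_univ_three, Matrix.mul_apply,
      Matrix.diagonal, c0, c1, c2]
  have d1 : d 1 = ω * (-(H : ℂ) * exp ((σ : ℝ) * I) * ζ + (S : ℂ) * exp ((η : ℝ) * I)) := by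
    rw [hd]
    simp [Jm, edgeM, Matrix.mulVec, dotProduct, Fin.sum_univ_three, Matrix.mul_apply,
      Matrix.diagonal, c0, c1, c2, hS]
  have d2 : d 2 = ω * (-(S : ℂ) * exp ((-η : ℝ) * I) * ζ + (H : ℂ) * exp ((-σ : ℝ) * I)) := by
    rw [hd]
    simp [Jm, edgeM, Matrix.mulVec, dotProduct, Fin.sum_univ_three, Matrix.mul_apply,
      Matrix.diagonal, c0, c1, c2, hS]
    exact Or.inl (by ring)
  have hHC : (H : ℂ) ≠ 0 := by exact_mod_cast hH0.ne'
  have d1' : d 1 = ω * (((S / 2 : ℝ) : ℂ) * exp ((η : ℝ) * I)) := by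
    rw [d1, hζ]
    have h1 : exp ((σ : ℝ) * I) * exp ((η - σ : ℝ) * I) = exp ((η : ℝ) * I) := by
      rw [← Complex.exp_add]
      congr 1
      push_cast
      ring
    have h2 : -(H : ℂ) * exp ((σ : ℝ) * I) * (((S / (2 * H) : ℝ) : ℂ) * exp ((η - σ : ℝ) * I)) =
        -((S / 2 : ℝ) : ℂ) * exp ((η : ℝ) * I) := by
      rw [← h1]
      push_cast
      field_simp
    rw [h2]
    push_cast
    ring
  have d2' : d 2 = ω * ((q : ℂ) * exp ((-σ : ℝ) * I)) := by
    rw [d2, hζ]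
    have h1 : exp ((-η : ℝ) * I) * exp ((η - σ : ℝ) * I) = exp ((-σ : ℝ) * I) := by
      rw [← Complex.exp_add]
      congr 1
      push_cast
      ring
    have h2 : -(S : ℂ) * exp ((-η : ℝ) * I) * (((S / (2 * H) : ℝ) : ℂ) * exp ((η - σ : ℝ) * I)) =
        -((S ^ 2 / (2 * H) : ℝ) : ℂ) * exp ((-σ : ℝ) * I) := by
      rw [← h1]
      push_cast
      ring
    rw [h2, hq]
    push_cast
    ring
  have hqC : (q : ℂ) ≠ 0 := by exact_mod_cast hq1.ne'
  have hβ : d 1 / d 2 = ((S / (2 * q) : ℝ) : ℂ) * exp ((σ + η : ℝ) * I) := by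
    rw [d1', d2', mul_div_mul_left _ _ hω0]
    have h1 : exp ((η : ℝ) * I) = exp ((σ + η : ℝ) * I) * exp ((-σ : ℝ) * I) := by
      rw [← Complex.exp_add]
      congr 1
      push_cast
      ring
    rw [h1, div_eq_iff (mul_ne_zero hqC (Complex.exp_ne_zero _))]
    push_cast
    field_simp
  have hβn : ‖d 1 / d 2‖ < 1 := by
    rw [hβ, norm_mul, a0_exp, mul_one, Complex.norm_real, Real.norm_eq_abs,
      abs_of_pos (by positivity), div_lt_one (by linarith)]
    linarith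
  have hβr : 0 < (d 1 / d 2).re := by
    rw [hβ, Complex.re_ofReal_mul, a0_exp_re]
    exact mul_pos (by positivity) cB
  have hQ := a0_phi d d0 hβn hβr
  refine ⟨c, ?_, hP.1, hP.2, hQ.1, hQ.2⟩
  show (herm c c).re < 0
  unfold herm
  rw [c0, c1, c2, Complex.mul_conj ζ, map_one, Complex.normSq_eq_norm_sq]
  have h9 : ‖ζ‖ ^ 2 < 1 := by
    have := norm_nonneg ζ
    nlinarith
  have h10 : ((0 : ℂ) * conj (0 : ℂ) + ((‖ζ‖ ^ 2 : ℝ) : ℂ) - 1 * 1).re = ‖ζ‖ ^ 2 - 1 := by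
    rw [zero_mul, mul_one, zero_add, Complex.sub_re, Complex.ofReal_re, Complex.one_re]
  rw [h10]
  linarith

end Pool.Agent.Work.MP_88b7aa_gt.CH
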