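import Pool.Agent.Work.MP_88b7aa_gt.CH.PP

/-!
# Rotations move the double sector into the half plane.  Size: S-M.

Put `m = M i k`, `γ = π / (2m)`, `ν = ν i k ∈ (0, γ]`, `γ ≤ π/6`.

PROOF.
Step 1 (induction on `n`, for all pairs `i ≠ k`): `φ i k (act (alt k i n) y) = e^{2 i n γ} w` with
`w = φ i k y` (`n` even) or `w = φ k i y` (`n` odd).  Indeed `alt k i (n+1) = s_k * alt i k n`, and for all `z`:
`φ i k (s_k z) = e^{2iγ} conj (φ k i (s_k z)) = e^{2iγ} φ k i z` (`swap` for the pair `(k,i)`, `flip`; `M` is symmetric,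
`CoxeterMatrix.symmetric`), then use the induction hypothesis for the pair `(k, i)`.

Step 2.  Let `u = φ i k y`, `u' = φ k i y`; `u' = e^{2iγ} conj u`, `u = e^{2iγ} conj u'`.  For `w` one of them and `w'`
the other, `Im (e^{iν} w) > 0` and `0 < Im (e^{iν} w') = Im (conj (e^{-i(ν+2γ)} w)) = Im (e^{i(π-ν-2γ)} w)`.

Step 3.  We need `Im (e^{iω} w) > 0` for `ω = 2nγ - ν`.  As `1 ≤ n ≤ m - 1`, `2mγ = π` and `ν ≤ γ`:
`ν ≤ ω ≤ π - 2γ - ν`.  Identity:
`sin(π-2ν-2γ) Im (e^{iω} w) = sin(π-ν-2γ-ω) Im (e^{iν} w) + sin(ω-ν) Im (e^{i(π-ν-2γ)} w)`.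
The arguments `π-ν-2γ-ω` and `ω-ν` are in `[0, π)`, their sum `π-2ν-2γ` is in `(0, π)`, so both sines are `≥ 0`,
one of them is `> 0` and `sin(π-2ν-2γ) > 0`.  Finally `e^{-iν} φ i k (..) = e^{iω} w`.
-/

namespace Pool.Agent.Work.MP_88b7aa_gt.CH

open ComplexConjugate Complex

variable {W : Type*} [Group W] {M : CoxeterMatrix (Fin 3)}

private lemma imexp (θ : ℝ) (w : ℂ) :
    (exp ((θ : ℝ) * I) * w).im = Real.cos θ * w.im + Real.sin θ * w.re := by
  rw [Complex.mul_im, Complex.exp_ofReal_mul_I_re, Complex.exp_ofReal_mul_I_im]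

private lemma key {w w' : ℂ} {δ ν : ℝ} {m n : ℕ} (hm : 3 ≤ m) (hδ : δ = Real.pi / m) (hν : 0 < ν)
    (hνδ : ν ≤ Real.pi / (2 * m)) (hw : w' = exp ((δ : ℝ) * I) * conj w)
    (h1 : 0 < (exp ((ν : ℝ) * I) * w).im) (h2 : 0 < (exp ((ν : ℝ) * I) * w').im)
    (hn : 1 ≤ n) (hn' : n + 1 ≤ m) :
    0 < (exp ((-ν : ℝ) * I) * (exp (((n : ℝ) * δ : ℝ) * I) * w)).im := by
  have hpi := Real.pi_pos
  have hm3 : (3 : ℝ) ≤ m := by exact_mod_cast hm
  have hm0 : (0 : ℝ) < m := by linarith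
  have hδ0 : 0 < δ := by rw [hδ]; positivity
  have hmδ : (m : ℝ) * δ = Real.pi := by rw [hδ]; field_simp
  have hδ3 : 3 * δ ≤ Real.pi := by
    have := mul_le_mul_of_nonneg_right hm3 hδ0.le
    linarith
  have hνd : 2 * ν ≤ δ := by
    have h3 : Real.pi / (2 * (m : ℝ)) = δ / 2 := by rw [hδ]; field_simp
    rw [h3] at hνδ
    linarith
  have hn1 : (1 : ℝ) ≤ n := by exact_mod_cast hn
  have hn2 : (n : ℝ) + 1 ≤ m := by exact_mod_cast hn'
  have hnδ1 : δ ≤ n * δ := by nlinarith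
  have hnδ2 : (n : ℝ) * δ + δ ≤ Real.pi := by
    have := mul_le_mul_of_nonneg_right hn2 hδ0.le
    linarith
  -- the second hypothesis
  have e2 : (exp ((ν : ℝ) * I) * w').im = - (Real.cos (ν + δ) * w.im) + Real.sin (ν + δ) * w.re := by
    rw [hw, ← mul_assoc, ← Complex.exp_add, ← add_mul, ← Complex.ofReal_add, imexp,
      Complex.conj_im, Complex.conj_re]
    ring
  rw [imexp] at h1
  rw [e2] at h2
  rw [← mul_assoc, ← Complex.exp_add, ← add_mul, ← Complex.ofReal_add, imexp]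
  have hcn : Real.cos (-ν + n * δ) = Real.cos (n * δ) * Real.cos ν + Real.sin (n * δ) * Real.sin ν := by
    rw [show -ν + n * δ = n * δ - ν by ring, Real.cos_sub]
  have hsn : Real.sin (-ν + n * δ) = Real.sin (n * δ) * Real.cos ν - Real.cos (n * δ) * Real.sin ν := by
    rw [show -ν + n * δ = n * δ - ν by ring, Real.sin_sub]
  -- the identity
  have hid : Real.sin (Real.pi - 2 * ν - δ) *
        (Real.cos (-ν + n * δ) * w.im + Real.sin (-ν + n * δ) * w.re) =
      Real.sin (Real.pi - δ - n * δ) * (Real.cos ν * w.im + Real.sin ν * w.re) +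
      Real.sin (n * δ - 2 * ν) * (-(Real.cos (ν + δ) * w.im) + Real.sin (ν + δ) * w.re) := by
    rw [show Real.pi - 2 * ν - δ = Real.pi - (2 * ν + δ) by ring,
      show Real.pi - δ - n * δ = Real.pi - (n * δ + δ) by ring, Real.sin_pi_sub, Real.sin_pi_sub,
      hcn, hsn, Real.sin_add (2 * ν), Real.sin_add (n * δ), Real.sin_sub (n * δ), Real.sin_add ν,
      Real.cos_add ν, Real.sin_two_mul, Real.cos_two_mul]
    have h5 : Real.sin ν ^ 2 = 1 - Real.cos ν ^ 2 := by
      have := Real.sin_sq_add_cos_sq ν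
      linarith
    ring_nf
    simp only [h5]
    ring
  have hpos : 0 < Real.sin (Real.pi - 2 * ν - δ) :=
    Real.sin_pos_of_pos_of_lt_pi (by linarith) (by linarith)
  have hb : 0 ≤ Real.sin (n * δ - 2 * ν) :=
    Real.sin_nonneg_of_nonneg_of_le_pi (by linarith) (by linarith)
  have ha : 0 ≤ Real.sin (Real.pi - δ - n * δ) :=
    Real.sin_nonneg_of_nonneg_of_le_pi (by linarith) (by linarith)
  have hsum : 0 < Real.sin (Real.pi - δ - n * δ) * (Real.cos ν * w.im + Real.sin ν * w.re) +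
      Real.sin (n * δ - 2 * ν) * (-(Real.cos (ν + δ) * w.im) + Real.sin (ν + δ) * w.re) := by
    rcases (show 0 ≤ Real.pi - δ - n * δ by linarith).eq_or_lt with h7 | h7
    · have h8 : 0 < Real.sin (n * δ - 2 * ν) :=
        Real.sin_pos_of_pos_of_lt_pi (by linarith) (by linarith)
      have h9 := mul_pos h8 h2
      have h10 := mul_nonneg ha h1.le
      linarith
    · have h8 : 0 < Real.sin (Real.pi - δ - n * δ) :=
        Real.sin_pos_of_pos_of_lt_pi h7 (by linarith)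
      have h9 := mul_pos h8 h1
      have h10 := mul_nonneg hb h2.le
      linarith
  rw [← hid] at hsum
  exact (mul_pos_iff_of_pos_left hpos).1 hsum

private lemma rotAlt {cs : CoxeterSystem M W} {X : Type*} {act : W → X → X} {φ : Fin 3 → Fin 3 → X → ℂ}
    {ν : Fin 3 → Fin 3 → ℝ} (h : PPHyp cs act φ ν) (n : ℕ) : ∀ (i k : Fin 3), i ≠ k → ∀ y : X,
    φ i k (act (alt cs k i n) y) =
      exp ((((n : ℝ) * (Real.pi / M i k) : ℝ)) * I) * (if Even n then φ i k y else φ k i y) := by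
  induction n with
  | zero =>
    intro i k hik y
    simp [alt, h.act_one]
  | succ n ih =>
    intro i k hik y
    have h0 : alt cs k i (n + 1) = cs.simple k * alt cs i k n := rfl
    have hM : M k i = M i k := M.symmetric k i
    rw [h0, h.act_mul, h.swap k i _ hik.symm, h.flip k i _ hik.symm, Complex.conj_conj,
      ih k i hik.symm y, ← mul_assoc, ← Complex.exp_add, ← add_mul, ← Complex.ofReal_add, hM]
    have e1 : Real.pi / (M i k : ℝ) + (n : ℝ) * (Real.pi / (M i k : ℝ)) =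
        ((n + 1 : ℕ) : ℝ) * (Real.pi / (M i k : ℝ)) := by push_cast; ring
    rw [e1]
    congr 1
    by_cases hn : Even n
    · rw [if_pos hn, if_neg (by rw [Nat.even_add_one]; exact not_not.2 hn)]
    · rw [if_neg hn, if_pos (Nat.even_add_one.2 hn)]

theorem RotL {cs : CoxeterSystem M W} {X : Type*} {act : W → X → X} {φ : Fin 3 → Fin 3 → X → ℂ}
    {ν : Fin 3 → Fin 3 → ℝ} (h : PPHyp cs act φ ν) (i k : Fin 3) (hik : i ≠ k) (y : X)
    (h1 : 0 < (exp ((ν i k : ℝ) * I) * φ i k y).im) (h2 : 0 < (exp ((ν i k : ℝ) * I) * φ k i y).im)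
    (n : ℕ) (hn : 1 ≤ n) (hn' : n + 1 ≤ M i k) :
    0 < (exp ((-ν i k : ℝ) * I) * φ i k (act (alt cs k i n) y)).im := by
  have hM : M k i = M i k := M.symmetric k i
  rw [rotAlt h n i k hik y]
  by_cases hn0 : Even n
  · rw [if_pos hn0]
    exact key (h.m3 i k hik) rfl (h.npos i k hik) (h.nle i k hik) (h.swap i k y hik) h1 h2 hn hn'
  · rw [if_neg hn0]
    have hs := h.swap k i y hik.symm
    rw [hM] at hs
    exact key (h.m3 i k hik) rfl (h.npos i k hik) (h.nle i k hik) hs h2 h1 hn hn'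


end Pool.Agent.Work.MP_88b7aa_gt.CH
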