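import Pool.Agent.Work.MP_88b7aa_gt.CH.Dec
import Pool.Agent.Work.MP_88b7aa_gt.CH.RotL

/-!
# The main induction of the ping-pong.  Size: S-M.

PROOF of `ClQ` by strong induction on `cs.length g`, for all pairs `i ≠ j`.
`g = 1`: hypothesis `hx` for `(i,j)` and `(j,i)` (and `ν i j = ν j i`).
`g ≠ 1`: `g` has a left descent `k` (`CoxeterSystem.exists_leftDescent_of_ne_one`); as `i, j ∉ D(g)`, `k` is the third index.
`Dec` for `(i, k)`: `g = alt k i n * g'`, `1 ≤ n`, `n + 1 ≤ M i k`, `i, k ∉ D(g')`, `l g' < l g`.  The induction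
hypothesis for `(i,k)` and `g'` gives the two hypotheses of `RotL` at `y = act g' x`, so
`0 < Im (e^{-iν i k} φ i k (act g x))`, and `h.hs i j k` gives `0 < Im (e^{iν i j} φ i j (act g x))`.
Exchange the roles of `i` and `j` (`Dec` for `(j, k)`, `h.hs j i k`, `nsymm`) for the second inequality.

PROOF of `DescPos`: `Dec` for `(i,k)`, then `ClQ` for `g'` and the pair `(i,k)`, then `RotL` at `y = act g' x`.
-/

namespace Pool.Agent.Work.MP_88b7aa_gt.CH

open ComplexConjugate Complex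

variable {W : Type*} [Group W] {M : CoxeterMatrix (Fin 3)}

/-- Left descents of `g`: the case where `g` has a left descent `k` and `i` is none. -/
private theorem clq_step {cs : CoxeterSystem M W} {X : Type*} {act : W → X → X} {φ : Fin 3 → Fin 3 → X → ℂ}
    {ν : Fin 3 → Fin 3 → ℝ} (h : PPHyp cs act φ ν) (x : X) (g : W)
    (IH : ∀ g' : W, cs.length g' < cs.length g → ∀ i k : Fin 3, i ≠ k →
      ¬ cs.IsLeftDescent g' i → ¬ cs.IsLeftDescent g' k →
      0 < (exp ((ν i k : ℝ) * I) * φ i k (act g' x)).im ∧ 0 < (exp ((ν i k : ℝ) * I) * φ k i (act g' x)).im)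
    (i k : Fin 3) (hik : i ≠ k)
    (hi : ¬ cs.IsLeftDescent g i) (hk : cs.IsLeftDescent g k) :
    0 < (exp ((-ν i k : ℝ) * I) * φ i k (act g x)).im := by
  have hm : 3 ≤ M i k := h.m3 i k hik
  obtain ⟨n, g', hn1, hn2, hg, hl, hi', hk'⟩ := Dec cs i k hik (by omega) g hi hk
  obtain ⟨h1, h2⟩ := IH g' (by omega) i k hik hi' hk'
  have h3 := RotL h i k hik (act g' x) h1 h2 n hn1 hn2
  rw [hg, h.act_mul]
  exact h3

theorem ClQ {cs : CoxeterSystem M W} {X : Type*} {act : W → X → X} {φ : Fin 3 → Fin 3 → X → ℂ}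
    {ν : Fin 3 → Fin 3 → ℝ} (h : PPHyp cs act φ ν) (x : X)
    (hx : ∀ i j, i ≠ j → 0 < (exp ((ν i j : ℝ) * I) * φ i j x).im) (g : W) (i j : Fin 3) (hij : i ≠ j)
    (hi : ¬ cs.IsLeftDescent g i) (hj : ¬ cs.IsLeftDescent g j) :
    0 < (exp ((ν i j : ℝ) * I) * φ i j (act g x)).im ∧ 0 < (exp ((ν i j : ℝ) * I) * φ j i (act g x)).im := by
  induction hN : cs.length g using Nat.strong_induction_on generalizing g i j with
  | _ N ih =>
    subst hN
    by_cases hg : g = 1
    · subst hg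
      rw [h.act_one]
      refine ⟨hx i j hij, ?_⟩
      have h2 := hx j i hij.symm
      rw [h.nsymm j i] at h2
      exact h2
    · obtain ⟨k, hk⟩ := cs.exists_leftDescent_of_ne_one hg
      have hik : i ≠ k := fun e => hi (e ▸ hk)
      have hjk : j ≠ k := fun e => hj (e ▸ hk)
      have IH : ∀ g' : W, cs.length g' < cs.length g → ∀ i k : Fin 3, i ≠ k →
          ¬ cs.IsLeftDescent g' i → ¬ cs.IsLeftDescent g' k →
          0 < (exp ((ν i k : ℝ) * I) * φ i k (act g' x)).im ∧
            0 < (exp ((ν i k : ℝ) * I) * φ k i (act g' x)).im := by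
        intro g' hl' a b hab ha hb
        exact ih (cs.length g') hl' g' a b hab ha hb rfl
      have h1 := clq_step h x g IH i k hik hi hk
      have h2 := clq_step h x g IH j k hjk hj hk
      refine ⟨h.hs i j k (act g x) hij hik hjk h1, ?_⟩
      have h3 := h.hs j i k (act g x) hij.symm hjk hik h2
      rw [h.nsymm j i] at h3
      exact h3


theorem DescPos {cs : CoxeterSystem M W} {X : Type*} {act : W → X → X} {φ : Fin 3 → Fin 3 → X → ℂ}
    {ν : Fin 3 → Fin 3 → ℝ} (h : PPHyp cs act φ ν) (x : X)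
    (hx : ∀ i j, i ≠ j → 0 < (exp ((ν i j : ℝ) * I) * φ i j x).im) (g : W) (i k : Fin 3) (hik : i ≠ k)
    (hi : ¬ cs.IsLeftDescent g i) (hk : cs.IsLeftDescent g k) :
    0 < (exp ((-ν i k : ℝ) * I) * φ i k (act g x)).im := by
  exact clq_step h x g (fun g' _ a b hab ha hb => ClQ h x hx g' a b hab ha hb) i k hik hi hk

end Pool.Agent.Work.MP_88b7aa_gt.CH
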