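import Pool.Agent.Work.MP_88b7aa_gt.CH.ClQ

/-!
# Ping-pong: the set `A` meets `g A` only for `g = 1, s_0`.  Size: S-M.

PROOF.
(a) `A` is invariant under `s_0`: `φ 0 j (s_0 x) = conj (φ 0 j x)` and `Im (e^{iν} conj w) = - Im (e^{-iν} w)`.
(b) `x ∈ A` implies `hx : ∀ i j, i ≠ j → 0 < Im (e^{iν i j} φ i j x)`.  Put `w = φ 0 j x`, `γ = π/(2 M 0 j)`, `ν = ν 0 j`,
`0 < ν ≤ γ ≤ π/6`.
 * pairs `(0,j)`: by definition.
 * pairs `(j,0)`: `φ j 0 x = e^{2iγ} conj w`, so `Im (e^{iν} φ j 0 x) = - Im (e^{-i(ν+2γ)} w)` and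
   `sin(2ν) e^{-i(ν+2γ)} = sin(2ν+2γ) e^{-iν} - sin(2γ) e^{iν}`, so
   `- sin(2ν) Im (e^{-i(ν+2γ)} w) = - sin(2ν+2γ) Im (e^{-iν} w) + sin(2γ) Im (e^{iν} w) > 0`.
 * pairs `(j,k)` with `j, k ≠ 0`: by `h.hs j k 0` it is enough that `0 < Im (e^{-iν} φ j 0 x) = - Im (e^{-i(2γ-ν)} w)`, and
   `sin(2ν) e^{-i(2γ-ν)} = sin(2γ) e^{-iν} - sin(2γ-2ν) e^{iν}`, so
   `- sin(2ν) Im (e^{-i(2γ-ν)} w) = - sin(2γ) Im (e^{-iν} w) + sin(2γ-2ν) Im (e^{iν} w) > 0`.
(c) Let `x, g x ∈ A` and `g ≠ 1, s_0`.  If `0 ∈ D(g)` replace `g` by `s_0 g` (`0 ∉ D(s_0 g)`, `s_0 g ≠ 1`, `s_0 g x ∈ A` by (a)).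
So `0 ∉ D(g)`, `g ≠ 1`; choose a left descent `k` of `g` (`exists_leftDescent_of_ne_one`), `k ≠ 0`.  `DescPos` for `(0,k)` gives
`0 < Im (e^{-iν 0 k} φ 0 k (g x))`, which contradicts `g x ∈ A`.
-/

namespace Pool.Agent.Work.MP_88b7aa_gt.CH

open ComplexConjugate Complex

variable {W : Type*} [Group W] {M : CoxeterMatrix (Fin 3)}

private theorem im_exp (t : ℝ) (w : ℂ) :
    (exp ((t : ℝ) * I) * w).im = Real.sin t * w.re + Real.cos t * w.im := by
  rw [Complex.mul_im, Complex.exp_ofReal_mul_I_re, Complex.exp_ofReal_mul_I_im]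
  ring

private theorem im_exp_neg (t : ℝ) (w : ℂ) :
    (exp ((-t : ℝ) * I) * w).im = -Real.sin t * w.re + Real.cos t * w.im := by
  rw [im_exp, Real.sin_neg, Real.cos_neg]

private theorem im_exp_neg' (t : ℝ) (w : ℂ) :
    (exp ((-(t : ℂ)) * I) * w).im = -Real.sin t * w.re + Real.cos t * w.im := by
  have := im_exp_neg t w
  push_cast at this
  exact this

private theorem lem1 (a b ν γ : ℝ) (h1 : 0 < Real.sin ν * a + Real.cos ν * b)
    (h2 : 0 < Real.sin ν * a - Real.cos ν * b) (hν : 0 < ν) (hνγ : ν ≤ γ) (hγ : γ ≤ Real.pi / 6) :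
    0 < Real.sin (ν + 2 * γ) * a - Real.cos (ν + 2 * γ) * b := by
  have hpi := Real.pi_pos
  have s1 : 0 < Real.sin (2 * ν) := Real.sin_pos_of_pos_of_lt_pi (by linarith) (by linarith)
  have s2 : 0 < Real.sin (2 * ν + 2 * γ) := Real.sin_pos_of_pos_of_lt_pi (by linarith) (by linarith)
  have s3 : 0 < Real.sin (2 * γ) := Real.sin_pos_of_pos_of_lt_pi (by linarith) (by linarith)
  have key : Real.sin (2 * ν) * (Real.sin (ν + 2 * γ) * a - Real.cos (ν + 2 * γ) * b) =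
      Real.sin (2 * ν + 2 * γ) * (Real.sin ν * a - Real.cos ν * b) +
        Real.sin (2 * γ) * (Real.sin ν * a + Real.cos ν * b) := by
    rw [Real.sin_add ν, Real.cos_add ν, Real.sin_add (2 * ν), Real.sin_two_mul ν, Real.cos_two_mul ν]
    have hs := Real.sin_sq_add_cos_sq ν
    have e : Real.sin ν ^ 2 = 1 - Real.cos ν ^ 2 := by linarith
    ring_nf
    rw [e]
    ring
  have : 0 < Real.sin (2 * ν) * (Real.sin (ν + 2 * γ) * a - Real.cos (ν + 2 * γ) * b) := by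
    rw [key]
    exact add_pos (mul_pos s2 h2) (mul_pos s3 h1)
  exact (pos_iff_pos_of_mul_pos this).mp s1

private theorem lem2 (a b ν γ : ℝ) (h1 : 0 < Real.sin ν * a + Real.cos ν * b)
    (h2 : 0 < Real.sin ν * a - Real.cos ν * b) (hν : 0 < ν) (hνγ : ν ≤ γ) (hγ : γ ≤ Real.pi / 6) :
    0 < Real.sin (2 * γ - ν) * a - Real.cos (2 * γ - ν) * b := by
  have hpi := Real.pi_pos
  have s1 : 0 < Real.sin (2 * ν) := Real.sin_pos_of_pos_of_lt_pi (by linarith) (by linarith)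
  have s2 : 0 ≤ Real.sin (2 * γ - 2 * ν) :=
    Real.sin_nonneg_of_nonneg_of_le_pi (by linarith) (by linarith)
  have s3 : 0 < Real.sin (2 * γ) := Real.sin_pos_of_pos_of_lt_pi (by linarith) (by linarith)
  have key : Real.sin (2 * ν) * (Real.sin (2 * γ - ν) * a - Real.cos (2 * γ - ν) * b) =
      Real.sin (2 * γ) * (Real.sin ν * a - Real.cos ν * b) +
        Real.sin (2 * γ - 2 * ν) * (Real.sin ν * a + Real.cos ν * b) := by
    rw [Real.sin_sub (2 * γ) ν, Real.cos_sub (2 * γ) ν, Real.sin_sub (2 * γ) (2 * ν),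
      Real.sin_two_mul ν, Real.cos_two_mul ν]
    have hs := Real.sin_sq_add_cos_sq ν
    have e : Real.sin ν ^ 2 = 1 - Real.cos ν ^ 2 := by linarith
    ring_nf
    rw [e]
    ring
  have : 0 < Real.sin (2 * ν) * (Real.sin (2 * γ - ν) * a - Real.cos (2 * γ - ν) * b) := by
    rw [key]
    exact add_pos_of_pos_of_nonneg (mul_pos s3 h2) (mul_nonneg s2 h1.le)
  exact (pos_iff_pos_of_mul_pos this).mp s1

/-- `A` is invariant under `s_0` -/
private theorem inA_s0 {cs : CoxeterSystem M W} {X : Type*} {act : W → X → X}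
    {φ : Fin 3 → Fin 3 → X → ℂ} {ν : Fin 3 → Fin 3 → ℝ} (h : PPHyp cs act φ ν) (y : X)
    (hy : InA φ ν y) : InA φ ν (act (cs.simple 0) y) := by
  intro j hj
  obtain ⟨h1, h2⟩ := hy j hj
  rw [h.flip 0 j y hj.symm]
  rw [im_exp] at h1
  rw [im_exp_neg] at h2
  rw [im_exp, im_exp_neg, Complex.conj_re, Complex.conj_im]
  constructor <;> linarith

/-- all the hypotheses of the main induction hold on `A` -/
private theorem inA_hx {cs : CoxeterSystem M W} {X : Type*} {act : W → X → X}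
    {φ : Fin 3 → Fin 3 → X → ℂ} {ν : Fin 3 → Fin 3 → ℝ} (h : PPHyp cs act φ ν) (x : X)
    (hx : InA φ ν x) : ∀ i j, i ≠ j → 0 < (exp ((ν i j : ℝ) * I) * φ i j x).im := by
  have main : ∀ j : Fin 3, j ≠ 0 → 0 < (exp ((ν j 0 : ℝ) * I) * φ j 0 x).im ∧
      0 < (exp ((-ν j 0 : ℝ) * I) * φ j 0 x).im := by
    intro j hj
    obtain ⟨h1, h2⟩ := hx j hj
    rw [im_exp] at h1
    rw [im_exp_neg] at h2
    have hs := h.swap 0 j x hj.symm
    have hn := h.npos 0 j hj.symm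
    have hle := h.nle 0 j hj.symm
    have hm : (3 : ℝ) ≤ (M 0 j : ℝ) := by exact_mod_cast h.m3 0 j hj.symm
    have hM0 : (0 : ℝ) < (M 0 j : ℝ) := by linarith
    have hpi := Real.pi_pos
    have h6 : Real.pi / (2 * (M 0 j : ℝ)) ≤ Real.pi / 6 := by
      refine div_le_div_of_nonneg_left hpi.le (by norm_num) (by linarith)
    have hγ2 : Real.pi / (M 0 j : ℝ) = 2 * (Real.pi / (2 * (M 0 j : ℝ))) := by
      field_simp
    set γ := Real.pi / (2 * (M 0 j : ℝ)) with hγ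
    set w := φ 0 j x with hw
    have h2' : 0 < Real.sin (ν 0 j) * w.re - Real.cos (ν 0 j) * w.im := by linarith
    have l1 := lem1 w.re w.im (ν 0 j) γ h1 h2' hn hle h6
    have l2 := lem2 w.re w.im (ν 0 j) γ h1 h2' hn hle h6
    have e1 : ∀ t : ℝ, exp ((t : ℝ) * I) * φ j 0 x =
        exp (((t + 2 * γ : ℝ) : ℂ) * I) * conj w := by
      intro t
      rw [hs, ← mul_assoc, ← Complex.exp_add, ← hγ2]
      congr 2
      push_cast
      ring
    rw [h.nsymm j 0, e1, e1, im_exp, im_exp, Complex.conj_re, Complex.conj_im]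
    have e2 : -ν 0 j + 2 * γ = 2 * γ - ν 0 j := by ring
    rw [e2]
    constructor <;> linarith
  intro i j hij
  by_cases hi : i = 0
  · subst hi
    exact (hx j hij.symm).1
  · by_cases hj : j = 0
    · subst hj
      exact (main i hi).1
    · exact h.hs i j 0 x hij hi hj (main i hi).2

private theorem PPF_aux {cs : CoxeterSystem M W} {X : Type*} {act : W → X → X}
    {φ : Fin 3 → Fin 3 → X → ℂ} {ν : Fin 3 → Fin 3 → ℝ} (h : PPHyp cs act φ ν) (x : X) (g : W)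
    (hx : InA φ ν x) (hg : InA φ ν (act g x)) (h0 : ¬ cs.IsLeftDescent g 0) : g = 1 := by
  by_contra hg1
  obtain ⟨k, hk⟩ := cs.exists_leftDescent_of_ne_one hg1
  have hk0 : k ≠ 0 := by
    rintro rfl
    exact h0 hk
  have h1 := DescPos h x (inA_hx h x hx) g 0 k hk0.symm h0 hk
  exact absurd h1 (not_lt.mpr (hg k hk0).2.le)

theorem PPF {cs : CoxeterSystem M W} {X : Type*} {act : W → X → X} {φ : Fin 3 → Fin 3 → X → ℂ}
    {ν : Fin 3 → Fin 3 → ℝ} (h : PPHyp cs act φ ν) (x : X) (g : W) (hx : InA φ ν x) (hg : InA φ ν (act g x)) :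
    g = 1 ∨ g = cs.simple 0 := by
  by_cases h0 : cs.IsLeftDescent g 0
  · right
    have h1 : ¬ cs.IsLeftDescent (cs.simple 0 * g) 0 := by
      rw [← cs.isLeftDescent_iff_not_isLeftDescent_mul]
      exact h0
    have h2 : InA φ ν (act (cs.simple 0 * g) x) := by
      rw [h.act_mul]
      exact inA_s0 h _ hg
    have h3 := PPF_aux h x (cs.simple 0 * g) hx h2 h1
    have h4 : cs.simple 0 * (cs.simple 0 * g) = g := by
      rw [← mul_assoc, cs.simple_mul_simple_self, one_mul]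
    rw [h3, mul_one] at h4
    exact h4.symm
  · left
    exact PPF_aux h x g hx hg h0

end Pool.Agent.Work.MP_88b7aa_gt.CH
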