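import Pool.Agent.Work.MP_88b7aa_gt.CH.Obj

/-!
# The phases of `Y_i`.  Size: S-M.

PROOF.  Let `c e = cos (2 α e) ∈ (0,1)`.  `Re (Y_i) = (c_i c_{i+2} + c_{i+1}) cos t > 0`, so `arg Y_i ∈ (-π/2, π/2)`.
`Y_i Y_{i+1}` (`Y_i = AB e^{-it} + C e^{it}`, `Y_{i+1} = AC e^{-it} + B e^{it}` with `A = c_i`, `B = c_{i+2}`, `C = c_{i+1}`; note `i+1+2 = i`,
`i+1+1 = i+2`) has real part `BC(1+A²) cos 2t + A(B²+C²) = BC * denr A B C t` and imaginary part `BC (1-A²) sin 2t`;
as `denv α t i > 0` (the same expression, symmetric in `B, C`) its argument is `arctan ((1-A²) sin 2t / denr) = 2 epsv α t i ∈ (-π/2, π/2)`.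
Since `arg Y_i + arg Y_{i+1} ∈ (-π, π)` it is equal to `arg (Y_i Y_{i+1}) = 2 ε_i` (`Complex.arg_mul`).  Solving the three equations
`τ_i + τ_{i+1} = 2 ε_i` (`τ = arg Y`): `τ_i = ε_i + ε_{i+2} - ε_{i+1} = tauv α t i`.  And `Y_i = ‖Y_i‖ e^{i arg Y_i}`.
-/

namespace Pool.Agent.Work.MP_88b7aa_gt.CH

open ComplexConjugate Complex

theorem denr_symm (A B C t : ℝ) : denr A B C t = denr A C B t := by
  unfold denr
  rw [mul_comm B C]
  ring

theorem epsr_symm (A B C t : ℝ) : epsr A B C t = epsr A C B t := by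
  unfold epsr
  rw [denr_symm]

theorem tau_exp_re (x : ℝ) : (exp ((x : ℝ) * I)).re = Real.cos x := by
  rw [exp_ofReal_mul_I_re]

theorem tau_exp_im (x : ℝ) : (exp ((x : ℝ) * I)).im = Real.sin x := by
  rw [exp_ofReal_mul_I_im]

theorem Yv_re (α : Fin 3 → ℝ) (t : ℝ) (i : Fin 3) :
    (Yv α t i).re = (Real.cos (2 * α i) * Real.cos (2 * α (i + 2)) + Real.cos (2 * α (i + 1))) *
      Real.cos t := by
  unfold Yv
  rw [add_re, re_ofReal_mul, re_ofReal_mul, exp_ofReal_mul_I_re, exp_ofReal_mul_I_re, Real.cos_neg]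
  ring

theorem Yv_im (α : Fin 3 → ℝ) (t : ℝ) (i : Fin 3) :
    (Yv α t i).im = (-(Real.cos (2 * α i) * Real.cos (2 * α (i + 2))) + Real.cos (2 * α (i + 1))) *
      Real.sin t := by
  unfold Yv
  rw [add_im, im_ofReal_mul, im_ofReal_mul, exp_ofReal_mul_I_im, exp_ofReal_mul_I_im, Real.sin_neg]
  ring

theorem Yv_re_pos (α : Fin 3 → ℝ) (t : ℝ) (hc : ∀ e, 0 < Real.cos (2 * α e)) (ht : |t| < Real.pi / 2)
    (i : Fin 3) : 0 < (Yv α t i).re := by
  rw [Yv_re]
  have h1 := hc i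
  have h2 := hc (i + 2)
  have h3 := hc (i + 1)
  have h4 : 0 < Real.cos t := Real.cos_pos_of_mem_Ioo ⟨by linarith [(abs_lt.1 ht).1], (abs_lt.1 ht).2⟩
  positivity

theorem Yv_arg_add (α : Fin 3 → ℝ) (t : ℝ) (hc : ∀ e, 0 < Real.cos (2 * α e)) (ht : |t| < Real.pi / 2)
    (hd : ∀ e, 0 < denv α t e) (i : Fin 3) :
    arg (Yv α t i) + arg (Yv α t (i + 1)) = 2 * epsv α t i := by
  have hp1 := Yv_re_pos α t hc ht i
  have hp2 := Yv_re_pos α t hc ht (i + 1)
  have hne1 : Yv α t i ≠ 0 := by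
    intro h
    rw [h] at hp1
    simp at hp1
  have hne2 : Yv α t (i + 1) ≠ 0 := by
    intro h
    rw [h] at hp2
    simp at hp2
  have ha1 : |arg (Yv α t i)| < Real.pi / 2 := abs_arg_lt_pi_div_two_iff.2 (Or.inl hp1)
  have ha2 : |arg (Yv α t (i + 1))| < Real.pi / 2 := abs_arg_lt_pi_div_two_iff.2 (Or.inl hp2)
  rw [abs_lt] at ha1 ha2
  rw [← Complex.arg_mul hne1 hne2 ⟨by linarith, by linarith⟩]
  have e1 : i + 1 + 2 = i := by fin_cases i <;> rfl
  have e2 : i + 1 + 1 = i + 2 := by fin_cases i <;> rfl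
  have hA := hc i
  have hB := hc (i + 2)
  have hC := hc (i + 1)
  have hdi := hd i
  have hre : (Yv α t i * Yv α t (i + 1)).re =
      Real.cos (2 * α (i + 2)) * Real.cos (2 * α (i + 1)) * denv α t i := by
    rw [mul_re, Yv_re, Yv_re, Yv_im, Yv_im, e1, e2]
    unfold denv denr
    generalize Real.cos (2 * α i) = A at *
    generalize Real.cos (2 * α (i + 1)) = C at *
    generalize Real.cos (2 * α (i + 2)) = B at *
    rw [Real.cos_two_mul]
    have hs : Real.sin t * Real.sin t = 1 - Real.cos t ^ 2 := by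
      have := Real.sin_sq_add_cos_sq t
      linarith [this, sq (Real.sin t)]
    field_simp
    linear_combination (-(-(A * B) + C) * (-(C * A) + B)) * hs
  have him : (Yv α t i * Yv α t (i + 1)).im =
      Real.cos (2 * α (i + 2)) * Real.cos (2 * α (i + 1)) *
        ((1 - Real.cos (2 * α i) ^ 2) * Real.sin (2 * t)) := by
    rw [mul_im, Yv_re, Yv_re, Yv_im, Yv_im, e1, e2, Real.sin_two_mul]
    ring
  have hrepos : 0 < (Yv α t i * Yv α t (i + 1)).re := by
    rw [hre]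
    positivity
  have harg : |arg (Yv α t i * Yv α t (i + 1))| < Real.pi / 2 :=
    abs_arg_lt_pi_div_two_iff.2 (Or.inl hrepos)
  rw [abs_lt] at harg
  have h1 : arg (Yv α t i * Yv α t (i + 1)) =
      Real.arctan ((Yv α t i * Yv α t (i + 1)).im / (Yv α t i * Yv α t (i + 1)).re) := by
    rw [← Complex.tan_arg, Real.arctan_tan harg.1 harg.2]
  rw [h1, hre, him]
  unfold epsv epsr
  have hdd : denr (Real.cos (2 * α i)) (Real.cos (2 * α (i + 1))) (Real.cos (2 * α (i + 2))) t =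
    denv α t i := rfl
  rw [hdd]
  have h2 : Real.cos (2 * α (i + 2)) * Real.cos (2 * α (i + 1)) *
        ((1 - Real.cos (2 * α i) ^ 2) * Real.sin (2 * t)) /
        (Real.cos (2 * α (i + 2)) * Real.cos (2 * α (i + 1)) * denv α t i) =
      (1 - Real.cos (2 * α i) ^ 2) * (Real.sin (2 * t) * (denv α t i)⁻¹) := by
    have := hdi.ne'
    field_simp
  rw [h2]
  ring

theorem Yv_eq (α : Fin 3 → ℝ) (t : ℝ) (hc : ∀ e, 0 < Real.cos (2 * α e)) (ht : |t| < Real.pi / 2)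
    (hd : ∀ e, 0 < denv α t e) (i : Fin 3) :
    Yv α t i = (‖Yv α t i‖ : ℂ) * exp ((tauv α t i : ℝ) * I) := by
  have h1 := Yv_arg_add α t hc ht hd i
  have h2 := Yv_arg_add α t hc ht hd (i + 1)
  have h3 := Yv_arg_add α t hc ht hd (i + 2)
  have e2 : i + 1 + 1 = i + 2 := by fin_cases i <;> rfl
  have e3 : i + 2 + 1 = i := by fin_cases i <;> rfl
  rw [e2] at h2
  rw [e3] at h3
  have h : tauv α t i = arg (Yv α t i) := by
    unfold tauv
    linarith
  rw [h, Complex.norm_mul_exp_arg_mul_I]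

end Pool.Agent.Work.MP_88b7aa_gt.CH
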