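import Pool.Agent.Work.MP_88b7aa_gt.CH.PPI
import Pool.Agent.Work.MP_88b7aa_gt.CH.PPF
import Pool.Agent.Work.MP_88b7aa_gt.CH.Rep
import Pool.Agent.Work.MP_88b7aa_gt.CH.Disc
import Pool.Agent.Work.MP_88b7aa_gt.CH.Tau
import Pool.Agent.Work.MP_88b7aa_gt.CH.A0p

/-!
# A triangle with three good edges gives a discrete and faithful representation.  Size: M.

PROOF.  Let `α = ang p q r`, `0 < α e ≤ π/6`.  From `hG`: `denv α t e > 0`, `c, l, x`, `EdgeGood ..`.  Put
`τ i = tauv α t i`, `ε e = epsv α t e`, `H i = Hv α t i`, `ψ e = τ e - c e * ε e`, `ν e = l e * α e`.  Since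
`τ i + τ (i+2) = 2 ε (i+2)` (`tauv`, indices mod 3), the arguments of `EdgeGood` are
`t + (ψ i - ψ (i+2))/2`, `τ i - (ψ i - ψ (i+2))/2`, `(ψ i + ψ (i+2))/2`.
`hY`: `Yv_eq` and `‖Yv‖ = H i * (sin (2α i) sin (2α (i+2)))`.  `H i > 1` and `H_sq`, `Dt_sq` give `Del α t > 0`, `Dt n ≠ 0`.
`Rep` (moduli of `herm (n i) (n (i+1))` from `hn.ang`: `‖-cos (2 α i) e^{..}‖ = cos (2 α i)`, `2 α 0 = π/q` etc.) gives `ρ`; `PPI` gives
`PPHyp`; `PPF` gives: if `z` and `ρ g z` are in `SetA`, then `g = 1` or `g = simple 0`.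
Non-empty: `A0p` for the edge `i = 0` (`ω = exp ((t + (ψ 0 - ψ 2)/2 - 2t/3) I)`) gives `c0`, choose `z0` with `coef1 0 z0 = c0`
(`coef1_surj`), `coef2 2 z0 = ω • (J Mᵀ) c0` by `FrE`.  So `phi 0 1 z0 = Phi (coef1 0 z0)` and `phi 0 2 z0 = Phi (coef2 2 z0)` are positive
real numbers and `Im (e^{±iν} w) = ± w sin ν` for real `w > 0`; `0 < ν ≤ π/6`.  So `z0 ∈ SetA`.
`Disc` with `A = SetA`, `SetA_open`, `SetA_smul`.
-/

namespace Pool.Agent.Work.MP_88b7aa_gt.CH

open ComplexConjugate Complex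

private theorem ang_bd (p q r : ℕ) (hp : 3 ≤ p) (hq : 3 ≤ q) (hr : 3 ≤ r) (e : Fin 3) :
    0 < ang p q r e ∧ ang p q r e ≤ Real.pi / 6 := by
  have key : ∀ m : ℕ, 3 ≤ m → 0 < Real.pi / (2 * m) ∧ Real.pi / (2 * m) ≤ Real.pi / 6 := by
    intro m hm
    have hm' : (3 : ℝ) ≤ m := by exact_mod_cast hm
    have := Real.pi_pos
    constructor
    · positivity
    · exact div_le_div_of_nonneg_left this.le (by norm_num) (by linarith)
  fin_cases e
  · exact key q hq
  · exact key p hp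
  · exact key r hr

private theorem norm_ang {α : Fin 3 → ℝ} {t : ℝ} {n : Fin 3 → Fin 3 → ℂ} (hn : NTri α t n) (i : Fin 3)
    (hc : 0 < Real.cos (2 * α i)) : ‖herm (n i) (n (i + 1))‖ = Real.cos (2 * α i) := by
  rw [hn.ang i, norm_mul, norm_neg, Complex.norm_exp_ofReal_mul_I, mul_one, Complex.norm_real,
    Real.norm_eq_abs, abs_of_pos hc]

private theorem im_pos {w : ℂ} (h0 : w.im = 0) (h1 : 0 < w.re) {ν : ℝ} (hν : 0 < Real.sin ν) :
    0 < (exp ((ν : ℝ) * I) * w).im ∧ (exp ((-ν : ℝ) * I) * w).im < 0 := by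
  have key : ∀ y : ℝ, (exp ((y : ℝ) * I) * w).im = Real.sin y * w.re := by
    intro y
    rw [Complex.mul_im, h0, mul_zero, zero_add, Complex.exp_ofReal_mul_I_im]
  rw [key, key, Real.sin_neg]
  constructor
  · positivity
  · nlinarith [mul_pos hν h1]

private theorem tau_add (α : Fin 3 → ℝ) (t : ℝ) (i : Fin 3) :
    tauv α t i + tauv α t (i + 2) = 2 * epsv α t (i + 2) := by
  unfold tauv
  have h1 : i + 2 + 2 = i + 1 := by fin_cases i <;> rfl
  have h2 : i + 2 + 1 = i := by fin_cases i <;> rfl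
  rw [h1, h2]
  ring

theorem Core (p q r : ℕ) (hp : 3 ≤ p) (hq : 3 ≤ q) (hr : 3 ≤ r) (t : ℝ) (ht : |t| < Real.pi / 2)
    (n : Fin 3 → Fin 3 → ℂ) (hn : NTri (ang p q r) t n) (hG : TriGood (ang p q r) t) :
    DF (mcox p q r (by omega) (by omega) (by omega)) n := by
  have hπ := Real.pi_pos
  have hb := ang_bd p q r hp hq hr
  have hs : ∀ e, 0 < Real.sin (2 * ang p q r e) := by
    intro e
    have := hb e
    exact Real.sin_pos_of_pos_of_lt_pi (by linarith) (by linarith)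
  have hc : ∀ e, 0 < Real.cos (2 * ang p q r e) := by
    intro e
    have := hb e
    exact Real.cos_pos_of_mem_Ioo ⟨by linarith, by linarith⟩
  obtain ⟨hd, c, l, x, hl, hE⟩ := hG
  -- the determinant
  have hD : Dt n ≠ 0 := by
    intro h0
    have h1 := (hE 0).hH
    have h2 := H_sq (ang p q r) t hs 0
    have h3 := Dt_sq (ang p q r) t n hn
    rw [h0, norm_zero] at h3
    rw [← h3] at h2
    have h4 : Hv (ang p q r) t 0 ^ 2 - 1 = 0 := by rw [h2]; simp
    nlinarith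
  -- the phases
  let τ : Fin 3 → ℝ := fun i => tauv (ang p q r) t i
  let ψ : Fin 3 → ℝ := fun e => tauv (ang p q r) t e - c e * epsv (ang p q r) t e
  let ν : Fin 3 → ℝ := fun e => l e * ang p q r e
  let H : Fin 3 → ℝ := fun i => Hv (ang p q r) t i
  have hν : ∀ e, 0 < ν e ∧ ν e ≤ ang p q r e := by
    intro e
    have h1 := hl e
    have h2 := hb e
    refine ⟨mul_pos h1.1 h2.1, ?_⟩
    change l e * ang p q r e ≤ ang p q r e
    nlinarith
  have hY : ∀ i, Yv (ang p q r) t i =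
      ((H i * (Real.sin (2 * ang p q r i) * Real.sin (2 * ang p q r (i + 2))) : ℝ) : ℂ) *
        exp ((τ i : ℝ) * I) := by
    intro i
    have h1 : H i * (Real.sin (2 * ang p q r i) * Real.sin (2 * ang p q r (i + 2))) =
        ‖Yv (ang p q r) t i‖ := by
      change Hv (ang p q r) t i * _ = _
      unfold Hv
      have h2 : Real.sin (2 * ang p q r i) * Real.sin (2 * ang p q r (i + 2)) ≠ 0 :=
        (mul_pos (hs i) (hs (i + 2))).ne'
      rw [div_mul_cancel₀ _ h2]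
    rw [h1]
    exact Yv_eq (ang p q r) t hc ht hd i
  have hE' : ∀ i, EdgeGood (ν i) (ν (i + 2)) (t + (ψ i - ψ (i + 2)) / 2)
      (τ i - (ψ i - ψ (i + 2)) / 2) ((ψ i + ψ (i + 2)) / 2) (H i) (x i) := by
    intro i
    have h1 := tau_add (ang p q r) t i
    have e1 : t + (ψ i - ψ (i + 2)) / 2 = t + tauv (ang p q r) t i -
        (c i * epsv (ang p q r) t i + (2 - c (i + 2)) * epsv (ang p q r) t (i + 2)) / 2 := by
      change t + ((tauv (ang p q r) t i - c i * epsv (ang p q r) t i) -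
        (tauv (ang p q r) t (i + 2) - c (i + 2) * epsv (ang p q r) t (i + 2))) / 2 = _
      linarith
    have e2 : τ i - (ψ i - ψ (i + 2)) / 2 =
        (c i * epsv (ang p q r) t i + (2 - c (i + 2)) * epsv (ang p q r) t (i + 2)) / 2 := by
      change tauv (ang p q r) t i - ((tauv (ang p q r) t i - c i * epsv (ang p q r) t i) -
        (tauv (ang p q r) t (i + 2) - c (i + 2) * epsv (ang p q r) t (i + 2))) / 2 = _
      linarith
    have e3 : (ψ i + ψ (i + 2)) / 2 =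
        ((2 - c (i + 2)) * epsv (ang p q r) t (i + 2) - c i * epsv (ang p q r) t i) / 2 := by
      change ((tauv (ang p q r) t i - c i * epsv (ang p q r) t i) +
        (tauv (ang p q r) t (i + 2) - c (i + 2) * epsv (ang p q r) t (i + 2))) / 2 = _
      linarith
    rw [e1, e2, e3]
    exact hE i
  -- the representation
  have h01 : ‖herm (n 0) (n 1)‖ = Real.cos (Real.pi / q) := by
    have h := norm_ang hn 0 (hc 0)
    have e : 2 * ang p q r 0 = Real.pi / q := by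
      change 2 * (Real.pi / (2 * q)) = Real.pi / q
      have : (q : ℝ) ≠ 0 := by positivity
      field_simp
    rw [e] at h
    exact h
  have h12 : ‖herm (n 1) (n 2)‖ = Real.cos (Real.pi / p) := by
    have h := norm_ang hn 1 (hc 1)
    have e : 2 * ang p q r 1 = Real.pi / p := by
      change 2 * (Real.pi / (2 * p)) = Real.pi / p
      have : (p : ℝ) ≠ 0 := by positivity
      field_simp
    rw [e] at h
    exact h
  have h20 : ‖herm (n 2) (n 0)‖ = Real.cos (Real.pi / r) := by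
    have h := norm_ang hn 2 (hc 2)
    have e : 2 * ang p q r 2 = Real.pi / r := by
      change 2 * (Real.pi / (2 * r)) = Real.pi / r
      have : (r : ℝ) ≠ 0 := by positivity
      field_simp
    rw [e] at h
    exact h
  obtain ⟨ρ, hρ, hinv⟩ := Rep p q r hp hq hr n hn.unit h01 h12 h20
  have hPP := PPI p q r hp hq hr t n hn hD ψ ν hν H τ x hY hE' ρ hρ hinv
  -- a point of the set
  have hω : ‖exp ((t + (ψ 0 - ψ (0 + 2)) / 2 - 2 * t / 3 : ℝ) * I)‖ = 1 :=
    Complex.norm_exp_ofReal_mul_I _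
  obtain ⟨c0, hc0, hi1, hr1, hi2, hr2⟩ := A0p (t + (ψ 0 - ψ (0 + 2)) / 2)
    (τ 0 - (ψ 0 - ψ (0 + 2)) / 2) ((ψ 0 + ψ (0 + 2)) / 2) (H 0) (hE' 0).hH (hE' 0).cA (hE' 0).cB
    (exp ((t + (ψ 0 - ψ (0 + 2)) / 2 - 2 * t / 3 : ℝ) * I)) hω
  obtain ⟨z0, hz0⟩ := coef1_surj (ang p q r) ψ t n hn hs hD 0 c0
  have hH0 : 0 < H 0 := lt_trans one_pos (hE' 0).hH
  have hF := FrE (ang p q r) ψ t n hn hs hD 0 (H 0) (τ 0) hH0 (hY 0) z0
  rw [hz0] at hF
  rw [← hF] at hi2 hr2
  rw [← hz0] at hi1 hr1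
  have hsν : ∀ e, 0 < Real.sin (ν e) := by
    intro e
    have h1 := hν e
    have h2 := hb e
    exact Real.sin_pos_of_pos_of_lt_pi h1.1 (by linarith)
  have hmem : z0 ∈ SetA (ang p q r) ψ t n ν := by
    refine ⟨?_, ?_⟩
    · unfold Neg
      rw [← coef1_norm (ang p q r) ψ t n hn hs hD 0 z0, hz0]
      exact hc0
    · intro j hj
      have hj' : j = 1 ∨ j = 2 := by fin_cases j <;> simp_all
      rcases hj' with rfl | rfl
      · have e1 : nuf ν 0 1 = ν 0 := rfl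
        have e2 : phi (ang p q r) ψ t n 0 1 z0 = Phi (coef1 (ang p q r) ψ t n 0 z0) := rfl
        rw [e1, e2]
        exact im_pos hi1 hr1 (hsν 0)
      · have e1 : nuf ν 0 2 = ν 2 := rfl
        have e2 : phi (ang p q r) ψ t n 0 2 z0 = Phi (coef2 (ang p q r) ψ t n (0 + 2) z0) := rfl
        rw [e1, e2]
        exact im_pos hi2 hr2 (hsν 2)
  refine Disc (mcox p q r (by omega) (by omega) (by omega)) n (hn.unit 0) ρ hρ
    (SetA (ang p q r) ψ t n ν) (SetA_open (ang p q r) ψ t n hn hs hD ν) z0 hmem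
    (fun z hz μ hμ => SetA_smul (ang p q r) ψ t n ν μ hμ z hz) ?_
  intro g z hz hgz
  have := PPF hPP ⟨z, hz.1⟩ g hz.2 hgz.2
  rwa [CoxeterMatrix.toCoxeterSystem_simple] at this

end Pool.Agent.Work.MP_88b7aa_gt.CH
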