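import Pool.Agent.Work.MP_88b7aa_gt.CH.PP

/-!
# Decomposition of an element along a rank two parabolic subgroup.  Size: M.

Notation: `D(g)` = set of left descents, `l` = length.  Let `m = M i k`.

PROOF.  Consider the set of `n ≥ 1` for which there is `g'` with `g = alt k i n * g'` and `l g = n + l g'`.
`n = 1` belongs to it (`g' = s_k g`, `k ∈ D(g)`, `CoxeterSystem.IsLeftDescent`, `length_simple_mul`), and every such
`n` is `≤ l g`.  Take the largest `n` (`Nat.findGreatest` or strong induction on `l g - n`), with its `g'`.

(a) Let `j` be the letter with `alt k i (n+1) = alt k i n * s_j` and `j'` the last letter of `alt k i n`, so that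
`{j, j'} = {i, k}` and `alt k i n = alt k i (n-1) * s_{j'}`.  (Prove first by induction on `n`, for all pairs:
`alt a b (n+1) = alt a b n * s_c` with `c = a` if `n` is even, `c = b` if `n` is odd.)
If `j ∈ D(g')` then `g = alt k i (n+1) * (s_j g')`, `l g = n + 1 + l (s_j g')`: contradicts maximality.
If `j' ∈ D(g')` then `g = alt k i (n-1) * (s_{j'} g')` has length `≤ (n-1) + (l g' - 1) < l g` (the length of
`alt _ _ n` is `≤ n`, `length_mul_le`), a contradiction.  So `i, k ∉ D(g')`.

(b) `n + 1 ≤ m`.  Otherwise `n ≥ m`; write `alt k i n = alt k i m * h` (`h` an alternating word of length `n - m`), so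
`g = alt k i m * (h g')` and, by the braid relation `alt k i m = alt i k m` (from `(s_i s_k)^m = 1`:
`CoxeterSystem.simple_mul_simple_pow`, or `CoxeterSystem.wordProd_braidWord_eq`), `g = s_i * alt k i (m-1) * h g'`, so
`l (s_i g) ≤ (m - 1) + (n - m) + l g' < l g`, i.e. `i ∈ D(g)`, a contradiction.
-/

namespace Pool.Agent.Work.MP_88b7aa_gt.CH

open ComplexConjugate Complex

variable {W : Type*} [Group W] {M : CoxeterMatrix (Fin 3)}

private theorem dec_succ (cs : CoxeterSystem M W) (n : ℕ) : ∀ a b : Fin 3,
    alt cs a b (n + 1) = alt cs a b n * cs.simple (if Even n then a else b) := by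
  induction n with
  | zero => intro a b; simp [alt]
  | succ n ih =>
    intro a b
    have h1 : alt cs a b (n + 1 + 1) = cs.simple a * alt cs b a (n + 1) := rfl
    have h2 : alt cs a b (n + 1) = cs.simple a * alt cs b a n := rfl
    rw [h1, ih b a, h2, mul_assoc]
    congr 3
    by_cases h : Even n
    · simp [h, Nat.even_add_one]
    · simp [h, Nat.even_add_one]

private theorem dec_len (cs : CoxeterSystem M W) (n : ℕ) : ∀ a b : Fin 3,
    cs.length (alt cs a b n) ≤ n := by
  induction n with
  | zero => intro a b; simp [alt]
  | succ n ih =>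
    intro a b
    have h2 : alt cs a b (n + 1) = cs.simple a * alt cs b a n := rfl
    rw [h2]
    have h3 := cs.length_mul_le (cs.simple a) (alt cs b a n)
    rw [cs.length_simple] at h3
    have := ih b a
    omega

private theorem dec_add (cs : CoxeterSystem M W) (a b : Fin 3) (p q : ℕ) :
    ∃ h : W, cs.length h ≤ q ∧ alt cs a b (p + q) = alt cs a b p * h := by
  induction q with
  | zero => exact ⟨1, by simp, by simp⟩
  | succ q ih =>
    obtain ⟨h, hl, he⟩ := ih
    refine ⟨h * cs.simple (if Even (p + q) then a else b), ?_, ?_⟩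
    · have h3 := cs.length_mul_le h (cs.simple (if Even (p + q) then a else b))
      rw [cs.length_simple] at h3
      omega
    · rw [← add_assoc, dec_succ, he, mul_assoc]

private theorem dec_word (cs : CoxeterSystem M W) (a b : Fin 3) (n : ℕ) :
    alt cs a b n = cs.wordProd
      (CoxeterSystem.alternatingWord (if Even n then a else b) (if Even n then b else a) n) := by
  induction n with
  | zero => simp [alt, CoxeterSystem.alternatingWord]
  | succ n ih =>
    rw [dec_succ, ih]
    by_cases h : Even n
    · simp only [h, Nat.even_add_one, if_true, not_true_eq_false, if_false]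
      rw [CoxeterSystem.alternatingWord, List.concat_eq_append, cs.wordProd_append,
        cs.wordProd_singleton]
    · simp only [h, Nat.even_add_one, if_false, not_false_eq_true, if_true]
      rw [CoxeterSystem.alternatingWord, List.concat_eq_append, cs.wordProd_append,
        cs.wordProd_singleton]

private theorem dec_braid (cs : CoxeterSystem M W) (a b : Fin 3) :
    alt cs a b (M a b) = alt cs b a (M a b) := by
  have h := cs.wordProd_braidWord_eq a b
  unfold CoxeterSystem.braidWord at h
  rw [M.symmetric b a] at h
  rw [dec_word, dec_word]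
  by_cases he : Even (M a b)
  · simp only [he, if_true]
    exact h
  · simp only [he, if_false]
    exact h.symm

theorem Dec (cs : CoxeterSystem M W) (i k : Fin 3) (hik : i ≠ k) (hm : 2 ≤ M i k) (g : W)
    (hi : ¬ cs.IsLeftDescent g i) (hk : cs.IsLeftDescent g k) :
    ∃ (n : ℕ) (g' : W), 1 ≤ n ∧ n + 1 ≤ M i k ∧ g = alt cs k i n * g' ∧
      cs.length g = n + cs.length g' ∧ ¬ cs.IsLeftDescent g' i ∧ ¬ cs.IsLeftDescent g' k := by
  classical
  let P : ℕ → Prop := fun n => ∃ g' : W, g = alt cs k i n * g' ∧ cs.length g = n + cs.length g'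
  have hP1 : P 1 := by
    refine ⟨cs.simple k * g, ?_, ?_⟩
    · have : alt cs k i 1 = cs.simple k := by simp [alt]
      rw [this, cs.simple_mul_simple_cancel_left]
    · have := cs.isLeftDescent_iff.mp hk
      omega
  have hle : ∀ n, P n → n ≤ cs.length g := by
    rintro n ⟨g', -, h⟩
    omega
  set n := Nat.findGreatest P (cs.length g) with hn
  have hPn : P n := Nat.findGreatest_spec (hle 1 hP1) hP1
  have hn1 : 1 ≤ n := Nat.le_findGreatest (hle 1 hP1) hP1
  have hmax : ¬ P (n + 1) := by
    intro h
    exact Nat.findGreatest_is_greatest (n := cs.length g) (k := n + 1) (P := P)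
      (by rw [← hn]; omega) (hle _ h) h
  obtain ⟨g', hg, hlen⟩ := hPn
  have hj : ¬ cs.IsLeftDescent g' (if Even n then k else i) := by
    intro hd
    have h1 := cs.isLeftDescent_iff.mp hd
    refine hmax ⟨cs.simple (if Even n then k else i) * g', ?_, by omega⟩
    rw [dec_succ, mul_assoc, cs.simple_mul_simple_cancel_left]
    exact hg
  have hj' : ¬ cs.IsLeftDescent g' (if Even n then i else k) := by
    intro hd
    have h1 := cs.isLeftDescent_iff.mp hd
    obtain ⟨n', hn'⟩ : ∃ n', n = n' + 1 := ⟨n - 1, by omega⟩
    have he : (if Even n then i else k) = (if Even n' then k else i) := by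
      by_cases h : Even n'
      · simp [hn', h, Nat.even_add_one]
      · simp [hn', h, Nat.even_add_one]
    have h2 : g = alt cs k i n' * (cs.simple (if Even n then i else k) * g') := by
      rw [he, ← mul_assoc, ← dec_succ, ← hn']
      exact hg
    have h3 := cs.length_mul_le (alt cs k i n') (cs.simple (if Even n then i else k) * g')
    rw [← h2] at h3
    have h4 := dec_len cs n' k i
    omega
  refine ⟨n, g', hn1, ?_, hg, hlen, ?_, ?_⟩
  · by_contra hcon
    have hmn : M i k ≤ n := by omega
    obtain ⟨q, hq⟩ := Nat.exists_eq_add_of_le hmn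
    obtain ⟨h, hl, he⟩ := dec_add cs k i (M i k) q
    obtain ⟨m', hm'⟩ : ∃ m', M i k = m' + 1 := ⟨M i k - 1, by omega⟩
    have hb : alt cs k i (M i k) = cs.simple i * alt cs k i m' := by
      rw [← dec_braid cs i k, hm']
      rfl
    apply hi
    have h2 : cs.simple i * g = alt cs k i m' * (h * g') := by
      rw [hg, hq, he, hb]
      rw [mul_assoc, mul_assoc, cs.simple_mul_simple_cancel_left]
    unfold CoxeterSystem.IsLeftDescent
    rw [h2]
    have h3 := cs.length_mul_le (alt cs k i m') (h * g')
    have h4 := cs.length_mul_le h g'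
    have h5 := dec_len cs m' k i
    omega
  · by_cases h : Even n
    · simpa [h] using hj'
    · simpa [h] using hj
  · by_cases h : Even n
    · simpa [h] using hj
    · simpa [h] using hj'

end Pool.Agent.Work.MP_88b7aa_gt.CH
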