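import Mathlib

/-!
# Complex hyperbolic triangle groups: the objects of the theorem

Vectors are functions `Fin 3 → ℂ`, the Hermitian form `herm` has signature `(2,1)`, a point of the complex
hyperbolic plane is a negative line, an element of `PU(2,1)` is a matrix preserving `herm` up to a unit scalar.
-/

namespace Pool.Agent.Work.MP_88b7aa_gt.CH

open ComplexConjugate Complex

/-- The Hermitian form of signature `(2,1)`. -/
def herm (z w : Fin 3 → ℂ) : ℂ := z 0 * conj (w 0) + z 1 * conj (w 1) - z 2 * conj (w 2)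

/-- The complex reflection of order two `z ↦ -z + 2 ⟨z, n⟩ n` (for `⟨n, n⟩ = 1`; its mirror is the set of
negative lines orthogonal to `n`). -/
def refl (n : Fin 3 → ℂ) : Matrix (Fin 3) (Fin 3) ℂ := fun a b =>
  2 * n a * (if b = 2 then -conj (n b) else conj (n b)) - (if a = b then 1 else 0)

/-- `n 0`, `n 1`, `n 2` are unit polar vectors of three complex lines `L₁`, `L₂`, `L₃`; `L₂, L₃` meet at angle
`π / p`, `L₁, L₂` at angle `π / q`, `L₃, L₁` at angle `π / r`, and the triple product has angle `θ`. -/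
structure IsTriangle (p q r : ℕ) (θ : ℝ) (n : Fin 3 → Fin 3 → ℂ) : Prop where
  unit : ∀ i, herm (n i) (n i) = 1
  h23 : ‖herm (n 1) (n 2)‖ = Real.cos (Real.pi / p)
  h12 : ‖herm (n 0) (n 1)‖ = Real.cos (Real.pi / q)
  h31 : ‖herm (n 2) (n 0)‖ = Real.cos (Real.pi / r)
  angle : herm (n 0) (n 1) * herm (n 1) (n 2) * herm (n 2) (n 0) =
    -((Real.cos (Real.pi / p) * Real.cos (Real.pi / q) * Real.cos (Real.pi / r) : ℝ) : ℂ) * Complex.exp (θ * I)

/-- `W_A = I₁ I₂ I₃ I₂`. -/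
def WA (n : Fin 3 → Fin 3 → ℂ) : Matrix (Fin 3) (Fin 3) ℂ := refl (n 0) * refl (n 1) * refl (n 2) * refl (n 1)

/-- `W_B = I₁ I₂ I₃`. -/
def WB (n : Fin 3 → Fin 3 → ℂ) : Matrix (Fin 3) (Fin 3) ℂ := refl (n 0) * refl (n 1) * refl (n 2)

/-- `A` has a fixed point in the complex hyperbolic plane. -/
def Elliptic (A : Matrix (Fin 3) (Fin 3) ℂ) : Prop :=
  ∃ z : Fin 3 → ℂ, (herm z z).re < 0 ∧ ∃ μ : ℂ, A.mulVec z = μ • z

/-- The Coxeter matrix of the `(p,q,r)` triangle group with generators `σ₁, σ₂, σ₃` (indices `0, 1, 2`):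
`(σ₂σ₃)^p = (σ₁σ₂)^q = (σ₃σ₁)^r = 1`. -/
def mcox (p q r : ℕ) (hp : p ≠ 1) (hq : q ≠ 1) (hr : r ≠ 1) : CoxeterMatrix (Fin 3) where
  M := !![1, q, r; q, 1, p; r, p, 1]
  isSymm := by ext i j; fin_cases i <;> fin_cases j <;> rfl
  diagonal := by intro i; fin_cases i <;> rfl
  off_diagonal := by
    intro i j h
    fin_cases i <;> fin_cases j <;> first | exact absurd rfl h | assumption

/-- There is a representation `ρ` of the Coxeter group of `M` with `ρ(σ_i) = refl (n i)` which is faithful with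
discrete image in `PU(2,1)`: for some `ε > 0` every `ρ(g)`, `g ≠ 1`, is at distance at least `ε` (in some entry)
from every scalar matrix `μ`, `|μ| = 1`. -/
def DF (M : CoxeterMatrix (Fin 3)) (n : Fin 3 → Fin 3 → ℂ) : Prop :=
  ∃ ρ : M.Group →* Matrix (Fin 3) (Fin 3) ℂ, (∀ i, ρ (M.simple i) = refl (n i)) ∧
    ∃ ε : ℝ, 0 < ε ∧ ∀ g : M.Group, g ≠ 1 → ∀ μ : ℂ, ‖μ‖ = 1 →
      ∃ i j : Fin 3, ε ≤ ‖ρ g i j - (if i = j then μ else 0)‖

end Pool.Agent.Work.MP_88b7aa_gt.CH
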