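import Pool.Agent.Work.MP_88b7aa_gt.CH.Crs

/-!
# The determinant of a normalised triangle.  Size: S-M.

PROOF.  With `N = Matrix.of n` (rows `n i`), `N J Nᴴ = (herm (n i) (n j))_{ij}`, so `- |Dt n|² = det (Gram)`, and for a Gram matrix
with unit diagonal and `g_{01} = -c0 E`, `g_{12} = -c1 E`, `g_{20} = -c2 E`, `E = e^{2it/3}`, `c_i = cos (2 α i)`:
`det = 1 + 2 Re (g01 g12 g20) - c0² - c1² - c2² = 1 - 2 c0 c1 c2 cos (2t) - ∑ c²`.
(Or: `Dt n = herm (n 0) (cr (n 1) (n 2))` and `|⟨n 0, cr⟩|²`; the Gram route is direct: both sides are polynomials, use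
`Matrix.det_mul`, `Matrix.det_conjTranspose`, `Matrix.det_fin_three`.)
`H_sq`: `‖Y‖² = A²B² + C² + 2ABC cos 2t` for `Y = AB e^{-it} + C e^{it}` (`A = cos 2α_i`, `B = cos 2α_{i+2}`, `C = cos 2α_{i+1}`), and
`A²B² + C² + 2ABC cos 2t - (1 - A²)(1 - B²) = A² + B² + C² + 2ABC cos 2t - 1`; the sum and product over all `i` do not depend on the
starting index (`Fin` arithmetic, `fin_cases i`).
-/

namespace Pool.Agent.Work.MP_88b7aa_gt.CH

open ComplexConjugate Complex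

/-- `Δ`. -/
noncomputable def Del (α : Fin 3 → ℝ) (t : ℝ) : ℝ :=
  Real.cos (2 * α 0) ^ 2 + Real.cos (2 * α 1) ^ 2 + Real.cos (2 * α 2) ^ 2 +
    2 * (Real.cos (2 * α 0) * Real.cos (2 * α 1) * Real.cos (2 * α 2)) * Real.cos (2 * t) - 1

/-- the Gram determinant -/
private theorem gram_det (n : Fin 3 → Fin 3 → ℂ) : -(Dt n * conj (Dt n)) =
    herm (n 0) (n 0) * (herm (n 1) (n 1) * herm (n 2) (n 2) - herm (n 1) (n 2) * herm (n 2) (n 1)) -
    herm (n 0) (n 1) * (herm (n 1) (n 0) * herm (n 2) (n 2) - herm (n 1) (n 2) * herm (n 2) (n 0)) +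
    herm (n 0) (n 2) * (herm (n 1) (n 0) * herm (n 2) (n 1) - herm (n 1) (n 1) * herm (n 2) (n 0)) := by
  simp only [Dt, Matrix.det_fin_three, Matrix.of_apply, herm, map_add, map_sub, map_mul]
  ring

private theorem nsq (z : ℂ) : ((‖z‖ ^ 2 : ℝ) : ℂ) = z * conj z := by
  rw [Complex.mul_conj, Complex.normSq_eq_norm_sq]

private theorem conj_expI (x : ℝ) : conj (exp ((x : ℝ) * I)) = exp ((-x : ℝ) * I) := by
  rw [← Complex.exp_conj, map_mul, Complex.conj_ofReal, Complex.conj_I]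
  congr 1
  push_cast
  ring

private theorem expI_mul (x y : ℝ) : exp ((x : ℝ) * I) * exp ((y : ℝ) * I) = exp ((x + y : ℝ) * I) := by
  rw [← Complex.exp_add]
  congr 1
  push_cast
  ring

private theorem expI_zero : exp (((0 : ℝ) : ℂ) * I) = 1 := by
  rw [Complex.ofReal_zero, zero_mul, Complex.exp_zero]

private theorem expI_cos (x : ℝ) : exp ((x : ℝ) * I) + exp ((-x : ℝ) * I) = ((2 * Real.cos x : ℝ) : ℂ) := by
  push_cast
  rw [Complex.two_cos]

theorem Dt_sq (α : Fin 3 → ℝ) (t : ℝ) (n : Fin 3 → Fin 3 → ℂ) (hn : NTri α t n) : ‖Dt n‖ ^ 2 = Del α t := by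
  have e01 := hn.ang 0
  have e12 := hn.ang 1
  have e20 := hn.ang 2
  rw [show (0 : Fin 3) + 1 = 1 from rfl] at e01
  rw [show (1 : Fin 3) + 1 = 2 from rfl] at e12
  rw [show (2 : Fin 3) + 1 = 0 from rfl] at e20
  have f : ∀ (a x : ℝ), conj (-(a : ℂ) * exp ((x : ℝ) * I)) = -(a : ℂ) * exp ((-x : ℝ) * I) := by
    intro a x
    rw [map_mul, map_neg, Complex.conj_ofReal, conj_expI]
  have e10 := herm_conj (n 0) (n 1)
  have e21 := herm_conj (n 1) (n 2)
  have e02 := herm_conj (n 2) (n 0)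
  rw [e01, f] at e10
  rw [e12, f] at e21
  rw [e20, f] at e02
  have hg := gram_det n
  rw [hn.unit 0, hn.unit 1, hn.unit 2, e01, e12, e20, ← e10, ← e21, ← e02] at hg
  apply Complex.ofReal_injective
  rw [nsq]
  have h1 : exp ((2 * t / 3 : ℝ) * I) * exp ((-(2 * t / 3) : ℝ) * I) = 1 := by
    rw [expI_mul, add_neg_cancel, expI_zero]
  have h3 : exp ((2 * t / 3 : ℝ) * I) * exp ((2 * t / 3 : ℝ) * I) * exp ((2 * t / 3 : ℝ) * I) =
      exp ((2 * t : ℝ) * I) := by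
    rw [expI_mul, expI_mul]
    congr 3
    ring
  have h4 : exp ((-(2 * t / 3) : ℝ) * I) * exp ((-(2 * t / 3) : ℝ) * I) *
      exp ((-(2 * t / 3) : ℝ) * I) = exp ((-(2 * t) : ℝ) * I) := by
    rw [expI_mul, expI_mul]
    congr 3
    ring
  have h5 := expI_cos (2 * t)
  rw [← h3, ← h4] at h5
  unfold Del
  push_cast at *
  generalize exp (2 * (t : ℂ) / 3 * I) = E at *
  generalize exp (-(2 * (t : ℂ) / 3) * I) = E' at *
  generalize Complex.cos (2 * (α 0 : ℂ)) = x at *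
  generalize Complex.cos (2 * (α 1 : ℂ)) = y at *
  generalize Complex.cos (2 * (α 2 : ℂ)) = z at *
  generalize Complex.cos (2 * (t : ℂ)) = w at *
  linear_combination -hg + (x ^ 2 + y ^ 2 + z ^ 2) * h1 + x * y * z * h5

theorem H_sq (α : Fin 3 → ℝ) (t : ℝ) (hs : ∀ e, 0 < Real.sin (2 * α e)) (i : Fin 3) :
    Hv α t i ^ 2 - 1 = Del α t / (Real.sin (2 * α i) * Real.sin (2 * α (i + 2))) ^ 2 := by
  have hs1 := (hs i).ne'
  have hs2 := (hs (i + 2)).ne'
  have key : Del α t = Real.cos (2 * α i) ^ 2 + Real.cos (2 * α (i + 2)) ^ 2 +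
      Real.cos (2 * α (i + 1)) ^ 2 +
      2 * (Real.cos (2 * α i) * Real.cos (2 * α (i + 2)) * Real.cos (2 * α (i + 1))) *
        Real.cos (2 * t) - 1 := by
    unfold Del
    fin_cases i
    · change _ = Real.cos (2 * α 0) ^ 2 + Real.cos (2 * α 2) ^ 2 + Real.cos (2 * α 1) ^ 2 +
        2 * (Real.cos (2 * α 0) * Real.cos (2 * α 2) * Real.cos (2 * α 1)) * Real.cos (2 * t) - 1
      ring
    · change _ = Real.cos (2 * α 1) ^ 2 + Real.cos (2 * α 0) ^ 2 + Real.cos (2 * α 2) ^ 2 +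
        2 * (Real.cos (2 * α 1) * Real.cos (2 * α 0) * Real.cos (2 * α 2)) * Real.cos (2 * t) - 1
      ring
    · change _ = Real.cos (2 * α 2) ^ 2 + Real.cos (2 * α 1) ^ 2 + Real.cos (2 * α 0) ^ 2 +
        2 * (Real.cos (2 * α 2) * Real.cos (2 * α 1) * Real.cos (2 * α 0)) * Real.cos (2 * t) - 1
      ring
  have hY : ‖Yv α t i‖ ^ 2 = (Real.cos (2 * α i) * Real.cos (2 * α (i + 2))) ^ 2 +
      Real.cos (2 * α (i + 1)) ^ 2 +
      2 * (Real.cos (2 * α i) * Real.cos (2 * α (i + 2)) * Real.cos (2 * α (i + 1))) *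
        Real.cos (2 * t) := by
    unfold Yv
    generalize Real.cos (2 * α i) * Real.cos (2 * α (i + 2)) = a
    generalize Real.cos (2 * α (i + 1)) = c
    apply Complex.ofReal_injective
    rw [nsq, map_add, map_mul, map_mul, Complex.conj_ofReal, Complex.conj_ofReal, conj_expI,
      conj_expI, neg_neg]
    have h1 : exp ((t : ℝ) * I) * exp ((-t : ℝ) * I) = 1 := by
      rw [expI_mul, add_neg_cancel, expI_zero]
    have h3 : exp ((t : ℝ) * I) * exp ((t : ℝ) * I) = exp ((2 * t : ℝ) * I) := by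
      rw [expI_mul]
      congr 3
      ring
    have h4 : exp ((-t : ℝ) * I) * exp ((-t : ℝ) * I) = exp ((-(2 * t) : ℝ) * I) := by
      rw [expI_mul]
      congr 3
      ring
    have h5 := expI_cos (2 * t)
    rw [← h3, ← h4] at h5
    push_cast at *
    generalize exp ((t : ℂ) * I) = E at *
    generalize exp (-(t : ℂ) * I) = E' at *
    generalize Complex.cos (2 * (t : ℂ)) = w at *
    linear_combination ((a : ℂ) ^ 2 + (c : ℂ) ^ 2) * h1 + (a : ℂ) * c * h5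
  unfold Hv
  rw [div_pow, hY, key, div_sub_one (pow_ne_zero 2 (mul_ne_zero hs1 hs2))]
  congr 1
  have s1 : Real.sin (2 * α i) ^ 2 = 1 - Real.cos (2 * α i) ^ 2 := Real.sin_sq _
  have s2 : Real.sin (2 * α (i + 2)) ^ 2 = 1 - Real.cos (2 * α (i + 2)) ^ 2 := Real.sin_sq _
  linear_combination -Real.sin (2 * α (i + 2)) ^ 2 * s1 - (1 - Real.cos (2 * α i) ^ 2) * s2

end Pool.Agent.Work.MP_88b7aa_gt.CH
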