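import Pool.Agent.Work.MP_88b7aa_gt.CH.FrR
import Pool.Agent.Work.MP_88b7aa_gt.CH.Real

/-!
# `W_B` is elliptic if `fB < 0` (Goldman's discriminant).  Size: M.

PROOF.  Let `W = WB n`.
(1) `W` preserves `herm` (`refl_herm`), `det W = 1` (`det (refl n) = 1` for a unit vector) and
`τ = tr W = 3 - 4(c_p² + c_q² + c_r²) - 8 c_p c_q c_r e^{-iθ}`: expand `refl n = 2 n n* - 1` (`n* = nᴴ J`, a rank one matrix `P_n = n n*` with
`tr (P_a P_b) = |⟨a,b⟩|²`, `tr P = 1`): `W = (2P₀-1)(2P₁-1)(2P₂-1)`, `tr W = 8 tr(P₀P₁P₂) - 4(∑ tr P_iP_j) + 2·3 - 3`, and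
`tr (P₀P₁P₂) = ⟨n 1,n 0⟩⟨n 2,n 1⟩⟨n 0,n 2⟩ = conj (⟨n 0,n 1⟩⟨n 1,n 2⟩⟨n 2,n 0⟩) = -c_pc_qc_r e^{-iθ}` (`hT.angle`); check the placement of the
conjugation: only `Re τ` and `(Im τ)²` matter.  So `Re τ = reB`, `(Im τ)² = im2B` at `u = cos θ`.
(2) `χ_W(λ) = λ³ - τ λ² + conj τ λ - 1` (`W⁻¹ = J Wᴴ J`, so `tr W⁻¹ = conj τ`).  Its discriminant is
`|τ|⁴ - 8 Re τ³ + 18 |τ|² - 27 = fB < 0` (`|τ|² = reB² + im2B`, `Re τ³ = reB (reB² - 3 im2B)`).
(3) The roots `λ₁, λ₂, λ₃` are distinct (`disc ≠ 0`, `disc = ∏ (λ_i - λ_j)²`: `Cubic.discr_eq_prod_three_roots` or direct), the set of roots is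
invariant under `λ ↦ 1/conj λ` (same polynomial).  If the roots were not all of modulus one, then (`λ₁λ₂λ₃ = 1`) they would be
`ρ e^{iφ}, ρ⁻¹ e^{iφ}, e^{-2iφ}` with `ρ > 0`, `ρ ≠ 1` (a root `λ` with `|λ| ≠ 1` is paired with `1/conj λ ≠ λ`; the third one is
`1/(λ/conj λ)`, unit), and then `disc = ((ρ-ρ⁻¹)(ρ e^{iφ} - e^{-2iφ})(ρ⁻¹e^{iφ} - e^{-2iφ}) )² = (ρ-ρ⁻¹)² |..|^.. ≥ 0`: indeed
`(ρ e^{iφ} - e^{-2iφ})(ρ⁻¹ e^{iφ} - e^{-2iφ}) e^{iφ} = e^{3iφ} + e^{-3iφ} - (ρ + ρ⁻¹)` is real and the difference `(ρ-ρ⁻¹) e^{iφ}` carries the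
other factor `e^{iφ}`, product of phases `e^{iφ} e^{-iφ} = 1`, so the product of the three differences is real and its square is `≥ 0`,
contradicting `fB < 0`.
(4) So there are three distinct unit eigenvalues with eigenvectors `z₁, z₂, z₃` (`W z_i = λ_i z_i`, `z_i ≠ 0`, a basis).
`herm z_i z_j = herm (W z_i) (W z_j) = λ_i conj λ_j herm z_i z_j` gives `herm z_i z_j = 0` for `i ≠ j`.  If all `herm z_i z_i ≥ 0` then `herm` would
be positive semidefinite, but `herm (0,0,1) (0,0,1) = -1`.  So some `z_i` is negative: `Elliptic W`.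
(`Matrix.exists_mulVec_eq_zero_iff` for eigenvectors; linear independence of eigenvectors of distinct eigenvalues
`Module.End.eigenvectors_linearIndependent`, or directly by hand.)
-/

namespace Pool.Agent.Work.MP_88b7aa_gt.CH

open ComplexConjugate Complex

private lemma mulv (n z : Fin 3 → ℂ) :
    (refl n).mulVec z = fun i => -z i + 2 * herm z n * n i := by
  funext i
  fin_cases i <;>
  · simp [refl, herm, Matrix.mulVec, dotProduct, Fin.sum_univ_three]
    ring

private lemma c2 : conj (2 : ℂ) = 2 := map_ofNat (starRingEnd ℂ) 2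

private lemma hconj (z w : Fin 3 → ℂ) : conj (herm z w) = herm w z := by
  unfold herm
  simp
  ring

private lemma isoR (n z w : Fin 3 → ℂ) (hn : herm n n = 1) :
    herm ((refl n).mulVec z) ((refl n).mulVec w) = herm z w := by
  have e : herm ((refl n).mulVec z) ((refl n).mulVec w) =
      herm z w - 2 * herm z n * conj (herm w n) - 2 * herm z n * herm n w +
        4 * herm z n * conj (herm w n) * herm n n + (herm z n * 2 * herm n w -
        2 * conj (herm w n) * herm z n) := by
    rw [mulv, mulv]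
    unfold herm
    simp [c2]
    ring
  rw [e, hn, hconj]
  ring

private lemma trR (a b c : Fin 3 → ℂ) : (refl a * refl b * refl c).trace =
    8 * (herm a c * herm c b * herm b a) - 4 * (herm a b * herm b a + herm b c * herm c b +
      herm a c * herm c a) + 2 * (herm a a + herm b b + herm c c) - 3 := by
  simp only [Matrix.trace_fin_three, Matrix.mul_apply, Fin.sum_univ_three, refl, herm]
  simp
  ring

private lemma detR (n : Fin 3 → ℂ) (hn : herm n n = 1) : (refl n).det = 1 := by
  have h : (refl n).det = 2 * herm n n - 1 := by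
    simp only [Matrix.det_fin_three, refl, herm]
    simp
    ring
  rw [h, hn]
  norm_num

private lemma JR (n : Fin 3 → ℂ) : (refl n).conjTranspose * Jm = Jm * refl n := by
  ext i j
  fin_cases i <;> fin_cases j <;>
  · simp [Matrix.mul_apply, Fin.sum_univ_three, refl, Jm, Matrix.diagonal]
    try ring

private lemma sqR (n : Fin 3 → ℂ) (hn : herm n n = 1) : refl n * refl n = 1 := by
  have h : refl n * refl n = 1 + (4 * (herm n n - 1)) • Matrix.of (fun a b : Fin 3 =>
      n a * (if b = 2 then -conj (n b) else conj (n b))) := by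
    ext i j
    fin_cases i <;> fin_cases j <;>
    · simp [Matrix.mul_apply, Fin.sum_univ_three, refl, herm]
      ring
  rw [h, hn]
  simp

private lemma Jsq : Jm * Jm = 1 := by
  unfold Jm
  ext i j
  fin_cases i <;> fin_cases j <;> simp [Matrix.mul_apply, Fin.sum_univ_three, Matrix.diagonal]

private lemma CH3 (A : Matrix (Fin 3) (Fin 3) ℂ) :
    A * A * A = A.trace • (A * A) - A.adjugate.trace • A +
      A.det • (1 : Matrix (Fin 3) (Fin 3) ℂ) := by
  ext i j
  fin_cases i <;> fin_cases j <;>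
  · simp [Matrix.mul_apply, Fin.sum_univ_three, Matrix.det_fin_three, Matrix.adjugate_fin_three,
      Matrix.trace_fin_three]
    ring

private lemma adjU (U : Matrix (Fin 3) (Fin 3) ℂ) (hU : U.conjTranspose * Jm * U = Jm)
    (hd : U.det = 1) : U.adjugate.trace = conj U.trace := by
  have h3 : (Jm * U.conjTranspose * Jm) * U = 1 := by
    rw [Matrix.mul_assoc, Matrix.mul_assoc, ← Matrix.mul_assoc U.conjTranspose, hU, Jsq]
  have h2 : U.adjugate = Jm * U.conjTranspose * Jm := by
    calc U.adjugate = (Jm * U.conjTranspose * Jm) * U * U.adjugate := by rw [h3, Matrix.one_mul]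
      _ = (Jm * U.conjTranspose * Jm) * (U * U.adjugate) := by rw [Matrix.mul_assoc]
      _ = _ := by rw [Matrix.mul_adjugate, hd]; simp
  rw [h2, Matrix.trace_mul_comm, ← Matrix.mul_assoc, Jsq, Matrix.one_mul,
    Matrix.trace_conjTranspose]
  rfl

private lemma unitRoot (a b c : ℂ) (h1 : a * b * c = 1)
    (h2 : conj (a + b + c) = a * b + b * c + c * a)
    (hD : (((a - b) * (a - c) * (b - c)) ^ 2).re < 0) : a * conj a = 1 := by
  have ha : a ≠ 0 := by
    rintro rfl
    simp at h1
  have hca : conj a ≠ 0 := (map_ne_zero _).2 ha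
  -- the second factor
  have key : ∀ b c : ℂ, a * b * c = 1 → b * conj a = 1 →
      0 ≤ (((a - b) * (a - c) * (b - c)) ^ 2).re := by
    intro b c h1 hb
    have hb' : b = (conj a)⁻¹ := eq_inv_of_mul_eq_one_left hb
    have hc' : c = conj a / a := by
      rw [eq_div_iff ha]
      have h3 : a * b * c * conj a = conj a := by rw [h1, one_mul]
      have h4 : a * c * (b * conj a) = conj a := by linear_combination h3
      rw [hb, mul_one] at h4
      rw [mul_comm]
      exact h4
    have hr : (a - b) * (a - c) * (b - c) =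
        (-(Complex.normSq a - 1) * Complex.normSq (a ^ 2 - conj a) / Complex.normSq a ^ 2 : ℝ) := by
      push_cast
      rw [← Complex.mul_conj a, ← Complex.mul_conj (a ^ 2 - conj a), hb', hc']
      simp only [map_sub, map_pow, Complex.conj_conj]
      field_simp
      ring
    rw [hr, ← Complex.ofReal_pow, Complex.ofReal_re]
    exact sq_nonneg _
  have hP : ∀ x : ℂ, (x - a) * (x - b) * (x - c) =
      x ^ 3 - (a + b + c) * x ^ 2 + conj (a + b + c) * x - 1 := by
    intro x
    rw [h2, ← h1]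
    ring
  have h3 : a ^ 3 - (a + b + c) * a ^ 2 + conj (a + b + c) * a - 1 = 0 := by
    rw [← hP a]
    ring
  have h4 : (conj a) ^ 3 - conj (a + b + c) * (conj a) ^ 2 + (a + b + c) * conj a - 1 = 0 := by
    have h5 := congrArg conj h3
    simp only [map_sub, map_add, map_mul, map_pow, Complex.conj_conj, map_one, map_zero] at h5
    simp only [map_add]
    linear_combination h5
  have h6 : ((conj a)⁻¹ - a) * ((conj a)⁻¹ - b) * ((conj a)⁻¹ - c) = 0 := by
    rw [hP]
    have h7 : ((conj a)⁻¹) ^ 3 - (a + b + c) * ((conj a)⁻¹) ^ 2 +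
        conj (a + b + c) * (conj a)⁻¹ - 1 = -((conj a)⁻¹) ^ 3 * ((conj a) ^ 3 -
          conj (a + b + c) * (conj a) ^ 2 + (a + b + c) * conj a - 1) := by
      field_simp
      ring
    rw [h7, h4, mul_zero]
  rcases mul_eq_zero.1 h6 with h7 | h7
  · rcases mul_eq_zero.1 h7 with h8 | h8
    · have h9 : (conj a)⁻¹ = a := sub_eq_zero.1 h8
      calc a * conj a = (conj a)⁻¹ * conj a := by rw [h9]
        _ = 1 := inv_mul_cancel₀ hca
    · exfalso
      have h9 : (conj a)⁻¹ = b := sub_eq_zero.1 h8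
      have h10 := key b c h1 (by rw [← h9]; exact inv_mul_cancel₀ hca)
      linarith
  · exfalso
    have h9 : (conj a)⁻¹ = c := sub_eq_zero.1 h7
    have h10 := key c b (by linear_combination h1) (by rw [← h9]; exact inv_mul_cancel₀ hca)
    have h11 : ((a - c) * (a - b) * (c - b)) ^ 2 = ((a - b) * (a - c) * (b - c)) ^ 2 := by ring
    rw [h11] at h10
    linarith

theorem EllB (p q r : ℕ) (θ : ℝ) (n : Fin 3 → Fin 3 → ℂ) (hT : IsTriangle p q r θ n)
    (h : fB (Real.cos (Real.pi / p)) (Real.cos (Real.pi / q)) (Real.cos (Real.pi / r)) (Real.cos θ) < 0) :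
    Elliptic (WB n) := by
  have hu := hT.unit
  set W := WB n with hW
  have hdet : W.det = 1 := by
    rw [hW]
    unfold WB
    rw [Matrix.det_mul, Matrix.det_mul, detR _ (hu 0), detR _ (hu 1), detR _ (hu 2)]
    norm_num
  have hU : W.conjTranspose * Jm * W = Jm := by
    rw [hW]
    unfold WB
    rw [Matrix.conjTranspose_mul, Matrix.conjTranspose_mul]
    calc (refl (n 2)).conjTranspose * ((refl (n 1)).conjTranspose * (refl (n 0)).conjTranspose) *
          Jm * (refl (n 0) * refl (n 1) * refl (n 2))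
        = (refl (n 2)).conjTranspose * ((refl (n 1)).conjTranspose *
          ((refl (n 0)).conjTranspose * Jm)) * (refl (n 0) * refl (n 1) * refl (n 2)) := by
          simp only [Matrix.mul_assoc]
      _ = Jm * (refl (n 2) * (refl (n 1) * ((refl (n 0) * refl (n 0)) * refl (n 1))) *
          refl (n 2)) := by
          rw [JR, ← Matrix.mul_assoc (refl (n 1)).conjTranspose, JR, Matrix.mul_assoc Jm,
            ← Matrix.mul_assoc (refl (n 2)).conjTranspose, JR]
          simp only [Matrix.mul_assoc]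
      _ = Jm := by
          rw [sqR _ (hu 0), Matrix.one_mul, sqR _ (hu 1), Matrix.mul_one, sqR _ (hu 2),
            Matrix.mul_one]
  have hiso : ∀ z w, herm (W.mulVec z) (W.mulVec w) = herm z w := by
    intro z w
    rw [hW]
    unfold WB
    simp only [← Matrix.mulVec_mulVec]
    rw [isoR _ _ _ (hu 0), isoR _ _ _ (hu 1), isoR _ _ _ (hu 2)]
  -- the trace
  set cp := Real.cos (Real.pi / p) with hcp
  set cq := Real.cos (Real.pi / q) with hcq
  set cr' := Real.cos (Real.pi / r) with hcr
  have hnn : ∀ z w : Fin 3 → ℂ, herm z w * herm w z = ((‖herm z w‖ ^ 2 : ℝ) : ℂ) := by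
    intro z w
    rw [← hconj z w, Complex.mul_conj, Complex.normSq_eq_norm_sq]
  have htr : W.trace = ((3 - 4 * (cp ^ 2 + (cq ^ 2 + cr' ^ 2)) : ℝ) : ℂ) -
      ((8 * (cp * (cq * cr')) : ℝ) : ℂ) * exp (((-θ : ℝ) : ℂ) * I) := by
    have h1 : herm (n 0) (n 2) * herm (n 2) (n 1) * herm (n 1) (n 0) =
        -((cp * cq * cr' : ℝ) : ℂ) * exp (((-θ : ℝ) : ℂ) * I) := by
      have h2 := congrArg conj hT.angle
      rw [map_mul, map_mul, hconj, hconj, hconj, map_mul, map_neg, Complex.conj_ofReal,
        ← Complex.exp_conj, map_mul, Complex.conj_ofReal, Complex.conj_I] at h2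
      have h3 : ((-θ : ℝ) : ℂ) * I = (θ : ℂ) * -I := by push_cast; ring
      rw [h3, ← h2]
      ring
    rw [hW]
    unfold WB
    rw [trR, h1, hnn (n 0) (n 1), hnn (n 1) (n 2), mul_comm (herm (n 0) (n 2)),
      hnn (n 2) (n 0), hT.h12, hT.h23, hT.h31, hu 0, hu 1, hu 2, ← hcp, ← hcq, ← hcr]
    push_cast
    ring
  set τ := W.trace with hτ
  have hre : τ.re = reB cp cq cr' (Real.cos θ) := by
    rw [htr, Complex.sub_re, Complex.ofReal_re, Complex.re_ofReal_mul,
      Complex.exp_ofReal_mul_I_re, Real.cos_neg]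
    unfold reB
    ring
  have him : τ.im ^ 2 = im2B cp cq cr' (Real.cos θ) := by
    rw [htr, Complex.sub_im, Complex.ofReal_im, Complex.im_ofReal_mul,
      Complex.exp_ofReal_mul_I_im, Real.sin_neg]
    unfold im2B
    have h1 := Real.sin_sq θ
    linear_combination (64 * (cp * (cq * cr')) ^ 2) * h1
  -- the roots
  obtain ⟨a, b, c, h1, h2, h3⟩ : ∃ a b c : ℂ, a + b + c = τ ∧ a * b + b * c + c * a = conj τ ∧
      a * b * c = 1 := by
    obtain ⟨a, ha⟩ : ∃ a : ℂ, a ^ 3 - τ * a ^ 2 + conj τ * a - 1 = 0 := by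
      have hdeg : (Polynomial.X ^ 3 - Polynomial.C τ * Polynomial.X ^ 2 +
          Polynomial.C (conj τ) * Polynomial.X - Polynomial.C 1 : Polynomial ℂ).degree = 3 := by
        compute_degree!
      obtain ⟨a, ha⟩ := IsAlgClosed.exists_root (Polynomial.X ^ 3 - Polynomial.C τ *
        Polynomial.X ^ 2 + Polynomial.C (conj τ) * Polynomial.X - Polynomial.C 1 : Polynomial ℂ)
        (by rw [hdeg]; decide)
      refine ⟨a, ?_⟩
      have h4 : Polynomial.eval a (Polynomial.X ^ 3 - Polynomial.C τ * Polynomial.X ^ 2 +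
          Polynomial.C (conj τ) * Polynomial.X - Polynomial.C 1 : Polynomial ℂ) = 0 := ha
      simpa using h4
    have ha0 : a ≠ 0 := by
      rintro rfl
      simp at ha
    obtain ⟨s, hs⟩ := IsAlgClosed.exists_pow_nat_eq ((τ - a) ^ 2 - 4 / a) (n := 2) (by norm_num)
    have hbc : ((τ - a + s) / 2) * ((τ - a - s) / 2) = 1 / a := by
      have h4 : ((τ - a + s) / 2) * ((τ - a - s) / 2) = ((τ - a) ^ 2 - s ^ 2) / 4 := by ring
      rw [h4, hs]
      ring
    refine ⟨a, (τ - a + s) / 2, (τ - a - s) / 2, by ring, ?_, ?_⟩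
    · rw [hbc]
      have h5 : conj τ = (1 - a ^ 3 + τ * a ^ 2) / a := by
        rw [eq_div_iff ha0]
        linear_combination ha
      rw [h5]
      field_simp
      ring
    · rw [mul_assoc, hbc]
      field_simp
  have hD : (((a - b) * (a - c) * (b - c)) ^ 2).re =
      fB cp cq cr' (Real.cos θ) := by
    have h4 : ((a - b) * (a - c) * (b - c)) ^ 2 = τ ^ 2 * (conj τ) ^ 2 - 4 * (conj τ) ^ 3 -
        4 * τ ^ 3 + 18 * τ * conj τ - 27 := by
      have h5 : ((a - b) * (a - c) * (b - c)) ^ 2 = (a + b + c) ^ 2 *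
          (a * b + b * c + c * a) ^ 2 - 4 * (a * b + b * c + c * a) ^ 3 -
          4 * (a + b + c) ^ 3 * (a * b * c) + 18 * (a + b + c) * (a * b + b * c + c * a) *
          (a * b * c) - 27 * (a * b * c) ^ 2 := by ring
      rw [h5, h1, h2, h3]
      ring
    have h6 : τ = (τ.re : ℂ) + (τ.im : ℂ) * I := (Complex.re_add_im τ).symm
    have h7 : conj τ = (τ.re : ℂ) - (τ.im : ℂ) * I := by
      apply Complex.ext <;> simp
    have h8 : τ ^ 2 * (conj τ) ^ 2 - 4 * (conj τ) ^ 3 - 4 * τ ^ 3 + 18 * τ * conj τ - 27 =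
        (((τ.re ^ 2 + τ.im ^ 2) ^ 2 - 8 * (τ.re * (τ.re ^ 2 - 3 * τ.im ^ 2)) +
          18 * (τ.re ^ 2 + τ.im ^ 2) - 27 : ℝ) : ℂ) := by
      generalize τ.re = x at h6 h7
      generalize τ.im = y at h6 h7
      rw [h7, h6]
      push_cast
      have hI := Complex.I_sq
      have hI4 : I ^ 4 = 1 := Complex.I_pow_four
      ring_nf
      simp only [hI, hI4]
      ring
    rw [h4, h8, Complex.ofReal_re, hre, him]
    rfl
  rw [← hD] at h
  have hc1 : conj (a + b + c) = a * b + b * c + c * a := by rw [h1, h2]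
  have hDne : (a - b) * (a - c) * (b - c) ≠ 0 := by
    intro h0
    rw [h0] at h
    simp at h
  have hab : a - b ≠ 0 := fun h0 => hDne (by rw [h0]; ring)
  have hac : a - c ≠ 0 := fun h0 => hDne (by rw [h0]; ring)
  have hbc : b - c ≠ 0 := fun h0 => hDne (by rw [h0]; ring)
  have ua := unitRoot a b c h3 hc1 h
  have ub := unitRoot b a c (by linear_combination h3)
    (by rw [show b + a + c = a + b + c by ring, hc1]; ring)
    (by rw [show ((b - a) * (b - c) * (a - c)) ^ 2 = ((a - b) * (a - c) * (b - c)) ^ 2 by ring]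
        exact h)
  have uc := unitRoot c a b (by linear_combination h3)
    (by rw [show c + a + b = a + b + c by ring, hc1]; ring)
    (by rw [show ((c - a) * (c - b) * (a - b)) ^ 2 = ((a - b) * (a - c) * (b - c)) ^ 2 by ring]
        exact h)
  -- Cayley-Hamilton
  have hCH := CH3 W
  rw [adjU W hU hdet, hdet, ← hτ, ← h2, ← h1, one_smul] at hCH
  set v : Fin 3 → ℂ := ![0, 0, 1] with hv
  set w1 := W.mulVec v with hw1
  set w2 := W.mulVec w1 with hw2
  have hw3 : W.mulVec w2 = (a + b + c) • w2 - (a * b + b * c + c * a) • w1 + v := by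
    have h4 := congrArg (fun A : Matrix (Fin 3) (Fin 3) ℂ => A.mulVec v) hCH
    simp only [Matrix.add_mulVec, Matrix.sub_mulVec, Matrix.smul_mulVec, Matrix.one_mulVec,
      ← Matrix.mulVec_mulVec] at h4
    exact h4
  have eig : ∀ x y z : ℂ, x + y + z = a + b + c → x * y + y * z + z * x = a * b + b * c + c * a →
      x * y * z = 1 → W.mulVec (w2 - (y + z) • w1 + (y * z) • v) =
        x • (w2 - (y + z) • w1 + (y * z) • v) := by
    intro x y z e1 e2 e3
    rw [Matrix.mulVec_add, Matrix.mulVec_sub, Matrix.mulVec_smul, Matrix.mulVec_smul, hw3,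
      ← hw1, ← hw2, ← e1, ← e2]
    funext i
    simp only [Pi.add_apply, Pi.sub_apply, Pi.smul_apply, smul_eq_mul]
    linear_combination (-(v i)) * e3
  set va := w2 - (b + c) • w1 + (b * c) • v with hva
  set vb := w2 - (a + c) • w1 + (a * c) • v with hvb
  set vc := w2 - (a + b) • w1 + (a * b) • v with hvc
  have ea : W.mulVec va = a • va := eig a b c rfl rfl h3
  have eb : W.mulVec vb = b • vb :=
    eig b a c (by ring) (by ring) (by linear_combination h3)
  have ec : W.mulVec vc = c • vc :=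
    eig c a b (by ring) (by ring) (by linear_combination h3)
  have hsm : ∀ (x y : ℂ) (z w : Fin 3 → ℂ), herm (x • z) (y • w) = x * conj y * herm z w := by
    intro x y z w
    unfold herm
    simp
    ring
  have orth : ∀ (x y : ℂ) (z w : Fin 3 → ℂ), W.mulVec z = x • z → W.mulVec w = y • w →
      y * conj y = 1 → x - y ≠ 0 → herm z w = 0 := by
    intro x y z w hz hw hy hxy
    have h4 := hiso z w
    rw [hz, hw, hsm] at h4
    have h5 : (x - y) * conj y * herm z w = 0 := by linear_combination h4 - herm z w * hy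
    rcases mul_eq_zero.1 h5 with h6 | h6
    · rcases mul_eq_zero.1 h6 with h7 | h7
      · exact absurd h7 hxy
      · rw [h7] at hy
        simp at hy
    · exact h6
  have oab := orth a b va vb ea eb ub hab
  have oac := orth a c va vc ea ec uc hac
  have obc := orth b c vb vc eb ec uc hbc
  have oba : herm vb va = 0 := by rw [← hconj, oab, map_zero]
  have oca : herm vc va = 0 := by rw [← hconj, oac, map_zero]
  have ocb : herm vc vb = 0 := by rw [← hconj, obc, map_zero]
  set ka := ((a - b) * (a - c))⁻¹ with hka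
  set kb := ((b - a) * (b - c))⁻¹ with hkb
  set kc := ((c - a) * (c - b))⁻¹ with hkc
  have hba : b - a ≠ 0 := fun h0 => hab (by linear_combination -h0)
  have hca : c - a ≠ 0 := fun h0 => hac (by linear_combination -h0)
  have hcb : c - b ≠ 0 := fun h0 => hbc (by linear_combination -h0)
  have k1 : ka + kb + kc = 0 := by
    rw [hka, hkb, hkc]
    have e1 : b - a = -(a - b) := by ring
    have e2 : c - a = -(a - c) := by ring
    have e3 : c - b = -(b - c) := by ring
    rw [e1, e2, e3]
    field_simp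
    ring
  have k2 : ka * (b + c) + kb * (a + c) + kc * (a + b) = 0 := by
    rw [hka, hkb, hkc]
    have e1 : b - a = -(a - b) := by ring
    have e2 : c - a = -(a - c) := by ring
    have e3 : c - b = -(b - c) := by ring
    rw [e1, e2, e3]
    field_simp
    ring
  have k3 : ka * (b * c) + kb * (a * c) + kc * (a * b) = 1 := by
    rw [hka, hkb, hkc]
    have e1 : b - a = -(a - b) := by ring
    have e2 : c - a = -(a - c) := by ring
    have e3 : c - b = -(b - c) := by ring
    rw [e1, e2, e3]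
    field_simp
    ring
  have hsum : v = ka • va + kb • vb + kc • vc := by
    funext i
    simp only [hva, hvb, hvc, Pi.add_apply, Pi.sub_apply, Pi.smul_apply, smul_eq_mul]
    linear_combination (-(w2 i)) * k1 + (w1 i) * k2 - (v i) * k3
  have haddl : ∀ x y z : Fin 3 → ℂ, herm (x + y) z = herm x z + herm y z := by
    intro x y z
    unfold herm
    simp
    ring
  have haddr : ∀ x z w : Fin 3 → ℂ, herm x (z + w) = herm x z + herm x w := by
    intro x z w
    unfold herm
    simp
    ring
  have hvv : herm v v = -1 := by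
    rw [hv]
    unfold herm
    simp
  have hfin : herm v v = ka * conj ka * herm va va + kb * conj kb * herm vb vb +
      kc * conj kc * herm vc vc := by
    have h4 : herm v v = herm (ka • va + kb • vb + kc • vc) (ka • va + kb • vb + kc • vc) := by
      rw [← hsum]
    rw [h4]
    simp only [haddl, haddr, hsm, oab, oac, obc, oba, oca, ocb, mul_zero, add_zero, zero_add]
  rw [hvv] at hfin
  have hre2 : ∀ (k : ℂ) (z : Fin 3 → ℂ), (k * conj k * herm z z).re =
      Complex.normSq k * (herm z z).re := by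
    intro k z
    rw [Complex.mul_conj, Complex.re_ofReal_mul]
  have hfr := congrArg Complex.re hfin
  rw [Complex.add_re, Complex.add_re, hre2, hre2, hre2] at hfr
  have hneg : (herm va va).re < 0 ∨ (herm vb vb).re < 0 ∨ (herm vc vc).re < 0 := by
    by_contra hcon
    simp only [not_or, not_lt] at hcon
    have q1 := mul_nonneg (Complex.normSq_nonneg ka) hcon.1
    have q2 := mul_nonneg (Complex.normSq_nonneg kb) hcon.2.1
    have q3 := mul_nonneg (Complex.normSq_nonneg kc) hcon.2.2
    simp only [Complex.neg_re, Complex.one_re] at hfr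
    linarith
  rcases hneg with h5 | h5 | h5
  · exact ⟨va, h5, a, ea⟩
  · exact ⟨vb, h5, b, eb⟩
  · exact ⟨vc, h5, c, ec⟩

end Pool.Agent.Work.MP_88b7aa_gt.CH
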