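import Pool.Agent.Work.MP_88b7aa_gt.CH.PosX

/-!
# The trace in the adapted bases.  Size: M.

PROOF.  Notation `a = cos νA`, `sa = sin νA`, `b = cos νB`, `sb = sin νB`, `M = edgeM k σ η H`, `v = (0,0,1)`,
`ν = (a, -sa, 0)`, `y = (sa, a, 0)`, `ν' = (b, sb, 0)`, `y' = (-sb, b, 0)` (real vectors).
Adapted bases `f = (ν, v + y, v - y)`, `f' = (ν', v + y', v - y')`.
(1) `X = x0 ν + (xp/2)(v + y) + (xm/2)(v - y)` with `x0 = a X0 - sa X1`, `xp, xm = X2 ± (sa X0 + a X1)`, and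
`J = ν νᵀ - ½ ((v+y)(v-y)ᵀ + (v-y)(v+y)ᵀ)` (as `ν νᵀ + y yᵀ + v vᵀ = 1`).  With `xp xm = 1 + x0²` one gets
`Gm X = J + 2 X Xᵀ = ∑ i j, gmat x0 xp xm i j • f i (f j)ᵀ`.
(2) In the same way for `X'`: `x0' = b X'0 + sb X'1 = -ξ`, so
`Gm X' = ∑ k l, e k * e l * gmat ξ yp ym k l • f' k (f' l)ᵀ` with the signs `e = (1, -1, -1)`
(only the entries `(0,±)` change sign, and there `e 0 * e ± = -1`).
(3) `(f i)ᵀ M f' k = e k * ent νA νB k σ η H i k` (nine direct computations).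
(4) `tr (Gm X M Gm X' Mᵀ) = ∑ i j k l, g i j (e k e l g' k l) ((f i)ᵀ M f' k) ((f j)ᵀ M f' l)` (cyclicity of the trace:
`tr (f i (f j)ᵀ M f' l (f' k)ᵀ Mᵀ)`, `= (f jᵀ M f' l) (f' kᵀ Mᵀ f i)`); the signs cancel (`(e k e l)² = 1`) and the trace equals
`∑ i j k l, gmat x0 xp xm i j * gmat ξ yp ym k l * (ent i k * ent j l)`.
(5) For complex numbers `u, w`: `Re (e^{2ix} u w) = ½ (Ls 1 x u * Ls (-1) x w + Ls (-1) x u * Ls 1 x w)`; the coefficients are
symmetric under `(i,k) ↔ (j,l)`, so the real part is `∑ .. (Ls 1 x (ent i k) * Ls (-1) x (ent j l))`.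
It is enough to expand everything on both sides (`Fin.sum_univ_three`) if the algebra closes with `ring`/`linear_combination`,
but the steps above keep the expressions small.  (1), (2) can be proved entrywise.
-/

namespace Pool.Agent.Work.MP_88b7aa_gt.CH

open ComplexConjugate Complex Matrix

/-- the adapted basis -/
private noncomputable def fm (a s : ℝ) : Matrix (Fin 3) (Fin 3) ℂ :=
  !![(a : ℂ), -(s : ℂ), 0; (s : ℂ), (a : ℂ), 1; -(s : ℂ), -(a : ℂ), 1]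

/-- the second adapted basis, with signs -/
private noncomputable def fn (b s : ℝ) : Matrix (Fin 3) (Fin 3) ℂ :=
  !![(b : ℂ), (s : ℂ), 0; (s : ℂ), -(b : ℂ), -1; -(s : ℂ), (b : ℂ), -1]

/-- the complex matrix of a real one -/
private noncomputable def cmat (g : Fin 3 → Fin 3 → ℝ) : Matrix (Fin 3) (Fin 3) ℂ :=
  Matrix.of fun i j => ((g i j : ℝ) : ℂ)

private theorem gmat_symm (x0 xp xm : ℝ) (i j : Fin 3) :
    gmat x0 xp xm i j = gmat x0 xp xm j i := by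
  fin_cases i <;> fin_cases j <;> rfl

private theorem tr_expand (g g' : Fin 3 → Fin 3 → ℝ) (hs : ∀ i j, g' i j = g' j i)
    (E : Fin 3 → Fin 3 → ℂ) :
    (cmat g * Matrix.of E * cmat g' * (Matrix.of E)ᵀ).trace =
      ∑ i, ∑ j, ∑ p, ∑ q, ((g i j * g' p q : ℝ) : ℂ) * (E i p * E j q) := by
  have e1 : (cmat g * Matrix.of E * cmat g' * (Matrix.of E)ᵀ).trace =
      ∑ i, ∑ p, ∑ q, ∑ j, ((g i j * g' p q : ℝ) : ℂ) * (E i p * E j q) := by
    simp only [Matrix.trace, Matrix.diag_apply, Matrix.mul_apply, Matrix.transpose_apply,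
      Matrix.of_apply, cmat, Finset.sum_mul]
    refine Finset.sum_congr rfl fun i _ => Finset.sum_congr rfl fun p _ =>
      Finset.sum_congr rfl fun q _ => Finset.sum_congr rfl fun j _ => ?_
    rw [hs q p]
    push_cast
    ring
  rw [e1]
  refine Finset.sum_congr rfl fun i _ => ?_
  have e2 : ∀ p, ∑ q, ∑ j, ((g i j * g' p q : ℝ) : ℂ) * (E i p * E j q) =
      ∑ j, ∑ q, ((g i j * g' p q : ℝ) : ℂ) * (E i p * E j q) := fun p => Finset.sum_comm
  rw [Finset.sum_congr rfl fun p _ => e2 p, Finset.sum_comm]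

private theorem gm_gen (f : Matrix (Fin 3) (Fin 3) ℂ) (x0 xp xm : ℝ) (X : Fin 3 → ℝ) (e : ℂ)
    (he : e * e = 1) (hp : xp * xm = 1 + x0 ^ 2)
    (hJ : ∀ i j, f 0 i * f 0 j - (f 1 i * f 2 j + f 2 i * f 1 j) / 2 = Jm i j)
    (hZ : ∀ i, (x0 : ℂ) * f 0 i + (xp : ℂ) / 2 * f 1 i + (xm : ℂ) / 2 * f 2 i = e * (X i : ℂ)) :
    Gm X = fᵀ * cmat (gmat x0 xp xm) * f := by
  have hpc : (xp : ℂ) * (xm : ℂ) = 1 + (x0 : ℂ) ^ 2 := by exact_mod_cast hp
  ext i j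
  have e1 : Gm X i j = Jm i j + 2 * ((e * (X i : ℂ)) * (e * (X j : ℂ))) := by
    have e0 : Gm X i j = Jm i j + 2 * ((X i : ℂ) * (X j : ℂ)) := by
      simp [Gm]
    rw [e0]
    linear_combination (-2 * ((X i : ℂ) * (X j : ℂ))) * he
  have e2 : (fᵀ * cmat (gmat x0 xp xm) * f) i j =
      (f 0 i * (1 + 2 * (x0 : ℂ) ^ 2) + f 1 i * ((x0 : ℂ) * xp) + f 2 i * ((x0 : ℂ) * xm)) * f 0 j +
      (f 0 i * ((x0 : ℂ) * xp) + f 1 i * ((xp : ℂ) ^ 2 / 2) + f 2 i * ((x0 : ℂ) ^ 2 / 2)) * f 1 j +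
      (f 0 i * ((x0 : ℂ) * xm) + f 1 i * ((x0 : ℂ) ^ 2 / 2) + f 2 i * ((xm : ℂ) ^ 2 / 2)) *
        f 2 j := by
    simp [Matrix.mul_apply, Fin.sum_univ_three, cmat, gmat]
  rw [e1, e2, ← hJ i j, ← hZ i, ← hZ j]
  linear_combination (1 / 2 : ℂ) * (f 1 i * f 2 j + f 2 i * f 1 j) * hpc

private theorem gm_mat (a s : ℝ) (h : a ^ 2 + s ^ 2 = 1) (X : Fin 3 → ℝ)
    (hX : X 0 ^ 2 + X 1 ^ 2 - X 2 ^ 2 = -1) :
    Gm X = (fm a s)ᵀ * cmat (gmat (a * X 0 - s * X 1) (X 2 + (s * X 0 + a * X 1))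
      (X 2 - (s * X 0 + a * X 1))) * fm a s := by
  have hc : (a : ℂ) ^ 2 + (s : ℂ) ^ 2 = 1 := by exact_mod_cast h
  apply gm_gen (e := 1) (he := by ring)
  · linear_combination (-1) * hX - (X 0 ^ 2 + X 1 ^ 2) * h
  · intro i j
    fin_cases i <;> fin_cases j <;> simp [fm, Jm] <;> first | linear_combination hc | ring
  · intro i
    fin_cases i
    · simp [fm]
      linear_combination (X 0 : ℂ) * hc
    · simp [fm]
      linear_combination (X 1 : ℂ) * hc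
    · simp [fm]
      ring

private theorem gm_mat' (b s : ℝ) (h : b ^ 2 + s ^ 2 = 1) (Y : Fin 3 → ℝ)
    (hY : Y 0 ^ 2 + Y 1 ^ 2 - Y 2 ^ 2 = -1) :
    Gm Y = (fn b s)ᵀ * cmat (gmat (-(b * Y 0 + s * Y 1)) (Y 2 + (-s * Y 0 + b * Y 1))
      (Y 2 - (-s * Y 0 + b * Y 1))) * fn b s := by
  have hc : (b : ℂ) ^ 2 + (s : ℂ) ^ 2 = 1 := by exact_mod_cast h
  apply gm_gen (e := -1) (he := by ring)
  · linear_combination (-1) * hY - (Y 0 ^ 2 + Y 1 ^ 2) * h
  · intro i j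
    fin_cases i <;> fin_cases j <;> simp [fn, Jm] <;> first | linear_combination hc | ring
  · intro i
    fin_cases i
    · simp [fn]
      linear_combination (-(Y 0 : ℂ)) * hc
    · simp [fn]
      linear_combination (-(Y 1 : ℂ)) * hc
    · simp [fn]
      ring

private theorem ent_mat (νA νB k σ η H : ℝ) :
    fm (Real.cos νA) (Real.sin νA) * edgeM k σ η H * (fn (Real.cos νB) (Real.sin νB))ᵀ =
      Matrix.of (ent νA νB k σ η H) := by
  ext i j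
  rw [Matrix.of_apply]
  fin_cases i <;> fin_cases j <;>
    simp [Matrix.mul_apply, Fin.sum_univ_three, fm, fn, edgeM, ent] <;> ring

theorem Expn (νA νB k σ η H x : ℝ) (X Y : Fin 3 → ℝ)
    (hX : X 0 ^ 2 + X 1 ^ 2 - X 2 ^ 2 = -1) (hY : Y 0 ^ 2 + Y 1 ^ 2 - Y 2 ^ 2 = -1) :
    (exp ((2 * x : ℝ) * I) * (Gm X * edgeM k σ η H * Gm Y * (edgeM k σ η H)ᵀ).trace).re =
      ∑ i, ∑ j, ∑ p, ∑ q,
        gmat (Real.cos νA * X 0 - Real.sin νA * X 1) (X 2 + (Real.sin νA * X 0 + Real.cos νA * X 1))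
          (X 2 - (Real.sin νA * X 0 + Real.cos νA * X 1)) i j *
        gmat (-(Real.cos νB * Y 0 + Real.sin νB * Y 1)) (Y 2 + (-Real.sin νB * Y 0 + Real.cos νB * Y 1))
          (Y 2 - (-Real.sin νB * Y 0 + Real.cos νB * Y 1)) p q *
        (Ls 1 x (ent νA νB k σ η H i p) * Ls (-1) x (ent νA νB k σ η H j q)) := by
  have hA := Real.cos_sq_add_sin_sq νA
  have hB := Real.cos_sq_add_sin_sq νB
  set g := gmat (Real.cos νA * X 0 - Real.sin νA * X 1)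
    (X 2 + (Real.sin νA * X 0 + Real.cos νA * X 1))
    (X 2 - (Real.sin νA * X 0 + Real.cos νA * X 1)) with hg
  set g' := gmat (-(Real.cos νB * Y 0 + Real.sin νB * Y 1))
    (Y 2 + (-Real.sin νB * Y 0 + Real.cos νB * Y 1))
    (Y 2 - (-Real.sin νB * Y 0 + Real.cos νB * Y 1)) with hg'
  set E : Fin 3 → Fin 3 → ℂ := ent νA νB k σ η H with hE
  have h1 := gm_mat (Real.cos νA) (Real.sin νA) hA X hX
  have h2 := gm_mat' (Real.cos νB) (Real.sin νB) hB Y hY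
  have h3 := ent_mat νA νB k σ η H
  rw [← hg] at h1
  rw [← hg'] at h2
  rw [← hE] at h3
  have htr : (Gm X * edgeM k σ η H * Gm Y * (edgeM k σ η H)ᵀ).trace =
      ∑ i, ∑ j, ∑ p, ∑ q, ((g i j * g' p q : ℝ) : ℂ) * (E i p * E j q) := by
    rw [h1, h2]
    have e1 : (fm (Real.cos νA) (Real.sin νA))ᵀ * cmat g * fm (Real.cos νA) (Real.sin νA) *
        edgeM k σ η H * ((fn (Real.cos νB) (Real.sin νB))ᵀ * cmat g' *
          fn (Real.cos νB) (Real.sin νB)) * (edgeM k σ η H)ᵀ =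
        (fm (Real.cos νA) (Real.sin νA))ᵀ * (cmat g * (Matrix.of E) * cmat g' *
          (fn (Real.cos νB) (Real.sin νB) * (edgeM k σ η H)ᵀ)) := by
      rw [← h3]
      simp only [Matrix.mul_assoc]
    rw [e1, Matrix.trace_mul_comm]
    have e2 : fn (Real.cos νB) (Real.sin νB) * (edgeM k σ η H)ᵀ *
        (fm (Real.cos νA) (Real.sin νA))ᵀ = (Matrix.of E)ᵀ := by
      rw [← h3]
      simp only [Matrix.transpose_mul, Matrix.transpose_transpose, Matrix.mul_assoc]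
    rw [Matrix.mul_assoc _ (fn (Real.cos νB) (Real.sin νB) * (edgeM k σ η H)ᵀ), e2]
    exact tr_expand g g' (gmat_symm _ _ _) E
  rw [htr, Finset.mul_sum, Complex.re_sum]
  have e3 : ∀ i j p q : Fin 3, (exp ((2 * x : ℝ) * I) * (((g i j * g' p q : ℝ) : ℂ) *
      (E i p * E j q))).re = g i j * g' p q * ((Ls 1 x (E i p) * Ls (-1) x (E j q) +
        Ls (-1) x (E i p) * Ls 1 x (E j q)) / 2) := by
    intro i j p q
    have h4 : exp ((2 * x : ℝ) * I) * (((g i j * g' p q : ℝ) : ℂ) * (E i p * E j q)) =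
        ((g i j * g' p q : ℝ) : ℂ) * ((exp ((x : ℝ) * I) * E i p) * (exp ((x : ℝ) * I) * E j q)) := by
      have h5 : exp ((2 * x : ℝ) * I) = exp ((x : ℝ) * I) * exp ((x : ℝ) * I) := by
        rw [← Complex.exp_add]
        congr 1
        push_cast
        ring
      rw [h5]
      ring
    rw [h4, Complex.re_ofReal_mul, Complex.mul_re]
    unfold Ls
    ring
  have e4 : ∀ i, (exp ((2 * x : ℝ) * I) * ∑ j, ∑ p, ∑ q, ((g i j * g' p q : ℝ) : ℂ) *
      (E i p * E j q)).re = ∑ j, ∑ p, ∑ q, g i j * g' p q *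
        ((Ls 1 x (E i p) * Ls (-1) x (E j q) + Ls (-1) x (E i p) * Ls 1 x (E j q)) / 2) := by
    intro i
    simp only [Finset.mul_sum, Complex.re_sum, e3]
  rw [Finset.sum_congr rfl fun i _ => e4 i]
  have e5 : ∑ i, ∑ j, ∑ p, ∑ q, g i j * g' p q *
      ((Ls 1 x (E i p) * Ls (-1) x (E j q) + Ls (-1) x (E i p) * Ls 1 x (E j q)) / 2) =
      (∑ i, ∑ j, ∑ p, ∑ q, g i j * g' p q * (Ls 1 x (E i p) * Ls (-1) x (E j q)) +
        ∑ i, ∑ j, ∑ p, ∑ q, g i j * g' p q * (Ls (-1) x (E i p) * Ls 1 x (E j q))) / 2 := by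
    simp only [← Finset.sum_add_distrib, Finset.sum_div]
    refine Finset.sum_congr rfl fun i _ => Finset.sum_congr rfl fun j _ =>
      Finset.sum_congr rfl fun p _ => Finset.sum_congr rfl fun q _ => ?_
    ring
  have e6 : ∑ i, ∑ j, ∑ p, ∑ q, g i j * g' p q * (Ls (-1) x (E i p) * Ls 1 x (E j q)) =
      ∑ i, ∑ j, ∑ p, ∑ q, g i j * g' p q * (Ls 1 x (E i p) * Ls (-1) x (E j q)) := by
    rw [Finset.sum_comm]
    refine Finset.sum_congr rfl fun j _ => Finset.sum_congr rfl fun i _ => ?_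
    rw [Finset.sum_comm]
    refine Finset.sum_congr rfl fun p _ => Finset.sum_congr rfl fun q _ => ?_
    rw [hg, hg', gmat_symm _ _ _ j i, gmat_symm _ _ _ q p]
    ring
  rw [e5, e6]
  ring

end Pool.Agent.Work.MP_88b7aa_gt.CH
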