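import Pool.Agent.Work.MP_88b7aa_gt.CH.FrN
import Pool.Agent.Work.MP_88b7aa_gt.CH.Dts

/-!
# The transition matrix of an edge.  Size: M.

Edge `i`, end points `i` (first frame `N_A = N1 t n i`, `m_A = (N2 + c N1)/s`, `v_A`) and `i+2` (second frame `N_B = N2 t n (i+2)`,
`m_B = (N1 + c N2)/s` at vertex `i+2`, `v_B`); `i + 2 + 1 = i`, so `N_B = e^{it/3} n i = e^{2it/3} N_A`.
Let `c = coef1 i z`, so `z = c0 N_A + c1 m_A + c2 v_A` (`frame_gen`), and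
`coef2 (i+2) z = (⟨z,N_B⟩, ⟨z,m_B⟩, -⟨z,v_B⟩)` is the matrix `K` applied to `c`, with
`K = [⟨N_A,N_B⟩, 0, 0; 0, ⟨m_A,m_B⟩, ⟨v_A,m_B⟩; 0, -⟨m_A,v_B⟩, -⟨v_A,v_B⟩]` (`m_A, v_A ⊥ N_B`, `m_B, v_B ⊥ N_A`).
Claim `K = ω J Mᵀ`, `J Mᵀ = [e^{-ik},0,0; 0, -H e^{iσ}, S e^{iη}; 0, -S e^{-iη}, H e^{-iσ}]`, `ω = e^{i(k - 2t/3)}`, `S = √(H²-1)`.
With `A = cos 2α_i`, `B = cos 2α_{i+2}`, `C = cos 2α_{i+1}`, `s_i = sin 2α_i`, `μ = (ψ_i - ψ_{i+2})/2`:
* `⟨N_A,N_B⟩ = e^{-2it/3} = ω e^{-ik}`.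
* `⟨v_A,v_B⟩ = e^{i(ψ_i - ψ_{i+2})} ⟨cr (n i) (n (i+1)), cr (n (i+2)) (n i)⟩ / (s_i s_{i+2})` and by `cr_herm`
  `⟨cr ..⟩ = -(⟨n (i+2), n i⟩⟨n i, n (i+1)⟩ - ⟨n i, n i⟩⟨n (i+2), n (i+1)⟩) = -(AB e^{4it/3} + C e^{-2it/3}) = - e^{it/3} conj Y`,
  `Y = AB e^{-it} + C e^{it} = H s_i s_{i+2} e^{iτ}`.  So `⟨v_A,v_B⟩ = - e^{2iμ} e^{it/3} H e^{-iτ} = - ω H e^{-iσ}`
  (`σ = τ - μ`, `k = t + μ`).
* `⟨v_A,m_B⟩ = e^{it/3} ⟨v_A, n (i+2)⟩ / s_{i+2}` and `⟨n (i+2), v_A⟩ = e^{-iψ_i} conj (Dt)/|Dt| Dt / s_i = e^{-iψ_i} |Dt| / s_i`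
  (`herm_cr_n`), so `⟨v_A,m_B⟩ = e^{it/3 + iψ_i} |Dt|/(s_i s_{i+2}) = ω S e^{iη}`; here `S = |Dt|/(s_i s_{i+2})` by `Dt_sq`, `H_sq`
  (`H = Hv α t i` because both are `‖Y‖ / (s_i s_{i+2})`), `η = (ψ_i + ψ_{i+2})/2`, `μ + η = ψ_i`.
* `⟨m_A,v_B⟩ = e^{it/3} ⟨n (i+1), v_B⟩/s_i = e^{it/3 - iψ_{i+2}} |Dt|/(s_i s_{i+2}) = ω S e^{-iη}`
  (`v_B ∝ cr (n (i+2)) (n i)`, and `n (i+1)` is the third vector: `i + 1 = (i + 2) + 2`).
* `⟨m_A,m_B⟩ = ⟨N2_A + A N1_A, N1_B⟩/(s_i s_{i+2})` (as `m_A ⊥ N_B`) `= (e^{2it/3}⟨n (i+1), n (i+2)⟩ + A ⟨n i, n (i+2)⟩)/(..)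
  = -(C e^{4it/3} + AB e^{-2it/3})/(s_i s_{i+2}) = - e^{it/3} Y/(..) = - e^{it/3} H e^{iτ} = - ω H e^{iσ}`.
-/

namespace Pool.Agent.Work.MP_88b7aa_gt.CH

open ComplexConjugate Complex Matrix

private lemma fe_conj (x : ℝ) : conj (exp ((x : ℝ) * I)) = exp ((-x : ℝ) * I) := by
  rw [← exp_conj, map_mul, conj_ofReal, conj_I, ofReal_neg, mul_neg, neg_mul]

private lemma fe_mul (x y : ℝ) :
    exp ((x : ℝ) * I) * exp ((y : ℝ) * I) = exp ((x + y : ℝ) * I) := by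
  rw [← Complex.exp_add, ofReal_add, add_mul]

/-- the middle vector of the first frame -/
private noncomputable def fm (α : Fin 3 → ℝ) (t : ℝ) (n : Fin 3 → Fin 3 → ℂ) (e : Fin 3) :
    Fin 3 → ℂ :=
  ((Real.sin (2 * α e) : ℂ))⁻¹ • (N2 t n e + (Real.cos (2 * α e) : ℂ) • N1 t n e)

private lemma fe_m_right (α : Fin 3 → ℝ) (t : ℝ) (n : Fin 3 → Fin 3 → ℂ) (e : Fin 3)
    (z : Fin 3 → ℂ) : herm z (fm α t n e) =
      (herm z (N2 t n e) + Real.cos (2 * α e) * herm z (N1 t n e)) / Real.sin (2 * α e) := by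
  rw [fm, herm_smul_right, herm_add_right, herm_smul_right, map_inv₀, conj_ofReal, conj_ofReal,
    div_eq_inv_mul]

private lemma fe_m_left (α : Fin 3 → ℝ) (t : ℝ) (n : Fin 3 → Fin 3 → ℂ) (e : Fin 3)
    (w : Fin 3 → ℂ) : herm (fm α t n e) w =
      (herm (N2 t n e) w + Real.cos (2 * α e) * herm (N1 t n e) w) / Real.sin (2 * α e) := by
  rw [fm, herm_smul_left, herm_add_left, herm_smul_left, div_eq_inv_mul]

private lemma fe_exp (α ψ : Fin 3 → ℝ) (t : ℝ) (n : Fin 3 → Fin 3 → ℂ) (hn : NTri α t n)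
    (hs : ∀ e, 0 < Real.sin (2 * α e)) (hD : Dt n ≠ 0) (e : Fin 3) (z w : Fin 3 → ℂ) :
    herm z w = herm (N1 t n e) w * coef1 α ψ t n e z 0 + herm (fm α t n e) w *
      coef1 α ψ t n e z 1 + herm (vv α ψ n e) w * coef1 α ψ t n e z 2 := by
  obtain ⟨r1, r2, r3, r4, r5, r6⟩ := frame_rel α ψ t n hn hs hD e
  have hs0 : (Real.sin (2 * α e) : ℂ) ≠ 0 := by
    exact_mod_cast (hs e).ne'
  have hsc : (Real.sin (2 * α e) : ℂ) ^ 2 + (Real.cos (2 * α e) : ℂ) ^ 2 = 1 := by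
    exact_mod_cast Real.sin_sq_add_cos_sq (2 * α e)
  have r3' : herm (N2 t n e) (N1 t n e) = -(Real.cos (2 * α e) : ℂ) := by
    rw [← herm_conj, r3, map_neg, conj_ofReal]
  have m1 : herm (N1 t n e) (fm α t n e) = 0 := by
    rw [fe_m_right, r3, r1, mul_one, neg_add_cancel, zero_div]
  have m2 : herm (fm α t n e) (fm α t n e) = 1 := by
    rw [fe_m_left, m1, fe_m_right, r2, r3', mul_zero, add_zero, div_div, div_eq_one_iff_eq
      (mul_ne_zero hs0 hs0)]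
    linear_combination -hsc
  have m3 : herm (fm α t n e) (vv α ψ n e) = 0 := by
    rw [fe_m_left, r6, r5, mul_zero, add_zero, zero_div]
  have h := frame_gen ![N1 t n e, fm α t n e, vv α ψ n e] r1 m2 r4 m1 r5 m3 w
  have h' : w = herm w (N1 t n e) • N1 t n e + herm w (fm α t n e) • fm α t n e +
      (-herm w (vv α ψ n e)) • vv α ψ n e := h
  have c0 : coef1 α ψ t n e z 0 = herm z (N1 t n e) := rfl
  have c1 : coef1 α ψ t n e z 1 = herm z (fm α t n e) := by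
    rw [fe_m_right]
    rfl
  have c2 : coef1 α ψ t n e z 2 = -herm z (vv α ψ n e) := rfl
  rw [c0, c1, c2]
  conv_lhs => rw [h']
  rw [herm_add_right, herm_add_right, herm_smul_right, herm_smul_right, herm_smul_right, map_neg,
    herm_conj, herm_conj, herm_conj]
  ring

theorem FrE (α ψ : Fin 3 → ℝ) (t : ℝ) (n : Fin 3 → Fin 3 → ℂ) (hn : NTri α t n)
    (hs : ∀ e, 0 < Real.sin (2 * α e)) (hD : Dt n ≠ 0) (i : Fin 3) (H τ : ℝ) (hH : 0 < H)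
    (hY : Yv α t i = ((H * (Real.sin (2 * α i) * Real.sin (2 * α (i + 2))) : ℝ) : ℂ) * exp ((τ : ℝ) * I))
    (z : Fin 3 → ℂ) :
    coef2 α ψ t n (i + 2) z =
      exp ((t + (ψ i - ψ (i + 2)) / 2 - 2 * t / 3 : ℝ) * I) •
        (Jm * (edgeM (t + (ψ i - ψ (i + 2)) / 2) (τ - (ψ i - ψ (i + 2)) / 2) ((ψ i + ψ (i + 2)) / 2) H)ᵀ).mulVec
          (coef1 α ψ t n i z) := by
  have e1 : i + 2 + 1 = i := by fin_cases i <;> rfl
  have e2 : i + 1 + 1 = i + 2 := by fin_cases i <;> rfl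
  have e3 : i + 2 + 2 = i + 1 := by fin_cases i <;> rfl
  obtain ⟨rA1, rA2, rA3, rA4, rA5, rA6⟩ := frame_rel α ψ t n hn hs hD i
  have hsA0 := hs i
  have hsB0 := hs (i + 2)
  have hDn : (‖Dt n‖ : ℂ) ≠ 0 := by
    exact_mod_cast norm_ne_zero_iff.2 hD
  have hDD : Dt n * conj (Dt n) = (‖Dt n‖ : ℂ) ^ 2 := Complex.mul_conj' _
  -- the value of the square root
  have hS : (Real.sqrt (H ^ 2 - 1) : ℂ) =
      (‖Dt n‖ : ℂ) / ((Real.sin (2 * α i) : ℂ) * (Real.sin (2 * α (i + 2)) : ℂ)) := by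
    have h1 : Hv α t i = H := by
      rw [Hv, hY, norm_mul, Complex.norm_exp_ofReal_mul_I, mul_one, Complex.norm_real,
        Real.norm_eq_abs, abs_of_pos (mul_pos hH (mul_pos hsA0 hsB0)),
        mul_div_assoc, div_self (mul_pos hsA0 hsB0).ne', mul_one]
    have h2 : H ^ 2 - 1 = (‖Dt n‖ / (Real.sin (2 * α i) * Real.sin (2 * α (i + 2)))) ^ 2 := by
      rw [← h1, H_sq α t hs i, ← Dt_sq α t n hn, div_pow]
    rw [h2, Real.sqrt_sq (div_nonneg (norm_nonneg _) (mul_pos hsA0 hsB0).le)]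
    push_cast
    rfl
  have hY' : ((Real.cos (2 * α i) : ℂ) * (Real.cos (2 * α (i + 2)) : ℂ)) * exp ((-t : ℝ) * I) +
      (Real.cos (2 * α (i + 1)) : ℂ) * exp ((t : ℝ) * I) =
      (H : ℂ) * ((Real.sin (2 * α i) : ℂ) * (Real.sin (2 * α (i + 2)) : ℂ)) *
        exp ((τ : ℝ) * I) := by
    rw [Yv] at hY
    rw [← Complex.ofReal_mul, ← Complex.ofReal_mul, ← Complex.ofReal_mul]
    exact hY
  have hYc : ((Real.cos (2 * α i) : ℂ) * (Real.cos (2 * α (i + 2)) : ℂ)) * exp ((t : ℝ) * I) +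
      (Real.cos (2 * α (i + 1)) : ℂ) * exp ((-t : ℝ) * I) =
      (H : ℂ) * ((Real.sin (2 * α i) : ℂ) * (Real.sin (2 * α (i + 2)) : ℂ)) *
        exp ((-τ : ℝ) * I) := by
    have h := congrArg conj hY'
    simp only [map_add, map_mul, conj_ofReal, fe_conj, neg_neg] at h
    exact h
  have hsA : (Real.sin (2 * α i) : ℂ) ≠ 0 := by exact_mod_cast hsA0.ne'
  have hsB : (Real.sin (2 * α (i + 2)) : ℂ) ≠ 0 := by exact_mod_cast hsB0.ne'
  -- Gram entries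
  have g0 := hn.ang i
  have g1 := hn.ang (i + 1)
  have g2 := hn.ang (i + 2)
  rw [e2] at g1
  rw [e1] at g2
  have g2' : herm (n i) (n (i + 2)) =
      -(Real.cos (2 * α (i + 2)) : ℂ) * exp ((-(2 * t / 3) : ℝ) * I) := by
    rw [← herm_conj, g2, map_mul, map_neg, conj_ofReal, fe_conj]
  have g1' : herm (n (i + 2)) (n (i + 1)) =
      -(Real.cos (2 * α (i + 1)) : ℂ) * exp ((-(2 * t / 3) : ℝ) * I) := by
    rw [← herm_conj, g1, map_mul, map_neg, conj_ofReal, fe_conj]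
  obtain ⟨q1, q2, q3⟩ := herm_cr_n n i
  obtain ⟨p1, p2, p3⟩ := herm_cr_n n (i + 2)
  rw [e1] at p1 p2 p3
  rw [e3] at p3
  have hNB : N2 t n (i + 2) = exp ((t / 3 : ℝ) * I) • n i := by rw [N2, e1]
  have hNA : N1 t n i = exp ((-t / 3 : ℝ) * I) • n i := rfl
  have hvB : vv α ψ n (i + 2) = (exp ((ψ (i + 2) : ℝ) * I) * (Dt n / (‖Dt n‖ : ℂ)) /
      (Real.sin (2 * α (i + 2)) : ℂ)) • cr (n (i + 2)) (n i) := by rw [vv, e1]
  -- entries against N_B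
  have NN' : herm (N1 t n i) (N2 t n (i + 2)) = exp ((-(2 * t / 3) : ℝ) * I) := by
    rw [hNB, hNA, herm_smul_left, herm_smul_right, hn.unit i, mul_one, fe_conj, fe_mul]
    congr 3
    ring
  have vN : herm (vv α ψ n i) (N2 t n (i + 2)) = 0 := by
    have h : herm (vv α ψ n i) (n i) = 0 := by
      rw [vv, herm_smul_left, ← herm_conj, q1, map_zero, mul_zero]
    rw [hNB, herm_smul_right, h, mul_zero]
  have n21 : herm (n (i + 1)) (n i) =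
      -(Real.cos (2 * α i) : ℂ) * exp ((-(2 * t / 3) : ℝ) * I) := by
    rw [← herm_conj, g0, map_mul, map_neg, conj_ofReal, fe_conj]
  have mN : herm (fm α t n i) (N2 t n (i + 2)) = 0 := by
    rw [fe_m_left, NN', hNB, N2, herm_smul_left, herm_smul_right, n21, fe_conj]
    have h : exp ((t / 3 : ℝ) * I) * (exp ((-(t / 3) : ℝ) * I) *
        (-(Real.cos (2 * α i) : ℂ) * exp ((-(2 * t / 3) : ℝ) * I))) =
        -(Real.cos (2 * α i) : ℂ) * exp ((-(2 * t / 3) : ℝ) * I) := by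
      rw [← mul_assoc, fe_mul, add_neg_cancel, ofReal_zero, zero_mul, Complex.exp_zero, one_mul]
    rw [h, neg_mul, neg_add_cancel, zero_div]
  -- entries against N1 at vertex i + 2
  have NN1 : herm (N1 t n i) (N1 t n (i + 2)) =
      -(Real.cos (2 * α (i + 2)) : ℂ) * exp ((-(2 * t / 3) : ℝ) * I) := by
    rw [N1, N1, herm_smul_left, herm_smul_right, g2', fe_conj, ← mul_assoc, fe_mul]
    have h : (-t / 3 + -(-t / 3) : ℝ) = 0 := by ring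
    rw [h, ofReal_zero, zero_mul, Complex.exp_zero, one_mul]
  have N2N1 : herm (N2 t n i) (N1 t n (i + 2)) =
      -(Real.cos (2 * α (i + 1)) : ℂ) * exp ((4 * t / 3 : ℝ) * I) := by
    rw [N1, N2, herm_smul_left, herm_smul_right, g1, fe_conj, ← mul_assoc, fe_mul, mul_left_comm,
      fe_mul]
    congr 3
    push_cast
    ring
  have mN1 : herm (fm α t n i) (N1 t n (i + 2)) =
      -((H : ℂ) * (Real.sin (2 * α (i + 2)) : ℂ)) * exp ((t / 3 + τ : ℝ) * I) := by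
    rw [fe_m_left, NN1, N2N1, div_eq_iff hsA]
    have h1 : exp ((4 * t / 3 : ℝ) * I) = exp ((t / 3 : ℝ) * I) * exp ((t : ℝ) * I) := by
      rw [fe_mul]
      congr 3
      ring
    have h2 : exp ((-(2 * t / 3) : ℝ) * I) = exp ((t / 3 : ℝ) * I) * exp ((-t : ℝ) * I) := by
      rw [fe_mul]
      congr 3
      ring
    rw [h1, h2, ← fe_mul]
    linear_combination (-exp ((t / 3 : ℝ) * I)) * hY'
  have vN1 : herm (vv α ψ n i) (N1 t n (i + 2)) =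
      exp ((ψ i + t / 3 : ℝ) * I) * (‖Dt n‖ : ℂ) / (Real.sin (2 * α i) : ℂ) := by
    have h : herm (cr (n i) (n (i + 1))) (n (i + 2)) = conj (Dt n) := by
      rw [← herm_conj, q3]
    rw [vv, N1, herm_smul_left, herm_smul_right, h, fe_conj, ← fe_mul]
    have h1 : (-(-t / 3) : ℝ) = t / 3 := by ring
    rw [h1]
    field_simp
    linear_combination hDD
  -- entries against the vertex vector at i + 2
  have Nv : herm (N1 t n i) (vv α ψ n (i + 2)) = 0 := by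
    rw [hvB, N1, herm_smul_left, herm_smul_right, p2, mul_zero, mul_zero]
  have N2v : herm (N2 t n i) (vv α ψ n (i + 2)) =
      exp ((t / 3 - ψ (i + 2) : ℝ) * I) * (‖Dt n‖ : ℂ) / (Real.sin (2 * α (i + 2)) : ℂ) := by
    rw [hvB, N2, herm_smul_left, herm_smul_right, p3, map_div₀, map_mul, map_div₀, conj_ofReal,
      conj_ofReal, fe_conj, sub_eq_add_neg, ← fe_mul]
    field_simp
    linear_combination hDD
  have mv : herm (fm α t n i) (vv α ψ n (i + 2)) =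
      exp ((t / 3 - ψ (i + 2) : ℝ) * I) * (‖Dt n‖ : ℂ) /
        ((Real.sin (2 * α i) : ℂ) * (Real.sin (2 * α (i + 2)) : ℂ)) := by
    rw [fe_m_left, Nv, N2v, mul_zero, add_zero, div_div, mul_comm (Real.sin (2 * α i) : ℂ)]
  have vv' : herm (vv α ψ n i) (vv α ψ n (i + 2)) =
      -((H : ℂ) * exp ((ψ i - ψ (i + 2) + t / 3 - τ : ℝ) * I)) := by
    have h : herm (cr (n i) (n (i + 1))) (cr (n (i + 2)) (n i)) =
        -(exp ((t / 3 : ℝ) * I) * ((H : ℂ) * ((Real.sin (2 * α i) : ℂ) *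
          (Real.sin (2 * α (i + 2)) : ℂ)) * exp ((-τ : ℝ) * I))) := by
      rw [cr_herm, g2, g0, hn.unit i, g1', ← hYc]
      have h1 : exp ((2 * t / 3 : ℝ) * I) * exp ((2 * t / 3 : ℝ) * I) =
          exp ((t / 3 : ℝ) * I) * exp ((t : ℝ) * I) := by
        rw [fe_mul, fe_mul]
        congr 3
        ring
      have h2 : exp ((-(2 * t / 3) : ℝ) * I) = exp ((t / 3 : ℝ) * I) * exp ((-t : ℝ) * I) := by
        rw [fe_mul]
        congr 3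
        ring
      rw [h2]
      linear_combination (-(Real.cos (2 * α i) : ℂ) * (Real.cos (2 * α (i + 2)) : ℂ)) * h1
    have h3 : exp ((ψ i - ψ (i + 2) + t / 3 - τ : ℝ) * I) = exp ((ψ i : ℝ) * I) *
        exp ((-ψ (i + 2) : ℝ) * I) * exp ((t / 3 : ℝ) * I) * exp ((-τ : ℝ) * I) := by
      rw [fe_mul, fe_mul, fe_mul]
      congr 3
    rw [hvB, vv, herm_smul_left, herm_smul_right, h, map_div₀, map_mul, map_div₀, conj_ofReal,
      conj_ofReal, fe_conj, h3]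
    field_simp
    linear_combination (-(H : ℂ)) * hDD
  -- assembly
  have x0 : coef2 α ψ t n (i + 2) z 0 =
      exp ((-(2 * t / 3) : ℝ) * I) * coef1 α ψ t n i z 0 := by
    have h : coef2 α ψ t n (i + 2) z 0 = herm z (N2 t n (i + 2)) := rfl
    rw [h, fe_exp α ψ t n hn hs hD i, NN', mN, vN]
    ring
  have x1 : coef2 α ψ t n (i + 2) z 1 =
      -((H : ℂ) * exp ((t / 3 + τ : ℝ) * I)) * coef1 α ψ t n i z 1 +
        exp ((ψ i + t / 3 : ℝ) * I) * (Real.sqrt (H ^ 2 - 1) : ℂ) * coef1 α ψ t n i z 2 := by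
    have h : coef2 α ψ t n (i + 2) z 1 = (herm z (N1 t n (i + 2)) +
      Real.cos (2 * α (i + 2)) * herm z (N2 t n (i + 2))) / Real.sin (2 * α (i + 2)) := rfl
    rw [h, fe_exp α ψ t n hn hs hD i z (N2 t n (i + 2)), NN', mN, vN,
      fe_exp α ψ t n hn hs hD i z (N1 t n (i + 2)), NN1, mN1, vN1, hS, div_eq_iff hsB]
    field_simp
    ring
  have x2 : coef2 α ψ t n (i + 2) z 2 =
      -(exp ((t / 3 - ψ (i + 2) : ℝ) * I) * (Real.sqrt (H ^ 2 - 1) : ℂ)) *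
        coef1 α ψ t n i z 1 +
      ((H : ℂ) * exp ((ψ i - ψ (i + 2) + t / 3 - τ : ℝ) * I)) * coef1 α ψ t n i z 2 := by
    have h : coef2 α ψ t n (i + 2) z 2 = -herm z (vv α ψ n (i + 2)) := rfl
    rw [h, fe_exp α ψ t n hn hs hD i z (vv α ψ n (i + 2)), Nv, mv, vv', hS]
    ring
  have w0 : exp ((t + (ψ i - ψ (i + 2)) / 2 - 2 * t / 3 : ℝ) * I) *
      exp ((-(t + (ψ i - ψ (i + 2)) / 2) : ℝ) * I) = exp ((-(2 * t / 3) : ℝ) * I) := by
    rw [fe_mul]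
    congr 3
    ring
  have w1 : exp ((t + (ψ i - ψ (i + 2)) / 2 - 2 * t / 3 : ℝ) * I) *
      exp ((τ - (ψ i - ψ (i + 2)) / 2 : ℝ) * I) = exp ((t / 3 + τ : ℝ) * I) := by
    rw [fe_mul]
    congr 3
    ring
  have w2 : exp ((t + (ψ i - ψ (i + 2)) / 2 - 2 * t / 3 : ℝ) * I) *
      exp (((ψ i + ψ (i + 2)) / 2 : ℝ) * I) = exp ((ψ i + t / 3 : ℝ) * I) := by
    rw [fe_mul]
    congr 3
    ring
  have w3 : exp ((t + (ψ i - ψ (i + 2)) / 2 - 2 * t / 3 : ℝ) * I) *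
      exp ((-((ψ i + ψ (i + 2)) / 2) : ℝ) * I) = exp ((t / 3 - ψ (i + 2) : ℝ) * I) := by
    rw [fe_mul]
    congr 3
    ring
  have w4 : exp ((t + (ψ i - ψ (i + 2)) / 2 - 2 * t / 3 : ℝ) * I) *
      exp ((-(τ - (ψ i - ψ (i + 2)) / 2) : ℝ) * I) =
        exp ((ψ i - ψ (i + 2) + t / 3 - τ : ℝ) * I) := by
    rw [fe_mul]
    congr 3
    ring
  have hm : ∀ (k σ η : ℝ) (c : Fin 3 → ℂ), (Jm * (edgeM k σ η H)ᵀ).mulVec c =
      ![exp ((-k : ℝ) * I) * c 0,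
        -(H : ℂ) * exp ((σ : ℝ) * I) * c 1 + (Real.sqrt (H ^ 2 - 1) : ℂ) *
          exp ((η : ℝ) * I) * c 2,
        -((Real.sqrt (H ^ 2 - 1) : ℂ) * exp ((-η : ℝ) * I)) * c 1 +
          (H : ℂ) * exp ((-σ : ℝ) * I) * c 2] := by
    intro k σ η c
    ext j
    fin_cases j
    · simp [Jm, edgeM, Matrix.mulVec, dotProduct, Fin.sum_univ_three, Matrix.diagonal_mul,
        Matrix.transpose_apply]
    · simp [Jm, edgeM, Matrix.mulVec, dotProduct, Fin.sum_univ_three, Matrix.diagonal_mul,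
        Matrix.transpose_apply]
    · simp [Jm, edgeM, Matrix.mulVec, dotProduct, Fin.sum_univ_three, Matrix.diagonal_mul,
        Matrix.transpose_apply]
      ring
  rw [hm]
  ext j
  fin_cases j
  · change coef2 α ψ t n (i + 2) z 0 = exp ((t + (ψ i - ψ (i + 2)) / 2 - 2 * t / 3 : ℝ) * I) *
      (exp ((-(t + (ψ i - ψ (i + 2)) / 2) : ℝ) * I) * coef1 α ψ t n i z 0)
    rw [x0, ← w0]
    ring
  · change coef2 α ψ t n (i + 2) z 1 = exp ((t + (ψ i - ψ (i + 2)) / 2 - 2 * t / 3 : ℝ) * I) *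
      (-(H : ℂ) * exp ((τ - (ψ i - ψ (i + 2)) / 2 : ℝ) * I) * coef1 α ψ t n i z 1 +
        (Real.sqrt (H ^ 2 - 1) : ℂ) * exp (((ψ i + ψ (i + 2)) / 2 : ℝ) * I) *
          coef1 α ψ t n i z 2)
    rw [x1, ← w1, ← w2]
    ring
  · change coef2 α ψ t n (i + 2) z 2 = exp ((t + (ψ i - ψ (i + 2)) / 2 - 2 * t / 3 : ℝ) * I) *
      (-((Real.sqrt (H ^ 2 - 1) : ℂ) * exp ((-((ψ i + ψ (i + 2)) / 2) : ℝ) * I)) *
        coef1 α ψ t n i z 1 + (H : ℂ) * exp ((-(τ - (ψ i - ψ (i + 2)) / 2) : ℝ) * I) *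
          coef1 α ψ t n i z 2)
    rw [x2, ← w3, ← w4]
    ring

end Pool.Agent.Work.MP_88b7aa_gt.CH
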