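import Pool.Agent.Work.MP_88b7aa_gt.CH.Crs

/-!
# The frames are orthonormal.  Size: S-M.

Let `c = cos (2 α e)`, `s = sin (2 α e) > 0`, `N1, N2` the two polar vectors at vertex `e`, `v = vv α ψ n e`.
(1) `herm N1 N1 = herm N2 N2 = 1`, `herm N1 N2 = e^{-it/3} conj (e^{it/3}) (-c e^{2it/3}) = -c` (real), so with
`m = (N2 + c N1)/s`: `herm N1 m = 0`, `herm m m = (1 - c²)/s² = 1`.
(2) `herm v v = - (1 - |herm (n e) (n (e+1))|²)/s² = -1` (`cr_herm`, `|Dt/‖Dt‖| = 1`), `herm v N1 = herm v N2 = 0` (`herm_cr_n`).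
(3) So the frame `F = (N1, m, v)` satisfies: the matrix `K` of `z ↦ coef1 z = (⟨z,N1⟩, ⟨z,m⟩, -⟨z,v⟩)` has `K J Kᴴ = J`
(Gram matrix of `F`), hence `Kᴴ J K = J`, i.e. `herm (K z) (K z) = herm z z`, and `K` is invertible (surjectivity).
Equivalently `z = c0 N1 + c1 m + c2 v` for `c = coef1 z` (`expand1`).
The same for `coef2` with `N1, N2` exchanged.
Suggestion: prove a general lemma: if `f 0, f 1, f 2` have Gram matrix `diag (1,1,-1)` and `K z = ![⟨z,f 0⟩, ⟨z,f 1⟩, -⟨z,f 2⟩]` then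
`herm (K z) (K z) = herm z z`, `K` is surjective (`K (∑ c i • f i) = c`) and injective, `z = ∑ (K z) i • f i`.
-/

namespace Pool.Agent.Work.MP_88b7aa_gt.CH

open ComplexConjugate Complex

private theorem herm_swap0 {z w : Fin 3 → ℂ} (h : herm z w = 0) : herm w z = 0 := by
  rw [← herm_conj, h, map_zero]

/-- general frame lemma -/
theorem frame_gen (f : Fin 3 → Fin 3 → ℂ) (h00 : herm (f 0) (f 0) = 1) (h11 : herm (f 1) (f 1) = 1)
    (h22 : herm (f 2) (f 2) = -1) (h01 : herm (f 0) (f 1) = 0) (h02 : herm (f 0) (f 2) = 0)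
    (h12 : herm (f 1) (f 2) = 0) (z : Fin 3 → ℂ) :
    z = herm z (f 0) • f 0 + herm z (f 1) • f 1 + (-herm z (f 2)) • f 2 := by
  have h10 := herm_swap0 h01
  have h20 := herm_swap0 h02
  have h21 := herm_swap0 h12
  let M : Matrix (Fin 3) (Fin 3) ℂ := Matrix.of (fun a i => f i a)
  let K : Matrix (Fin 3) (Fin 3) ℂ := !![conj (f 0 0), conj (f 0 1), -conj (f 0 2);
    conj (f 1 0), conj (f 1 1), -conj (f 1 2); -conj (f 2 0), -conj (f 2 1), conj (f 2 2)]
  have hKM : K * M = 1 := by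
    simp only [herm] at h00 h11 h22 h01 h02 h12 h10 h20 h21
    ext i j
    fin_cases i <;> fin_cases j <;>
      simp [K, M, Matrix.mul_apply, Fin.sum_univ_three, Matrix.one_apply] <;>
      first
        | linear_combination h00
        | linear_combination h11
        | linear_combination (-1 : ℂ) * h22
        | linear_combination h01
        | linear_combination h02
        | linear_combination h12
        | linear_combination h10
        | linear_combination h20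
        | linear_combination h21
        | linear_combination (-1 : ℂ) * h02
        | linear_combination (-1 : ℂ) * h12
        | linear_combination (-1 : ℂ) * h01
  have hMK : M * K = 1 := mul_eq_one_comm.mp hKM
  have hz : M.mulVec (K.mulVec z) = z := by
    rw [Matrix.mulVec_mulVec, hMK, Matrix.one_mulVec]
  have hK : K.mulVec z = ![herm z (f 0), herm z (f 1), -herm z (f 2)] := by
    ext i
    fin_cases i <;> simp [K, Matrix.mulVec, dotProduct, Fin.sum_univ_three, herm] <;> ring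
  rw [hK] at hz
  conv_lhs => rw [← hz]
  ext a
  simp [M, Matrix.mulVec, dotProduct, Fin.sum_univ_three]
  ring

private theorem frame_norm (f : Fin 3 → Fin 3 → ℂ) (h00 : herm (f 0) (f 0) = 1) (h11 : herm (f 1) (f 1) = 1)
    (h22 : herm (f 2) (f 2) = -1) (h01 : herm (f 0) (f 1) = 0) (h02 : herm (f 0) (f 2) = 0)
    (h12 : herm (f 1) (f 2) = 0) (z : Fin 3 → ℂ) :
    herm ![herm z (f 0), herm z (f 1), -herm z (f 2)] ![herm z (f 0), herm z (f 1), -herm z (f 2)]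
      = herm z z := by
  have h := frame_gen f h00 h11 h22 h01 h02 h12 z
  have h' : herm z z = herm (herm z (f 0) • f 0 + herm z (f 1) • f 1 + (-herm z (f 2)) • f 2) z := by
    rw [← h]
  rw [h', herm_add_left, herm_add_left, herm_smul_left, herm_smul_left, herm_smul_left,
    ← herm_conj z (f 0), ← herm_conj z (f 1), ← herm_conj z (f 2)]
  generalize herm z (f 0) = a
  generalize herm z (f 1) = b
  generalize herm z (f 2) = d
  simp only [herm, Matrix.cons_val_zero, Matrix.cons_val_one, Matrix.cons_val, map_neg]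
  ring

private theorem frame_surj (f : Fin 3 → Fin 3 → ℂ) (h00 : herm (f 0) (f 0) = 1) (h11 : herm (f 1) (f 1) = 1)
    (h22 : herm (f 2) (f 2) = -1) (h01 : herm (f 0) (f 1) = 0) (h02 : herm (f 0) (f 2) = 0)
    (h12 : herm (f 1) (f 2) = 0) (c : Fin 3 → ℂ) :
    ∃ z, ![herm z (f 0), herm z (f 1), -herm z (f 2)] = c := by
  have h10 := herm_swap0 h01
  have h20 := herm_swap0 h02
  have h21 := herm_swap0 h12
  refine ⟨c 0 • f 0 + c 1 • f 1 + c 2 • f 2, ?_⟩
  simp only [herm_add_left, herm_smul_left, h00, h11, h22, h01, h02, h12, h10, h20, h21]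
  ext i
  fin_cases i <;> simp

private theorem herm_zero_of_smul {l : ℂ} {z w : Fin 3 → ℂ} (h : herm z w = 0) : herm z (l • w) = 0 := by
  rw [herm_smul_right, h, mul_zero]

/-- the Gram relations at a vertex -/
theorem frame_rel (α ψ : Fin 3 → ℝ) (t : ℝ) (n : Fin 3 → Fin 3 → ℂ) (hn : NTri α t n)
    (hs : ∀ e, 0 < Real.sin (2 * α e)) (hD : Dt n ≠ 0) (e : Fin 3) :
    herm (N1 t n e) (N1 t n e) = 1 ∧ herm (N2 t n e) (N2 t n e) = 1 ∧
      herm (N1 t n e) (N2 t n e) = -(Real.cos (2 * α e) : ℂ) ∧ herm (vv α ψ n e) (vv α ψ n e) = -1 ∧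
      herm (N1 t n e) (vv α ψ n e) = 0 ∧ herm (N2 t n e) (vv α ψ n e) = 0 := by
  have hs' : (Real.sin (2 * α e) : ℂ) ≠ 0 := by
    exact_mod_cast (hs e).ne'
  have hD' : (‖Dt n‖ : ℂ) ≠ 0 := by
    exact_mod_cast (norm_pos_iff.mpr hD).ne'
  obtain ⟨hc1, hc2, -⟩ := herm_cr_n n e
  have hexp : ∀ x : ℝ, conj (exp ((x : ℂ) * I)) = exp (((-x : ℝ) : ℂ) * I) := by
    intro x
    rw [← exp_conj]
    simp
  have hee : ∀ x : ℝ, exp ((x : ℂ) * I) * exp (((-x : ℝ) : ℂ) * I) = 1 := by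
    intro x
    rw [← exp_add]
    simp
  refine ⟨?_, ?_, ?_, ?_, ?_, ?_⟩
  · rw [N1, herm_smul_left, herm_smul_right, hn.unit e, mul_one, hexp, hee]
  · rw [N2, herm_smul_left, herm_smul_right, hn.unit (e + 1), mul_one, hexp, hee]
  · rw [N1, N2, herm_smul_left, herm_smul_right, hn.ang e, hexp]
    have : exp (((-t / 3 : ℝ) : ℂ) * I) * (exp (((-(t / 3) : ℝ) : ℂ) * I) * exp (((2 * t / 3 : ℝ) : ℂ) * I)) = 1 := by
      rw [← exp_add, ← exp_add, exp_eq_one_iff]
      refine ⟨0, ?_⟩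
      push_cast
      ring
    linear_combination (-(Real.cos (2 * α e) : ℂ)) * this
  · rw [vv, herm_smul_left, herm_smul_right, cr_herm, hn.unit e, hn.unit (e + 1)]
    have h1 : herm (n (e + 1)) (n e) = conj (herm (n e) (n (e + 1))) := (herm_conj _ _).symm
    rw [h1, hn.ang e]
    have hcs : (Real.sin (2 * α e) : ℂ) ^ 2 + (Real.cos (2 * α e) : ℂ) ^ 2 = 1 := by
      exact_mod_cast Real.sin_sq_add_cos_sq (2 * α e)
    have hDD : Dt n * conj (Dt n) = (‖Dt n‖ : ℂ) ^ 2 := by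
      rw [Complex.mul_conj, Complex.normSq_eq_norm_sq]
      push_cast
      rfl
    have e1 := hee (2 * t / 3)
    have e2 := hee (ψ e)
    simp only [map_mul, map_div₀, map_neg, conj_ofReal, hexp]
    have key : (exp (((ψ e : ℝ) : ℂ) * I) * exp (((-ψ e : ℝ) : ℂ) * I)) * (Dt n * conj (Dt n)) *
        (-(1 - (Real.cos (2 * α e) : ℂ) ^ 2 *
          (exp (((2 * t / 3 : ℝ) : ℂ) * I) * exp (((-(2 * t / 3) : ℝ) : ℂ) * I)))) =
        -1 * ((‖Dt n‖ : ℂ) ^ 2 * (Real.sin (2 * α e) : ℂ) ^ 2) := by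
      rw [e1, e2, hDD]
      linear_combination (‖Dt n‖ : ℂ) ^ 2 * hcs
    generalize exp (((ψ e : ℝ) : ℂ) * I) = a1 at key ⊢
    generalize exp (((-ψ e : ℝ) : ℂ) * I) = a2 at key ⊢
    generalize exp (((2 * t / 3 : ℝ) : ℂ) * I) = a3 at key ⊢
    generalize exp (((-(2 * t / 3) : ℝ) : ℂ) * I) = a4 at key ⊢
    rw [← sub_eq_zero]
    field_simp
    linear_combination key
  · rw [N1, herm_smul_left, vv, herm_zero_of_smul hc1, mul_zero]
  · rw [N2, herm_smul_left, vv, herm_zero_of_smul hc2, mul_zero]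

/-- the orthonormal frame made of two unit vectors with `⟨u, w⟩ = - c` and a third vector -/
private theorem pair_frame (u w v : Fin 3 → ℂ) (c s : ℝ) (hs : 0 < s) (hcs : s ^ 2 + c ^ 2 = 1)
    (huu : herm u u = 1) (hww : herm w w = 1) (huw : herm u w = -(c : ℂ)) (hvv : herm v v = -1)
    (huv : herm u v = 0) (hwv : herm w v = 0) :
    ∃ f : Fin 3 → Fin 3 → ℂ, (herm (f 0) (f 0) = 1 ∧ herm (f 1) (f 1) = 1 ∧ herm (f 2) (f 2) = -1 ∧
      herm (f 0) (f 1) = 0 ∧ herm (f 0) (f 2) = 0 ∧ herm (f 1) (f 2) = 0) ∧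
      ∀ z, ![herm z u, (herm z w + c * herm z u) / s, -herm z v] =
        ![herm z (f 0), herm z (f 1), -herm z (f 2)] := by
  have hs' : (s : ℂ) ≠ 0 := by exact_mod_cast hs.ne'
  have hcs' : (s : ℂ) ^ 2 + (c : ℂ) ^ 2 = 1 := by exact_mod_cast hcs
  have hwu : herm w u = -(c : ℂ) := by
    rw [← herm_conj, huw]
    simp
  refine ⟨![u, ((1 / s : ℝ) : ℂ) • (w + (c : ℂ) • u), v], ⟨huu, ?_, hvv, ?_, huv, ?_⟩, ?_⟩
  · simp only [Matrix.cons_val_one, Matrix.cons_val_zero]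
    simp only [herm_smul_left, herm_smul_right, herm_add_left, herm_add_right, huu, hww, huw, hwu,
      conj_ofReal]
    push_cast
    field_simp
    linear_combination -hcs'
  · simp only [Matrix.cons_val_one, Matrix.cons_val_zero]
    simp only [herm_smul_left, herm_smul_right, herm_add_left, herm_add_right, huu, hww, huw, hwu,
      conj_ofReal]
    ring
  · show herm (((1 / s : ℝ) : ℂ) • (w + (c : ℂ) • u)) v = 0
    simp only [herm_smul_left, herm_add_left, huv, hwv]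
    ring
  · intro z
    show ![herm z u, (herm z w + c * herm z u) / s, -herm z v] =
        ![herm z u, herm z (((1 / s : ℝ) : ℂ) • (w + (c : ℂ) • u)), -herm z v]
    have : herm z (((1 / s : ℝ) : ℂ) • (w + (c : ℂ) • u)) = (herm z w + c * herm z u) / s := by
      simp only [herm_smul_right, herm_add_right, conj_ofReal]
      push_cast
      field_simp
    rw [this]

theorem coef1_norm (α ψ : Fin 3 → ℝ) (t : ℝ) (n : Fin 3 → Fin 3 → ℂ) (hn : NTri α t n)
    (hs : ∀ e, 0 < Real.sin (2 * α e)) (hD : Dt n ≠ 0) (e : Fin 3) (z : Fin 3 → ℂ) :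
    herm (coef1 α ψ t n e z) (coef1 α ψ t n e z) = herm z z := by
  obtain ⟨h1, h2, h3, h4, h5, h6⟩ := frame_rel α ψ t n hn hs hD e
  obtain ⟨f, ⟨a1, a2, a3, a4, a5, a6⟩, hf⟩ := pair_frame (N1 t n e) (N2 t n e) (vv α ψ n e)
    (Real.cos (2 * α e)) (Real.sin (2 * α e)) (hs e) (Real.sin_sq_add_cos_sq _) h1 h2 h3 h4 h5 h6
  rw [coef1, hf]
  exact frame_norm f a1 a2 a3 a4 a5 a6 z

theorem coef2_norm (α ψ : Fin 3 → ℝ) (t : ℝ) (n : Fin 3 → Fin 3 → ℂ) (hn : NTri α t n)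
    (hs : ∀ e, 0 < Real.sin (2 * α e)) (hD : Dt n ≠ 0) (e : Fin 3) (z : Fin 3 → ℂ) :
    herm (coef2 α ψ t n e z) (coef2 α ψ t n e z) = herm z z := by
  obtain ⟨h1, h2, h3, h4, h5, h6⟩ := frame_rel α ψ t n hn hs hD e
  have h3' : herm (N2 t n e) (N1 t n e) = -(Real.cos (2 * α e) : ℂ) := by
    rw [← herm_conj, h3, map_neg, conj_ofReal]
  obtain ⟨f, ⟨a1, a2, a3, a4, a5, a6⟩, hf⟩ := pair_frame (N2 t n e) (N1 t n e) (vv α ψ n e)
    (Real.cos (2 * α e)) (Real.sin (2 * α e)) (hs e) (Real.sin_sq_add_cos_sq _) h2 h1 h3' h4 h6 h5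
  rw [coef2, hf]
  exact frame_norm f a1 a2 a3 a4 a5 a6 z

theorem coef1_surj (α ψ : Fin 3 → ℝ) (t : ℝ) (n : Fin 3 → Fin 3 → ℂ) (hn : NTri α t n)
    (hs : ∀ e, 0 < Real.sin (2 * α e)) (hD : Dt n ≠ 0) (e : Fin 3) (c : Fin 3 → ℂ) :
    ∃ z, coef1 α ψ t n e z = c := by
  obtain ⟨h1, h2, h3, h4, h5, h6⟩ := frame_rel α ψ t n hn hs hD e
  obtain ⟨f, ⟨a1, a2, a3, a4, a5, a6⟩, hf⟩ := pair_frame (N1 t n e) (N2 t n e) (vv α ψ n e)
    (Real.cos (2 * α e)) (Real.sin (2 * α e)) (hs e) (Real.sin_sq_add_cos_sq _) h1 h2 h3 h4 h5 h6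
  obtain ⟨z, hz⟩ := frame_surj f a1 a2 a3 a4 a5 a6 c
  exact ⟨z, by rw [coef1, hf, hz]⟩

end Pool.Agent.Work.MP_88b7aa_gt.CH
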