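import Pool.Agent.Work.MP_88b7aa_gt.CH.FrN

/-!
# The reflections in the coordinates of a vertex.  Size: S-M.

PROOF.  `refl n` applied to `z` is `-z + 2 ⟨z, n⟩ n` (`refl_mulVec`); it does not change if `n` is replaced by `ω n`, `|ω| = 1`, so
`refl (n e) z = -z + 2 ⟨z, N1⟩ N1` and `refl (n (e+1)) z = -z + 2 ⟨z, N2⟩ N2`.  With `frame_rel`:
`⟨refl z, N1⟩ = ⟨z, N1⟩`, `⟨refl z, m⟩ = -⟨z, m⟩` (`⟨N1, m⟩ = 0`, `m = (N2 + c N1)/s`), `⟨refl z, v⟩ = -⟨z, v⟩`.
The same for the second frame.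
`coef2_eq`: `⟨z,N2⟩ = s ⟨z,m⟩ - c ⟨z,N1⟩` and `(⟨z,N1⟩ + c ⟨z,N2⟩)/s = s ⟨z,N1⟩ + c ⟨z,m⟩` (uses only `s² + c² = 1`, `s ≠ 0`).
`refl_herm`: `herm (refl n z) (refl n w) = herm z w` for a unit vector `n`.
-/

namespace Pool.Agent.Work.MP_88b7aa_gt.CH

open ComplexConjugate Complex

theorem refl_mulVec (n z : Fin 3 → ℂ) : (refl n).mulVec z = -z + (2 * herm z n) • n := by
  ext a
  fin_cases a <;>
    simp [Matrix.mulVec, dotProduct, Fin.sum_univ_three, refl, herm] <;> ring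

theorem refl_herm (n z w : Fin 3 → ℂ) (hn : herm n n = 1) :
    herm ((refl n).mulVec z) ((refl n).mulVec w) = herm z w := by
  rw [refl_mulVec, refl_mulVec]
  simp only [herm, Pi.add_apply, Pi.neg_apply, Pi.smul_apply, smul_eq_mul, map_add, map_neg, map_mul, map_sub,
    Complex.conj_conj, map_ofNat] at hn ⊢
  linear_combination (4 * (z 0 * conj (n 0) + z 1 * conj (n 1) - z 2 * conj (n 2)) *
    (conj (w 0) * n 0 + conj (w 1) * n 1 - conj (w 2) * n 2)) * hn

theorem refl_sq (n : Fin 3 → ℂ) (hn : herm n n = 1) : refl n * refl n = 1 := by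
  simp only [herm] at hn
  ext a b
  fin_cases a <;> fin_cases b <;>
    simp [Matrix.mul_apply, Fin.sum_univ_three, refl]
  · linear_combination (4 * n 0 * conj (n 0)) * hn
  · linear_combination (4 * n 0 * conj (n 1)) * hn
  · linear_combination (-4 * n 0 * conj (n 2)) * hn
  · linear_combination (4 * n 1 * conj (n 0)) * hn
  · linear_combination (4 * n 1 * conj (n 1)) * hn
  · linear_combination (-4 * n 1 * conj (n 2)) * hn
  · linear_combination (4 * n 2 * conj (n 0)) * hn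
  · linear_combination (4 * n 2 * conj (n 1)) * hn
  · linear_combination (-4 * n 2 * conj (n 2)) * hn

theorem refl_smul (ω : ℂ) (hω : ‖ω‖ = 1) (n : Fin 3 → ℂ) : refl (ω • n) = refl n := by
  have h : ω * conj ω = 1 := by
    rw [Complex.mul_conj, Complex.normSq_eq_norm_sq, hω]; simp
  ext a b
  simp only [refl, Pi.smul_apply, smul_eq_mul, map_mul]
  split_ifs <;> first
    | linear_combination (2 * n a * conj (n b)) * h
    | linear_combination (-2 * n a * conj (n b)) * h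

private theorem frR_herm_smul_left (c : ℂ) (z w : Fin 3 → ℂ) : herm (c • z) w = c * herm z w := by
  simp only [herm, Pi.smul_apply, smul_eq_mul]; ring

private theorem frR_herm_add_left (z z' w : Fin 3 → ℂ) : herm (z + z') w = herm z w + herm z' w := by
  simp only [herm, Pi.add_apply]; ring

private theorem frR_herm_neg_left (z w : Fin 3 → ℂ) : herm (-z) w = -herm z w := by
  simp only [herm, Pi.neg_apply]; ring

private theorem frR_herm_symm (z w : Fin 3 → ℂ) : herm w z = conj (herm z w) := by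
  simp only [herm, map_add, map_sub, map_mul, Complex.conj_conj]; ring

private theorem frR_norm_exp_real (x : ℝ) : ‖exp ((x : ℂ) * I)‖ = 1 := Complex.norm_exp_ofReal_mul_I x

theorem coef1_refl (α ψ : Fin 3 → ℝ) (t : ℝ) (n : Fin 3 → Fin 3 → ℂ) (hn : NTri α t n)
    (hs : ∀ e, 0 < Real.sin (2 * α e)) (hD : Dt n ≠ 0) (e : Fin 3) (z : Fin 3 → ℂ) :
    coef1 α ψ t n e ((refl (n e)).mulVec z) =
      ![coef1 α ψ t n e z 0, -coef1 α ψ t n e z 1, -coef1 α ψ t n e z 2] := by
  obtain ⟨h11, h22, h12, hvv, h1v, h2v⟩ := frame_rel α ψ t n hn hs hD e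
  have hs0 : (Real.sin (2 * α e) : ℂ) ≠ 0 := by exact_mod_cast (hs e).ne'
  have hr : refl (n e) = refl (N1 t n e) := by
    unfold N1; rw [refl_smul _ (frR_norm_exp_real _)]
  rw [hr, refl_mulVec]
  ext i
  fin_cases i
  · simp [coef1, frR_herm_add_left, frR_herm_neg_left, frR_herm_smul_left, h11]; ring
  · simp only [coef1, frR_herm_add_left, frR_herm_neg_left, frR_herm_smul_left, h11, h12]
    simp only [Fin.mk_one, Matrix.cons_val_one, Matrix.cons_val_zero]
    field_simp; ring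
  · simp [coef1, frR_herm_add_left, frR_herm_neg_left, frR_herm_smul_left, h1v]

theorem coef2_refl (α ψ : Fin 3 → ℝ) (t : ℝ) (n : Fin 3 → Fin 3 → ℂ) (hn : NTri α t n)
    (hs : ∀ e, 0 < Real.sin (2 * α e)) (hD : Dt n ≠ 0) (e : Fin 3) (z : Fin 3 → ℂ) :
    coef2 α ψ t n e ((refl (n (e + 1))).mulVec z) =
      ![coef2 α ψ t n e z 0, -coef2 α ψ t n e z 1, -coef2 α ψ t n e z 2] := by
  obtain ⟨h11, h22, h12, hvv, h1v, h2v⟩ := frame_rel α ψ t n hn hs hD e
  have hs0 : (Real.sin (2 * α e) : ℂ) ≠ 0 := by exact_mod_cast (hs e).ne'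
  have h21 : herm (N2 t n e) (N1 t n e) = -(Real.cos (2 * α e) : ℂ) := by
    rw [frR_herm_symm, h12, map_neg, Complex.conj_ofReal]
  have hr : refl (n (e + 1)) = refl (N2 t n e) := by
    unfold N2; rw [refl_smul _ (frR_norm_exp_real _)]
  rw [hr, refl_mulVec]
  ext i
  fin_cases i
  · simp [coef2, frR_herm_add_left, frR_herm_neg_left, frR_herm_smul_left, h22]; ring
  · simp only [coef2, frR_herm_add_left, frR_herm_neg_left, frR_herm_smul_left, h22, h21]
    simp only [Fin.mk_one, Matrix.cons_val_one, Matrix.cons_val_zero]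
    field_simp; ring
  · simp [coef2, frR_herm_add_left, frR_herm_neg_left, frR_herm_smul_left, h2v]

theorem coef2_eq (α ψ : Fin 3 → ℝ) (t : ℝ) (n : Fin 3 → Fin 3 → ℂ) (hs : ∀ e, 0 < Real.sin (2 * α e))
    (e : Fin 3) (z : Fin 3 → ℂ) :
    coef2 α ψ t n e z =
      ![(Real.sin (2 * α e) : ℂ) * coef1 α ψ t n e z 1 - (Real.cos (2 * α e) : ℂ) * coef1 α ψ t n e z 0,
        (Real.sin (2 * α e) : ℂ) * coef1 α ψ t n e z 0 + (Real.cos (2 * α e) : ℂ) * coef1 α ψ t n e z 1,
        coef1 α ψ t n e z 2] := by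
  have hs0 : (Real.sin (2 * α e) : ℂ) ≠ 0 := by exact_mod_cast (hs e).ne'
  have hsc : (Real.sin (2 * α e) : ℂ) ^ 2 + (Real.cos (2 * α e) : ℂ) ^ 2 = 1 := by
    exact_mod_cast Real.sin_sq_add_cos_sq (2 * α e)
  simp only [coef1, coef2]
  simp only [Matrix.cons_val_one, Matrix.cons_val_zero]
  generalize (Real.sin (2 * α e) : ℂ) = s at hs0 hsc ⊢
  generalize (Real.cos (2 * α e) : ℂ) = c at hsc ⊢
  ext i
  fin_cases i
  · simp; field_simp; ring
  · simp; field_simp; linear_combination (-(herm z (N1 t n e))) * hsc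
  · simp

end Pool.Agent.Work.MP_88b7aa_gt.CH
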