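import Pool.Agent.Work.MP_88b7aa_gt.CH.Obj

/-!
# The trace of an element of `U(2,1)` with a negative eigenvector.  Size: M.

PROOF.
(1) `v` is unit: `herm (U c) (U c) = herm c c` (from `Uᴴ J U = J`), so `|v|² herm c c = herm c c`.  (Given as `hv`.)
(2) Let `τ = tr U`, `δ = det U`, `|δ| = 1`.  From `Uᴴ J U = J`: `U⁻¹ = J Uᴴ J`, so `tr U⁻¹ = conj τ` and
`tr (adj U) = δ conj τ`.  Hence `χ(λ) = λ³ - τ λ² + δ conj τ λ - δ` is the characteristic polynomial
(for `3×3` matrices write it out, `Matrix.det_fin_three`, or `Matrix.charpoly_fin_three` if available).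
`χ(v) = 0` (`det (v - U) = 0`, `Matrix.exists_mulVec_eq_zero_iff`).
Put `T = τ - v`.  `χ(v) = 0` reads `-T v² + δ (conj T + conj v) v - δ = 0`, i.e. `T v² = δ conj T v`, `T = (δ/v) conj T`.
(3) Write `v = e^{i(a-2u)}` (`u` real, `a` given, `δ = e^{3ia}`), so `δ / v = e^{2i(a+u)}`, and `T = e^{i(a+u)} ρ` with `ρ` real.
(4) `|ρ| ≤ 2`.  Otherwise the polynomial `λ² - T λ + δ/v` (the other factor of `χ`, since `χ(λ) = (λ - v)(λ² - Tλ + δ/v)`) has a
root `λ = e^{i(a+u)} κ`, `κ` real, `κ + 1/κ = ρ`, `|κ| ≠ 1`.  Let `z ≠ 0` with `U z = λ z`.  Then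
`herm z c = herm (U z) (U c) = λ conj v herm z c` and `|λ conj v| = |κ| ≠ 1`, so `herm z c = 0`; and
`herm z z = |λ|² herm z z` so `herm z z = 0`.  But `herm z c = 0` with `c` negative implies `herm z z > 0` for `z ≠ 0`:
`|z2|² |c2|² = |z0 conj c0 + z1 conj c1|² ≤ (|z0|² + |z1|²)(|c0|² + |c1|²)` and `|c0|² + |c1|² < |c2|²`; (if `z0 = z1 = 0` then
`z2 = 0`).  Contradiction.
(5) `e^{-i(a+s)} τ = e^{-i(a+s)} (v + T) = e^{-i(2u+s)} + ρ e^{i(u-s)}`, real part
`cos(2u+s) + ρ cos(u-s) ≤ cos(2u+s) + 2 |cos(u-s)|`.  Replacing `u` by `u + π` (which does not change `cos(2u+s)`) we may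
assume `cos(u-s) ≥ 0`.  Finally the identity
`3 cos s - 2 cos(s-u) - cos(s+2u) = 2 (1 - cos u) (2 cos s + cos(s+u))`
and `2 cos s ≥ 1 ≥ - cos(s+u)` (`|s| ≤ π/3`) give `≤ 3 cos s`.
-/

namespace Pool.Agent.Work.MP_88b7aa_gt.CH

open ComplexConjugate Complex Matrix

private lemma trigB_aux (s u : ℝ) (hs : |s| ≤ Real.pi / 3) :
    Real.cos (2 * u + s) + 2 * Real.cos (u - s) ≤ 3 * Real.cos s := by
  have h : 3 * Real.cos s - 2 * Real.cos (u - s) - Real.cos (2 * u + s) =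
      2 * (1 - Real.cos u) * (2 * Real.cos s + Real.cos (s + u)) := by
    rw [Real.cos_sub, Real.cos_add (2 * u) s, Real.cos_two_mul, Real.sin_two_mul, Real.cos_add s u]
    ring
  have h1 : (1 : ℝ) / 2 ≤ Real.cos s := by
    rw [← Real.cos_pi_div_three, ← Real.cos_abs s]
    exact Real.cos_le_cos_of_nonneg_of_le_pi (abs_nonneg s) (by linarith [Real.pi_pos]) hs
  have h2 := Real.neg_one_le_cos (s + u)
  have h3 := Real.cos_le_one u
  nlinarith [mul_nonneg (sub_nonneg.2 h3) (by linarith : (0 : ℝ) ≤ 2 * Real.cos s + Real.cos (s + u))]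

private lemma trigB (s u : ℝ) (hs : |s| ≤ Real.pi / 3) :
    Real.cos (2 * u + s) + 2 * |Real.cos (u - s)| ≤ 3 * Real.cos s := by
  rcases abs_cases (Real.cos (u - s)) with ⟨h, _⟩ | ⟨h, _⟩
  · rw [h]; exact trigB_aux s u hs
  · rw [h]
    have := trigB_aux s (u + Real.pi) hs
    rw [show 2 * (u + Real.pi) + s = 2 * u + s + 2 * Real.pi by ring, Real.cos_add_two_pi,
      show u + Real.pi - s = u - s + Real.pi by ring, Real.cos_add_pi] at this
    exact this

private lemma Jm_sq : Jm * Jm = 1 := by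
  unfold Jm
  ext i j
  fin_cases i <;> fin_cases j <;> simp [Matrix.mul_apply, Fin.sum_univ_three, Matrix.diagonal]

private lemma herm_eq (z w : Fin 3 → ℂ) : herm z w = star w ⬝ᵥ (Jm *ᵥ z) := by
  unfold herm Jm
  simp [dotProduct, Fin.sum_univ_three, Matrix.mulVec_diagonal]
  ring

private lemma herm_U (U : Matrix (Fin 3) (Fin 3) ℂ) (hU : Uᴴ * Jm * U = Jm) (z w : Fin 3 → ℂ) :
    herm (U *ᵥ z) (U *ᵥ w) = herm z w := by
  rw [herm_eq, herm_eq, Matrix.star_mulVec, ← Matrix.dotProduct_mulVec, Matrix.mulVec_mulVec,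
    Matrix.mulVec_mulVec, hU]

private lemma herm_smul (a b : ℂ) (z w : Fin 3 → ℂ) : herm (a • z) (b • w) = a * conj b * herm z w := by
  unfold herm
  simp
  ring

private lemma pos_of_perp (z c : Fin 3 → ℂ) (hc : Neg c) (hz : z ≠ 0) (h : herm z c = 0) :
    0 < (herm z z).re := by
  unfold Neg at hc
  have e : ∀ x : Fin 3 → ℂ, (herm x x).re = ‖x 0‖ ^ 2 + ‖x 1‖ ^ 2 - ‖x 2‖ ^ 2 := by
    intro x
    unfold herm
    simp [Complex.mul_conj, Complex.normSq_eq_norm_sq, ← Complex.ofReal_pow]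
  rw [e] at hc ⊢
  by_contra hneg
  push Not at hneg
  have h1 : z 0 * conj (c 0) + z 1 * conj (c 1) = z 2 * conj (c 2) := by
    unfold herm at h
    linear_combination h
  have h2 : ‖z 2‖ * ‖c 2‖ ≤ ‖z 0‖ * ‖c 0‖ + ‖z 1‖ * ‖c 1‖ := by
    have := norm_add_le (z 0 * conj (c 0)) (z 1 * conj (c 1))
    rw [h1] at this
    simpa [norm_mul] using this
  have hz2 : ‖z 2‖ = 0 := by
    by_contra hne
    have hp : 0 < ‖z 2‖ := lt_of_le_of_ne (norm_nonneg _) (Ne.symm hne)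
    have h3 : (‖z 2‖ * ‖c 2‖) ^ 2 ≤ (‖z 0‖ * ‖c 0‖ + ‖z 1‖ * ‖c 1‖) ^ 2 :=
      pow_le_pow_left₀ (by positivity) h2 2
    have h4 : (‖z 0‖ * ‖c 0‖ + ‖z 1‖ * ‖c 1‖) ^ 2 ≤
        (‖z 0‖ ^ 2 + ‖z 1‖ ^ 2) * (‖c 0‖ ^ 2 + ‖c 1‖ ^ 2) := by
      nlinarith [sq_nonneg (‖z 0‖ * ‖c 1‖ - ‖z 1‖ * ‖c 0‖)]
    have h5 : (‖z 0‖ ^ 2 + ‖z 1‖ ^ 2) * (‖c 0‖ ^ 2 + ‖c 1‖ ^ 2) ≤
        ‖z 2‖ ^ 2 * (‖c 0‖ ^ 2 + ‖c 1‖ ^ 2) :=
      mul_le_mul_of_nonneg_right (by linarith) (by positivity)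
    have h6 : ‖z 2‖ ^ 2 * (‖c 0‖ ^ 2 + ‖c 1‖ ^ 2) < ‖z 2‖ ^ 2 * ‖c 2‖ ^ 2 :=
      mul_lt_mul_of_pos_left (by linarith) (by positivity)
    nlinarith
  have h0 : ‖z 0‖ = 0 := by
    have : ‖z 0‖ ^ 2 ≤ 0 := by nlinarith [sq_nonneg ‖z 1‖, sq_nonneg ‖z 0‖]
    exact pow_eq_zero_iff (two_ne_zero) |>.1 (le_antisymm this (by positivity))
  have h1' : ‖z 1‖ = 0 := by
    have : ‖z 1‖ ^ 2 ≤ 0 := by nlinarith [sq_nonneg ‖z 1‖, sq_nonneg ‖z 0‖]
    exact pow_eq_zero_iff (two_ne_zero) |>.1 (le_antisymm this (by positivity))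
  apply hz
  ext i
  fin_cases i
  · simpa using h0
  · simpa using h1'
  · simpa using hz2

private lemma charB (U : Matrix (Fin 3) (Fin 3) ℂ) (hU : Uᴴ * Jm * U = Jm) (l : ℂ) :
    (l • (1 : Matrix (Fin 3) (Fin 3) ℂ) - U).det =
      l ^ 3 - U.trace * l ^ 2 + U.det * conj U.trace * l - U.det := by
  have h1 : (l • (1 : Matrix (Fin 3) (Fin 3) ℂ) - U).det =
      l ^ 3 - U.trace * l ^ 2 + U.adjugate.trace * l - U.det := by
    simp [Matrix.det_fin_three, Matrix.adjugate_fin_three, Matrix.trace_fin_three]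
    ring
  have h2 : U.adjugate = U.det • (Jm * Uᴴ * Jm) := by
    have h3 : (Jm * Uᴴ * Jm) * U = 1 := by
      rw [Matrix.mul_assoc, Matrix.mul_assoc, ← Matrix.mul_assoc Uᴴ, hU, Jm_sq]
    calc U.adjugate = (Jm * Uᴴ * Jm) * U * U.adjugate := by rw [h3, Matrix.one_mul]
      _ = (Jm * Uᴴ * Jm) * (U * U.adjugate) := by rw [Matrix.mul_assoc]
      _ = _ := by rw [Matrix.mul_adjugate]; simp
  have h4 : (Jm * Uᴴ * Jm).trace = conj U.trace := by
    rw [Matrix.trace_mul_comm, ← Matrix.mul_assoc, Jm_sq, Matrix.one_mul, Matrix.trace_conjTranspose]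
    rfl
  rw [h1, h2, Matrix.trace_smul, h4]
  simp

theorem TrB (U : Matrix (Fin 3) (Fin 3) ℂ) (hU : Uᴴ * Jm * U = Jm) (c : Fin 3 → ℂ) (hc : Neg c)
    (v : ℂ) (hv : ‖v‖ = 1) (huc : U.mulVec c = v • c) (a s : ℝ) (hdet : U.det = exp ((3 * a : ℝ) * I))
    (hs : |s| ≤ Real.pi / 3) : (exp ((-(a + s) : ℝ) * I) * U.trace).re ≤ 3 * Real.cos s := by
  set τ := U.trace with hτ
  have hvn : v * conj v = 1 := by
    rw [Complex.mul_conj, Complex.normSq_eq_norm_sq, hv]; simp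
  have hv0 : v ≠ 0 := by
    intro h; rw [h] at hv; simp at hv
  -- the angle
  obtain ⟨u, hu⟩ : ∃ u : ℝ, v = exp ((a - 2 * u : ℝ) * I) := by
    refine ⟨(a - arg v) / 2, ?_⟩
    have := Complex.norm_mul_exp_arg_mul_I v
    rw [hv] at this
    rw [show (a - 2 * ((a - arg v) / 2) : ℝ) = arg v by ring]
    simpa using this.symm
  have hc0 : c ≠ 0 := by
    rintro rfl
    unfold Neg herm at hc
    simp at hc
  have hχ : v ^ 3 - τ * v ^ 2 + U.det * conj τ * v - U.det = 0 := by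
    rw [hτ, ← charB U hU v]
    rw [← Matrix.exists_mulVec_eq_zero_iff]
    refine ⟨c, hc0, ?_⟩
    rw [Matrix.sub_mulVec, Matrix.smul_mulVec, Matrix.one_mulVec]
    exact sub_eq_zero.2 huc.symm
  set T := τ - v with hT
  have hTv : v * T = U.det * conj T := by
    have e : conj τ = conj T + conj v := by rw [hT]; simp
    rw [e] at hχ
    have e2 : v * (v * T - U.det * conj T) = 0 := by
      rw [hT] at hχ ⊢
      linear_combination (-1 : ℂ) * hχ + U.det * hvn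
    rcases mul_eq_zero.1 e2 with h | h
    · exact absurd h hv0
    · exact sub_eq_zero.1 h
  -- unit numbers
  set E := exp ((a + u : ℝ) * I) with hE
  have hEn : E * conj E = 1 := by
    rw [hE, Complex.mul_conj, Complex.normSq_eq_norm_sq, Complex.norm_exp_ofReal_mul_I]; simp
  have hE0 : E ≠ 0 := exp_ne_zero _
  have hdv : U.det = v * E ^ 2 := by
    rw [hdet, hu, hE, ← Complex.exp_nat_mul, ← Complex.exp_add]
    congr 1
    push_cast
    ring
  have hTE : T = E ^ 2 * conj T := by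
    rw [hdv] at hTv
    have : v * (T - E ^ 2 * conj T) = 0 := by linear_combination hTv
    rcases mul_eq_zero.1 this with h | h
    · exact absurd h hv0
    · exact sub_eq_zero.1 h
  obtain ⟨ρ, hρ⟩ : ∃ ρ : ℝ, T = E * ρ := by
    have hr : conj (conj E * T) = conj E * T := by
      rw [map_mul, Complex.conj_conj]
      calc E * conj T = (conj E * E) * (E * conj T) := by rw [mul_comm (conj E), hEn, one_mul]
        _ = conj E * (E ^ 2 * conj T) := by ring
        _ = conj E * T := by rw [← hTE]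
    obtain ⟨r, hr'⟩ := Complex.conj_eq_iff_real.1 hr
    refine ⟨r, ?_⟩
    rw [← hr', ← mul_assoc, hEn, one_mul]
  have hρ2 : |ρ| ≤ 2 := by
    by_contra hlt
    push Not at hlt
    have hsq : 4 < ρ ^ 2 := by
      rw [← sq_abs]; nlinarith
    obtain ⟨κ, hκ⟩ : ∃ κ : ℝ, κ ^ 2 - ρ * κ + 1 = 0 := by
      refine ⟨(ρ + Real.sqrt (ρ ^ 2 - 4)) / 2, ?_⟩
      have := Real.sq_sqrt (by linarith : (0 : ℝ) ≤ ρ ^ 2 - 4)
      nlinarith
    have hκ1 : κ ^ 2 ≠ 1 := by
      intro h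
      have h2 : ρ * κ = 2 := by linarith
      have h3 : (ρ * κ) ^ 2 = 4 := by rw [h2]; norm_num
      rw [mul_pow, h, mul_one] at h3
      linarith
    have hdet0 : ((E * κ) • (1 : Matrix (Fin 3) (Fin 3) ℂ) - U).det = 0 := by
      rw [charB U hU, ← hτ]
      have e1 : τ = v + E * ρ := by rw [← hρ, hT]; ring
      have e2 : conj τ = conj v + conj E * ρ := by rw [e1]; simp
      rw [e2, e1, hdv]
      have hκc : (κ : ℂ) ^ 2 - ρ * κ + 1 = 0 := by exact_mod_cast hκ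
      linear_combination (E * κ - v) * E ^ 2 * hκc + E ^ 3 * κ * hvn + v * E ^ 2 * ρ * κ * hEn
    obtain ⟨z, hz, hz'⟩ := Matrix.exists_mulVec_eq_zero_iff.2 hdet0
    have hUz : U *ᵥ z = (E * κ) • z := by
      rw [Matrix.sub_mulVec, Matrix.smul_mulVec, Matrix.one_mulVec] at hz'
      exact (sub_eq_zero.1 hz').symm
    have hn : ‖E * (κ : ℂ)‖ ^ 2 = κ ^ 2 := by
      rw [norm_mul, hE, Complex.norm_exp_ofReal_mul_I, one_mul, Complex.norm_real, Real.norm_eq_abs, sq_abs]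
    have p1 : herm z c = 0 := by
      have h := herm_U U hU z c
      rw [hUz, huc, herm_smul] at h
      have h' : (E * κ * conj v - 1) * herm z c = 0 := by linear_combination h
      rcases mul_eq_zero.1 h' with h'' | h''
      · exfalso
        apply hκ1
        have h3 : E * κ * conj v = 1 := sub_eq_zero.1 h''
        have h4 : ‖E * (κ : ℂ)‖ * ‖conj v‖ = 1 := by rw [← norm_mul, h3, norm_one]
        rw [RCLike.norm_conj, hv, mul_one] at h4
        rw [← hn, h4, one_pow]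
      · exact h''
    have p2 := pos_of_perp z c hc hz p1
    have p3 : herm z z = 0 := by
      have h := herm_U U hU z z
      rw [hUz, herm_smul] at h
      have h' : ((E * κ) * conj (E * κ) - 1) * herm z z = 0 := by linear_combination h
      rcases mul_eq_zero.1 h' with h'' | h''
      · exfalso
        apply hκ1
        rw [Complex.mul_conj, Complex.normSq_eq_norm_sq, hn] at h''
        have : ((κ ^ 2 : ℝ) : ℂ) = ((1 : ℝ) : ℂ) := by
          rw [Complex.ofReal_one]; exact sub_eq_zero.1 h''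
        exact Complex.ofReal_injective this
      · exact h''
    rw [p3] at p2
    simp at p2
  have e1 : τ = v + E * ρ := by rw [← hρ, hT]; ring
  have hre : (exp ((-(a + s) : ℝ) * I) * τ).re = Real.cos (2 * u + s) + ρ * Real.cos (u - s) := by
    have h1 : exp ((-(a + s) : ℝ) * I) * τ = exp ((-(2 * u + s) : ℝ) * I) + ρ * exp ((u - s : ℝ) * I) := by
      rw [e1, hu, hE, mul_add, ← Complex.exp_add, ← mul_assoc, ← Complex.exp_add, mul_comm (ρ : ℂ)]
      congr 2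
      · push_cast; ring
      · congr 1; push_cast; ring
    rw [h1, Complex.add_re, Complex.exp_ofReal_mul_I_re, Real.cos_neg, Complex.re_ofReal_mul,
      Complex.exp_ofReal_mul_I_re]
  rw [hre]
  have h2 : ρ * Real.cos (u - s) ≤ 2 * |Real.cos (u - s)| := by
    calc ρ * Real.cos (u - s) ≤ |ρ * Real.cos (u - s)| := le_abs_self _
      _ = |ρ| * |Real.cos (u - s)| := abs_mul _ _
      _ ≤ 2 * |Real.cos (u - s)| := mul_le_mul_of_nonneg_right hρ2 (abs_nonneg _)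
  linarith [trigB s u hs]

end Pool.Agent.Work.MP_88b7aa_gt.CH
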