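import Pool.Agent.Work.MP_88b7aa_gt.CH.Obj

/-!
# The matrix `U = G_{X'} Mᴴ G_X M̄`.  Size: S-M.

PROOF.  `M = edgeM k σ η H`, `S² = H² - 1`.
(1) `M J Mᴴ = J` (direct: `H² - S² = 1`; the off diagonal entries of the lower block are
`(-H e^{iσ})(S e^{-iη}) + (S e^{-iη})(H e^{iσ})... = 0`).  Hence also `Mᴴ J M = J` (`J² = 1`: a left inverse is a right
inverse) and, conjugating, `Mᵀ J M̄ = J`, `M̄ J Mᵀ = J`.  `det M = e^{-ik} (H² - S²) = e^{-ik}`.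
(2) `G = Gm X` is real symmetric, `G J G = J` (`G J G = (J + 2XXᵀ) J (J + 2XXᵀ) = J + 4 XXᵀ + 4 X (XᵀJX) Xᵀ = J`) and
`det G = 1` (`det (J + 2 X Xᵀ) = det J (1 + 2 XᵀJX) = (-1)(1 - 2)`; `Matrix.det_fin_three`).
(3) `Uᴴ J U = Mᵀ G_X M G_{X'} J G_{X'} Mᴴ G_X M̄ = Mᵀ G_X M J Mᴴ G_X M̄ = Mᵀ G_X J G_X M̄ = Mᵀ J M̄ = J`.
(4) `det U = conj (det M) * conj (det M) = e^{2ik}`.
(5) `conj (tr U) = tr (G_{X'} Mᵀ G_X M) = tr (G_X M G_{X'} Mᵀ)` (cyclicity; entries of `G` real).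
(6) `c' = ω J Mᵀ c`, `‖ω‖ = 1`.  `M̄ c' = ω M̄ J Mᵀ c = ω J c`; `G_X M̄ c' = ω G_X J c = - ω μ c̄`;
`Mᴴ c̄ = conj (Mᵀ c) = conj (conj ω J c') = ω J c̄'` ; so `Mᴴ G_X M̄ c' = - ω² μ J c̄'`, and
`G_{X'} J c̄' = conj (G_{X'} J c') = conj (- μ' c̄') = - conj μ' c'`.  So `U c' = ω² μ conj μ' c'`.
(7) `herm (ω J Mᵀ c) (..) = herm c c`: with `B = J Mᵀ`, `herm (B c) (B c) = cᵀ Bᵀ J B̄ c̄ = cᵀ M J J J Mᴴ c̄ = cᵀ J c̄`.
-/

namespace Pool.Agent.Work.MP_88b7aa_gt.CH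

open ComplexConjugate Complex Matrix

/-- `U`. -/
noncomputable def Umat (k σ η H : ℝ) (X Y : Fin 3 → ℝ) : Matrix (Fin 3) (Fin 3) ℂ :=
  Gm Y * (edgeM k σ η H)ᴴ * Gm X * (edgeM k σ η H).map conj

private noncomputable def EM (a b c : ℂ) (S H : ℝ) : Matrix (Fin 3) (Fin 3) ℂ :=
  !![a, 0, 0; 0, -(H : ℂ) * b, (S : ℂ) * conj c; 0, (S : ℂ) * c, -(H : ℂ) * conj b]

private lemma exp_unit (x : ℝ) : exp ((x : ℝ) * I) * conj (exp ((x : ℝ) * I)) = 1 := by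
  rw [Complex.mul_conj, Complex.normSq_eq_norm_sq, Complex.norm_exp_ofReal_mul_I]
  norm_num

private lemma exp_conj' (x : ℝ) : conj (exp ((x : ℝ) * I)) = exp ((-x : ℝ) * I) := by
  rw [← Complex.exp_conj]
  congr 1
  simp

private lemma edgeM_eq (k σ η H : ℝ) : edgeM k σ η H =
    EM (exp ((-k : ℝ) * I)) (exp ((σ : ℝ) * I)) (exp ((η : ℝ) * I)) (Real.sqrt (H ^ 2 - 1)) H := by
  unfold edgeM EM
  rw [exp_conj', exp_conj']

private lemma J_eq : Jm = !![1, 0, 0; 0, 1, 0; 0, 0, -1] := by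
  ext i j
  fin_cases i <;> fin_cases j <;> rfl

private lemma EM_row (a b c : ℂ) (S H : ℝ) (ha : a * conj a = 1) (hb : b * conj b = 1)
    (hc : c * conj c = 1) (hS : (S : ℂ) ^ 2 = (H : ℂ) ^ 2 - 1) :
    EM a b c S H * Jm * (EM a b c S H)ᴴ = Jm := by
  rw [J_eq]
  ext i j
  fin_cases i <;> fin_cases j <;>
    simp [EM, Matrix.mul_apply, Fin.sum_univ_three, Matrix.conjTranspose_apply]
  · linear_combination ha
  · linear_combination (H : ℂ) ^ 2 * hb - (S : ℂ) ^ 2 * hc - hS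
  · ring
  · ring
  · linear_combination (S : ℂ) ^ 2 * hc - (H : ℂ) ^ 2 * hb + hS

private lemma EM_det (a b c : ℂ) (S H : ℝ) (hb : b * conj b = 1)
    (hc : c * conj c = 1) (hS : (S : ℂ) ^ 2 = (H : ℂ) ^ 2 - 1) : (EM a b c S H).det = a := by
  rw [Matrix.det_fin_three]
  simp [EM]
  linear_combination a * ((H : ℂ) ^ 2 * hb - (S : ℂ) ^ 2 * hc - hS)

private lemma J_sq : Jm * Jm = 1 := by
  rw [J_eq]
  ext i j
  fin_cases i <;> fin_cases j <;> simp [Matrix.mul_apply, Fin.sum_univ_three]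

private lemma J_H : Jmᴴ = Jm := by
  rw [J_eq]
  ext i j
  fin_cases i <;> fin_cases j <;> simp [Matrix.conjTranspose_apply]

private lemma J_conj : Jm.map conj = Jm := by
  rw [J_eq]
  ext i j
  fin_cases i <;> fin_cases j <;> simp

private lemma G_eq (X : Fin 3 → ℝ) : Gm X =
    !![1 + 2 * ((X 0 : ℂ) * X 0), 2 * ((X 0 : ℂ) * X 1), 2 * ((X 0 : ℂ) * X 2);
       2 * ((X 0 : ℂ) * X 1), 1 + 2 * ((X 1 : ℂ) * X 1), 2 * ((X 1 : ℂ) * X 2);
       2 * ((X 0 : ℂ) * X 2), 2 * ((X 1 : ℂ) * X 2), -1 + 2 * ((X 2 : ℂ) * X 2)] := by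
  unfold Gm
  rw [J_eq]
  ext i j
  fin_cases i <;> fin_cases j <;> simp [mul_comm] <;> ring

private lemma conj_two : conj (2 : ℂ) = 2 := by
  have h := Complex.conj_ofReal 2
  push_cast at h
  exact h

private lemma G_conj (X : Fin 3 → ℝ) : (Gm X).map conj = Gm X := by
  rw [G_eq]
  ext i j
  fin_cases i <;> fin_cases j <;> simp [Complex.conj_ofReal, conj_two]

private lemma G_H (X : Fin 3 → ℝ) : (Gm X)ᴴ = Gm X := by
  rw [G_eq]
  ext i j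
  fin_cases i <;> fin_cases j <;> simp [Matrix.conjTranspose_apply, Complex.conj_ofReal]

private lemma G_row (X : Fin 3 → ℝ) (hX : X 0 ^ 2 + X 1 ^ 2 - X 2 ^ 2 = -1) :
    Gm X * Jm * Gm X = Jm := by
  have h : (X 0 : ℂ) ^ 2 + (X 1 : ℂ) ^ 2 - (X 2 : ℂ) ^ 2 = -1 := by exact_mod_cast hX
  rw [G_eq, J_eq]
  ext i j
  fin_cases i <;> fin_cases j <;> simp [Matrix.mul_apply, Fin.sum_univ_three]
  · linear_combination (4 * (X 0 : ℂ) * (X 0 : ℂ)) * h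
  · linear_combination (4 * (X 0 : ℂ) * (X 1 : ℂ)) * h
  · linear_combination (4 * (X 0 : ℂ) * (X 2 : ℂ)) * h
  · linear_combination (4 * (X 0 : ℂ) * (X 1 : ℂ)) * h
  · linear_combination (4 * (X 1 : ℂ) * (X 1 : ℂ)) * h
  · linear_combination (4 * (X 1 : ℂ) * (X 2 : ℂ)) * h
  · linear_combination (4 * (X 0 : ℂ) * (X 2 : ℂ)) * h
  · linear_combination (4 * (X 1 : ℂ) * (X 2 : ℂ)) * h
  · linear_combination (4 * (X 2 : ℂ) * (X 2 : ℂ)) * h

private lemma G_det (X : Fin 3 → ℝ) (hX : X 0 ^ 2 + X 1 ^ 2 - X 2 ^ 2 = -1) :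
    (Gm X).det = 1 := by
  have h : (X 0 : ℂ) ^ 2 + (X 1 : ℂ) ^ 2 - (X 2 : ℂ) ^ 2 = -1 := by exact_mod_cast hX
  rw [Matrix.det_fin_three, G_eq]
  simp
  linear_combination (-2 : ℂ) * h

private lemma sqrt_sq' (H : ℝ) (hH : 1 ≤ H) :
    ((Real.sqrt (H ^ 2 - 1) : ℝ) : ℂ) ^ 2 = (H : ℂ) ^ 2 - 1 := by
  have h1 : (0 : ℝ) ≤ H ^ 2 - 1 := by nlinarith
  have h2 := Real.sq_sqrt h1
  exact_mod_cast h2

private lemma M_row (k σ η H : ℝ) (hH : 1 ≤ H) :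
    edgeM k σ η H * Jm * (edgeM k σ η H)ᴴ = Jm := by
  rw [edgeM_eq]
  exact EM_row _ _ _ _ _ (exp_unit _) (exp_unit _) (exp_unit _) (sqrt_sq' H hH)

private lemma conj_mul' (A B : Matrix (Fin 3) (Fin 3) ℂ) :
    (A * B).map conj = A.map conj * B.map conj := Matrix.map_mul

private lemma H_conj (A : Matrix (Fin 3) (Fin 3) ℂ) : Aᴴ.map conj = Aᵀ := by
  ext i j
  simp [Matrix.conjTranspose_apply]

private lemma T_conj (A : Matrix (Fin 3) (Fin 3) ℂ) : Aᵀ.map conj = Aᴴ := by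
  ext i j
  simp [Matrix.conjTranspose_apply]

private lemma conj_H (A : Matrix (Fin 3) (Fin 3) ℂ) : (A.map conj)ᴴ = Aᵀ := by
  ext i j
  simp [Matrix.conjTranspose_apply]

/-- `M̄ J Mᵀ = J`. -/
private lemma M_row' (k σ η H : ℝ) (hH : 1 ≤ H) :
    (edgeM k σ η H).map conj * Jm * (edgeM k σ η H)ᵀ = Jm := by
  have h := congrArg (fun A : Matrix (Fin 3) (Fin 3) ℂ => A.map conj) (M_row k σ η H hH)
  simp only [conj_mul', J_conj, H_conj] at h
  exact h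

/-- `Mᵀ J M̄ = J`. -/
private lemma M_col (k σ η H : ℝ) (hH : 1 ≤ H) :
    (edgeM k σ η H)ᵀ * Jm * (edgeM k σ η H).map conj = Jm := by
  have h := M_row' k σ η H hH
  have h1 : (edgeM k σ η H).map conj * (Jm * (edgeM k σ η H)ᵀ * Jm) = 1 := by
    have h2 : (edgeM k σ η H).map conj * (Jm * (edgeM k σ η H)ᵀ * Jm) =
        ((edgeM k σ η H).map conj * Jm * (edgeM k σ η H)ᵀ) * Jm := by
      simp only [Matrix.mul_assoc]
    rw [h2, h, J_sq]
  have h3 := mul_eq_one_comm.1 h1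
  have h4 : Jm * (Jm * (edgeM k σ η H)ᵀ * Jm * (edgeM k σ η H).map conj) = Jm * 1 := by rw [h3]
  rw [Matrix.mul_one] at h4
  have h5 : Jm * (Jm * (edgeM k σ η H)ᵀ * Jm * (edgeM k σ η H).map conj) =
      (Jm * Jm) * ((edgeM k σ η H)ᵀ * Jm * (edgeM k σ η H).map conj) := by
    simp only [Matrix.mul_assoc]
  rw [h5, J_sq, Matrix.one_mul] at h4
  exact h4

theorem UMat_unit (k σ η H : ℝ) (hH : 1 ≤ H) (X Y : Fin 3 → ℝ)
    (hX : X 0 ^ 2 + X 1 ^ 2 - X 2 ^ 2 = -1) (hY : Y 0 ^ 2 + Y 1 ^ 2 - Y 2 ^ 2 = -1) :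
    (Umat k σ η H X Y)ᴴ * Jm * Umat k σ η H X Y = Jm ∧
    (Umat k σ η H X Y).det = exp ((2 * k : ℝ) * I) ∧
    conj (Umat k σ η H X Y).trace = (Gm X * edgeM k σ η H * Gm Y * (edgeM k σ η H)ᵀ).trace := by
  have hUH : (Umat k σ η H X Y)ᴴ = (edgeM k σ η H)ᵀ * (Gm X * (edgeM k σ η H * Gm Y)) := by
    unfold Umat
    rw [Matrix.conjTranspose_mul, Matrix.conjTranspose_mul, Matrix.conjTranspose_mul,
      Matrix.conjTranspose_conjTranspose, G_H, G_H, conj_H]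
  refine ⟨?_, ?_, ?_⟩
  · rw [hUH]
    unfold Umat
    set M := edgeM k σ η H
    calc Mᵀ * (Gm X * (M * Gm Y)) * Jm * (Gm Y * Mᴴ * Gm X * M.map conj)
        = Mᵀ * (Gm X * (M * (Gm Y * Jm * Gm Y) * Mᴴ) * Gm X) * M.map conj := by
          simp only [Matrix.mul_assoc]
      _ = Mᵀ * (Gm X * Jm * Gm X) * M.map conj := by
          rw [G_row Y hY, M_row k σ η H hH]
      _ = Jm := by
          rw [G_row X hX, M_col k σ η H hH]
  · have hd : (edgeM k σ η H).det = exp ((-k : ℝ) * I) := by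
      rw [edgeM_eq]
      exact EM_det _ _ _ _ _ (exp_unit _) (exp_unit _) (sqrt_sq' H hH)
    have hd1 : ((edgeM k σ η H)ᴴ).det = exp ((k : ℝ) * I) := by
      rw [Matrix.det_conjTranspose, hd]
      have := exp_conj' (-k)
      rw [neg_neg] at this
      exact this
    have hd2 : ((edgeM k σ η H).map conj).det = exp ((k : ℝ) * I) := by
      have : ((edgeM k σ η H)ᴴ)ᵀ = (edgeM k σ η H).map conj := by
        ext i j
        simp [Matrix.conjTranspose_apply]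
      rw [← this, Matrix.det_transpose, hd1]
    unfold Umat
    rw [Matrix.det_mul, Matrix.det_mul, Matrix.det_mul, G_det X hX, G_det Y hY, hd1, hd2,
      one_mul, mul_one, ← Complex.exp_add]
    congr 1
    push_cast
    ring
  · have h1 : conj (Umat k σ η H X Y).trace = ((Umat k σ η H X Y)ᴴ).trace := by
      rw [Matrix.trace_conjTranspose]
      rfl
    rw [h1, hUH, Matrix.trace_mul_comm]
    simp only [Matrix.mul_assoc]

private lemma mulVec_cj (A : Matrix (Fin 3) (Fin 3) ℂ) (v : Fin 3 → ℂ) :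
    cj (A.mulVec v) = (A.map conj).mulVec (cj v) := by
  ext i
  simp [cj, Matrix.mulVec, dotProduct, Fin.sum_univ_three]

private lemma smul_cj (a : ℂ) (v : Fin 3 → ℂ) : cj (a • v) = conj a • cj v := by
  ext i
  simp [cj]

private lemma cj_cj (v : Fin 3 → ℂ) : cj (cj v) = v := by
  ext i
  simp [cj]

theorem UMat_eig (k σ η H : ℝ) (hH : 1 ≤ H) (X Y : Fin 3 → ℝ) (c : Fin 3 → ℂ) (ω μ μ' : ℂ) (hω : ‖ω‖ = 1)
    (h1 : (Gm X).mulVec (Jm.mulVec c) = (-μ) • cj c)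
    (h2 : (Gm Y).mulVec (Jm.mulVec (ω • (Jm * (edgeM k σ η H)ᵀ).mulVec c)) =
      (-μ') • cj (ω • (Jm * (edgeM k σ η H)ᵀ).mulVec c)) :
    (Umat k σ η H X Y).mulVec (ω • (Jm * (edgeM k σ η H)ᵀ).mulVec c) =
      (ω ^ 2 * μ * conj μ') • (ω • (Jm * (edgeM k σ η H)ᵀ).mulVec c) := by
  set M := edgeM k σ η H
  set c' := ω • (Jm * Mᵀ).mulVec c with hc'
  have hωω : ω * conj ω = 1 := by
    rw [Complex.mul_conj, Complex.normSq_eq_norm_sq, hω]
    norm_num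
  have e1 : (M.map conj).mulVec c' = ω • Jm.mulVec c := by
    rw [hc', Matrix.mulVec_smul, Matrix.mulVec_mulVec, ← Matrix.mul_assoc, M_row' k σ η H hH]
  have e2 : (Gm X).mulVec ((M.map conj).mulVec c') = (-(ω * μ)) • cj c := by
    rw [e1, Matrix.mulVec_smul, h1, smul_smul]
    congr 1
    ring
  have e3 : Mᵀ.mulVec c = conj ω • Jm.mulVec c' := by
    rw [hc', Matrix.mulVec_smul, Matrix.mulVec_mulVec, ← Matrix.mul_assoc, J_sq, Matrix.one_mul,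
      smul_smul, mul_comm, hωω, one_smul]
  have e4 : Mᴴ.mulVec (cj c) = ω • Jm.mulVec (cj c') := by
    have := congrArg cj e3
    rw [mulVec_cj, T_conj, smul_cj, mulVec_cj, J_conj, Complex.conj_conj] at this
    exact this
  have e5a : ∀ w : Fin 3 → ℂ, (Gm Y).mulVec (Jm.mulVec w) = (-μ') • cj w →
      (Gm Y).mulVec (Jm.mulVec (cj w)) = (-(conj μ')) • w := by
    intro w hw
    have := congrArg cj hw
    rw [mulVec_cj, G_conj, mulVec_cj, J_conj, smul_cj, cj_cj, map_neg] at this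
    exact this
  have e5 := e5a c' h2
  have e6 : (Umat k σ η H X Y).mulVec c' =
      (Gm Y).mulVec (Mᴴ.mulVec ((Gm X).mulVec ((M.map conj).mulVec c'))) := by
    unfold Umat
    simp only [Matrix.mulVec_mulVec, Matrix.mul_assoc]
    rfl
  rw [e6, e2, Matrix.mulVec_smul, e4, smul_smul, Matrix.mulVec_smul, e5, smul_smul]
  congr 1
  ring

private lemma herm_smul (ω : ℂ) (hω : ω * conj ω = 1) (v : Fin 3 → ℂ) :
    herm (ω • v) (ω • v) = herm v v := by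
  simp only [herm, Pi.smul_apply, smul_eq_mul, map_mul]
  linear_combination (v 0 * conj (v 0) + v 1 * conj (v 1) - v 2 * conj (v 2)) * hω

private lemma JM_vec (a b d : ℂ) (S H : ℝ) (c : Fin 3 → ℂ) :
    (Jm * (EM a b d S H)ᵀ).mulVec c =
      ![a * c 0, -(H : ℂ) * b * c 1 + S * d * c 2, -(S * conj d * c 1) + H * conj b * c 2] := by
  rw [J_eq]
  ext i
  fin_cases i <;> simp [EM, Matrix.mulVec, dotProduct, Fin.sum_univ_three, Matrix.mul_apply]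
  ring

theorem edge_herm (k σ η H : ℝ) (hH : 1 ≤ H) (c : Fin 3 → ℂ) (ω : ℂ) (hω : ‖ω‖ = 1) :
    herm (ω • (Jm * (edgeM k σ η H)ᵀ).mulVec c) (ω • (Jm * (edgeM k σ η H)ᵀ).mulVec c) = herm c c := by
  have hωω : ω * conj ω = 1 := by
    rw [Complex.mul_conj, Complex.normSq_eq_norm_sq, hω]
    norm_num
  rw [herm_smul ω hωω, edgeM_eq, JM_vec]
  have ha := exp_unit (-k)
  have hb := exp_unit σ
  have hc := exp_unit η
  have hS := sqrt_sq' H hH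
  generalize exp ((-k : ℝ) * I) = a at ha ⊢
  generalize exp ((σ : ℝ) * I) = b at hb ⊢
  generalize exp ((η : ℝ) * I) = d at hc ⊢
  generalize Real.sqrt (H ^ 2 - 1) = S at hS ⊢
  simp [herm, Complex.conj_ofReal]
  linear_combination c 0 * conj (c 0) * ha + (c 1 * conj (c 1) * (H : ℂ) ^ 2 - c 2 * conj (c 2) * (H : ℂ) ^ 2) * hb +
    (c 2 * conj (c 2) * (S : ℂ) ^ 2 - c 1 * conj (c 1) * (S : ℂ) ^ 2) * hc +
    (c 2 * conj (c 2) - c 1 * conj (c 1)) * hS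

end Pool.Agent.Work.MP_88b7aa_gt.CH
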