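import Pool.Agent.Work.MP_88b7aa_gt.CH.Rpl
import Pool.Agent.Work.MP_88b7aa_gt.CH.TrB
import Pool.Agent.Work.MP_88b7aa_gt.CH.Expn
import Pool.Agent.Work.MP_88b7aa_gt.CH.UMat

/-!
# The half space lemma on a good edge.  Size: M.

PROOF.  Let `c' = ω • (J Mᵀ) c`; `Neg c'` by `edge_herm`.  `Rpl` for `c` gives `X, r, μ`, for `c'` gives `Y, r', μ'`.
`h1`: `Im (e^{-iνA} (r X1 + i r X0)) = r (cos νA X0 - sin νA X1) ≥ 0`, so `x0 := cos νA X0 - sin νA X1 ≥ 0`;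
`h2`: `Im (e^{iνB} (r' Y1 + i r' Y0)) = r' (cos νB Y0 + sin νB Y1) ≤ 0`, so `ξ := -(cos νB Y0 + sin νB Y1) ≥ 0`.
`xp, xm = X2 ± y`, `y = sin νA X0 + cos νA X1`: `xp xm = X2² - y² = 1 + x0²` since `x0² + y² = X0² + X1²`; `X2 > |y|` because
`X2² = 1 + x0² + y²` and `X2 > 0`, so `xp, xm > 0`.  The same for `Y`.
`Expn` and `PosX` (with `Np = Ls 1 x (ent ..)`, `Nm = Ls (-1) x (ent ..)`, positive by `hE.pos`) and `hE.main`:
`3 cos (2x - 2k/3) < Re (e^{2ix} tr (G_X M G_Y Mᵀ)) = Re (e^{2ix} conj (tr U)) = Re (e^{-2ix} tr U)` (`UMat_unit`).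
`TrB` for `U`, eigenvector `c'` (negative), `v = ω² μ conj μ'` (`UMat_eig`, `‖v‖ = 1`), `a = 2k/3`, `s = 2x - 2k/3`
(so `a + s = 2x`): `Re (e^{-2ix} tr U) ≤ 3 cos (2x - 2k/3)`.  Contradiction.
-/

namespace Pool.Agent.Work.MP_88b7aa_gt.CH

open ComplexConjugate Complex Matrix

private lemma im_exp (ν a b : ℝ) :
    (exp ((ν : ℝ) * I) * (⟨a, b⟩ : ℂ)).im = Real.cos ν * b + Real.sin ν * a := by
  rw [Complex.mul_im, Complex.exp_ofReal_mul_I_re, Complex.exp_ofReal_mul_I_im]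

private lemma two_pos (u w : ℝ) (h : 0 < u * w) (h2 : 0 < u + w) : 0 < u ∧ 0 < w := by
  constructor
  · by_contra hu
    push Not at hu
    nlinarith
  · by_contra hu
    push Not at hu
    nlinarith

theorem Hsl (νA νB k σ η H x : ℝ) (hE : EdgeGood νA νB k σ η H x) (c : Fin 3 → ℂ) (hc : Neg c) (ω : ℂ)
    (hω : ‖ω‖ = 1) (h1 : 0 ≤ (exp ((-νA : ℝ) * I) * Phi c).im)
    (h2 : (exp ((νB : ℝ) * I) * Phi (ω • (Jm * (edgeM k σ η H)ᵀ).mulVec c)).im ≤ 0) : False := by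
  have hH : 1 ≤ H := hE.hH.le
  have hc' : Neg (ω • (Jm * (edgeM k σ η H)ᵀ).mulVec c) := by
    unfold Neg
    rw [edge_herm k σ η H hH c ω hω]
    exact hc
  obtain ⟨X, r, μ, hr, hX2, hX, hPhi, hμ, hG⟩ := Rpl c hc
  obtain ⟨Y, r', μ', hr', hY2, hY, hPhi', hμ', hG'⟩ := Rpl _ hc'
  rw [hPhi, im_exp, Real.cos_neg, Real.sin_neg] at h1
  rw [hPhi', im_exp] at h2
  have hx0 : 0 ≤ Real.cos νA * X 0 - Real.sin νA * X 1 := by
    by_contra hneg
    push Not at hneg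
    have := mul_neg_of_pos_of_neg hr hneg
    linarith
  have hξ : 0 ≤ -(Real.cos νB * Y 0 + Real.sin νB * Y 1) := by
    by_contra hneg
    push Not at hneg
    have h3 : 0 < Real.cos νB * Y 0 + Real.sin νB * Y 1 := by linarith
    have := mul_pos hr' h3
    linarith
  have hA := Real.cos_sq_add_sin_sq νA
  have hB := Real.cos_sq_add_sin_sq νB
  have hxx : (X 2 + (Real.sin νA * X 0 + Real.cos νA * X 1)) *
      (X 2 - (Real.sin νA * X 0 + Real.cos νA * X 1)) =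
      1 + (Real.cos νA * X 0 - Real.sin νA * X 1) ^ 2 := by
    linear_combination (-1) * hX - (X 0 ^ 2 + X 1 ^ 2) * hA
  have hyy : (Y 2 + (-Real.sin νB * Y 0 + Real.cos νB * Y 1)) *
      (Y 2 - (-Real.sin νB * Y 0 + Real.cos νB * Y 1)) =
      1 + (-(Real.cos νB * Y 0 + Real.sin νB * Y 1)) ^ 2 := by
    linear_combination (-1) * hY - (Y 0 ^ 2 + Y 1 ^ 2) * hB
  obtain ⟨hxp, hxm⟩ := two_pos _ _ (by rw [hxx]; positivity)
    (by linarith : 0 < (X 2 + (Real.sin νA * X 0 + Real.cos νA * X 1)) +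
      (X 2 - (Real.sin νA * X 0 + Real.cos νA * X 1)))
  obtain ⟨hyp, hym⟩ := two_pos _ _ (by rw [hyy]; positivity)
    (by linarith : 0 < (Y 2 + (-Real.sin νB * Y 0 + Real.cos νB * Y 1)) +
      (Y 2 - (-Real.sin νB * Y 0 + Real.cos νB * Y 1)))
  have hpos := PosX (fun i j => Ls 1 x (ent νA νB k σ η H i j))
    (fun i j => Ls (-1) x (ent νA νB k σ η H i j)) (fun i j => (hE.pos i j).1)
    (fun i j => (hE.pos i j).2) _ _ _ _ _ _ hx0 hξ hxp hxm hyp hym hxx hyy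
  rw [← Expn νA νB k σ η H x X Y hX hY] at hpos
  have hmain := hE.main
  unfold NN at hmain
  obtain ⟨hU, hdet, htr⟩ := UMat_unit k σ η H hH X Y hX hY
  rw [← htr] at hpos
  have heig := UMat_eig k σ η H hH X Y c ω μ μ' hω hG hG'
  have hv : ‖ω ^ 2 * μ * conj μ'‖ = 1 := by
    rw [norm_mul, norm_mul, norm_pow, hω, hμ, RCLike.norm_conj, hμ']
    norm_num
  have hdet' : (Umat k σ η H X Y).det = exp ((3 * (2 * k / 3) : ℝ) * I) := by
    rw [hdet]
    congr 2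
    push_cast
    ring
  have htrb := TrB (Umat k σ η H X Y) hU _ hc' _ hv heig (2 * k / 3) (2 * x - 2 * k / 3) hdet' hE.hx
  have hre : (exp ((2 * x : ℝ) * I) * conj (Umat k σ η H X Y).trace).re =
      (exp ((-(2 * k / 3 + (2 * x - 2 * k / 3)) : ℝ) * I) * (Umat k σ η H X Y).trace).re := by
    have e1 : exp ((2 * x : ℝ) * I) =
        conj (exp ((-(2 * k / 3 + (2 * x - 2 * k / 3)) : ℝ) * I)) := by
      rw [← Complex.exp_conj, map_mul, Complex.conj_ofReal, Complex.conj_I]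
      congr 1
      push_cast
      ring
    rw [e1, ← map_mul, Complex.conj_re]
  rw [hre] at hpos
  linarith

end Pool.Agent.Work.MP_88b7aa_gt.CH
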