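import Pool.Agent.Work.MP_88b7aa_gt.CH.IdF

/-!
# The entries `a`, `d` and the square of `D`.  Size: M.

Notation of `IdF`.  `a_ = α - β`, `d = α + β`, `α = H e^{-iσ} + ab H e^{iσ} + rs e^{-ik}`, `β = S (b e^{iη} + a e^{-iη})`.
`Ls a_ * Ls d = (Ls α)² - (Ls β)²` and, for `s² = 1`, `(Ls s x u)² = |u|² + s Im (e^{2ix} u²)`.
`|α|² = H² (1 + P² + 2P cos 2σ) + rs² + 2 H rs (cos (k-σ) + P cos (k+σ))`, `P = ab`; `|β|² = S² (a² + b² + 2P cos 2η)`, `S² = H² - 1`,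
`rs² = (1-a²)(1-b²) = 1 - a² - b² + P²`, `cos 2σ - cos 2η = -2 sin eA sin eB`, `H² sin eA sin eB = h² wA wB`:
`|α|² - |β|² = X`.
`Im (e^{2ix} (α² - β²)) = H² [sin(2x-2σ) + P² sin(2x+2σ) - b² sin(2x+2η) - a² sin(2x-2η)] + b² sin(2x+2η) + a² sin(2x-2η) + 2P sin 2x
 + rs² sin(2x-2k) + 2h (sin(2x-σ-k) + P sin(2x+σ-k))` and the bracket is
`rs² cos eA cos eB ((1 - yA yB) sin 2x - (yA + yB) cos 2x)`, `yA = (1+a²)/(1-a²) tan eA`: (coefficient of `sin 2x`: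
`(1+P²) cos 2σ - (a²+b²) cos 2η = (1-a²)(1-b²) cA cB - (1+a²)(1+b²) sA sB`; of `cos 2x`: `-(1-P²) sin 2σ - (b²-a²) sin 2η =
-(1+a²)(1-b²) sA cB - (1-a²)(1+b²) cA sB`, `cA = cos eA`, ...).  So it is `Y`.
`id_DD`: `Ls 1 u * Ls (-1) u = Re (e^{2ix} u²)`.
`d_pos`: `Ls s d = H V + ab H E + rs K + S (b R + a C)`.
-/

namespace Pool.Agent.Work.MP_88b7aa_gt.CH

open ComplexConjugate Complex

private theorem fs_mul' (s : ℝ) (hs : s ^ 2 = 1) (x y : ℝ) :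
    fs s x * fs s y = Real.cos (x - y) + s * Real.sin (x + y) := by
  unfold fs
  rw [Real.cos_sub, Real.sin_add]
  linear_combination (Real.sin x * Real.sin y) * hs

private theorem Ls_add' (s x : ℝ) (u v : ℂ) : Ls s x (u + v) = Ls s x u + Ls s x v := by
  unfold Ls
  rw [mul_add, Complex.add_re, Complex.add_im]
  ring

private theorem Ls_smul' (s x r : ℝ) (u : ℂ) : Ls s x ((r : ℂ) * u) = r * Ls s x u := by
  unfold Ls
  have h : exp ((x : ℝ) * I) * ((r : ℂ) * u) = (r : ℂ) * (exp ((x : ℝ) * I) * u) := by ring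
  rw [h, Complex.re_ofReal_mul, Complex.im_ofReal_mul]
  ring

private theorem Ls_a (P : EP) (s : ℝ) : Ls s P.x (P.ent 1 1) =
    (P.H * P.V s + P.a * P.b * P.H * P.E s + Real.sin P.νA * Real.sin P.νB * P.K s) -
      Real.sqrt (P.H ^ 2 - 1) * (P.b * P.R s + P.a * P.C s) := by
  have h : P.ent 1 1 = ((P.H : ℝ) : ℂ) * exp ((-P.sg : ℝ) * I) +
      (((P.a * P.b * P.H : ℝ) : ℂ) * exp ((P.sg : ℝ) * I) +
      (((Real.sin P.νA * Real.sin P.νB : ℝ) : ℂ) * exp ((-P.k : ℝ) * I) +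
      (((-(Real.sqrt (P.H ^ 2 - 1) * P.b) : ℝ) : ℂ) * exp ((P.et : ℝ) * I) +
      ((-(Real.sqrt (P.H ^ 2 - 1) * P.a) : ℝ) : ℂ) * exp ((-P.et : ℝ) * I)))) := by
    simp only [EP.ent, CH.ent, EP.a, EP.b, Matrix.cons_val_one, Matrix.cons_val_zero]
    push_cast
    ring
  rw [h, Ls_add', Ls_add', Ls_add', Ls_add', Ls_smul', Ls_smul', Ls_smul', Ls_smul', Ls_smul',
    Ls_exp, Ls_exp, Ls_exp, Ls_exp, Ls_exp]
  unfold EP.V EP.E EP.K EP.R EP.C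
  rw [← sub_eq_add_neg, ← sub_eq_add_neg, ← sub_eq_add_neg]
  ring

private theorem Ls_d (P : EP) (s : ℝ) : Ls s P.x (P.ent 2 2) =
    (P.H * P.V s + P.a * P.b * P.H * P.E s + Real.sin P.νA * Real.sin P.νB * P.K s) +
      Real.sqrt (P.H ^ 2 - 1) * (P.b * P.R s + P.a * P.C s) := by
  have h : P.ent 2 2 = ((P.H : ℝ) : ℂ) * exp ((-P.sg : ℝ) * I) +
      (((P.a * P.b * P.H : ℝ) : ℂ) * exp ((P.sg : ℝ) * I) +
      (((Real.sin P.νA * Real.sin P.νB : ℝ) : ℂ) * exp ((-P.k : ℝ) * I) +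
      ((((Real.sqrt (P.H ^ 2 - 1) * P.b) : ℝ) : ℂ) * exp ((P.et : ℝ) * I) +
      (((Real.sqrt (P.H ^ 2 - 1) * P.a) : ℝ) : ℂ) * exp ((-P.et : ℝ) * I)))) := by
    simp only [EP.ent, CH.ent, EP.a, EP.b, Matrix.cons_val]
    push_cast
    ring
  rw [h, Ls_add', Ls_add', Ls_add', Ls_add', Ls_smul', Ls_smul', Ls_smul', Ls_smul', Ls_smul',
    Ls_exp, Ls_exp, Ls_exp, Ls_exp, Ls_exp]
  unfold EP.V EP.E EP.K EP.R EP.C
  rw [← sub_eq_add_neg, ← sub_eq_add_neg, ← sub_eq_add_neg]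
  ring

theorem id_ad (P : EP) (hA : 0 < Real.sin P.νA) (hB : 0 < Real.sin P.νB) (cA : 0 < Real.cos P.eA)
    (cB : 0 < Real.cos P.eB) (hr : P.A2 * P.B2 < P.h ^ 2) (s : ℝ) (hs : s ^ 2 = 1) :
    Ls s P.x (P.ent 1 1) * Ls s P.x (P.ent 2 2) = P.X + s * P.Y := by
  rw [Ls_a, Ls_d]
  have hsa2 : Real.sin P.νA ^ 2 = 1 - P.a ^ 2 := by
    unfold EP.a
    rw [Real.sin_sq]
  have hsb2 : Real.sin P.νB ^ 2 = 1 - P.b ^ 2 := by
    unfold EP.b
    rw [Real.sin_sq]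
  have hrs : 0 < Real.sin P.νA * Real.sin P.νB := mul_pos hA hB
  have hH1 : 0 ≤ P.H ^ 2 - 1 := by
    unfold EP.H
    rw [div_pow, sub_nonneg, one_le_div (by positivity)]
    have h1 : (Real.sin P.νA * Real.sin P.νB) ^ 2 = P.A2 * P.B2 := by
      unfold EP.A2 EP.B2
      ring
    rw [h1]
    exact hr.le
  have hS : Real.sqrt (P.H ^ 2 - 1) ^ 2 = P.H ^ 2 - 1 := Real.sq_sqrt hH1
  have hHrs : P.H * (Real.sin P.νA * Real.sin P.νB) = P.h := by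
    unfold EP.H
    field_simp
  -- products
  have hVV : P.V s * P.V s = 1 + s * Real.sin (2 * P.x - (P.eA + P.eB)) := by
    unfold EP.V
    rw [fs_mul' s hs, sub_self, Real.cos_zero]
    congr 3
    unfold EP.sg
    ring
  have hEE : P.E s * P.E s = 1 + s * Real.sin (2 * P.x + (P.eA + P.eB)) := by
    unfold EP.E
    rw [fs_mul' s hs, sub_self, Real.cos_zero]
    congr 3
    unfold EP.sg
    ring
  have hVE : P.V s * P.E s = Real.cos (P.eA + P.eB) + s * Real.sin (2 * P.x) := by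
    unfold EP.V EP.E
    rw [fs_mul' s hs, ← Real.cos_neg (P.eA + P.eB)]
    congr 2
    · unfold EP.sg
      ring
    · congr 1
      ring
  have hKK : P.K s * P.K s = 1 + s * Real.sin (2 * P.x - 2 * P.k) := by
    unfold EP.K
    rw [fs_mul' s hs, sub_self, Real.cos_zero]
    congr 3
    ring
  have hVK : P.V s * P.K s = Real.cos (P.k - P.sg) + s * Real.sin (2 * P.x - (P.sg + P.k)) := by
    unfold EP.V EP.K
    rw [fs_mul' s hs]
    congr 2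
    · ring
    · congr 1
      ring
  have hEK : P.E s * P.K s = Real.cos (P.k + P.sg) + s * Real.sin (2 * P.x + P.sg - P.k) := by
    unfold EP.E EP.K
    rw [fs_mul' s hs]
    congr 2
    · ring
    · congr 1
      ring
  have hRR : P.R s * P.R s = 1 + s * Real.sin (2 * (P.x + P.et)) := by
    unfold EP.R
    rw [fs_mul' s hs, sub_self, Real.cos_zero]
    congr 3
    ring
  have hCC : P.C s * P.C s = 1 + s * Real.sin (2 * (P.x - P.et)) := by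
    unfold EP.C
    rw [fs_mul' s hs, sub_self, Real.cos_zero]
    congr 3
    ring
  have hRC : P.R s * P.C s = Real.cos (2 * P.et) + s * Real.sin (2 * P.x) := by
    unfold EP.R EP.C
    rw [fs_mul' s hs]
    congr 2
    · ring
    · congr 1
      ring
  have e1 : 2 * (P.x + P.et) = 2 * P.x + (P.eB - P.eA) := by
    unfold EP.et
    ring
  have e2 : 2 * (P.x - P.et) = 2 * P.x - (P.eB - P.eA) := by
    unfold EP.et
    ring
  have e3 : 2 * P.et = P.eB - P.eA := by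
    unfold EP.et
    ring
  -- the entries
  have hX : P.X = 1 + (P.a * P.b) ^ 2 + 2 * (P.a * P.b * Real.cos (2 * P.et)) +
      P.h ^ 2 - 4 * (P.a * P.b) * (P.H ^ 2 * (Real.sin P.eA * Real.sin P.eB)) +
      2 * (P.h * (Real.cos (P.k - P.sg) + P.a * P.b * Real.cos (P.k + P.sg))) := by
    unfold EP.X EP.ab wf
    have h2 : P.H ^ 2 * (Real.sin P.eA * Real.sin P.eB) =
        P.h ^ 2 * (Real.sin P.eA / Real.sin P.νA ^ 2 * (Real.sin P.eB / Real.sin P.νB ^ 2)) := by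
      unfold EP.H
      field_simp
    rw [h2]
    ring
  have hY : P.Y = P.a ^ 2 * Real.sin (2 * (P.x - P.et)) + P.b ^ 2 * Real.sin (2 * (P.x + P.et)) +
      (Real.sin P.νA * Real.sin P.νB) ^ 2 * Real.sin (2 * P.x - 2 * P.k) +
      2 * (P.a * P.b * Real.sin (2 * P.x)) +
      P.H ^ 2 * (((1 - P.a ^ 2) * Real.cos P.eA * ((1 - P.b ^ 2) * Real.cos P.eB) -
          (1 + P.a ^ 2) * Real.sin P.eA * ((1 + P.b ^ 2) * Real.sin P.eB)) * Real.sin (2 * P.x) -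
        ((1 + P.a ^ 2) * Real.sin P.eA * ((1 - P.b ^ 2) * Real.cos P.eB) +
          (1 - P.a ^ 2) * Real.cos P.eA * ((1 + P.b ^ 2) * Real.sin P.eB)) * Real.cos (2 * P.x)) +
      2 * (P.h * (Real.sin (2 * P.x - (P.sg + P.k)) + P.a * P.b * Real.sin (2 * P.x + P.sg - P.k))) := by
    unfold EP.Y EP.ab yf wf
    have h2 : P.H ^ 2 * (((1 - P.a ^ 2) * Real.cos P.eA * ((1 - P.b ^ 2) * Real.cos P.eB) -
          (1 + P.a ^ 2) * Real.sin P.eA * ((1 + P.b ^ 2) * Real.sin P.eB)) * Real.sin (2 * P.x) -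
        ((1 + P.a ^ 2) * Real.sin P.eA * ((1 - P.b ^ 2) * Real.cos P.eB) +
          (1 - P.a ^ 2) * Real.cos P.eA * ((1 + P.b ^ 2) * Real.sin P.eB)) * Real.cos (2 * P.x)) =
        P.h ^ 2 * (Real.cos P.eA * Real.cos P.eB *
          ((1 - (1 + Real.cos P.νA ^ 2) * (Real.sin P.eA / Real.sin P.νA ^ 2 * (Real.cos P.eA)⁻¹) *
            ((1 + Real.cos P.νB ^ 2) * (Real.sin P.eB / Real.sin P.νB ^ 2 * (Real.cos P.eB)⁻¹))) *
              Real.sin (2 * P.x) -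
          ((1 + Real.cos P.νA ^ 2) * (Real.sin P.eA / Real.sin P.νA ^ 2 * (Real.cos P.eA)⁻¹) +
            (1 + Real.cos P.νB ^ 2) * (Real.sin P.eB / Real.sin P.νB ^ 2 * (Real.cos P.eB)⁻¹)) *
              Real.cos (2 * P.x))) := by
      rw [← hsa2, ← hsb2]
      unfold EP.H EP.a EP.b
      field_simp
    rw [h2]
    unfold EP.A2 EP.B2
    ring
  rw [hX, hY]
  have hT : (P.H * P.V s + P.a * P.b * P.H * P.E s + Real.sin P.νA * Real.sin P.νB * P.K s -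
        Real.sqrt (P.H ^ 2 - 1) * (P.b * P.R s + P.a * P.C s)) *
      (P.H * P.V s + P.a * P.b * P.H * P.E s + Real.sin P.νA * Real.sin P.νB * P.K s +
        Real.sqrt (P.H ^ 2 - 1) * (P.b * P.R s + P.a * P.C s)) =
      P.H ^ 2 * (P.V s * P.V s) + (P.a * P.b) ^ 2 * P.H ^ 2 * (P.E s * P.E s) +
      (Real.sin P.νA * Real.sin P.νB) ^ 2 * (P.K s * P.K s) +
      2 * (P.a * P.b) * P.H ^ 2 * (P.V s * P.E s) +
      2 * (P.H * (Real.sin P.νA * Real.sin P.νB)) * (P.V s * P.K s) +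
      2 * (P.a * P.b) * (P.H * (Real.sin P.νA * Real.sin P.νB)) * (P.E s * P.K s) -
      Real.sqrt (P.H ^ 2 - 1) ^ 2 * (P.b ^ 2 * (P.R s * P.R s) + P.a ^ 2 * (P.C s * P.C s) +
        2 * (P.a * P.b) * (P.R s * P.C s)) := by ring
  rw [hT, hS, hHrs, hVV, hEE, hVE, hKK, hVK, hEK, hRR, hCC, hRC, e1, e2, e3]
  have hh2 : P.h ^ 2 = P.H ^ 2 * ((1 - P.a ^ 2) * (1 - P.b ^ 2)) := by
    rw [← hHrs, ← hsa2, ← hsb2]
    ring
  have hrs2 : (Real.sin P.νA * Real.sin P.νB) ^ 2 = (1 - P.a ^ 2) * (1 - P.b ^ 2) := by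
    rw [← hsa2, ← hsb2]
    ring
  rw [hrs2, hh2]
  rw [Real.sin_sub (2 * P.x) (P.eA + P.eB), Real.sin_add (2 * P.x) (P.eA + P.eB),
    Real.sin_add (2 * P.x) (P.eB - P.eA), Real.sin_sub (2 * P.x) (P.eB - P.eA),
    Real.sin_add P.eA P.eB, Real.cos_add P.eA P.eB, Real.sin_sub P.eB P.eA, Real.cos_sub P.eB P.eA]
  ring

theorem id_DD (P : EP) (hA : 0 < Real.sin P.νA) (hB : 0 < Real.sin P.νB) :
    Ls 1 P.x (P.ent 0 0) * Ls (-1) P.x (P.ent 0 0) = P.DD := by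
  rw [id_D P hA hB 1, id_D P hA hB (-1)]
  unfold EP.DD EP.K EP.E fs
  have h1 : 2 * (P.k - P.x) = -((P.x - P.k) + (P.x - P.k)) := by ring
  have h2 : 2 * (P.x + P.sg) = (P.x + P.sg) + (P.x + P.sg) := by ring
  have h3 : 2 * P.x - P.k + P.sg = (P.x - P.k) + (P.x + P.sg) := by ring
  rw [h1, h2, h3, Real.cos_neg, Real.cos_add (P.x - P.k) (P.x - P.k),
    Real.cos_add (P.x + P.sg) (P.x + P.sg), Real.cos_add (P.x - P.k) (P.x + P.sg)]
  ring

theorem d_pos (P : EP) (hA : 0 < Real.sin P.νA) (hB : 0 < Real.sin P.νB) (h0 : 0 < P.h) (a0 : 0 < P.a)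
    (b0 : 0 < P.b) (s : ℝ) (hK : 0 < P.K s) (hE : 0 < P.E s) (hV : 0 < P.V s) (hR : 0 < P.R s) (hC : 0 < P.C s) :
    0 < Ls s P.x (P.ent 2 2) := by
  rw [Ls_d]
  have hH : 0 < P.H := by
    unfold EP.H
    positivity
  have hS : 0 ≤ Real.sqrt (P.H ^ 2 - 1) := Real.sqrt_nonneg _
  positivity

end Pool.Agent.Work.MP_88b7aa_gt.CH
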