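import Pool.Agent.Work.MP_88b7aa_gt.CH.IdF

/-!
# The entries `b`, `c`.
-/

namespace Pool.Agent.Work.MP_88b7aa_gt.CH

open ComplexConjugate Complex

private theorem Ls_sub' (s x : ℝ) (u v : ℂ) : Ls s x (u - v) = Ls s x u - Ls s x v := by
  simp only [Ls, mul_sub, Complex.sub_re, Complex.sub_im]; ring

private theorem Ls_add' (s x : ℝ) (u v : ℂ) : Ls s x (u + v) = Ls s x u + Ls s x v := by
  simp only [Ls, mul_add, Complex.add_re, Complex.add_im]; ring

private theorem Ls_real' (s x r : ℝ) (u : ℂ) : Ls s x ((r : ℂ) * u) = r * Ls s x u := by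
  simp only [Ls, mul_left_comm _ (r : ℂ), Complex.re_ofReal_mul, Complex.im_ofReal_mul]; ring

private theorem rf_eq (ν e : ℝ) (hν : 0 < Real.sin ν) (he : 0 < Real.cos e) :
    rf ν e * ((1 - Real.cos ν) * Real.cos (e / 2)) = (1 + Real.cos ν) * Real.sin (e / 2) := by
  have h1 : Real.sin ν ^ 2 = (1 - Real.cos ν) * (1 + Real.cos ν) := by
    have := Real.sin_sq_add_cos_sq ν; linarith
  have h2 : Real.sin e = 2 * Real.sin (e / 2) * Real.cos (e / 2) := by
    rw [← Real.sin_two_mul]; ring_nf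
  have h3 : 1 + Real.cos e = 2 * Real.cos (e / 2) ^ 2 := by
    have := Real.cos_sq (e / 2)
    have h4 : 2 * (e / 2) = e := by ring
    rw [h4] at this; linarith
  have h5 : Real.sin ν ^ 2 ≠ 0 := by positivity
  have h6 : (1 + Real.cos e) ≠ 0 := by positivity
  have h7 : Real.cos (e / 2) ≠ 0 := by
    intro h; rw [h] at h3; simp at h3; exact h6 h3
  rw [h1] at h5
  have h8 : (1 - Real.cos ν) ≠ 0 := left_ne_zero_of_mul h5
  have h9 : (1 + Real.cos ν) ≠ 0 := right_ne_zero_of_mul h5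
  unfold rf wf
  rw [h1, h2, h3]
  field_simp

private theorem rpf_eq (ν e : ℝ) (hν : 0 < Real.sin ν) (he : 0 < Real.cos e) :
    rpf ν e * ((1 + Real.cos ν) * Real.cos (e / 2)) = (1 - Real.cos ν) * Real.sin (e / 2) := by
  have h1 : Real.sin ν ^ 2 = (1 - Real.cos ν) * (1 + Real.cos ν) := by
    have := Real.sin_sq_add_cos_sq ν; linarith
  have h2 : Real.sin e = 2 * Real.sin (e / 2) * Real.cos (e / 2) := by
    rw [← Real.sin_two_mul]; ring_nf
  have h3 : 1 + Real.cos e = 2 * Real.cos (e / 2) ^ 2 := by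
    have := Real.cos_sq (e / 2)
    have h4 : 2 * (e / 2) = e := by ring
    rw [h4] at this; linarith
  have h5 : Real.sin ν ^ 2 ≠ 0 := by positivity
  have h6 : (1 + Real.cos e) ≠ 0 := by positivity
  have h7 : Real.cos (e / 2) ≠ 0 := by
    intro h; rw [h] at h3; simp at h3; exact h6 h3
  rw [h1] at h5
  have h8 : (1 - Real.cos ν) ≠ 0 := left_ne_zero_of_mul h5
  have h9 : (1 + Real.cos ν) ≠ 0 := right_ne_zero_of_mul h5
  unfold rpf wf
  rw [h1, h2, h3]
  field_simp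

private theorem fs_add (s x y : ℝ) (hs : s ^ 2 = 1) :
    fs s (x + y) = fs s x * Real.cos y + s * fs (-s) x * Real.sin y := by
  simp only [fs, Real.cos_add, Real.sin_add]
  linear_combination (Real.sin x * Real.sin y) * hs

private theorem fs_sub (s x y : ℝ) (hs : s ^ 2 = 1) :
    fs s (x - y) = fs s x * Real.cos y - s * fs (-s) x * Real.sin y := by
  rw [sub_eq_add_neg, fs_add s x (-y) hs, Real.cos_neg, Real.sin_neg]; ring

private theorem g_eq (P : EP) (h0 : 0 < P.h) (hr : P.A2 * P.B2 < P.h ^ 2) :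
    0 < P.h + P.g ∧ P.g ^ 2 = P.h ^ 2 - P.A2 * P.B2 := by
  have hg : 0 ≤ P.g := Real.sqrt_nonneg _
  refine ⟨by linarith, ?_⟩
  unfold EP.g
  rw [Real.sq_sqrt (by linarith)]

private theorem Ls_b (P : EP) (s : ℝ) : Ls s P.x (P.ent 1 2) =
    P.H * P.V s - P.ab * P.H * P.E s - Real.sin P.νA * Real.sin P.νB * P.K s -
      Real.sqrt (P.H ^ 2 - 1) * (P.a * P.C s - P.b * P.R s) := by
  have e : P.ent 1 2 = ((P.H : ℝ) : ℂ) * exp (((-P.sg : ℝ) : ℂ) * I) -
      ((P.ab * P.H : ℝ) : ℂ) * exp (((P.sg : ℝ) : ℂ) * I) -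
      ((Real.sin P.νA * Real.sin P.νB : ℝ) : ℂ) * exp (((-P.k : ℝ) : ℂ) * I) -
      ((Real.sqrt (P.H ^ 2 - 1) : ℝ) : ℂ) * (((P.a : ℝ) : ℂ) * exp (((-P.et : ℝ) : ℂ) * I) -
        ((P.b : ℝ) : ℂ) * exp (((P.et : ℝ) : ℂ) * I)) := by
    simp only [EP.ent, ent, EP.ab, EP.a, EP.b, Complex.ofReal_mul]
    simp
  rw [e]
  simp only [Ls_sub', Ls_real', Ls_exp]
  simp only [EP.V, EP.E, EP.K, EP.C, EP.R, sub_eq_add_neg]

private theorem Ls_c (P : EP) (s : ℝ) : Ls s P.x (P.ent 2 1) =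
    P.H * P.V s - P.ab * P.H * P.E s - Real.sin P.νA * Real.sin P.νB * P.K s +
      Real.sqrt (P.H ^ 2 - 1) * (P.a * P.C s - P.b * P.R s) := by
  have e : P.ent 2 1 = ((P.H : ℝ) : ℂ) * exp (((-P.sg : ℝ) : ℂ) * I) -
      ((P.ab * P.H : ℝ) : ℂ) * exp (((P.sg : ℝ) : ℂ) * I) -
      ((Real.sin P.νA * Real.sin P.νB : ℝ) : ℂ) * exp (((-P.k : ℝ) : ℂ) * I) +
      ((Real.sqrt (P.H ^ 2 - 1) : ℝ) : ℂ) * (((P.a : ℝ) : ℂ) * exp (((-P.et : ℝ) : ℂ) * I) -
        ((P.b : ℝ) : ℂ) * exp (((P.et : ℝ) : ℂ) * I)) := by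
    simp only [EP.ent, ent, EP.ab, EP.a, EP.b, Complex.ofReal_mul]
    simp
  rw [e]
  simp only [Ls_sub', Ls_add', Ls_real', Ls_exp]
  simp only [EP.V, EP.E, EP.K, EP.C, EP.R, sub_eq_add_neg]

theorem id_b (P : EP) (hA : 0 < Real.sin P.νA) (hB : 0 < Real.sin P.νB) (h0 : 0 < P.h)
    (cA : 0 < Real.cos P.eA) (cB : 0 < Real.cos P.eB) (hr : P.A2 * P.B2 < P.h ^ 2) (s : ℝ) (hs : s ^ 2 = 1) :
    Ls s P.x (P.ent 1 2) * (Real.sin P.νA * Real.sin P.νB) = (1 - P.a) * (1 + P.b) * P.q8 s := by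
  obtain ⟨hg1, hg2⟩ := g_eq P h0 hr
  have hrs : Real.sin P.νA * Real.sin P.νB ≠ 0 := by positivity
  have hH : P.H * (Real.sin P.νA * Real.sin P.νB) = P.h := by
    unfold EP.H; field_simp
  have hS : Real.sqrt (P.H ^ 2 - 1) * (Real.sin P.νA * Real.sin P.νB) = P.g := by
    rw [EP_S P hA hB]; field_simp
  have hA2 : P.A2 = (1 - P.a) * (1 + P.a) := by
    unfold EP.A2 EP.a; have := Real.sin_sq_add_cos_sq P.νA; linarith
  have hB2 : P.B2 = (1 - P.b) * (1 + P.b) := by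
    unfold EP.B2 EP.b; have := Real.sin_sq_add_cos_sq P.νB; linarith
  have hrs2 : (Real.sin P.νA * Real.sin P.νB) * (Real.sin P.νA * Real.sin P.νB) = P.A2 * P.B2 := by
    unfold EP.A2 EP.B2; ring
  -- the trigonometric identity
  have rA := rf_eq P.νA P.eA hA cA
  have rB := rpf_eq P.νB P.eB hB cB
  have key : P.V s - P.ab * P.E s - P.a * P.C s + P.b * P.R s =
      (1 - P.a) * (1 + P.b) * (Real.cos (P.eA / 2) * Real.cos (P.eB / 2)) *
        (fs s P.x * (1 - rf P.νA P.eA * rpf P.νB P.eB) -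
          s * ((rf P.νA P.eA + rpf P.νB P.eB) * fs (-s) P.x)) := by
    have e1 : P.sg = P.eA / 2 + P.eB / 2 := by unfold EP.sg; ring
    have e2 : P.et = P.eB / 2 - P.eA / 2 := by unfold EP.et; ring
    simp only [EP.V, EP.E, EP.C, EP.R, e1, e2]
    rw [fs_sub s _ _ hs, fs_add s _ _ hs, fs_sub s _ _ hs, fs_add s _ _ hs, Real.cos_add, Real.sin_add,
      Real.cos_sub, Real.sin_sub]
    have ra : rf P.νA P.eA * ((1 - P.a) * Real.cos (P.eA / 2)) = (1 + P.a) * Real.sin (P.eA / 2) := rA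
    have rb : rpf P.νB P.eB * ((1 + P.b) * Real.cos (P.eB / 2)) = (1 - P.b) * Real.sin (P.eB / 2) := rB
    unfold EP.ab
    generalize rf P.νA P.eA = ρ at *
    generalize rpf P.νB P.eB = τ at *
    generalize Real.cos (P.eA / 2) = cu at *
    generalize Real.sin (P.eA / 2) = su at *
    generalize Real.cos (P.eB / 2) = cv at *
    generalize Real.sin (P.eB / 2) = sv at *
    generalize fs s P.x = F at *
    generalize fs (-s) P.x = G at *
    linear_combination (F * (τ * ((1 + P.b) * cv)) + s * G * ((1 + P.b) * cv)) * ra +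
      (F * ((1 + P.a) * su) + s * G * ((1 - P.a) * cu)) * rb
  have hgg : P.g = P.h - P.A2 * P.B2 * (P.h + P.g)⁻¹ := by
    field_simp; nlinarith [hg2]
  rw [Ls_b]
  have e3 : (P.H * P.V s - P.ab * P.H * P.E s - Real.sin P.νA * Real.sin P.νB * P.K s -
      Real.sqrt (P.H ^ 2 - 1) * (P.a * P.C s - P.b * P.R s)) * (Real.sin P.νA * Real.sin P.νB) =
      P.h * (P.V s - P.ab * P.E s) - P.A2 * P.B2 * P.K s - P.g * (P.a * P.C s - P.b * P.R s) := by
    linear_combination (P.V s - P.ab * P.E s) * hH - P.K s * hrs2 - (P.a * P.C s - P.b * P.R s) * hS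
  rw [e3]
  unfold EP.q8 EP.hc
  have hgg2 : P.g * (P.a * P.C s - P.b * P.R s) = P.h * (P.a * P.C s - P.b * P.R s) -
      P.A2 * P.B2 * (P.h + P.g)⁻¹ * (P.a * P.C s - P.b * P.R s) := by
    conv_lhs => rw [hgg]
    ring
  rw [hgg2, hA2, hB2]
  linear_combination P.h * key

theorem id_c (P : EP) (hA : 0 < Real.sin P.νA) (hB : 0 < Real.sin P.νB) (h0 : 0 < P.h)
    (cA : 0 < Real.cos P.eA) (cB : 0 < Real.cos P.eB) (hr : P.A2 * P.B2 < P.h ^ 2) (s : ℝ) (hs : s ^ 2 = 1) :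
    Ls s P.x (P.ent 2 1) * (Real.sin P.νA * Real.sin P.νB) = (1 - P.b) * (1 + P.a) * P.q9 s := by
  obtain ⟨hg1, hg2⟩ := g_eq P h0 hr
  have hrs : Real.sin P.νA * Real.sin P.νB ≠ 0 := by positivity
  have hH : P.H * (Real.sin P.νA * Real.sin P.νB) = P.h := by
    unfold EP.H; field_simp
  have hS : Real.sqrt (P.H ^ 2 - 1) * (Real.sin P.νA * Real.sin P.νB) = P.g := by
    rw [EP_S P hA hB]; field_simp
  have hA2 : P.A2 = (1 - P.a) * (1 + P.a) := by
    unfold EP.A2 EP.a; have := Real.sin_sq_add_cos_sq P.νA; linarith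
  have hB2 : P.B2 = (1 - P.b) * (1 + P.b) := by
    unfold EP.B2 EP.b; have := Real.sin_sq_add_cos_sq P.νB; linarith
  have hrs2 : (Real.sin P.νA * Real.sin P.νB) * (Real.sin P.νA * Real.sin P.νB) = P.A2 * P.B2 := by
    unfold EP.A2 EP.B2; ring
  have rA := rpf_eq P.νA P.eA hA cA
  have rB := rf_eq P.νB P.eB hB cB
  have key : P.V s - P.ab * P.E s + P.a * P.C s - P.b * P.R s =
      (1 - P.b) * (1 + P.a) * (Real.cos (P.eA / 2) * Real.cos (P.eB / 2)) *
        (fs s P.x * (1 - rf P.νB P.eB * rpf P.νA P.eA) -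
          s * ((rf P.νB P.eB + rpf P.νA P.eA) * fs (-s) P.x)) := by
    have e1 : P.sg = P.eA / 2 + P.eB / 2 := by unfold EP.sg; ring
    have e2 : P.et = P.eB / 2 - P.eA / 2 := by unfold EP.et; ring
    simp only [EP.V, EP.E, EP.C, EP.R, e1, e2]
    rw [fs_sub s _ _ hs, fs_add s _ _ hs, fs_sub s _ _ hs, fs_add s _ _ hs, Real.cos_add, Real.sin_add,
      Real.cos_sub, Real.sin_sub]
    have ra : rpf P.νA P.eA * ((1 + P.a) * Real.cos (P.eA / 2)) = (1 - P.a) * Real.sin (P.eA / 2) := rA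
    have rb : rf P.νB P.eB * ((1 - P.b) * Real.cos (P.eB / 2)) = (1 + P.b) * Real.sin (P.eB / 2) := rB
    unfold EP.ab
    generalize rpf P.νA P.eA = ρ at *
    generalize rf P.νB P.eB = τ at *
    generalize Real.cos (P.eA / 2) = cu at *
    generalize Real.sin (P.eA / 2) = su at *
    generalize Real.cos (P.eB / 2) = cv at *
    generalize Real.sin (P.eB / 2) = sv at *
    generalize fs s P.x = F at *
    generalize fs (-s) P.x = G at *
    linear_combination (F * (τ * ((1 - P.b) * cv)) + s * G * ((1 - P.b) * cv)) * ra +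
      (F * ((1 - P.a) * su) + s * G * ((1 + P.a) * cu)) * rb
  have hgg : P.g = P.h - P.A2 * P.B2 * (P.h + P.g)⁻¹ := by
    field_simp; nlinarith [hg2]
  rw [Ls_c]
  have e3 : (P.H * P.V s - P.ab * P.H * P.E s - Real.sin P.νA * Real.sin P.νB * P.K s +
      Real.sqrt (P.H ^ 2 - 1) * (P.a * P.C s - P.b * P.R s)) * (Real.sin P.νA * Real.sin P.νB) =
      P.h * (P.V s - P.ab * P.E s) - P.A2 * P.B2 * P.K s + P.g * (P.a * P.C s - P.b * P.R s) := by
    linear_combination (P.V s - P.ab * P.E s) * hH - P.K s * hrs2 + (P.a * P.C s - P.b * P.R s) * hS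
  rw [e3]
  unfold EP.q9 EP.hc
  have hgg2 : P.g * (P.a * P.C s - P.b * P.R s) = P.h * (P.a * P.C s - P.b * P.R s) -
      P.A2 * P.B2 * (P.h + P.g)⁻¹ * (P.a * P.C s - P.b * P.R s) := by
    conv_lhs => rw [hgg]
    ring
  rw [hgg2, hA2, hB2]
  linear_combination P.h * key

end Pool.Agent.Work.MP_88b7aa_gt.CH
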