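import Pool.Agent.Work.MP_88b7aa_gt.CH.Real

/-!
# The entries `D, f₁, f₂, g₁, g₂`.  Size: S-M.

Notation: `a = cos νA`, `b = cos νB`, `sa = sin νA > 0`, `sb = sin νB > 0`, `rs = sa sb`, `H = h/rs`, `S = √(H²-1) = g/rs`
(`g = √(h² - rs²)`; `√((h/rs)² - 1) = √((h² - rs²)/rs²)`).
`Ls s x (e^{iφ}) = fs s (x + φ)`; `Ls s x (i e^{iφ}) = s fs (-s) (x + φ)` for `s² = 1`; `Ls s x` is `ℝ`-linear.
* `D = ab e^{-ik} + H sa sb e^{iσ}` : `Ls = ab K + h E`.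
* `f₂ = sa (S e^{-iη} + bH e^{iσ}) - a sb e^{-ik}` : `Ls = sa S C + sa b H E - a sb K = q3 / sb`; `g₂` by symmetry `= q5 / sa`.
* `f₁ = sa (S e^{-iη} - bH e^{iσ}) + a sb e^{-ik}`; `σ = -η + eB`, so `S e^{-iη} - bH e^{iσ} = e^{-iη} (S - bH cos eB - i bH sin eB)` and
  `Ls f₁ = (1/sb) [(g - b h cos eB) C s - s b h sin eB C (-s)] + a sb K`, and
  `g - b h cos eB = (g - bh) + bh (1 - cos eB)`, `(g - bh)(g + bh) = h² - sa² sb² - b² h² = sb² (h² - sa²)`.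
  So `Ls f₁ = sb [ q2 s + b h (1 - cos eB)/sb² C s ]`.
* `g₁ = sb (S e^{iη} - aH e^{iσ}) + sa b e^{-ik}`, `σ = η + eA`: the same with the roles exchanged.
-/

namespace Pool.Agent.Work.MP_88b7aa_gt.CH

open ComplexConjugate Complex

/-- the entries for the data `P` -/
noncomputable def EP.ent (P : EP) : Fin 3 → Fin 3 → ℂ :=
  Pool.Agent.Work.MP_88b7aa_gt.CH.ent P.νA P.νB P.k P.sg P.et P.H

theorem Ls_exp (s x φ : ℝ) : Ls s x (exp ((φ : ℝ) * I)) = fs s (x + φ) := by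
  unfold Ls fs
  have h : exp ((x : ℝ) * I) * exp ((φ : ℝ) * I) = exp (((x + φ : ℝ) : ℂ) * I) := by
    rw [← Complex.exp_add]
    congr 1
    push_cast
    ring
  rw [h, Complex.exp_ofReal_mul_I_re, Complex.exp_ofReal_mul_I_im]

private theorem Ls_add' (s x : ℝ) (u v : ℂ) : Ls s x (u + v) = Ls s x u + Ls s x v := by
  unfold Ls
  rw [mul_add, Complex.add_re, Complex.add_im]
  ring

private theorem Ls_sub' (s x : ℝ) (u v : ℂ) : Ls s x (u - v) = Ls s x u - Ls s x v := by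
  unfold Ls
  rw [mul_sub, Complex.sub_re, Complex.sub_im]
  ring

private theorem Ls_mul' (s x r : ℝ) (u : ℂ) : Ls s x ((r : ℂ) * u) = r * Ls s x u := by
  unfold Ls
  rw [mul_left_comm, Complex.re_ofReal_mul, Complex.im_ofReal_mul]
  ring

private theorem fs_shift (s u e : ℝ) (hs : s ^ 2 = 1) :
    fs s (u + e) = Real.cos e * fs s u + s * Real.sin e * fs (-s) u := by
  unfold fs
  rw [Real.cos_add, Real.sin_add]
  linear_combination (Real.sin e * Real.sin u) * hs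

theorem EP_S (P : EP) (hA : 0 < Real.sin P.νA) (hB : 0 < Real.sin P.νB) :
    Real.sqrt (P.H ^ 2 - 1) = P.g / (Real.sin P.νA * Real.sin P.νB) := by
  have h0 : 0 < Real.sin P.νA * Real.sin P.νB := mul_pos hA hB
  have h1 : P.H ^ 2 - 1 =
      (P.h ^ 2 - P.A2 * P.B2) / (Real.sin P.νA * Real.sin P.νB) ^ 2 := by
    unfold EP.H EP.A2 EP.B2
    field_simp
  rw [h1, Real.sqrt_div' _ (sq_nonneg _), Real.sqrt_sq h0.le]
  rfl

private theorem fK (P : EP) (s : ℝ) : fs s (P.x + -P.k) = P.K s := rfl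

private theorem fC (P : EP) (s : ℝ) : fs s (P.x + -P.et) = P.C s := rfl

private theorem fE (P : EP) (s : ℝ) : fs s (P.x + P.sg) = P.E s := rfl

private theorem fR (P : EP) (s : ℝ) : fs s (P.x + P.et) = P.R s := rfl

private theorem Hh (P : EP) (hA : 0 < Real.sin P.νA) (hB : 0 < Real.sin P.νB) :
    P.H * (Real.sin P.νA * Real.sin P.νB) = P.h := by
  unfold EP.H
  field_simp

theorem id_D (P : EP) (hA : 0 < Real.sin P.νA) (hB : 0 < Real.sin P.νB) (s : ℝ) :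
    Ls s P.x (P.ent 0 0) = P.ab * P.K s + P.h * P.E s := by
  have h1 : P.ent 0 0 = ((Real.cos P.νA * Real.cos P.νB : ℝ) : ℂ) * exp ((-P.k : ℝ) * I) +
      ((P.H * (Real.sin P.νA * Real.sin P.νB) : ℝ) : ℂ) * exp ((P.sg : ℝ) * I) := by
    show (Real.cos P.νA : ℂ) * (Real.cos P.νB : ℂ) * exp ((-P.k : ℝ) * I) +
      (P.H : ℂ) * (Real.sin P.νA : ℂ) * (Real.sin P.νB : ℂ) * exp ((P.sg : ℝ) * I) = _
    push_cast
    ring
  rw [h1, Ls_add', Ls_mul', Ls_mul', Ls_exp, Ls_exp, fK, fE, Hh P hA hB]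
  rfl

theorem id_f2 (P : EP) (hA : 0 < Real.sin P.νA) (hB : 0 < Real.sin P.νB) (s : ℝ) :
    Ls s P.x (P.ent 0 2) = P.q3 s / Real.sin P.νB := by
  have h1 : P.ent 0 2 = ((Real.sin P.νA * Real.sqrt (P.H ^ 2 - 1) : ℝ) : ℂ) *
        exp ((-P.et : ℝ) * I) +
      ((Real.sin P.νA * Real.cos P.νB * P.H : ℝ) : ℂ) * exp ((P.sg : ℝ) * I) -
      ((Real.cos P.νA * Real.sin P.νB : ℝ) : ℂ) * exp ((-P.k : ℝ) * I) := by
    show (Real.sin P.νA : ℂ) * ((Real.sqrt (P.H ^ 2 - 1) : ℝ) * exp ((-P.et : ℝ) * I) +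
      (Real.cos P.νB : ℂ) * (P.H : ℂ) * exp ((P.sg : ℝ) * I)) -
      (Real.cos P.νA : ℂ) * (Real.sin P.νB : ℂ) * exp ((-P.k : ℝ) * I) = _
    push_cast
    ring
  rw [h1, Ls_sub', Ls_add', Ls_mul', Ls_mul', Ls_mul', Ls_exp, Ls_exp, Ls_exp, fK, fE, fC,
    EP_S P hA hB]
  unfold EP.q3 EP.H EP.B2 EP.a EP.b
  field_simp

theorem id_g2 (P : EP) (hA : 0 < Real.sin P.νA) (hB : 0 < Real.sin P.νB) (s : ℝ) :
    Ls s P.x (P.ent 2 0) = P.q5 s / Real.sin P.νA := by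
  have h1 : P.ent 2 0 = ((Real.sin P.νB * Real.sqrt (P.H ^ 2 - 1) : ℝ) : ℂ) *
        exp ((P.et : ℝ) * I) +
      ((Real.sin P.νB * Real.cos P.νA * P.H : ℝ) : ℂ) * exp ((P.sg : ℝ) * I) -
      ((Real.sin P.νA * Real.cos P.νB : ℝ) : ℂ) * exp ((-P.k : ℝ) * I) := by
    show (Real.sin P.νB : ℂ) * ((Real.sqrt (P.H ^ 2 - 1) : ℝ) * exp ((P.et : ℝ) * I) +
      (Real.cos P.νA : ℂ) * (P.H : ℂ) * exp ((P.sg : ℝ) * I)) -
      (Real.sin P.νA : ℂ) * (Real.cos P.νB : ℂ) * exp ((-P.k : ℝ) * I) = _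
    push_cast
    ring
  rw [h1, Ls_sub', Ls_add', Ls_mul', Ls_mul', Ls_mul', Ls_exp, Ls_exp, Ls_exp, fK, fE, fR,
    EP_S P hA hB]
  unfold EP.q5 EP.H EP.A2 EP.a EP.b
  field_simp

theorem id_f1 (P : EP) (hA : 0 < Real.sin P.νA) (hB : 0 < Real.sin P.νB) (h0 : 0 < P.h) (b0 : 0 < P.b)
    (hr : P.A2 * P.B2 < P.h ^ 2) (s : ℝ) (hs : s ^ 2 = 1) :
    Ls s P.x (P.ent 0 1) =
      Real.sin P.νB * (P.q2 s + P.b * P.h * (1 - Real.cos P.eB) / P.B2 * P.C s) := by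
  have h1 : P.ent 0 1 = ((Real.sin P.νA * Real.sqrt (P.H ^ 2 - 1) : ℝ) : ℂ) *
        exp ((-P.et : ℝ) * I) -
      ((Real.sin P.νA * Real.cos P.νB * P.H : ℝ) : ℂ) * exp ((P.sg : ℝ) * I) +
      ((Real.cos P.νA * Real.sin P.νB : ℝ) : ℂ) * exp ((-P.k : ℝ) * I) := by
    show (Real.sin P.νA : ℂ) * ((Real.sqrt (P.H ^ 2 - 1) : ℝ) * exp ((-P.et : ℝ) * I) -
      (Real.cos P.νB : ℂ) * (P.H : ℂ) * exp ((P.sg : ℝ) * I)) +
      (Real.cos P.νA : ℂ) * (Real.sin P.νB : ℂ) * exp ((-P.k : ℝ) * I) = _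
    push_cast
    ring
  have hE : P.E s = Real.cos P.eB * P.C s + s * Real.sin P.eB * P.C (-s) := by
    have h2 : P.E s = fs s ((P.x - P.et) + P.eB) := by
      unfold EP.E EP.sg EP.et
      congr 1
      ring
    rw [h2, fs_shift _ _ _ hs]
    rfl
  have hg2 : P.g ^ 2 = P.h ^ 2 - P.A2 * P.B2 := by
    unfold EP.g
    exact Real.sq_sqrt (by linarith)
  have hg0 : 0 ≤ P.g := Real.sqrt_nonneg _
  have hpos : 0 < P.g + P.b * P.h := by positivity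
  have hb2 : P.b ^ 2 = 1 - P.B2 := by
    unfold EP.b EP.B2
    have := Real.sin_sq_add_cos_sq P.νB
    linarith
  have hkey : (P.h ^ 2 - P.A2) * (P.g + P.b * P.h)⁻¹ = (P.g - P.b * P.h) / P.B2 := by
    have hB2 : P.B2 ≠ 0 := by
      unfold EP.B2
      positivity
    rw [← div_eq_mul_inv, div_eq_div_iff hpos.ne' hB2]
    linear_combination (-1 : ℝ) * hg2 + P.h ^ 2 * hb2
  rw [h1, Ls_add', Ls_sub', Ls_mul', Ls_mul', Ls_mul', Ls_exp, Ls_exp, Ls_exp, fK, fE, fC,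
    EP_S P hA hB, hE]
  have hq : P.q2 s = P.a * P.K s + (P.g - P.b * P.h) / P.B2 * P.C s -
      s * (P.b * P.h * (wf P.νB P.eB * P.C (-s))) := by
    rw [← hkey]
    unfold EP.q2
    ring
  rw [hq]
  unfold wf EP.B2 EP.H EP.a EP.b
  field_simp
  ring

theorem id_g1 (P : EP) (hA : 0 < Real.sin P.νA) (hB : 0 < Real.sin P.νB) (h0 : 0 < P.h) (a0 : 0 < P.a)
    (hr : P.A2 * P.B2 < P.h ^ 2) (s : ℝ) (hs : s ^ 2 = 1) :
    Ls s P.x (P.ent 1 0) =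
      Real.sin P.νA * (P.q4 s + P.a * P.h * (1 - Real.cos P.eA) / P.A2 * P.R s) := by
  have h1 : P.ent 1 0 = ((Real.sin P.νB * Real.sqrt (P.H ^ 2 - 1) : ℝ) : ℂ) *
        exp ((P.et : ℝ) * I) -
      ((Real.sin P.νB * Real.cos P.νA * P.H : ℝ) : ℂ) * exp ((P.sg : ℝ) * I) +
      ((Real.sin P.νA * Real.cos P.νB : ℝ) : ℂ) * exp ((-P.k : ℝ) * I) := by
    show (Real.sin P.νB : ℂ) * ((Real.sqrt (P.H ^ 2 - 1) : ℝ) * exp ((P.et : ℝ) * I) -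
      (Real.cos P.νA : ℂ) * (P.H : ℂ) * exp ((P.sg : ℝ) * I)) +
      (Real.sin P.νA : ℂ) * (Real.cos P.νB : ℂ) * exp ((-P.k : ℝ) * I) = _
    push_cast
    ring
  have hE : P.E s = Real.cos P.eA * P.R s + s * Real.sin P.eA * P.R (-s) := by
    have h2 : P.E s = fs s ((P.x + P.et) + P.eA) := by
      unfold EP.E EP.sg EP.et
      congr 1
      ring
    rw [h2, fs_shift _ _ _ hs]
    rfl
  have hg2 : P.g ^ 2 = P.h ^ 2 - P.A2 * P.B2 := by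
    unfold EP.g
    exact Real.sq_sqrt (by linarith)
  have hg0 : 0 ≤ P.g := Real.sqrt_nonneg _
  have hpos : 0 < P.g + P.a * P.h := by positivity
  have ha2 : P.a ^ 2 = 1 - P.A2 := by
    unfold EP.a EP.A2
    have := Real.sin_sq_add_cos_sq P.νA
    linarith
  have hkey : (P.h ^ 2 - P.B2) * (P.g + P.a * P.h)⁻¹ = (P.g - P.a * P.h) / P.A2 := by
    have hA2 : P.A2 ≠ 0 := by
      unfold EP.A2
      positivity
    rw [← div_eq_mul_inv, div_eq_div_iff hpos.ne' hA2]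
    linear_combination (-1 : ℝ) * hg2 + P.h ^ 2 * ha2
  rw [h1, Ls_add', Ls_sub', Ls_mul', Ls_mul', Ls_mul', Ls_exp, Ls_exp, Ls_exp, fK, fE, fR,
    EP_S P hA hB, hE]
  have hq : P.q4 s = P.b * P.K s + (P.g - P.a * P.h) / P.A2 * P.R s -
      s * (P.a * P.h * (wf P.νA P.eA * P.R (-s))) := by
    rw [← hkey]
    unfold EP.q4
    ring
  rw [hq]
  unfold wf EP.A2 EP.H EP.a EP.b
  field_simp
  ring

end Pool.Agent.Work.MP_88b7aa_gt.CH
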