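import Pool.Agent.Work.MP_88b7aa_gt.CH.IdB
import Pool.Agent.Work.MP_88b7aa_gt.CH.IdA

/-!
# The checked conditions imply `EdgeGood`.  Size: S-M.

PROOF.  `H = h/rs > 1` from `rs² < h²`.  `σ - η = eA`, `σ + η = eB`.  Positivity of the nine entries, `s = ±1`:
`D`: `id_D`; `f₂, g₂`: `id_f2, id_g2`; `f₁`: `id_f1`, the extra term is `≥ 0`; `g₁` in the same way; `b, c`: `id_b, id_c` (`a, b < 1` as the
sines are positive); `d`: `d_pos`; `a`: `Ls a * Ls d = X + s Y > 0`.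
`hx`: `|2x - 2k/3| ≤ 1 ≤ π/3`.
`main`: `N00 = DD` (`id_DD`); `N11 N22 = (X+Y)(X-Y)` (`id_ad` for `s = ±1`); `N12 N21 = q8⁺ q8⁻ q9⁺ q9⁻` since
`((1-a)(1+b)(1-b)(1+a))² = rs⁴`; `N01 N02 ≥ q2⁺ q2⁻ q3⁺ q3⁻` (`Ls f₁ ≥ sb q2 > 0`, `Ls f₂ = q3/sb`), `N10 N20 ≥ q4⁺ q4⁻ q5⁺ q5⁻`
(`Real.sqrt_le_sqrt`).
-/

namespace Pool.Agent.Work.MP_88b7aa_gt.CH

open ComplexConjugate Complex

private theorem idG_lt_one {ν : ℝ} (hs : 0 < Real.sin ν) : Real.cos ν < 1 := by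
  nlinarith [Real.sin_sq_add_cos_sq ν, mul_pos hs hs]

private theorem idG_sin_sq (ν : ℝ) : Real.sin ν ^ 2 = (1 - Real.cos ν) * (1 + Real.cos ν) := by
  nlinarith [Real.sin_sq_add_cos_sq ν]

/-- lower bound for `f₁`, `g₁` -/
private theorem idG_lower {sb q b h cs B2 C : ℝ} (hsb : 0 < sb) (hb : 0 < b) (hh : 0 < h) (hcs : cs ≤ 1)
    (hB2 : 0 < B2) (hC : 0 < C) : sb * q ≤ sb * (q + b * h * (1 - cs) / B2 * C) := by
  apply mul_le_mul_of_nonneg_left _ hsb.le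
  have h1 : 0 ≤ 1 - cs := by linarith
  have h2 : 0 ≤ b * h * (1 - cs) / B2 * C := by positivity
  linarith

private theorem idG_prod {s q1 q1' q2 q2' l1 l1' l2 l2' : ℝ} (hs : 0 < s) (h1 : 0 < q1) (h1' : 0 < q1')
    (h2 : 0 < q2) (h2' : 0 < q2') (hl1 : s * q1 ≤ l1) (hl1' : s * q1' ≤ l1') (hl2 : l2 = q2 / s)
    (hl2' : l2' = q2' / s) : q1 * q1' * (q2 * q2') ≤ (l1 * l1') * (l2 * l2') := by
  have e1 : (s * q1) * (s * q1') ≤ l1 * l1' := by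
    apply mul_le_mul hl1 hl1' (by positivity)
    exact le_trans (by positivity) hl1
  have e2 : q1 * q1' * (q2 * q2') = ((s * q1) * (s * q1')) * (q2 / s * (q2' / s)) := by
    field_simp
  rw [e2, hl2, hl2']
  exact mul_le_mul_of_nonneg_right e1 (by positivity)

theorem IdG (P : EP) (hA : 0 < Real.sin P.νA) (hB : 0 < Real.sin P.νB) (h : REdge P) : EGP P := by
  have hrs : 0 < Real.sin P.νA * Real.sin P.νB := mul_pos hA hB
  have ha1 : P.a < 1 := idG_lt_one hA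
  have hb1 : P.b < 1 := idG_lt_one hB
  have h0 := h.h0
  have a0 := h.a0
  have b0 := h.b0
  have hr := h.rs
  have hA2 : 0 < P.A2 := by
    unfold EP.A2
    positivity
  have hB2 : 0 < P.B2 := by
    unfold EP.B2
    positivity
  have s1 : (1 : ℝ) ^ 2 = 1 := by norm_num
  have s2 : (-1 : ℝ) ^ 2 = 1 := by norm_num
  have eσ : P.sg - P.et = P.eA := by
    unfold EP.sg EP.et
    ring
  have eσ' : P.sg + P.et = P.eB := by
    unfold EP.sg EP.et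
    ring
  -- the entries
  have D0 := id_D P hA hB 1
  have D1 := id_D P hA hB (-1)
  have hab : 0 < P.ab := by
    unfold EP.ab
    positivity
  have p00 : 0 < Ls 1 P.x (P.ent 0 0) := by
    rw [D0]
    have := h.K.1
    have := h.E.1
    positivity
  have p00' : 0 < Ls (-1) P.x (P.ent 0 0) := by
    rw [D1]
    have := h.K.2
    have := h.E.2
    positivity
  have l01 : Real.sin P.νB * P.q2 1 ≤ Ls 1 P.x (P.ent 0 1) := by
    rw [id_f1 P hA hB h0 b0 hr 1 s1]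
    exact idG_lower hB b0 h0 (Real.cos_le_one _) hB2 h.C.1
  have l01' : Real.sin P.νB * P.q2 (-1) ≤ Ls (-1) P.x (P.ent 0 1) := by
    rw [id_f1 P hA hB h0 b0 hr (-1) s2]
    exact idG_lower hB b0 h0 (Real.cos_le_one _) hB2 h.C.2
  have l10 : Real.sin P.νA * P.q4 1 ≤ Ls 1 P.x (P.ent 1 0) := by
    rw [id_g1 P hA hB h0 a0 hr 1 s1]
    exact idG_lower hA a0 h0 (Real.cos_le_one _) hA2 h.R.1
  have l10' : Real.sin P.νA * P.q4 (-1) ≤ Ls (-1) P.x (P.ent 1 0) := by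
    rw [id_g1 P hA hB h0 a0 hr (-1) s2]
    exact idG_lower hA a0 h0 (Real.cos_le_one _) hA2 h.R.2
  have e02 := id_f2 P hA hB 1
  have e02' := id_f2 P hA hB (-1)
  have e20 := id_g2 P hA hB 1
  have e20' := id_g2 P hA hB (-1)
  have p01 : 0 < Ls 1 P.x (P.ent 0 1) := lt_of_lt_of_le (mul_pos hB h.q2.1) l01
  have p01' : 0 < Ls (-1) P.x (P.ent 0 1) := lt_of_lt_of_le (mul_pos hB h.q2.2) l01'
  have p10 : 0 < Ls 1 P.x (P.ent 1 0) := lt_of_lt_of_le (mul_pos hA h.q4.1) l10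
  have p10' : 0 < Ls (-1) P.x (P.ent 1 0) := lt_of_lt_of_le (mul_pos hA h.q4.2) l10'
  have p02 : 0 < Ls 1 P.x (P.ent 0 2) := by
    rw [e02]
    exact div_pos h.q3.1 hB
  have p02' : 0 < Ls (-1) P.x (P.ent 0 2) := by
    rw [e02']
    exact div_pos h.q3.2 hB
  have p20 : 0 < Ls 1 P.x (P.ent 2 0) := by
    rw [e20]
    exact div_pos h.q5.1 hA
  have p20' : 0 < Ls (-1) P.x (P.ent 2 0) := by
    rw [e20']
    exact div_pos h.q5.2 hA
  have e12 := id_b P hA hB h0 h.cA h.cB hr 1 s1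
  have e12' := id_b P hA hB h0 h.cA h.cB hr (-1) s2
  have e21 := id_c P hA hB h0 h.cA h.cB hr 1 s1
  have e21' := id_c P hA hB h0 h.cA h.cB hr (-1) s2
  have ha1' : 0 < 1 - P.a := by linarith
  have hb1' : 0 < 1 - P.b := by linarith
  have p12 : 0 < Ls 1 P.x (P.ent 1 2) := by
    have h1 : 0 < (1 - P.a) * (1 + P.b) * P.q8 1 := by
      have := h.q8.1
      positivity
    rw [← e12] at h1
    exact (mul_pos_iff_of_pos_right hrs).1 h1
  have p12' : 0 < Ls (-1) P.x (P.ent 1 2) := by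
    have h1 : 0 < (1 - P.a) * (1 + P.b) * P.q8 (-1) := by
      have := h.q8.2
      positivity
    rw [← e12'] at h1
    exact (mul_pos_iff_of_pos_right hrs).1 h1
  have p21 : 0 < Ls 1 P.x (P.ent 2 1) := by
    have h1 : 0 < (1 - P.b) * (1 + P.a) * P.q9 1 := by
      have := h.q9.1
      positivity
    rw [← e21] at h1
    exact (mul_pos_iff_of_pos_right hrs).1 h1
  have p21' : 0 < Ls (-1) P.x (P.ent 2 1) := by
    have h1 : 0 < (1 - P.b) * (1 + P.a) * P.q9 (-1) := by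
      have := h.q9.2
      positivity
    rw [← e21'] at h1
    exact (mul_pos_iff_of_pos_right hrs).1 h1
  have p22 : 0 < Ls 1 P.x (P.ent 2 2) :=
    d_pos P hA hB h0 a0 b0 1 h.K.1 h.E.1 h.V.1 h.R.1 h.C.1
  have p22' : 0 < Ls (-1) P.x (P.ent 2 2) :=
    d_pos P hA hB h0 a0 b0 (-1) h.K.2 h.E.2 h.V.2 h.R.2 h.C.2
  have e11 := id_ad P hA hB h.cA h.cB hr 1 s1
  have e11' := id_ad P hA hB h.cA h.cB hr (-1) s2
  have p11 : 0 < Ls 1 P.x (P.ent 1 1) := by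
    have h1 : 0 < P.X + 1 * P.Y := by
      have := h.Z.2
      linarith
    rw [← e11] at h1
    exact (mul_pos_iff_of_pos_right p22).1 h1
  have p11' : 0 < Ls (-1) P.x (P.ent 1 1) := by
    have h1 : 0 < P.X + (-1) * P.Y := by
      have := h.Z.1
      linarith
    rw [← e11'] at h1
    exact (mul_pos_iff_of_pos_right p22').1 h1
  -- the products
  have hDD := id_DD P hA hB
  have N12 : (P.X - P.Y) * (P.X + P.Y) =
      (Ls 1 P.x (P.ent 1 1) * Ls (-1) P.x (P.ent 1 1)) *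
        (Ls 1 P.x (P.ent 2 2) * Ls (-1) P.x (P.ent 2 2)) := by
    have h1 : (Ls 1 P.x (P.ent 1 1) * Ls (-1) P.x (P.ent 1 1)) *
        (Ls 1 P.x (P.ent 2 2) * Ls (-1) P.x (P.ent 2 2)) =
        (Ls 1 P.x (P.ent 1 1) * Ls 1 P.x (P.ent 2 2)) *
        (Ls (-1) P.x (P.ent 1 1) * Ls (-1) P.x (P.ent 2 2)) := by ring
    rw [h1, e11, e11']
    ring
  have Nbc : P.q8 1 * P.q8 (-1) * (P.q9 1 * P.q9 (-1)) =
      (Ls 1 P.x (P.ent 1 2) * Ls (-1) P.x (P.ent 1 2)) *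
        (Ls 1 P.x (P.ent 2 1) * Ls (-1) P.x (P.ent 2 1)) := by
    have hq : (Real.sin P.νA * Real.sin P.νB) ^ 2 =
        (1 - P.a) * (1 + P.b) * ((1 - P.b) * (1 + P.a)) := by
      rw [mul_pow, idG_sin_sq P.νA, idG_sin_sq P.νB]
      unfold EP.a EP.b
      ring
    have hpos : 0 < (Real.sin P.νA * Real.sin P.νB) ^ 4 := by positivity
    apply mul_right_cancel₀ hpos.ne'
    have h1 : (Ls 1 P.x (P.ent 1 2) * Ls (-1) P.x (P.ent 1 2)) *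
        (Ls 1 P.x (P.ent 2 1) * Ls (-1) P.x (P.ent 2 1)) * (Real.sin P.νA * Real.sin P.νB) ^ 4 =
        (Ls 1 P.x (P.ent 1 2) * (Real.sin P.νA * Real.sin P.νB)) *
        (Ls (-1) P.x (P.ent 1 2) * (Real.sin P.νA * Real.sin P.νB)) *
        ((Ls 1 P.x (P.ent 2 1) * (Real.sin P.νA * Real.sin P.νB)) *
        (Ls (-1) P.x (P.ent 2 1) * (Real.sin P.νA * Real.sin P.νB))) := by ring
    rw [h1, e12, e12', e21, e21']
    have h2 : (Real.sin P.νA * Real.sin P.νB) ^ 4 =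
        ((1 - P.a) * (1 + P.b) * ((1 - P.b) * (1 + P.a))) ^ 2 := by
      rw [← hq]
      ring
    rw [h2]
    ring
  have N01 : P.q2 1 * P.q2 (-1) * (P.q3 1 * P.q3 (-1)) ≤
      (Ls 1 P.x (P.ent 0 1) * Ls (-1) P.x (P.ent 0 1)) *
        (Ls 1 P.x (P.ent 0 2) * Ls (-1) P.x (P.ent 0 2)) :=
    idG_prod hB h.q2.1 h.q2.2 h.q3.1 h.q3.2 l01 l01' e02 e02'
  have N10 : P.q4 1 * P.q4 (-1) * (P.q5 1 * P.q5 (-1)) ≤
      (Ls 1 P.x (P.ent 1 0) * Ls (-1) P.x (P.ent 1 0)) *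
        (Ls 1 P.x (P.ent 2 0) * Ls (-1) P.x (P.ent 2 0)) :=
    idG_prod hA h.q4.1 h.q4.2 h.q5.1 h.q5.2 l10 l10' e20 e20'
  have hk : 2 * P.x - 2 * P.k / 3 = 2 * P.x - 2 / 3 * P.k := by ring
  refine ⟨?_, ?_, ?_, ?_, ?_, ?_⟩
  · unfold EP.H
    rw [one_lt_div hrs]
    have h1 : (Real.sin P.νA * Real.sin P.νB) ^ 2 < P.h ^ 2 := by
      refine lt_of_eq_of_lt ?_ hr
      unfold EP.A2 EP.B2
      ring
    exact lt_of_pow_lt_pow_left₀ 2 h0.le h1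
  · rw [eσ]
    exact h.cA
  · rw [eσ']
    exact h.cB
  · intro i j
    change 0 < Ls 1 P.x (P.ent i j) ∧ 0 < Ls (-1) P.x (P.ent i j)
    fin_cases i <;> fin_cases j
    · exact ⟨p00, p00'⟩
    · exact ⟨p01, p01'⟩
    · exact ⟨p02, p02'⟩
    · exact ⟨p10, p10'⟩
    · exact ⟨p11, p11'⟩
    · exact ⟨p12, p12'⟩
    · exact ⟨p20, p20'⟩
    · exact ⟨p21, p21'⟩
    · exact ⟨p22, p22'⟩
  · rw [hk]
    refine h.dl.trans ?_
    have := Real.pi_gt_three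
    linarith
  · rw [hk]
    refine lt_of_lt_of_le h.main ?_
    change P.DD + (Real.sqrt ((P.X - P.Y) * (P.X + P.Y)) +
        Real.sqrt (P.q8 1 * P.q8 (-1) * (P.q9 1 * P.q9 (-1)))) / 2 +
      (Real.sqrt (P.q2 1 * P.q2 (-1) * (P.q3 1 * P.q3 (-1))) +
        Real.sqrt (P.q4 1 * P.q4 (-1) * (P.q5 1 * P.q5 (-1)))) ≤
      (Ls 1 P.x (P.ent 0 0) * Ls (-1) P.x (P.ent 0 0)) +
      (Real.sqrt ((Ls 1 P.x (P.ent 1 1) * Ls (-1) P.x (P.ent 1 1)) *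
        (Ls 1 P.x (P.ent 2 2) * Ls (-1) P.x (P.ent 2 2))) +
        Real.sqrt ((Ls 1 P.x (P.ent 1 2) * Ls (-1) P.x (P.ent 1 2)) *
        (Ls 1 P.x (P.ent 2 1) * Ls (-1) P.x (P.ent 2 1)))) / 2 +
      Real.sqrt ((Ls 1 P.x (P.ent 0 1) * Ls (-1) P.x (P.ent 0 1)) *
        (Ls 1 P.x (P.ent 0 2) * Ls (-1) P.x (P.ent 0 2))) +
      Real.sqrt ((Ls 1 P.x (P.ent 1 0) * Ls (-1) P.x (P.ent 1 0)) *
        (Ls 1 P.x (P.ent 2 0) * Ls (-1) P.x (P.ent 2 0)))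
    rw [hDD, ← N12, ← Nbc]
    have h1 := Real.sqrt_le_sqrt N01
    have h2 := Real.sqrt_le_sqrt N10
    linarith

end Pool.Agent.Work.MP_88b7aa_gt.CH
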