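import Pool.Agent.Work.MP_88b7aa_gt.CH.FrR

/-!
# Normalising the phases of the polar vectors; complex conjugation.  Size: S-M.

PROOF of `Nrm`.  Let `c0 = cos (π/q)`, `c1 = cos (π/p)`, `c2 = cos (π/r)`, all `> 0` (`p, q, r ≥ 3`).  Write
`⟨n 0, n 1⟩ = -c0 e^{iβ0}`, `⟨n 1, n 2⟩ = -c1 e^{iβ1}`, `⟨n 2, n 0⟩ = -c2 e^{iβ2}` (moduli known); by `hT.angle`
`e^{i(β0+β1+β2)} = e^{iθ}`.  Put `ω0 = 1`, `ω1 = e^{i(β0 - θ/3)}`, `ω2 = ω1 e^{i(β1 - θ/3)}` and `n' i = ω i • n i`.  Then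
`⟨n' 0, n' 1⟩ = conj ω1 (-c0 e^{iβ0}) = -c0 e^{iθ/3}`, `⟨n' 1, n' 2⟩ = ω1 conj ω2 (-c1 e^{iβ1}) = -c1 e^{iθ/3}`,
`⟨n' 2, n' 0⟩ = ω2 (-c2 e^{iβ2}) = -c2 e^{i(β0+β1+β2-2θ/3)} = -c2 e^{iθ/3}`; with `t = θ/2`, `θ/3 = 2t/3`; and
`cos (2 * ang p q r e)` is `cos (π/q), cos (π/p), cos (π/r)` for `e = 0, 1, 2`.  `refl_smul` gives the last claim.
`tri_conj`: `herm (cj z) (cj w) = conj (herm z w)`.
`DF_conj`: `refl (cj n) = (refl n).map conj`; given `ρ` for `cj ∘ n` take `g ↦ (ρ g).map conj`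
(a monoid homomorphism, entrywise ring homomorphism: `RingHom.mapMatrix (starRingEnd ℂ)`), `‖conj w‖ = ‖w‖`, replace `μ` by `conj μ`.
-/

namespace Pool.Agent.Work.MP_88b7aa_gt.CH

open ComplexConjugate Complex

private lemma herm_sl (a : ℂ) (z w : Fin 3 → ℂ) : herm (a • z) w = a * herm z w := by
  simp only [herm, Pi.smul_apply, smul_eq_mul]
  ring

private lemma herm_sr (a : ℂ) (z w : Fin 3 → ℂ) : herm z (a • w) = conj a * herm z w := by
  simp only [herm, Pi.smul_apply, smul_eq_mul, map_mul]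
  ring

private lemma unit_mul {u : ℂ} (hu : ‖u‖ = 1) : u * conj u = 1 := by
  rw [Complex.mul_conj', hu]
  norm_num

private lemma cos_pos3 {p : ℕ} (hp : 3 ≤ p) : 0 < Real.cos (Real.pi / p) := by
  have h3 : (3 : ℝ) ≤ p := by exact_mod_cast hp
  have hpi := Real.pi_pos
  apply Real.cos_pos_of_mem_Ioo
  constructor
  · have : 0 < Real.pi / p := by positivity
    linarith
  · rw [div_lt_div_iff₀ (by linarith) (by norm_num)]
    nlinarith

private lemma two_ang (m : ℕ) : 2 * (Real.pi / (2 * m)) = Real.pi / m := by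
  rcases Nat.eq_zero_or_pos m with rfl | hm
  · simp
  · field_simp

theorem Nrm (p q r : ℕ) (hp : 3 ≤ p) (hq : 3 ≤ q) (hr : 3 ≤ r) (θ : ℝ) (n : Fin 3 → Fin 3 → ℂ)
    (hT : IsTriangle p q r θ n) :
    ∃ n' : Fin 3 → Fin 3 → ℂ, NTri (ang p q r) (θ / 2) n' ∧ ∀ i, refl (n' i) = refl (n i) := by
  have c0 := cos_pos3 hq
  have c1 := cos_pos3 hp
  have c2 := cos_pos3 hr
  set d0 : ℝ := Real.cos (Real.pi / q) with hd0
  set d1 : ℝ := Real.cos (Real.pi / p) with hd1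
  set d2 : ℝ := Real.cos (Real.pi / r) with hd2
  have e0 : (d0 : ℂ) ≠ 0 := by exact_mod_cast c0.ne'
  have e1 : (d1 : ℂ) ≠ 0 := by exact_mod_cast c1.ne'
  have e2 : (d2 : ℂ) ≠ 0 := by exact_mod_cast c2.ne'
  set E : ℂ := exp ((θ / 3 : ℝ) * I) with hE
  have hE1 : ‖E‖ = 1 := Complex.norm_exp_ofReal_mul_I _
  have hE0 : E ≠ 0 := Complex.exp_ne_zero _
  have hE3 : E ^ 3 = exp (θ * I) := by
    rw [hE, ← Complex.exp_nat_mul]
    congr 1
    push_cast
    ring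
  set h0 : ℂ := -(herm (n 0) (n 1) / d0) with hh0
  set h1 : ℂ := -(herm (n 1) (n 2) / d1) with hh1
  set h2 : ℂ := -(herm (n 2) (n 0) / d2) with hh2
  have n0 : ‖h0‖ = 1 := by
    rw [hh0, norm_neg, norm_div, hT.h12, Complex.norm_real, Real.norm_of_nonneg c0.le]
    exact div_self c0.ne'
  have n1 : ‖h1‖ = 1 := by
    rw [hh1, norm_neg, norm_div, hT.h23, Complex.norm_real, Real.norm_of_nonneg c1.le]
    exact div_self c1.ne'
  have g0 : herm (n 0) (n 1) = -(d0 * h0) := by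
    rw [hh0]; field_simp
  have g1 : herm (n 1) (n 2) = -(d1 * h1) := by
    rw [hh1]; field_simp
  have g2 : herm (n 2) (n 0) = -(d2 * h2) := by
    rw [hh2]; field_simp
  have hprod : h0 * h1 * h2 = E ^ 3 := by
    have := hT.angle
    rw [g0, g1, g2, ← hd1, ← hd0, ← hd2, ← hE3] at this
    push_cast at this
    have h4 : (d0 : ℂ) * d1 * d2 ≠ 0 := mul_ne_zero (mul_ne_zero e0 e1) e2
    apply mul_left_cancel₀ h4
    linear_combination -this
  have hEc : E * conj E = 1 := unit_mul hE1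
  obtain ⟨w1, hw1⟩ : ∃ w, w = h0 * conj E := ⟨_, rfl⟩
  obtain ⟨w2, hw2⟩ : ∃ w, w = w1 * (h1 * conj E) := ⟨_, rfl⟩
  have nE : ‖(conj E : ℂ)‖ = 1 := by rw [Complex.norm_conj, hE1]
  have nw1 : ‖w1‖ = 1 := by rw [hw1, norm_mul, n0, nE, one_mul]
  have nw2 : ‖w2‖ = 1 := by rw [hw2, norm_mul, nw1, norm_mul, n1, nE, one_mul, one_mul]
  have u0 := unit_mul n0
  have u1 := unit_mul n1
  have v1 := unit_mul nw1
  have v2 := unit_mul nw2
  have hang : exp ((2 * (θ / 2) / 3 : ℝ) * I) = E := by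
    rw [hE]
    congr 3
    ring
  refine ⟨![n 0, w1 • n 1, w2 • n 2], ⟨?_, ?_⟩, ?_⟩
  · intro i
    fin_cases i
    · exact hT.unit 0
    · change herm (w1 • n 1) (w1 • n 1) = 1
      rw [herm_sl, herm_sr, hT.unit 1, mul_one]
      exact v1
    · change herm (w2 • n 2) (w2 • n 2) = 1
      rw [herm_sl, herm_sr, hT.unit 2, mul_one]
      exact v2
  · intro i
    rw [hang]
    fin_cases i
    · change herm (n 0) (w1 • n 1) = -(Real.cos (2 * (Real.pi / (2 * q))) : ℂ) * E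
      rw [two_ang, herm_sr, g0, hw1, map_mul, Complex.conj_conj, ← hd0]
      linear_combination (-(d0 : ℂ) * E) * u0
    · change herm (w1 • n 1) (w2 • n 2) = -(Real.cos (2 * (Real.pi / (2 * p))) : ℂ) * E
      rw [two_ang, herm_sl, herm_sr, g1, hw2, map_mul, map_mul, Complex.conj_conj, ← hd1]
      linear_combination (-(d1 : ℂ) * E * (h1 * conj h1)) * v1 + (-(d1 : ℂ) * E) * u1
    · change herm (w2 • n 2) (n 0) = -(Real.cos (2 * (Real.pi / (2 * r))) : ℂ) * E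
      rw [two_ang, herm_sl, g2, hw2, hw1, ← hd2]
      have hcE : conj E * E = 1 := by rw [mul_comm]; exact hEc
      have : h0 * conj E * (h1 * conj E) * -(d2 * h2) = -(d2 : ℂ) * (conj E) ^ 2 * (h0 * h1 * h2) := by
        ring
      rw [this, hprod]
      linear_combination (-(d2 : ℂ) * E * (conj E * E + 1)) * hcE
  · intro i
    fin_cases i
    · rfl
    · exact refl_smul w1 nw1 (n 1)
    · exact refl_smul w2 nw2 (n 2)

theorem tri_conj (p q r : ℕ) (θ : ℝ) (n : Fin 3 → Fin 3 → ℂ) (hT : IsTriangle p q r θ n) :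
    IsTriangle p q r (-θ) (fun i => cj (n i)) := by
  have hc : ∀ z w : Fin 3 → ℂ, herm (cj z) (cj w) = conj (herm z w) := by
    intro z w
    simp only [herm, cj, map_add, map_sub, map_mul]
  refine ⟨?_, ?_, ?_, ?_, ?_⟩
  · intro i
    rw [hc, hT.unit i, map_one]
  · rw [hc, Complex.norm_conj]
    exact hT.h23
  · rw [hc, Complex.norm_conj]
    exact hT.h12
  · rw [hc, Complex.norm_conj]
    exact hT.h31
  · rw [hc, hc, hc, ← map_mul, ← map_mul, hT.angle, map_mul, map_neg, Complex.conj_ofReal,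
      ← Complex.exp_conj, map_mul, Complex.conj_ofReal, Complex.conj_I]
    congr 2
    push_cast
    ring

theorem DF_conj (M : CoxeterMatrix (Fin 3)) (n : Fin 3 → Fin 3 → ℂ) (h : DF M (fun i => cj (n i))) : DF M n := by
  obtain ⟨ρ, hρ, ε, hε, hb⟩ := h
  refine ⟨(RingHom.mapMatrix (starRingEnd ℂ) :
    Matrix (Fin 3) (Fin 3) ℂ →+* Matrix (Fin 3) (Fin 3) ℂ).toMonoidHom.comp ρ, ?_, ε, hε, ?_⟩
  · intro i
    change (ρ (M.simple i)).map (starRingEnd ℂ) = _
    rw [hρ i]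
    ext a b
    rw [Matrix.map_apply]
    simp only [refl, cj, map_sub, map_mul, apply_ite (starRingEnd ℂ), map_neg, Complex.conj_conj,
      map_one, map_zero]
    congr 3
    exact Complex.conj_ofNat 2
  · intro g hg μ hμ
    obtain ⟨i, j, hij⟩ := hb g hg (conj μ) (by rw [Complex.norm_conj, hμ])
    refine ⟨i, j, ?_⟩
    change ε ≤ ‖(ρ g).map (starRingEnd ℂ) i j - (if i = j then μ else 0)‖
    rw [Matrix.map_apply]
    have : conj (ρ g i j) - (if i = j then μ else 0) = conj (ρ g i j - (if i = j then conj μ else 0)) := by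
      rw [map_sub]
      congr 1
      split_ifs
      · rw [Complex.conj_conj]
      · rw [map_zero]
    rw [this, Complex.norm_conj]
    exact hij

/-- `DF` depends only on the reflections. -/
theorem DF_congr (M : CoxeterMatrix (Fin 3)) (n n' : Fin 3 → Fin 3 → ℂ) (hr : ∀ i, refl (n' i) = refl (n i))
    (h : DF M n') : DF M n := by
  obtain ⟨ρ, hρ, hb⟩ := h
  exact ⟨ρ, fun i => (hρ i).trans (hr i), hb⟩

end Pool.Agent.Work.MP_88b7aa_gt.CH
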