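import Pool.Agent.Work.MP_88b7aa_gt.CH.Defs

/-!
# Complex hyperbolic triangle groups: the auxiliary objects

Indices: vertex `e` joins the mirrors of `n e` and `n (e+1)`, its half angle is `α e` (`⟨n e, n (e+1)⟩ = - cos (2 α e) ...`);
edge `i` (the mirror of `n i`) has the end points `i` and `i+2` (`= i-1`); the opposite vertex is `i+1`.
-/

namespace Pool.Agent.Work.MP_88b7aa_gt.CH

open ComplexConjugate Complex

/-- The square root with positive real part (used for numbers of positive real part). -/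
noncomputable def sq (u : ℂ) : ℂ := u ^ ((2 : ℂ)⁻¹)

/-- The denominator of `Phi`. -/
noncomputable def den (c : Fin 3 → ℂ) : ℂ := c 2 * sq (1 - (c 0 / c 2) ^ 2 - (c 1 / c 2) ^ 2)

/-- The rotation function at a vertex, in the coordinates of the vertex. -/
noncomputable def Phi (c : Fin 3 → ℂ) : ℂ := ⟨(c 1 / den c).re, (c 0 / den c).re⟩

/-- The vector is negative. -/
def Neg (z : Fin 3 → ℂ) : Prop := (herm z z).re < 0

/-- The matrix of the form. -/
def Jm : Matrix (Fin 3) (Fin 3) ℂ := Matrix.diagonal ![1, 1, -1]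

/-- `J + 2 X Xᵀ`. -/
def Gm (X : Fin 3 → ℝ) : Matrix (Fin 3) (Fin 3) ℂ :=
  Jm + (2 : ℂ) • Matrix.of (fun i j => ((X i * X j : ℝ) : ℂ))

/-- Entrywise conjugate. -/
def cj (c : Fin 3 → ℂ) : Fin 3 → ℂ := fun i => conj (c i)

/-- `⟨z, cr u w⟩ = det (z, u, w)`. -/
def cr (u w : Fin 3 → ℂ) : Fin 3 → ℂ :=
  ![conj (u 1 * w 2 - u 2 * w 1), conj (u 2 * w 0 - u 0 * w 2), -conj (u 0 * w 1 - u 1 * w 0)]

/-- The determinant of the three polar vectors. -/
noncomputable def Dt (n : Fin 3 → Fin 3 → ℂ) : ℂ := Matrix.det (Matrix.of n)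

/-- A normalised triangle with half angles `α` and parameter `t = θ / 2`. -/
structure NTri (α : Fin 3 → ℝ) (t : ℝ) (n : Fin 3 → Fin 3 → ℂ) : Prop where
  unit : ∀ i, herm (n i) (n i) = 1
  ang : ∀ i, herm (n i) (n (i + 1)) = -(Real.cos (2 * α i) : ℂ) * exp ((2 * t / 3 : ℝ) * I)

/-- The two polar vectors at vertex `e`, with phases such that `⟨N1, N2⟩ = - cos (2 α e)`. -/
noncomputable def N1 (t : ℝ) (n : Fin 3 → Fin 3 → ℂ) (e : Fin 3) : Fin 3 → ℂ := exp ((-t / 3 : ℝ) * I) • n e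

noncomputable def N2 (t : ℝ) (n : Fin 3 → Fin 3 → ℂ) (e : Fin 3) : Fin 3 → ℂ := exp ((t / 3 : ℝ) * I) • n (e + 1)

/-- The vertex vector, `⟨vv, vv⟩ = -1`. -/
noncomputable def vv (α ψ : Fin 3 → ℝ) (n : Fin 3 → Fin 3 → ℂ) (e : Fin 3) : Fin 3 → ℂ :=
  (exp ((ψ e : ℝ) * I) * (Dt n / (‖Dt n‖ : ℂ)) / (Real.sin (2 * α e) : ℂ)) • cr (n e) (n (e + 1))

/-- The coordinates of `z` in the two orthonormal frames of vertex `e`. -/
noncomputable def coef1 (α ψ : Fin 3 → ℝ) (t : ℝ) (n : Fin 3 → Fin 3 → ℂ) (e : Fin 3) (z : Fin 3 → ℂ) : Fin 3 → ℂ :=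
  ![herm z (N1 t n e), (herm z (N2 t n e) + Real.cos (2 * α e) * herm z (N1 t n e)) / Real.sin (2 * α e),
    -herm z (vv α ψ n e)]

noncomputable def coef2 (α ψ : Fin 3 → ℝ) (t : ℝ) (n : Fin 3 → Fin 3 → ℂ) (e : Fin 3) (z : Fin 3 → ℂ) : Fin 3 → ℂ :=
  ![herm z (N2 t n e), (herm z (N1 t n e) + Real.cos (2 * α e) * herm z (N2 t n e)) / Real.sin (2 * α e),
    -herm z (vv α ψ n e)]

/-- The rotation functions: `phi i (i+1)` from the first frame of vertex `i`, `phi (i+1) i` from its second frame. -/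
noncomputable def phi (α ψ : Fin 3 → ℝ) (t : ℝ) (n : Fin 3 → Fin 3 → ℂ) (i j : Fin 3) (z : Fin 3 → ℂ) : ℂ :=
  if j = i + 1 then Phi (coef1 α ψ t n i z) else Phi (coef2 α ψ t n j z)

/-- The transition matrix of an edge; `S = √(H² - 1)`. -/
noncomputable def edgeM (k σ η H : ℝ) : Matrix (Fin 3) (Fin 3) ℂ :=
  !![exp ((-k : ℝ) * I), 0, 0;
     0, -(H : ℂ) * exp ((σ : ℝ) * I), (Real.sqrt (H ^ 2 - 1) : ℂ) * exp ((-η : ℝ) * I);
     0, (Real.sqrt (H ^ 2 - 1) : ℂ) * exp ((η : ℝ) * I), -(H : ℂ) * exp ((-σ : ℝ) * I)]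

/-- `Re (e^{ix} u) + s Im (e^{ix} u)`. -/
noncomputable def Ls (s x : ℝ) (u : ℂ) : ℝ := (exp ((x : ℝ) * I) * u).re + s * (exp ((x : ℝ) * I) * u).im

/-- The nine entries (up to sign) of the transition matrix in the adapted bases. -/
noncomputable def ent (νA νB k σ η H : ℝ) : Fin 3 → Fin 3 → ℂ :=
  let a : ℂ := Real.cos νA
  let b : ℂ := Real.cos νB
  let sa : ℂ := Real.sin νA
  let sb : ℂ := Real.sin νB
  let S : ℂ := Real.sqrt (H ^ 2 - 1)
  let ek := exp ((-k : ℝ) * I)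
  let es := exp ((σ : ℝ) * I)
  let es' := exp ((-σ : ℝ) * I)
  let ee := exp ((η : ℝ) * I)
  let ee' := exp ((-η : ℝ) * I)
  ![![a * b * ek + H * sa * sb * es,
      sa * (S * ee' - b * H * es) + a * sb * ek,
      sa * (S * ee' + b * H * es) - a * sb * ek],
    ![sb * (S * ee - a * H * es) + sa * b * ek,
      H * es' + a * b * H * es + sa * sb * ek - S * (b * ee + a * ee'),
      H * es' - a * b * H * es - sa * sb * ek - S * (a * ee' - b * ee)],
    ![sb * (S * ee + a * H * es) - sa * b * ek,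
      H * es' - a * b * H * es - sa * sb * ek + S * (a * ee' - b * ee),
      H * es' + a * b * H * es + sa * sb * ek + S * (b * ee + a * ee')]]

/-- product of the two linear forms of an entry -/
noncomputable def NN (νA νB k σ η H x : ℝ) (i j : Fin 3) : ℝ :=
  Ls 1 x (ent νA νB k σ η H i j) * Ls (-1) x (ent νA νB k σ η H i j)

/-- The numerical condition on an edge. -/
structure EdgeGood (νA νB k σ η H x : ℝ) : Prop where
  hH : 1 < H
  cA : 0 < Real.cos (σ - η)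
  cB : 0 < Real.cos (σ + η)
  pos : ∀ i j, 0 < Ls 1 x (ent νA νB k σ η H i j) ∧ 0 < Ls (-1) x (ent νA νB k σ η H i j)
  hx : |2 * x - 2 * k / 3| ≤ Real.pi / 3
  main : 3 * Real.cos (2 * x - 2 * k / 3) <
    NN νA νB k σ η H x 0 0 +
    (Real.sqrt (NN νA νB k σ η H x 1 1 * NN νA νB k σ η H x 2 2) +
      Real.sqrt (NN νA νB k σ η H x 1 2 * NN νA νB k σ η H x 2 1)) / 2 +
    Real.sqrt (NN νA νB k σ η H x 0 1 * NN νA νB k σ η H x 0 2) +
    Real.sqrt (NN νA νB k σ η H x 1 0 * NN νA νB k σ η H x 2 0)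

/-- The half angles of the `(p,q,r)` triangle: vertex `0` has label `q`, vertex `1` label `p`, vertex `2` label `r`. -/
noncomputable def ang (p q r : ℕ) : Fin 3 → ℝ := ![Real.pi / (2 * q), Real.pi / (2 * p), Real.pi / (2 * r)]

/-- `Y_i`, `H_i`, `ε_e`, `τ_i`. -/
noncomputable def Yv (α : Fin 3 → ℝ) (t : ℝ) (i : Fin 3) : ℂ :=
  (Real.cos (2 * α i) * Real.cos (2 * α (i + 2)) : ℝ) * exp ((-t : ℝ) * I) +
    (Real.cos (2 * α (i + 1)) : ℝ) * exp ((t : ℝ) * I)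

noncomputable def Hv (α : Fin 3 → ℝ) (t : ℝ) (i : Fin 3) : ℝ :=
  ‖Yv α t i‖ / (Real.sin (2 * α i) * Real.sin (2 * α (i + 2)))

/-- `(1 + A²) cos 2t + A (2 + (B - C)² / (B C))`. -/
noncomputable def denr (A B C t : ℝ) : ℝ := (1 + A ^ 2) * Real.cos (2 * t) + A * (2 + (B - C) ^ 2 * (B * C)⁻¹)

noncomputable def epsr (A B C t : ℝ) : ℝ := Real.arctan ((1 - A ^ 2) * (Real.sin (2 * t) * (denr A B C t)⁻¹)) / 2

noncomputable def denv (α : Fin 3 → ℝ) (t : ℝ) (e : Fin 3) : ℝ :=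
  denr (Real.cos (2 * α e)) (Real.cos (2 * α (e + 1))) (Real.cos (2 * α (e + 2))) t

noncomputable def epsv (α : Fin 3 → ℝ) (t : ℝ) (e : Fin 3) : ℝ :=
  epsr (Real.cos (2 * α e)) (Real.cos (2 * α (e + 1))) (Real.cos (2 * α (e + 2))) t

noncomputable def tauv (α : Fin 3 → ℝ) (t : ℝ) (i : Fin 3) : ℝ :=
  epsv α t i + epsv α t (i + 2) - epsv α t (i + 1)

/-- All three edges are good for suitable thresholds `l e * α e`, distributions `c` and rotations `x`. -/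
def TriGood (α : Fin 3 → ℝ) (t : ℝ) : Prop :=
  (∀ e, 0 < denv α t e) ∧ ∃ c l x : Fin 3 → ℝ, (∀ e, 0 < l e ∧ l e ≤ 1) ∧
    ∀ i, EdgeGood (l i * α i) (l (i + 2) * α (i + 2))
      (t + tauv α t i - (c i * epsv α t i + (2 - c (i + 2)) * epsv α t (i + 2)) / 2)
      ((c i * epsv α t i + (2 - c (i + 2)) * epsv α t (i + 2)) / 2)
      (((2 - c (i + 2)) * epsv α t (i + 2) - c i * epsv α t i) / 2)
      (Hv α t i) (x i)

end Pool.Agent.Work.MP_88b7aa_gt.CH
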