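import Mathlib

/-!
# Ping-pong for Coxeter groups of rank three: definitions
-/

namespace Pool.Agent.Work.MP_88b7aa_gt.CH

open ComplexConjugate Complex

variable {W : Type*} [Group W] {M : CoxeterMatrix (Fin 3)}

/-- `s_i s_j s_i ⋯` (`m` factors). -/
def alt (cs : CoxeterSystem M W) : Fin 3 → Fin 3 → ℕ → W
  | _, _, 0 => 1
  | i, j, m + 1 => cs.simple i * alt cs j i m

/-- Rotation functions `φ i j` and thresholds `ν i j`. -/
structure PPHyp (cs : CoxeterSystem M W) {X : Type*} (act : W → X → X) (φ : Fin 3 → Fin 3 → X → ℂ)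
    (ν : Fin 3 → Fin 3 → ℝ) : Prop where
  act_one : ∀ x, act 1 x = x
  act_mul : ∀ g h x, act (g * h) x = act g (act h x)
  m3 : ∀ i j, i ≠ j → 3 ≤ M i j
  nsymm : ∀ i j, ν i j = ν j i
  npos : ∀ i j, i ≠ j → 0 < ν i j
  nle : ∀ i j, i ≠ j → ν i j ≤ Real.pi / (2 * M i j)
  flip : ∀ i j x, i ≠ j → φ i j (act (cs.simple i) x) = conj (φ i j x)
  swap : ∀ i j x, i ≠ j → φ j i x = exp ((Real.pi / M i j : ℝ) * I) * conj (φ i j x)
  hs : ∀ i j k x, i ≠ j → i ≠ k → j ≠ k → 0 < (exp ((-ν i k : ℝ) * I) * φ i k x).im →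
    0 < (exp ((ν i j : ℝ) * I) * φ i j x).im

/-- The open set of the ping-pong: both rotation functions of `0` lie in the open sector of half angle `ν`. -/
def InA {X : Type*} (φ : Fin 3 → Fin 3 → X → ℂ) (ν : Fin 3 → Fin 3 → ℝ) (x : X) : Prop :=
  ∀ j, j ≠ 0 → 0 < (exp ((ν 0 j : ℝ) * I) * φ 0 j x).im ∧ (exp ((-ν 0 j : ℝ) * I) * φ 0 j x).im < 0

end Pool.Agent.Work.MP_88b7aa_gt.CH
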