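import Pool.Agent.Work.MP_88b7aa_gt.CH.PhiM
import Pool.Agent.Work.MP_88b7aa_gt.CH.FrN
import Pool.Agent.Work.MP_88b7aa_gt.CH.PP

/-!
# The ping-pong set is open and invariant under scalars.  Size: S-M.

PROOF.  `coef1 (l • z) = l • coef1 z` (`herm_smul_left`), so `phi_smul` follows from `Phi_smul`.
`z ↦ coef1 z`, `z ↦ coef2 z` are continuous (polynomials in `z`), and map negative vectors to negative vectors (`coef1_norm`,
`coef2_norm`), so `phi_cont` follows from `Phi_cont` (split the `if`).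
`SetA_open`: `isOpen_iff_mem_nhds`: at a point `z` of the set, `Neg` is an open condition (`herm z z` is continuous) and each of the finitely
many strict inequalities holds in a neighbourhood (`ContinuousAt.eventually`, `Filter.eventually_all`).
`SetA_smul`: `phi_smul`, `herm (μ • z) (μ • z) = ‖μ‖² herm z z`.
-/

namespace Pool.Agent.Work.MP_88b7aa_gt.CH

open ComplexConjugate Complex

/-- The threshold of the vertex joining `i` and `j`. -/
def nuf (ν : Fin 3 → ℝ) (i j : Fin 3) : ℝ := if j = i + 1 then ν i else ν j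

/-- The ping-pong set. -/
def SetA (α ψ : Fin 3 → ℝ) (t : ℝ) (n : Fin 3 → Fin 3 → ℂ) (ν : Fin 3 → ℝ) : Set (Fin 3 → ℂ) :=
  {z | Neg z ∧ InA (phi α ψ t n) (nuf ν) z}

private theorem opn_herm_smul (l : ℂ) (z w : Fin 3 → ℂ) : herm (l • z) w = l * herm z w := by
  simp only [herm, Pi.smul_apply, smul_eq_mul]
  ring

private theorem opn_coef1_smul (α ψ : Fin 3 → ℝ) (t : ℝ) (n : Fin 3 → Fin 3 → ℂ) (e : Fin 3) (l : ℂ)
    (z : Fin 3 → ℂ) : coef1 α ψ t n e (l • z) = l • coef1 α ψ t n e z := by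
  simp only [coef1, opn_herm_smul]
  ext i
  fin_cases i
  · simp
  · simp only [Fin.mk_one, Matrix.cons_val_one, Matrix.cons_val_zero, Pi.smul_apply, smul_eq_mul]
    ring
  · simp

private theorem opn_coef2_smul (α ψ : Fin 3 → ℝ) (t : ℝ) (n : Fin 3 → Fin 3 → ℂ) (e : Fin 3) (l : ℂ)
    (z : Fin 3 → ℂ) : coef2 α ψ t n e (l • z) = l • coef2 α ψ t n e z := by
  simp only [coef2, opn_herm_smul]
  ext i
  fin_cases i
  · simp
  · simp only [Fin.mk_one, Matrix.cons_val_one, Matrix.cons_val_zero, Pi.smul_apply, smul_eq_mul]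
    ring
  · simp

private theorem opn_herm_cont (w : Fin 3 → ℂ) : Continuous fun z : Fin 3 → ℂ => herm z w := by
  unfold herm
  fun_prop

private theorem opn_coef1_cont (α ψ : Fin 3 → ℝ) (t : ℝ) (n : Fin 3 → Fin 3 → ℂ) (e : Fin 3) :
    Continuous (coef1 α ψ t n e) := by
  refine continuous_pi fun i => ?_
  fin_cases i
  · exact opn_herm_cont _
  · exact ((opn_herm_cont _).add (continuous_const.mul (opn_herm_cont _))).div_const _
  · exact (opn_herm_cont _).neg

private theorem opn_coef2_cont (α ψ : Fin 3 → ℝ) (t : ℝ) (n : Fin 3 → Fin 3 → ℂ) (e : Fin 3) :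
    Continuous (coef2 α ψ t n e) := by
  refine continuous_pi fun i => ?_
  fin_cases i
  · exact opn_herm_cont _
  · exact ((opn_herm_cont _).add (continuous_const.mul (opn_herm_cont _))).div_const _
  · exact (opn_herm_cont _).neg

private theorem opn_neg_cont : Continuous fun z : Fin 3 → ℂ => (herm z z).re := by
  unfold herm
  fun_prop

theorem phi_smul (α ψ : Fin 3 → ℝ) (t : ℝ) (n : Fin 3 → Fin 3 → ℂ) (i j : Fin 3) (l : ℂ) (hl : l ≠ 0)
    (z : Fin 3 → ℂ) : phi α ψ t n i j (l • z) = phi α ψ t n i j z := by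
  unfold phi
  split_ifs
  · rw [opn_coef1_smul, Phi_smul l hl]
  · rw [opn_coef2_smul, Phi_smul l hl]

theorem phi_cont (α ψ : Fin 3 → ℝ) (t : ℝ) (n : Fin 3 → Fin 3 → ℂ) (hn : NTri α t n)
    (hs : ∀ e, 0 < Real.sin (2 * α e)) (hD : Dt n ≠ 0) (i j : Fin 3) (z : Fin 3 → ℂ) (hz : Neg z) :
    ContinuousAt (phi α ψ t n i j) z := by
  by_cases hij : j = i + 1
  · have e : phi α ψ t n i j = Phi ∘ coef1 α ψ t n i := by
      funext w
      simp only [phi, hij, if_true, Function.comp]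
    rw [e]
    refine ContinuousAt.comp (Phi_cont _ ?_) (opn_coef1_cont α ψ t n i).continuousAt
    unfold Neg
    rw [coef1_norm α ψ t n hn hs hD]
    exact hz
  · have e : phi α ψ t n i j = Phi ∘ coef2 α ψ t n j := by
      funext w
      simp only [phi, hij, if_false, Function.comp]
    rw [e]
    refine ContinuousAt.comp (Phi_cont _ ?_) (opn_coef2_cont α ψ t n j).continuousAt
    unfold Neg
    rw [coef2_norm α ψ t n hn hs hD]
    exact hz

theorem SetA_open (α ψ : Fin 3 → ℝ) (t : ℝ) (n : Fin 3 → Fin 3 → ℂ) (hn : NTri α t n)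
    (hs : ∀ e, 0 < Real.sin (2 * α e)) (hD : Dt n ≠ 0) (ν : Fin 3 → ℝ) : IsOpen (SetA α ψ t n ν) := by
  rw [isOpen_iff_mem_nhds]
  rintro z ⟨hz, hA⟩
  have h1 : ∀ᶠ w in nhds z, Neg w := by
    have := opn_neg_cont.continuousAt.eventually (gt_mem_nhds hz)
    exact this
  have h2 : ∀ᶠ w in nhds z, InA (phi α ψ t n) (nuf ν) w := by
    unfold InA
    rw [Filter.eventually_all]
    intro j
    by_cases hj : j = 0
    · exact Filter.Eventually.of_forall fun w h => absurd hj h
    · obtain ⟨ha, hb⟩ := hA j hj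
      have hc := phi_cont α ψ t n hn hs hD 0 j z hz
      have c1 : ContinuousAt (fun w => (exp ((nuf ν 0 j : ℝ) * I) * phi α ψ t n 0 j w).im) z :=
        Complex.continuous_im.continuousAt.comp (continuousAt_const.mul hc)
      have c2 : ContinuousAt (fun w => (exp ((-nuf ν 0 j : ℝ) * I) * phi α ψ t n 0 j w).im) z :=
        Complex.continuous_im.continuousAt.comp (continuousAt_const.mul hc)
      have e1 := c1.eventually (lt_mem_nhds ha)
      have e2 := c2.eventually (gt_mem_nhds hb)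
      filter_upwards [e1, e2] with w hw1 hw2 _
      exact ⟨hw1, hw2⟩
  filter_upwards [h1, h2] with w hw1 hw2
  exact ⟨hw1, hw2⟩

theorem SetA_smul (α ψ : Fin 3 → ℝ) (t : ℝ) (n : Fin 3 → Fin 3 → ℂ) (ν : Fin 3 → ℝ) (μ : ℂ) (hμ : ‖μ‖ = 1)
    (z : Fin 3 → ℂ) (hz : z ∈ SetA α ψ t n ν) : μ • z ∈ SetA α ψ t n ν := by
  have hμ0 : μ ≠ 0 := by
    rintro rfl
    rw [norm_zero] at hμ
    exact zero_ne_one hμ
  obtain ⟨h1, h2⟩ := hz
  refine ⟨?_, ?_⟩
  · unfold Neg at h1 ⊢
    have e : herm (μ • z) (μ • z) = herm z z := by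
      have h3 : μ * conj μ = 1 := by
        rw [Complex.mul_conj, Complex.normSq_eq_norm_sq, hμ]
        norm_num
      simp only [herm, Pi.smul_apply, smul_eq_mul, map_mul]
      linear_combination (z 0 * conj (z 0) + z 1 * conj (z 1) - z 2 * conj (z 2)) * h3
    rw [e]
    exact h1
  · intro j hj
    rw [phi_smul α ψ t n 0 j μ hμ0]
    exact h2 j hj

end Pool.Agent.Work.MP_88b7aa_gt.CH
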