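import Pool.Agent.Work.MP_88b7aa_gt.CH.Opn
import Pool.Agent.Work.MP_88b7aa_gt.CH.FrR
import Pool.Agent.Work.MP_88b7aa_gt.CH.FrE
import Pool.Agent.Work.MP_88b7aa_gt.CH.Hsl

/-!
# The ping-pong hypotheses hold.  Size: M.

Let `α = ang p q r`, `M = mcox p q r`: `M i (i+1)` is the label of vertex `i` and `2 * α i = π / M i (i+1)`; `0 < α i ≤ π/6`, so
`0 < sin (2 α i)`.
PROOF.  For `i ≠ j` in `Fin 3` either `j = i + 1` or `i = j + 1` (and not both).
`act_one`, `act_mul`: `map_one`, `map_mul`, `Matrix.mulVec_mulVec`.  `m3`: `hp, hq, hr`.  `nsymm, npos, nle`: case distinction, `hν`.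
`flip`: `j = i+1`: `phi i j z = Phi (coef1 i z)`, `coef1_refl`, `Phi_flip`; `i = j + 1`: `phi i j z = Phi (coef2 j z)` and
`coef2_refl` (`refl (n (j+1)) = refl (n i)`), `Phi_flip`; `ρ (simple i) = refl (n i)`, `M.toCoxeterSystem.simple = M.simple`
(`CoxeterMatrix.toCoxeterSystem_simple` or `rfl`).
`swap`: `j = i+1`: `phi j i z = Phi (coef2 i z)`, `coef2_eq` and `Phi_swap` with `δ = 2 α i = π / M i j`.  `i = j+1`:
`phi i j z = Phi (coef2 j z) = e^{iδ} conj (phi j i z)`, so `phi j i z = e^{iδ} conj (phi i j z)`.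
`hs i j k`: two cases.
 (a) `k = i + 1`, `j = i + 2`.  `phi i k z = Phi (coef1 i z)`, `phi i j z = Phi (coef2 j z)` (`i = j + 1`), thresholds `ν i`, `ν j = ν (i+2)`.
 By `FrE`, `coef2 (i+2) z = ω • (J Mᵀ) coef1 i z`.  If `Im (e^{iν j} phi i j z) ≤ 0`, `Hsl` with `c = coef1 i z` (negative by `coef1_norm`)
 gives `False`.
 (b) `j = i + 1`, `k = i + 2`: hypothesis `0 < Im (e^{-iν k} phi i k z)` with `phi i k z = Phi (coef2 k z)`; to prove
 `0 < Im (e^{iν i} phi i j z)`.  If not, put `z' = refl (n i) z` (negative): by the flip rules `phi' = conj phi`, so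
 `Im (e^{-iν i} phi i j z') = - Im (e^{iν i} phi i j z) ≥ 0` and `Im (e^{iν k} phi i k z') = - Im (e^{-iν k} phi i k z) < 0`; `Hsl` for
 `c = coef1 i z'` gives `False`.
-/

namespace Pool.Agent.Work.MP_88b7aa_gt.CH

open ComplexConjugate Complex

/-- the action on negative vectors -/
def actN {G : Type*} [Group G] (ρ : G →* Matrix (Fin 3) (Fin 3) ℂ)
    (hinv : ∀ g z w, herm ((ρ g).mulVec z) ((ρ g).mulVec w) = herm z w) (g : G) (z : {z : Fin 3 → ℂ // Neg z}) :
    {z : Fin 3 → ℂ // Neg z} :=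
  ⟨(ρ g).mulVec z.1, by unfold Neg; rw [hinv]; exact z.2⟩

private theorem ppi_ang (p q r : ℕ) (hp : 3 ≤ p) (hq : 3 ≤ q) (hr : 3 ≤ r) (e : Fin 3) :
    0 < ang p q r e ∧ ang p q r e ≤ Real.pi / 6 := by
  have key : ∀ m : ℕ, 3 ≤ m → 0 < Real.pi / (2 * m) ∧ Real.pi / (2 * m) ≤ Real.pi / 6 := by
    intro m hm
    have hm' : (3 : ℝ) ≤ m := by exact_mod_cast hm
    have := Real.pi_pos
    constructor
    · positivity
    · exact div_le_div_of_nonneg_left this.le (by norm_num) (by linarith)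
  fin_cases e
  · exact key q hq
  · exact key p hp
  · exact key r hr

private theorem ppi_angM (p q r : ℕ) (h1 : p ≠ 1) (h2 : q ≠ 1) (h3 : r ≠ 1) (e : Fin 3) :
    ang p q r e = Real.pi / (2 * (mcox p q r h1 h2 h3) e (e + 1)) := by
  fin_cases e <;> rfl

private theorem ppi_angM2 (p q r : ℕ) (h1 : p ≠ 1) (h2 : q ≠ 1) (h3 : r ≠ 1) (e : Fin 3) :
    ang p q r e = Real.pi / (2 * (mcox p q r h1 h2 h3) (e + 1) e) := by
  fin_cases e <;> rfl

private theorem ppi_m3 (p q r : ℕ) (hp : 3 ≤ p) (hq : 3 ≤ q) (hr : 3 ≤ r) (h1 : p ≠ 1) (h2 : q ≠ 1) (h3 : r ≠ 1)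
    (i j : Fin 3) (hij : i ≠ j) : 3 ≤ (mcox p q r h1 h2 h3) i j := by
  fin_cases i <;> fin_cases j <;> first | exact absurd rfl hij | assumption

private theorem ppi_cases (i j : Fin 3) (hij : i ≠ j) : j = i + 1 ∨ i = j + 1 := by
  fin_cases i <;> fin_cases j <;> first | exact absurd rfl hij | (left; rfl) | (right; rfl)

private theorem ppi_cases3 (i j k : Fin 3) (hij : i ≠ j) (hik : i ≠ k) (hjk : j ≠ k) :
    (k = i + 1 ∧ j = i + 2) ∨ (j = i + 1 ∧ k = i + 2) := by
  fin_cases i <;> fin_cases j <;> fin_cases k <;>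
    first | exact absurd rfl hij | exact absurd rfl hik | exact absurd rfl hjk | (left; exact ⟨rfl, rfl⟩) |
      (right; exact ⟨rfl, rfl⟩)

private theorem ppi_ne (j : Fin 3) : j ≠ j + 1 + 1 := by
  fin_cases j <;> decide

private theorem ppi_phi_a (α ψ : Fin 3 → ℝ) (t : ℝ) (n : Fin 3 → Fin 3 → ℂ) (i : Fin 3) (z : Fin 3 → ℂ) :
    phi α ψ t n i (i + 1) z = Phi (coef1 α ψ t n i z) := by
  unfold phi
  rw [if_pos rfl]

private theorem ppi_phi_b (α ψ : Fin 3 → ℝ) (t : ℝ) (n : Fin 3 → Fin 3 → ℂ) (i : Fin 3) (z : Fin 3 → ℂ) :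
    phi α ψ t n (i + 1) i z = Phi (coef2 α ψ t n i z) := by
  unfold phi
  rw [if_neg (ppi_ne i)]

private theorem ppi_nuf_a (ν : Fin 3 → ℝ) (i : Fin 3) : nuf ν i (i + 1) = ν i := by
  unfold nuf
  rw [if_pos rfl]

private theorem ppi_nuf_b (ν : Fin 3 → ℝ) (i : Fin 3) : nuf ν (i + 1) i = ν i := by
  unfold nuf
  rw [if_neg (ppi_ne i)]

private theorem ppi_conj_exp (x : ℝ) : conj (exp ((x : ℝ) * I)) = exp ((-x : ℝ) * I) := by
  rw [← exp_conj, map_mul, conj_ofReal, conj_I, ofReal_neg, mul_neg, neg_mul]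

private theorem ppi_im (x : ℝ) (w : ℂ) :
    (exp ((x : ℝ) * I) * conj w).im = -(exp ((-x : ℝ) * I) * w).im := by
  have h : exp ((x : ℝ) * I) * conj w = conj (exp ((-x : ℝ) * I) * w) := by
    rw [map_mul, ppi_conj_exp, neg_neg]
  rw [h, conj_im]

private theorem ppi_swap {δ : ℝ} {a b : ℂ} (h : a = exp ((δ : ℝ) * I) * conj b) :
    b = exp ((δ : ℝ) * I) * conj a := by
  have h1 : exp ((δ : ℝ) * I) * exp ((-δ : ℝ) * I) = 1 := by
    rw [← Complex.exp_add, ofReal_neg, neg_mul, add_neg_cancel, Complex.exp_zero]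
  rw [h, map_mul, ppi_conj_exp, conj_conj, ← mul_assoc, h1, one_mul]

theorem PPI (p q r : ℕ) (hp : 3 ≤ p) (hq : 3 ≤ q) (hr : 3 ≤ r) (t : ℝ) (n : Fin 3 → Fin 3 → ℂ)
    (hn : NTri (ang p q r) t n) (hD : Dt n ≠ 0) (ψ ν : Fin 3 → ℝ) (hν : ∀ e, 0 < ν e ∧ ν e ≤ ang p q r e)
    (H τ x : Fin 3 → ℝ)
    (hY : ∀ i, Yv (ang p q r) t i =
      ((H i * (Real.sin (2 * ang p q r i) * Real.sin (2 * ang p q r (i + 2))) : ℝ) : ℂ) * exp ((τ i : ℝ) * I))
    (hE : ∀ i, EdgeGood (ν i) (ν (i + 2)) (t + (ψ i - ψ (i + 2)) / 2) (τ i - (ψ i - ψ (i + 2)) / 2)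
      ((ψ i + ψ (i + 2)) / 2) (H i) (x i))
    (ρ : (mcox p q r (by omega) (by omega) (by omega)).Group →* Matrix (Fin 3) (Fin 3) ℂ)
    (hρ : ∀ i, ρ ((mcox p q r (by omega) (by omega) (by omega)).simple i) = refl (n i))
    (hinv : ∀ g z w, herm ((ρ g).mulVec z) ((ρ g).mulVec w) = herm z w) :
    PPHyp (mcox p q r (by omega) (by omega) (by omega)).toCoxeterSystem (actN ρ hinv)
      (fun i j (z : {z : Fin 3 → ℂ // Neg z}) => phi (ang p q r) ψ t n i j z.1) (nuf ν) := by
  have hπ := Real.pi_pos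
  have hb := ppi_ang p q r hp hq hr
  have hs : ∀ e, 0 < Real.sin (2 * ang p q r e) := by
    intro e
    have := hb e
    exact Real.sin_pos_of_pos_of_lt_pi (by linarith) (by linarith)
  have hsimp : ∀ i, (mcox p q r (by omega) (by omega) (by omega)).toCoxeterSystem.simple i =
      (mcox p q r (by omega) (by omega) (by omega)).simple i := fun i => rfl
  have hact : ∀ i (z : {z : Fin 3 → ℂ // Neg z}),
      (actN ρ hinv ((mcox p q r (by omega) (by omega) (by omega)).toCoxeterSystem.simple i) z).1 =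
        (refl (n i)).mulVec z.1 := by
    intro i z
    show (ρ ((mcox p q r (by omega) (by omega) (by omega)).simple i)).mulVec z.1 = _
    rw [hρ]
  -- flips
  have f1 : ∀ i z, Phi (coef1 (ang p q r) ψ t n i ((refl (n i)).mulVec z)) =
      conj (Phi (coef1 (ang p q r) ψ t n i z)) := by
    intro i z
    rw [coef1_refl _ ψ t n hn hs hD, Phi_flip]
  have f2 : ∀ i z, Phi (coef2 (ang p q r) ψ t n i ((refl (n (i + 1))).mulVec z)) =
      conj (Phi (coef2 (ang p q r) ψ t n i z)) := by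
    intro i z
    rw [coef2_refl _ ψ t n hn hs hD, Phi_flip]
  -- the half space lemma
  have K : ∀ i z, Neg z → 0 ≤ (exp ((-ν i : ℝ) * I) * Phi (coef1 (ang p q r) ψ t n i z)).im →
      (exp ((ν (i + 2) : ℝ) * I) * Phi (coef2 (ang p q r) ψ t n (i + 2) z)).im ≤ 0 → False := by
    intro i z hz h1 h2
    have hH : 0 < H i := lt_trans one_pos (hE i).hH
    rw [FrE (ang p q r) ψ t n hn hs hD i (H i) (τ i) hH (hY i) z] at h2
    refine Hsl _ _ _ _ _ _ _ (hE i) (coef1 (ang p q r) ψ t n i z) ?_ _ ?_ h1 h2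
    · unfold Neg
      rw [coef1_norm _ ψ t n hn hs hD]
      exact hz
    · exact Complex.norm_exp_ofReal_mul_I _
  have hswap : ∀ i z, phi (ang p q r) ψ t n (i + 1) i z =
      exp ((2 * ang p q r i : ℝ) * I) * conj (phi (ang p q r) ψ t n i (i + 1) z) := by
    intro i z
    rw [ppi_phi_a, ppi_phi_b, coef2_eq _ ψ t n hs, Phi_swap]
  refine ⟨?_, ?_, ?_, ?_, ?_, ?_, ?_, ?_, ?_⟩
  · intro z
    apply Subtype.ext
    show (ρ 1).mulVec z.1 = z.1
    rw [map_one, Matrix.one_mulVec]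
  · intro g h z
    apply Subtype.ext
    show (ρ (g * h)).mulVec z.1 = (ρ g).mulVec ((ρ h).mulVec z.1)
    rw [map_mul, Matrix.mulVec_mulVec]
  · exact fun i j hij => ppi_m3 p q r hp hq hr _ _ _ i j hij
  · intro i j
    by_cases hij : i = j
    · rw [hij]
    · rcases ppi_cases i j hij with h | h
      · rw [h, ppi_nuf_a, ppi_nuf_b]
      · rw [h, ppi_nuf_a, ppi_nuf_b]
  · intro i j hij
    rcases ppi_cases i j hij with h | h
    · rw [h, ppi_nuf_a]
      exact (hν i).1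
    · rw [h, ppi_nuf_b]
      exact (hν j).1
  · intro i j hij
    rcases ppi_cases i j hij with h | h
    · rw [h, ppi_nuf_a, ← ppi_angM]
      exact (hν i).2
    · rw [h, ppi_nuf_b, ← ppi_angM2]
      exact (hν j).2
  · intro i j z hij
    simp only [hact]
    rcases ppi_cases i j hij with h | h
    · rw [h, ppi_phi_a, ppi_phi_a]
      exact f1 i z.1
    · rw [h, ppi_phi_b, ppi_phi_b]
      exact f2 j z.1
  · intro i j z hij
    rcases ppi_cases i j hij with h | h
    · have e : Real.pi / ((mcox p q r (by omega) (by omega) (by omega)) i (i + 1)) = 2 * ang p q r i := by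
        rw [ppi_angM p q r (by omega) (by omega) (by omega)]
        have : (((mcox p q r (by omega) (by omega) (by omega)) i (i + 1) : ℕ) : ℝ) ≠ 0 := by
          have := ppi_m3 p q r hp hq hr (by omega) (by omega) (by omega) i (i + 1) (by rw [← h]; exact hij)
          have h' : ((mcox p q r (by omega) (by omega) (by omega)) i (i + 1)) ≠ 0 := by omega
          exact_mod_cast h'
        field_simp
      show phi (ang p q r) ψ t n j i z.1 = _ * conj (phi (ang p q r) ψ t n i j z.1)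
      rw [h, e]
      exact hswap i z.1
    · have e : Real.pi / ((mcox p q r (by omega) (by omega) (by omega)) (j + 1) j) = 2 * ang p q r j := by
        rw [ppi_angM2 p q r (by omega) (by omega) (by omega)]
        have : (((mcox p q r (by omega) (by omega) (by omega)) (j + 1) j : ℕ) : ℝ) ≠ 0 := by
          have := ppi_m3 p q r hp hq hr (by omega) (by omega) (by omega) (j + 1) j (by rw [← h]; exact hij)
          have h' : ((mcox p q r (by omega) (by omega) (by omega)) (j + 1) j) ≠ 0 := by omega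
          exact_mod_cast h'
        field_simp
      show phi (ang p q r) ψ t n j i z.1 = _ * conj (phi (ang p q r) ψ t n i j z.1)
      rw [h, e]
      exact ppi_swap (hswap j z.1)
  · intro i j k z hij hik hjk h0
    have e21 : i + 2 + 1 = i := by fin_cases i <;> rfl
    have hph : ∀ z, phi (ang p q r) ψ t n i (i + 2) z = Phi (coef2 (ang p q r) ψ t n (i + 2) z) := by
      intro z
      have := ppi_phi_b (ang p q r) ψ t n (i + 2) z
      rwa [e21] at this
    have hnu : nuf ν i (i + 2) = ν (i + 2) := by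
      have := ppi_nuf_b ν (i + 2)
      rwa [e21] at this
    change 0 < (exp ((-nuf ν i k : ℝ) * I) * phi (ang p q r) ψ t n i k z.1).im at h0
    show 0 < (exp ((nuf ν i j : ℝ) * I) * phi (ang p q r) ψ t n i j z.1).im
    rcases ppi_cases3 i j k hij hik hjk with ⟨hk, hj⟩ | ⟨hj, hk⟩
    · rw [hk, ppi_nuf_a, ppi_phi_a] at h0
      rw [hj, hnu, hph]
      by_contra hcon
      exact K i z.1 z.2 h0.le (not_lt.mp hcon)
    · rw [hk, hnu, hph] at h0
      rw [hj, ppi_nuf_a, ppi_phi_a]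
      by_contra hcon
      have hcon' := not_lt.mp hcon
      refine K i ((refl (n i)).mulVec z.1) ?_ ?_ ?_
      · unfold Neg
        rw [refl_herm _ _ _ (hn.unit i)]
        exact z.2
      · rw [f1, ppi_im, neg_neg]
        linarith
      · have h3 := f2 (i + 2) z.1
        rw [e21] at h3
        rw [h3, ppi_im]
        linarith

end Pool.Agent.Work.MP_88b7aa_gt.CH
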