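import Pool.Agent.Work.MP_88b7aa_gt.CH.Sqm

/-!
# Elementary properties of the rotation function.  Size: S-M.

PROOF.
`neg_den`: `herm c c = |c0|² + |c1|² - |c2|²` is real; if negative then `c2 ≠ 0` and with `a = c0/c2`, `b = c1/c2`,
`|a|² + |b|² < 1`, so `Re (1 - a² - b²) ≥ 1 - |a|² - |b|² > 0`; `den c = c2 * sq (..)` is `≠ 0` because `sq u * sq u = u ≠ 0`.
`Phi_smul`: `a, b` are unchanged, `den (l c) = l den c`.
`Phi_flip`: `c' = (c0, -c1, -c2)`: `a' = -a`, `b' = b`, `den c' = - den c`; so `c'1 / den c' = c1 / den c`,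
`c'0 / den c' = - c0 / den c`.
`Phi_swap`: with `C = cos δ`, `S = sin δ`: `a' = S b - C a`, `b' = S a + C b`, `a'² + b'² = a² + b²`, the same `den`; real parts
are linear over `ℝ`; with `Phi c = q + i p`: `Phi c' = (S p + C q) + i (S q - C p) = (C + i S)(q - i p)`.
`Phi_cont`: `c ↦ c i` is continuous, `c2 ≠ 0`, `sq_cont`, `den c ≠ 0`; the map `c ↦ ⟨re, re⟩` is continuous
(write it as `((·).re : ℂ) + ((·).re : ℂ) * I` or use `Complex.continuous_ofReal`, `Complex.equivRealProdCLM`).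
-/

namespace Pool.Agent.Work.MP_88b7aa_gt.CH

open ComplexConjugate Complex

theorem neg_den (c : Fin 3 → ℂ) (hc : Neg c) :
    c 2 ≠ 0 ∧ 0 < (1 - (c 0 / c 2) ^ 2 - (c 1 / c 2) ^ 2).re ∧ den c ≠ 0 := by
  have h1 : normSq (c 0) + normSq (c 1) - normSq (c 2) < 0 := by
    have h := hc
    unfold Neg herm at h
    rw [Complex.mul_conj, Complex.mul_conj, Complex.mul_conj, Complex.sub_re, Complex.add_re, Complex.ofReal_re,
      Complex.ofReal_re, Complex.ofReal_re] at h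
    exact h
  have h0 : 0 ≤ normSq (c 0) := Complex.normSq_nonneg _
  have h0' : 0 ≤ normSq (c 1) := Complex.normSq_nonneg _
  have h2pos : 0 < normSq (c 2) := by linarith
  have h2 : c 2 ≠ 0 := Complex.normSq_pos.mp h2pos
  have hre : ∀ a : ℂ, (a ^ 2).re ≤ normSq a := by
    intro a
    have e : (a ^ 2).re = a.re * a.re - a.im * a.im := by rw [_root_.pow_two, Complex.mul_re]
    rw [e, Complex.normSq_apply]
    nlinarith [mul_self_nonneg a.im]
  have hsum : normSq (c 0 / c 2) + normSq (c 1 / c 2) < 1 := by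
    rw [map_div₀, map_div₀, ← add_div, div_lt_one h2pos]
    linarith
  have hpos : 0 < (1 - (c 0 / c 2) ^ 2 - (c 1 / c 2) ^ 2).re := by
    rw [Complex.sub_re, Complex.sub_re, Complex.one_re]
    have ha := hre (c 0 / c 2)
    have hb := hre (c 1 / c 2)
    linarith
  refine ⟨h2, hpos, ?_⟩
  unfold den
  refine mul_ne_zero h2 ?_
  intro h
  have h3 := sq_re_pos _ hpos
  rw [h] at h3
  simp at h3

theorem Phi_smul (l : ℂ) (hl : l ≠ 0) (c : Fin 3 → ℂ) : Phi (l • c) = Phi c := by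
  have hden : den (l • c) = l * den c := by
    unfold den
    simp only [Pi.smul_apply, smul_eq_mul]
    rw [mul_div_mul_left _ _ hl, mul_div_mul_left _ _ hl]
    ring
  unfold Phi
  rw [hden]
  simp only [Pi.smul_apply, smul_eq_mul]
  rw [mul_div_mul_left _ _ hl, mul_div_mul_left _ _ hl]

theorem Phi_flip (c : Fin 3 → ℂ) : Phi ![c 0, -c 1, -c 2] = conj (Phi c) := by
  have hden : den ![c 0, -c 1, -c 2] = -den c := by
    unfold den
    have e0 : (![c 0, -c 1, -c 2] : Fin 3 → ℂ) 0 = c 0 := rfl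
    have e1 : (![c 0, -c 1, -c 2] : Fin 3 → ℂ) 1 = -c 1 := rfl
    have e2 : (![c 0, -c 1, -c 2] : Fin 3 → ℂ) 2 = -c 2 := rfl
    rw [e0, e1, e2, neg_div_neg_eq, div_neg, neg_pow_two]
    ring
  unfold Phi
  rw [hden]
  have e0 : (![c 0, -c 1, -c 2] : Fin 3 → ℂ) 0 = c 0 := rfl
  have e1 : (![c 0, -c 1, -c 2] : Fin 3 → ℂ) 1 = -c 1 := rfl
  rw [e0, e1, neg_div_neg_eq, div_neg]
  apply Complex.ext
  · rw [Complex.conj_re]
  · rw [Complex.conj_im, Complex.neg_re]

theorem Phi_swap (δ : ℝ) (c : Fin 3 → ℂ) :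
    Phi ![(Real.sin δ : ℂ) * c 1 - (Real.cos δ : ℂ) * c 0, (Real.sin δ : ℂ) * c 0 + (Real.cos δ : ℂ) * c 1, c 2] =
      exp ((δ : ℝ) * I) * conj (Phi c) := by
  have hsc : (Real.sin δ : ℂ) ^ 2 + (Real.cos δ : ℂ) ^ 2 = 1 := by
    have h := Real.sin_sq_add_cos_sq δ
    have h' : ((Real.sin δ ^ 2 + Real.cos δ ^ 2 : ℝ) : ℂ) = ((1 : ℝ) : ℂ) := by rw [h]
    push_cast at h'
    push_cast
    exact h'
  set S : ℂ := (Real.sin δ : ℂ) with hS
  set C : ℂ := (Real.cos δ : ℂ) with hC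
  have e0 : (![S * c 1 - C * c 0, S * c 0 + C * c 1, c 2] : Fin 3 → ℂ) 0 = S * c 1 - C * c 0 := rfl
  have e1 : (![S * c 1 - C * c 0, S * c 0 + C * c 1, c 2] : Fin 3 → ℂ) 1 = S * c 0 + C * c 1 := rfl
  have e2 : (![S * c 1 - C * c 0, S * c 0 + C * c 1, c 2] : Fin 3 → ℂ) 2 = c 2 := rfl
  have hden : den ![S * c 1 - C * c 0, S * c 0 + C * c 1, c 2] = den c := by
    unfold den
    rw [e0, e1, e2]
    have h : 1 - ((S * c 1 - C * c 0) / c 2) ^ 2 - ((S * c 0 + C * c 1) / c 2) ^ 2 =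
        1 - (c 0 / c 2) ^ 2 - (c 1 / c 2) ^ 2 := by
      have h' : ((S * c 1 - C * c 0) / c 2) ^ 2 + ((S * c 0 + C * c 1) / c 2) ^ 2 =
          (S ^ 2 + C ^ 2) * ((c 0 / c 2) ^ 2 + (c 1 / c 2) ^ 2) := by
        rw [div_eq_mul_inv, div_eq_mul_inv, div_eq_mul_inv, div_eq_mul_inv]
        ring
      rw [hsc, one_mul] at h'
      rw [sub_sub, h', ← sub_sub]
    rw [h]
  have hp : ((S * c 1 - C * c 0) / den c).re = Real.sin δ * (c 1 / den c).re - Real.cos δ * (c 0 / den c).re := by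
    rw [sub_div, Complex.sub_re, mul_div_assoc, mul_div_assoc, hS, hC, Complex.re_ofReal_mul, Complex.re_ofReal_mul]
  have hq : ((S * c 0 + C * c 1) / den c).re = Real.sin δ * (c 0 / den c).re + Real.cos δ * (c 1 / den c).re := by
    rw [add_div, Complex.add_re, mul_div_assoc, mul_div_assoc, hS, hC, Complex.re_ofReal_mul, Complex.re_ofReal_mul]
  unfold Phi
  rw [hden, e0, e1, hp, hq]
  have hre : (exp ((δ : ℝ) * I)).re = Real.cos δ := Complex.exp_ofReal_mul_I_re δ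
  have him : (exp ((δ : ℝ) * I)).im = Real.sin δ := Complex.exp_ofReal_mul_I_im δ
  apply Complex.ext
  · rw [Complex.mul_re, hre, him, Complex.conj_re, Complex.conj_im]
    ring
  · rw [Complex.mul_im, hre, him, Complex.conj_re, Complex.conj_im]
    ring

theorem Phi_cont (c : Fin 3 → ℂ) (hc : Neg c) : ContinuousAt Phi c := by
  obtain ⟨h2, hpos, hd⟩ := neg_den c hc
  have c0 : ContinuousAt (fun c : Fin 3 → ℂ => c 0) c := (continuous_apply 0).continuousAt
  have c1 : ContinuousAt (fun c : Fin 3 → ℂ => c 1) c := (continuous_apply 1).continuousAt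
  have c2 : ContinuousAt (fun c : Fin 3 → ℂ => c 2) c := (continuous_apply 2).continuousAt
  have ha : ContinuousAt (fun c : Fin 3 → ℂ => c 0 / c 2) c := c0.div c2 h2
  have hb : ContinuousAt (fun c : Fin 3 → ℂ => c 1 / c 2) c := c1.div c2 h2
  have hu : ContinuousAt (fun c : Fin 3 → ℂ => 1 - (c 0 / c 2) ^ 2 - (c 1 / c 2) ^ 2) c :=
    (continuousAt_const.sub (ha.pow 2)).sub (hb.pow 2)
  have hs : ContinuousAt (fun c : Fin 3 → ℂ => sq (1 - (c 0 / c 2) ^ 2 - (c 1 / c 2) ^ 2)) c :=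
    ContinuousAt.comp (g := sq) (f := fun c : Fin 3 → ℂ => 1 - (c 0 / c 2) ^ 2 - (c 1 / c 2) ^ 2) (sq_cont _ hpos) hu
  have hden : ContinuousAt den c := c2.mul hs
  have hq : ContinuousAt (fun c : Fin 3 → ℂ => (c 1 / den c).re) c :=
    Complex.continuous_re.continuousAt.comp (c1.div hden hd)
  have hp : ContinuousAt (fun c : Fin 3 → ℂ => (c 0 / den c).re) c :=
    Complex.continuous_re.continuousAt.comp (c0.div hden hd)
  have hq' : ContinuousAt (fun c : Fin 3 → ℂ => (((c 1 / den c).re : ℝ) : ℂ)) c :=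
    Complex.continuous_ofReal.continuousAt.comp hq
  have hp' : ContinuousAt (fun c : Fin 3 → ℂ => (((c 0 / den c).re : ℝ) : ℂ)) c :=
    Complex.continuous_ofReal.continuousAt.comp hp
  have hall : ContinuousAt
      (fun c : Fin 3 → ℂ => (((c 1 / den c).re : ℝ) : ℂ) + (((c 0 / den c).re : ℝ) : ℂ) * I) c :=
    hq'.add (hp'.mul continuousAt_const)
  have he : Phi = fun c : Fin 3 → ℂ => (((c 1 / den c).re : ℝ) : ℂ) + (((c 0 / den c).re : ℝ) : ℂ) * I := by
    funext c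
    unfold Phi
    apply Complex.ext
    · simp
    · simp
  rw [he]
  exact hall

end Pool.Agent.Work.MP_88b7aa_gt.CH
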