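import Pool.Agent.Work.MP_88b7aa_gt.CH.Obj

/-!
# The positive expansion.  Size: S-M.

`gmat x0 xp xm` is the matrix of `J + 2 X Xᵀ` in the adapted basis.

PROOF.  All 81 terms are `≥ 0`.  Drop all but the following ones (`N i j = Np i j * Nm i j > 0`):
 * `i=j=0, k=l=0`: `(1+2x0²)(1+2ξ²) N 0 0 ≥ N 0 0`.
 * `i=j=1, k=l=1` and `i=j=2, k=l=2`: `(xp²/2)(yp²/2) N 1 1 + (xm²/2)(ym²/2) N 2 2 ≥ ½ (xp xm)(yp ym) √(N 1 1 N 2 2) ≥ ½ √(..)`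
   (`u + w ≥ 2 √(u w)`, `xp xm = 1 + x0² ≥ 1`, `yp ym ≥ 1`).
 * `i=j=1, k=l=2` and `i=j=2, k=l=1`: in the same way `≥ ½ √(N 1 2 N 2 1)`.
 * `i=j=0, k=l=1` and `i=j=0, k=l=2`: `(1+2x0²) (yp²/2 N 0 1 + ym²/2 N 0 2) ≥ yp ym √(N 0 1 N 0 2)`.
 * `k=l=0, i=j=1` and `k=l=0, i=j=2`: `≥ √(N 1 0 N 2 0)`.
-/

namespace Pool.Agent.Work.MP_88b7aa_gt.CH

/-- matrix of `J + 2 X Xᵀ` in the adapted basis -/
noncomputable def gmat (x0 xp xm : ℝ) : Fin 3 → Fin 3 → ℝ :=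
  ![![1 + 2 * x0 ^ 2, x0 * xp, x0 * xm], ![x0 * xp, xp ^ 2 / 2, x0 ^ 2 / 2], ![x0 * xm, x0 ^ 2 / 2, xm ^ 2 / 2]]

private lemma amg (A B c d e : ℝ) (hA : 0 ≤ A) (hB : 0 ≤ B) (hc : 0 ≤ c) (hd : 0 ≤ d) (he : 0 ≤ e)
    (h : e ^ 2 ≤ c * d) : 2 * e * Real.sqrt (A * B) ≤ c * A + d * B := by
  have hs : Real.sqrt (A * B) ^ 2 = A * B := Real.sq_sqrt (mul_nonneg hA hB)
  have h1 : (2 * e * Real.sqrt (A * B)) ^ 2 ≤ (c * A + d * B) ^ 2 := by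
    have h2 : (2 * e * Real.sqrt (A * B)) ^ 2 = 4 * (e ^ 2 * (A * B)) := by
      rw [mul_pow, mul_pow, hs]; ring
    have h3 := mul_le_mul_of_nonneg_right h (mul_nonneg hA hB)
    nlinarith [sq_nonneg (c * A - d * B)]
  exact (pow_le_pow_iff_left₀ (by positivity) (by positivity) two_ne_zero).mp h1

private lemma gnn (x0 xp xm : ℝ) (h0 : 0 ≤ x0) (h2 : 0 < xp) (h3 : 0 < xm) (i j : Fin 3) :
    0 ≤ gmat x0 xp xm i j := by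
  fin_cases i <;> fin_cases j <;> simp [gmat] <;> positivity

private lemma dsum (f : Fin 3 → Fin 3 → Fin 3 → Fin 3 → ℝ) (hf : ∀ i j k l, 0 ≤ f i j k l) :
    ∑ i, ∑ k, f i i k k ≤ ∑ i, ∑ j, ∑ k, ∑ l, f i j k l := by
  refine Finset.sum_le_sum fun i _ => ?_
  have h1 : ∑ k, ∑ l, f i i k l ≤ ∑ j, ∑ k, ∑ l, f i j k l :=
    Finset.single_le_sum (f := fun j => ∑ k, ∑ l, f i j k l)
      (fun j _ => Finset.sum_nonneg fun k _ => Finset.sum_nonneg fun l _ => hf i j k l) (Finset.mem_univ i)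
  refine le_trans (Finset.sum_le_sum fun k _ => ?_) h1
  exact Finset.single_le_sum (f := fun l => f i i k l) (fun l _ => hf i i k l) (Finset.mem_univ k)

theorem PosX (Np Nm : Fin 3 → Fin 3 → ℝ) (hp : ∀ i j, 0 < Np i j) (hm : ∀ i j, 0 < Nm i j)
    (x0 ξ xp xm yp ym : ℝ) (h0 : 0 ≤ x0) (h1 : 0 ≤ ξ) (h2 : 0 < xp) (h3 : 0 < xm) (h4 : 0 < yp) (h5 : 0 < ym)
    (hx : xp * xm = 1 + x0 ^ 2) (hy : yp * ym = 1 + ξ ^ 2) :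
    Np 0 0 * Nm 0 0 +
      (Real.sqrt (Np 1 1 * Nm 1 1 * (Np 2 2 * Nm 2 2)) + Real.sqrt (Np 1 2 * Nm 1 2 * (Np 2 1 * Nm 2 1))) / 2 +
      Real.sqrt (Np 0 1 * Nm 0 1 * (Np 0 2 * Nm 0 2)) + Real.sqrt (Np 1 0 * Nm 1 0 * (Np 2 0 * Nm 2 0)) ≤
    ∑ i, ∑ j, ∑ k, ∑ l, gmat x0 xp xm i j * gmat ξ yp ym k l * (Np i k * Nm j l) := by
  refine le_trans ?_ (dsum _ fun i j k l => mul_nonneg
    (mul_nonneg (gnn x0 xp xm h0 h2 h3 i j) (gnn ξ yp ym h1 h4 h5 k l))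
    (mul_nonneg (hp i k).le (hm j l).le))
  have hN : ∀ i j, 0 ≤ Np i j * Nm i j := fun i j => (mul_pos (hp i j) (hm i j)).le
  have hx1 : 1 ≤ xp * xm := by rw [hx]; nlinarith [sq_nonneg x0]
  have hy1 : 1 ≤ yp * ym := by rw [hy]; nlinarith [sq_nonneg ξ]
  have hxy : 1 ≤ (xp * xm) * (yp * ym) := one_le_mul_of_one_le_of_one_le hx1 hy1
  have hxy2 : 1 ≤ ((xp * xm) * (yp * ym)) ^ 2 := one_le_pow₀ hxy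
  have e1 := amg (Np 1 1 * Nm 1 1) (Np 2 2 * Nm 2 2) (xp ^ 2 / 2 * (yp ^ 2 / 2)) (xm ^ 2 / 2 * (ym ^ 2 / 2)) (1 / 4)
    (hN 1 1) (hN 2 2) (by positivity) (by positivity) (by norm_num) (by nlinarith)
  have e2 := amg (Np 1 2 * Nm 1 2) (Np 2 1 * Nm 2 1) (xp ^ 2 / 2 * (ym ^ 2 / 2)) (xm ^ 2 / 2 * (yp ^ 2 / 2)) (1 / 4)
    (hN 1 2) (hN 2 1) (by positivity) (by positivity) (by norm_num) (by nlinarith)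
  have hX : 1 ≤ 1 + 2 * x0 ^ 2 := by nlinarith [sq_nonneg x0]
  have hY : 1 ≤ 1 + 2 * ξ ^ 2 := by nlinarith [sq_nonneg ξ]
  have hX2 : 1 ≤ ((1 + 2 * x0 ^ 2) * (yp * ym)) ^ 2 :=
    one_le_pow₀ (one_le_mul_of_one_le_of_one_le hX hy1)
  have hY2 : 1 ≤ ((1 + 2 * ξ ^ 2) * (xp * xm)) ^ 2 :=
    one_le_pow₀ (one_le_mul_of_one_le_of_one_le hY hx1)
  have e3 := amg (Np 0 1 * Nm 0 1) (Np 0 2 * Nm 0 2) ((1 + 2 * x0 ^ 2) * (yp ^ 2 / 2))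
    ((1 + 2 * x0 ^ 2) * (ym ^ 2 / 2)) (1 / 2)
    (hN 0 1) (hN 0 2) (by positivity) (by positivity) (by norm_num) (by nlinarith)
  have e4 := amg (Np 1 0 * Nm 1 0) (Np 2 0 * Nm 2 0) (xp ^ 2 / 2 * (1 + 2 * ξ ^ 2))
    (xm ^ 2 / 2 * (1 + 2 * ξ ^ 2)) (1 / 2)
    (hN 1 0) (hN 2 0) (by positivity) (by positivity) (by norm_num) (by nlinarith)
  have e0 : Np 0 0 * Nm 0 0 ≤ (1 + 2 * x0 ^ 2) * (1 + 2 * ξ ^ 2) * (Np 0 0 * Nm 0 0) :=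
    le_mul_of_one_le_left (hN 0 0) (one_le_mul_of_one_le_of_one_le hX hY)
  have key : ∑ i, ∑ k, gmat x0 xp xm i i * gmat ξ yp ym k k * (Np i k * Nm i k) =
      (1 + 2 * x0 ^ 2) * (1 + 2 * ξ ^ 2) * (Np 0 0 * Nm 0 0) +
      ((xp ^ 2 / 2 * (yp ^ 2 / 2)) * (Np 1 1 * Nm 1 1) + (xm ^ 2 / 2 * (ym ^ 2 / 2)) * (Np 2 2 * Nm 2 2)) +
      ((xp ^ 2 / 2 * (ym ^ 2 / 2)) * (Np 1 2 * Nm 1 2) + (xm ^ 2 / 2 * (yp ^ 2 / 2)) * (Np 2 1 * Nm 2 1)) +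
      (((1 + 2 * x0 ^ 2) * (yp ^ 2 / 2)) * (Np 0 1 * Nm 0 1) +
        ((1 + 2 * x0 ^ 2) * (ym ^ 2 / 2)) * (Np 0 2 * Nm 0 2)) +
      ((xp ^ 2 / 2 * (1 + 2 * ξ ^ 2)) * (Np 1 0 * Nm 1 0) +
        (xm ^ 2 / 2 * (1 + 2 * ξ ^ 2)) * (Np 2 0 * Nm 2 0)) := by
    simp only [Fin.sum_univ_three]
    simp [gmat]
    ring
  rw [key]
  linarith

end Pool.Agent.Work.MP_88b7aa_gt.CH
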