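import Pool.Agent.Work.MP_88b7aa_gt.CH.PhiM

/-!
# The real point attached to a negative vector.  Size: S-M.

PROOF.  Let `s = sq (1 - a² - b²)`, `a = c0/c2`, `b = c1/c2`, `den c = c2 s` (`neg_den`), and `w = c / den c`, so
`w = (a/s, b/s, 1/s)` and `w0² + w1² - w2² = (a² + b² - 1)/s² = -1`.  Write `w = x + i y` (real and imaginary parts).
Then `⟨x,x⟩ - ⟨y,y⟩ = -1`, `⟨x,y⟩ = 0` for the real form `⟨x,y⟩ = x0 y0 + x1 y1 - x2 y2`, and `herm w w = ⟨x,x⟩ + ⟨y,y⟩ < 0`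
(`herm w w = herm c c / |den c|²`).  So `⟨x,x⟩ < -1/2 < 0`.  Put `r = √(-⟨x,x⟩) > 0`, `X = x / r`.  `x2 = Re (1/s) > 0` as
`Re s > 0` (`sq_re_pos`).  `Phi c = ⟨Re w1, Re w0⟩ = ⟨r X1, r X0⟩`.
With `μ = den c / conj (den c)` (`‖μ‖ = 1`): `Gm X (J w) = J J w + 2 X ⟨X, w⟩ = w + 2 X ⟨X, x + i y⟩ = w + 2 X (-r) = w - 2 x = - conj w`
(`⟨X,x⟩ = ⟨x,x⟩/r = -r`, `⟨X,y⟩ = 0`); multiply by `den c`: `Gm X (J c) = - den c * conj w = - μ conj c`.
(It is shorter to use the unnormalised identity: `⟨x, w⟩ = -r²`.)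
-/

namespace Pool.Agent.Work.MP_88b7aa_gt.CH

open ComplexConjugate Complex

private theorem Rpl_mulVec (X : Fin 3 → ℝ) (c : Fin 3 → ℂ) (i : Fin 3) :
    (Gm X).mulVec (Jm.mulVec c) i =
      c i + 2 * (X i : ℂ) * ((X 0 : ℂ) * c 0 + (X 1 : ℂ) * c 1 - (X 2 : ℂ) * c 2) := by
  fin_cases i <;>
    simp [Gm, Jm, Matrix.mulVec, dotProduct, Fin.sum_univ_three, Matrix.diagonal, Matrix.add_apply] <;> ring

theorem Rpl (c : Fin 3 → ℂ) (hc : Neg c) :
    ∃ (X : Fin 3 → ℝ) (r : ℝ) (μ : ℂ), 0 < r ∧ 0 < X 2 ∧ X 0 ^ 2 + X 1 ^ 2 - X 2 ^ 2 = -1 ∧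
      Phi c = ⟨r * X 1, r * X 0⟩ ∧ ‖μ‖ = 1 ∧ (Gm X).mulVec (Jm.mulVec c) = (-μ) • cj c := by
  obtain ⟨h2, hre, hD⟩ := neg_den c hc
  set s : ℂ := sq (1 - (c 0 / c 2) ^ 2 - (c 1 / c 2) ^ 2) with hs
  have hspos : 0 < s.re := sq_re_pos _ hre
  have hss : s * s = 1 - (c 0 / c 2) ^ 2 - (c 1 / c 2) ^ 2 := sq_mul_self _
  set D : ℂ := den c with hDdef
  have hDs : D = c 2 * s := rfl
  have hs0 : s ≠ 0 := by
    intro h
    rw [h] at hspos
    simp at hspos
  -- normalised vector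
  set w : Fin 3 → ℂ := fun i => c i / D with hw
  have hwc : ∀ i, c i = D * w i := by
    intro i
    rw [hw]
    field_simp
  have hQ : w 0 ^ 2 + w 1 ^ 2 - w 2 ^ 2 = -1 := by
    have hD2 : D ^ 2 = c 2 ^ 2 - c 0 ^ 2 - c 1 ^ 2 := by
      rw [hDs]
      have : (c 2 * s) ^ 2 = c 2 ^ 2 * (s * s) := by ring
      rw [this, hss]
      field_simp
    have h3 : D ^ 2 * (w 0 ^ 2 + w 1 ^ 2 - w 2 ^ 2) = c 0 ^ 2 + c 1 ^ 2 - c 2 ^ 2 := by
      rw [hwc 0, hwc 1, hwc 2]; ring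
    have h4 : D ^ 2 * (w 0 ^ 2 + w 1 ^ 2 - w 2 ^ 2) = D ^ 2 * (-1) := by
      rw [h3, hD2]; ring
    exact mul_left_cancel₀ (pow_ne_zero 2 hD) h4
  have hw2 : w 2 = s⁻¹ := by
    rw [hw]
    simp only
    rw [hDs]
    field_simp
  have hx2 : 0 < (w 2).re := by
    rw [hw2, Complex.inv_re]
    exact div_pos hspos (Complex.normSq_pos.mpr hs0)
  -- real and imaginary parts
  have hre' := congrArg Complex.re hQ
  have him' := congrArg Complex.im hQ
  have e1 : (w 0).re ^ 2 - (w 0).im ^ 2 + ((w 1).re ^ 2 - (w 1).im ^ 2) -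
      ((w 2).re ^ 2 - (w 2).im ^ 2) = -1 := by
    simp [pow_two, Complex.mul_re] at hre'
    linarith
  have e2 : (w 0).re * (w 0).im + (w 1).re * (w 1).im - (w 2).re * (w 2).im = 0 := by
    simp [pow_two, Complex.mul_im] at him'
    linarith
  have e3 : (w 0).re ^ 2 + (w 0).im ^ 2 + ((w 1).re ^ 2 + (w 1).im ^ 2) -
      ((w 2).re ^ 2 + (w 2).im ^ 2) < 0 := by
    have hn : (herm c c).re = Complex.normSq D *
        ((w 0).re ^ 2 + (w 0).im ^ 2 + ((w 1).re ^ 2 + (w 1).im ^ 2) -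
          ((w 2).re ^ 2 + (w 2).im ^ 2)) := by
      unfold herm
      rw [Complex.mul_conj, Complex.mul_conj, Complex.mul_conj]
      rw [hwc 0, hwc 1, hwc 2, Complex.normSq_mul, Complex.normSq_mul, Complex.normSq_mul]
      simp only [Complex.sub_re, Complex.add_re, Complex.ofReal_re, Complex.normSq_apply]
      ring
    have hneg : (herm c c).re < 0 := hc
    rw [hn] at hneg
    have hp : 0 < Complex.normSq D := Complex.normSq_pos.mpr hD
    by_contra hcon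
    have := mul_nonneg hp.le (not_lt.mp hcon)
    linarith
  set q : ℝ := -((w 0).re ^ 2 + (w 1).re ^ 2 - (w 2).re ^ 2) with hq
  have hqpos : 0 < q := by rw [hq]; linarith
  set r : ℝ := Real.sqrt q with hr
  have hrpos : 0 < r := Real.sqrt_pos.mpr hqpos
  have hrr : r * r = q := Real.mul_self_sqrt hqpos.le
  refine ⟨fun i => (w i).re / r, r, D / conj D, hrpos, div_pos hx2 hrpos, ?_, ?_, ?_, ?_⟩
  · have : ((w 0).re / r) ^ 2 + ((w 1).re / r) ^ 2 - ((w 2).re / r) ^ 2 =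
        ((w 0).re ^ 2 + (w 1).re ^ 2 - (w 2).re ^ 2) / (r * r) := by
      field_simp
    rw [this, hrr, div_eq_iff hqpos.ne']
    rw [hq]; ring
  · unfold Phi
    apply Complex.ext
    · show (c 1 / den c).re = r * ((w 1).re / r)
      rw [mul_div_cancel₀ _ hrpos.ne']
    · show (c 0 / den c).re = r * ((w 0).re / r)
      rw [mul_div_cancel₀ _ hrpos.ne']
  · rw [norm_div, Complex.norm_conj, div_self (norm_ne_zero_iff.mpr hD)]
  · have hrc : (r : ℂ) ≠ 0 := by exact_mod_cast hrpos.ne'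
    have hconjD : conj D ≠ 0 := by
      intro h
      exact hD ((map_eq_zero _).mp h)
    have key : ((w 0).re : ℂ) * w 0 + ((w 1).re : ℂ) * w 1 - ((w 2).re : ℂ) * w 2 = -((r : ℂ) * r) := by
      have hrr' : ((r : ℂ) * r) = ((q : ℝ) : ℂ) := by exact_mod_cast hrr
      rw [hrr']
      apply Complex.ext
      · simp [Complex.mul_re]
        rw [hq]; ring
      · simp [Complex.mul_im]
        linarith
    funext i
    rw [Rpl_mulVec]
    have h5 : ((((w 0).re / r : ℝ) : ℂ) * c 0 + (((w 1).re / r : ℝ) : ℂ) * c 1 -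
        (((w 2).re / r : ℝ) : ℂ) * c 2) = -(r * D) := by
      rw [hwc 0, hwc 1, hwc 2]
      push_cast
      have : ((w 0).re : ℂ) / r * (D * w 0) + ((w 1).re : ℂ) / r * (D * w 1) -
          ((w 2).re : ℂ) / r * (D * w 2) =
          (((w 0).re : ℂ) * w 0 + ((w 1).re : ℂ) * w 1 - ((w 2).re : ℂ) * w 2) * D / r := by
        field_simp
      rw [this, key]
      field_simp
    have h6 : c i + 2 * (((w i).re / r : ℝ) : ℂ) * (-(r * D)) = -(D * conj (w i)) := by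
      rw [hwc i]
      push_cast
      have h7 : (2 : ℂ) * (((w i).re : ℂ) / r) * (-(r * D)) = -(2 * ((w i).re : ℂ) * D) := by
        field_simp
      rw [h7]
      have h8 : w i - 2 * ((w i).re : ℂ) = -conj (w i) := by
        apply Complex.ext
        · simp; ring
        · simp
      linear_combination D * h8
    have h9 : (-(D / conj D)) * conj (c i) = -(D * conj (w i)) := by
      rw [hwc i, map_mul]
      field_simp
    show c i + 2 * (((w i).re / r : ℝ) : ℂ) * ((((w 0).re / r : ℝ) : ℂ) * c 0 +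
      (((w 1).re / r : ℝ) : ℂ) * c 1 - (((w 2).re / r : ℝ) : ℂ) * c 2) = (-(D / conj D)) * conj (c i)
    rw [h5, h6, h9]

end Pool.Agent.Work.MP_88b7aa_gt.CH
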