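import Pool.Agent.Work.MP_88b7aa_gt.CH.Obj

/-!
# The square root with positive real part.  Size: S.

PROOF.  `sq u = u ^ (1/2 : ℂ)`.  `sq_mul_self`: `Complex.cpow_nat_inv_pow` (`(x ^ ((n:ℂ)⁻¹)) ^ n = x`, `n = 2`).
`sq_re_pos`: `u = ‖u‖ e^{i a}` with `|a| < π/2` (`Complex.abs_arg_lt_pi_div_two_iff`), so `sq u = ‖u‖^{1/2} e^{i a/2}`
and `cos (a/2) > 0`.  (Or: `arg (sq u) = arg u / 2`; or: `Re (sq u) ≥ 0` because `|a/2| ≤ π/2`, and `Re (sq u) = 0` would
give `u = (sq u)^2 = - (Im)^2`, real part `≤ 0`.)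
`sq_uniq`: `(sq u - v) (sq u + v) = 0` and `sq u + v ≠ 0` as its real part is positive (`u = v²`; if `Re u > 0` use
`sq_re_pos`; here the hypothesis `0 < u.re` is included).
`sq_cont`: `continuousAt_cpow_const` (`u ∈ slitPlane`).
-/

namespace Pool.Agent.Work.MP_88b7aa_gt.CH

open ComplexConjugate Complex

theorem sq_mul_self (u : ℂ) : sq u * sq u = u := by
  unfold sq
  have h := Complex.cpow_nat_inv_pow u (n := 2) two_ne_zero
  rw [← _root_.pow_two]
  exact_mod_cast h

theorem sq_re_pos (u : ℂ) (hu : 0 < u.re) : 0 < (sq u).re := by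
  have hu0 : u ≠ 0 := by
    intro h
    rw [h] at hu
    simp at hu
  unfold sq
  rw [Complex.cpow_def_of_ne_zero hu0, Complex.exp_re]
  refine mul_pos (Real.exp_pos _) ?_
  have him : (log u * (2 : ℂ)⁻¹).im = arg u / 2 := by
    have e : log u * (2 : ℂ)⁻¹ = log u / ((2 : ℝ) : ℂ) := by
      rw [div_eq_mul_inv]
      norm_num
    rw [e, Complex.div_ofReal_im, Complex.log_im]
  rw [him]
  refine Real.cos_pos_of_mem_Ioo ⟨?_, ?_⟩
  · have := Complex.neg_pi_lt_arg u
    linarith
  · have h2 : |arg u| < Real.pi / 2 := by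
      rw [Complex.abs_arg_lt_pi_div_two_iff]
      exact Or.inl hu
    have := (abs_lt.mp h2).2
    have := Real.pi_pos
    linarith

theorem sq_uniq (u v : ℂ) (hu : 0 < u.re) (hv : 0 < v.re) (h : v * v = u) : sq u = v := by
  have h1 := sq_mul_self u
  have h2 : (sq u - v) * (sq u + v) = 0 := by
    have : (sq u - v) * (sq u + v) = sq u * sq u - v * v := by ring
    rw [this, h1, h, sub_self]
  rcases mul_eq_zero.mp h2 with h3 | h3
  · exact sub_eq_zero.mp h3
  · exfalso
    have h4 : (sq u + v).re = 0 := by rw [h3]; simp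
    have h5 := sq_re_pos u hu
    rw [Complex.add_re] at h4
    linarith

theorem sq_cont (u : ℂ) (hu : 0 < u.re) : ContinuousAt sq u := by
  have h : u ∈ slitPlane := by
    rw [Complex.mem_slitPlane_iff]
    exact Or.inl hu
  exact continuousAt_cpow_const h

end Pool.Agent.Work.MP_88b7aa_gt.CH
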